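import Pool.Agent.BK5.StmtsG

/-!
MP_70b73c_co: separation of a polygon and an inner point.
-/

set_option autoImplicit false

namespace Pool.BK5

namespace Aff

/-- the key identity -/
theorem key (x y w : Pt) (α β s t s' t' : ℝ)
    (hs : s = -(α * (x.1 - w.1) + β * (x.2 - w.2)))
    (ht : t = α * (x.2 - w.2) - β * (x.1 - w.1))
    (hs' : s' = -(α * (y.1 - w.1) + β * (y.2 - w.2)))
    (ht' : t' = α * (y.2 - w.2) - β * (y.1 - w.1)) :
    (α ^ 2 + β ^ 2) * D x y w = t * s' - s * t' := by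
  subst hs ht hs' ht'
  unfold D
  ring

end Aff

open Aff in
theorem t_Aff : S_Aff := by
  intro m X w α β γ hg hm hI
  by_contra hcon
  push Not at hcon
  have hg2 : 0 < α ^ 2 + β ^ 2 := by
    rcases hg with h | h
    · have := sq_nonneg β
      have := pow_pos (abs_pos.2 h) 2
      rw [sq_abs] at this
      linarith
    · have := sq_nonneg α
      have := pow_pos (abs_pos.2 h) 2
      rw [sq_abs] at this
      linarith
  obtain ⟨s, hs⟩ : ∃ s : ℕ → ℝ, ∀ k, s k = -(α * ((X k).1 - w.1) + β * ((X k).2 - w.2)) :=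
    ⟨_, fun _ => rfl⟩
  obtain ⟨t, ht⟩ : ∃ t : ℕ → ℝ, ∀ k, t k = α * ((X k).2 - w.2) - β * ((X k).1 - w.1) :=
    ⟨_, fun _ => rfl⟩
  have hs0 : ∀ k, k < m → 0 ≤ s k := by
    intro k hk
    have := hcon k hk
    rw [hs]
    linarith
  have hmod : ∀ k : ℕ, (k + 1) % m < m := fun k => Nat.mod_lt _ (by omega)
  have hpos : ∀ k, k < m → 0 < t k * s ((k + 1) % m) - s k * t ((k + 1) % m) := by
    intro k hk
    rw [← key (X k) (X ((k + 1) % m)) w α β (s k) (t k) (s ((k + 1) % m)) (t ((k + 1) % m))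
      (hs _) (ht _) (hs _) (ht _)]
    exact mul_pos hg2 (hI k hk)
  by_cases h0 : ∃ k, k < m ∧ s k = 0
  · obtain ⟨k, hk, hk0⟩ := h0
    have h1 := hpos k hk
    rw [hk0, zero_mul, sub_zero] at h1
    have h2 : 0 < t k := by
      by_contra h
      have := mul_nonneg (neg_nonneg.2 (not_lt.1 h)) (hs0 _ (hmod k))
      linarith
    obtain ⟨l, hl⟩ : ∃ l, l = (k + m - 1) % m := ⟨_, rfl⟩
    have hlm : l < m := by rw [hl]; exact Nat.mod_lt _ (by omega)
    have hlk : (l + 1) % m = k := by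
      rw [hl, Nat.mod_add_mod]
      have : k + m - 1 + 1 = k + m := by omega
      rw [this, Nat.add_mod_right, Nat.mod_eq_of_lt hk]
    have h3 := hpos l hlm
    rw [hlk, hk0, mul_zero, zero_sub] at h3
    have := mul_nonneg (hs0 l hlm) h2.le
    linarith
  · push Not at h0
    have hsp : ∀ k, k < m → 0 < s k := fun k hk => lt_of_le_of_ne (hs0 k hk) (h0 k hk).symm
    obtain ⟨k, hk, hmin⟩ := Finset.exists_min_image (Finset.range m) (fun k => t k / s k)
      ⟨0, Finset.mem_range.2 (by omega)⟩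
    rw [Finset.mem_range] at hk
    have h1 := hmin _ (Finset.mem_range.2 (hmod k))
    rw [div_le_div_iff₀ (hsp k hk) (hsp _ (hmod k))] at h1
    have h2 := hpos k hk
    linarith

theorem t_Sep : S_Sep := by
  intro m X w A B hAB hm hI
  have hne : -(B.2 - A.2) ≠ 0 ∨ B.1 - A.1 ≠ 0 := by
    by_contra h
    push Not at h
    apply hAB
    ext
    · linarith [h.2]
    · linarith [h.1]
  have hform : ∀ x : Pt, D A B x = -(B.2 - A.2) * x.1 + (B.1 - A.1) * x.2 +
      (-(B.1 - A.1) * A.2 + (B.2 - A.2) * A.1) := by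
    intro x
    unfold D
    ring
  have h3 : ∃ k, k < m ∧ D A B w < D A B (X k) := by
    obtain ⟨k, hk, h⟩ := t_Aff m X w (-(B.2 - A.2)) (B.1 - A.1)
      (-(B.1 - A.1) * A.2 + (B.2 - A.2) * A.1) hne hm hI
    refine ⟨k, hk, ?_⟩
    rw [hform w, hform (X k)]
    exact h
  refine ⟨?_, ?_, h3⟩
  · intro h
    have hne' : (B.2 - A.2) ≠ 0 ∨ -(B.1 - A.1) ≠ 0 := by
      rcases hne with h | h
      · left
        intro h'
        exact h (by linarith)
      · right
        intro h'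
        exact h (by linarith)
    obtain ⟨k, hk, hlt⟩ := t_Aff m X w (B.2 - A.2) (-(B.1 - A.1))
      (-(-(B.1 - A.1) * A.2 + (B.2 - A.2) * A.1)) hne' hm hI
    have h1 := h k hk
    rw [hform (X k)] at h1
    rw [hform w]
    linarith
  · intro h
    obtain ⟨k, hk, hlt⟩ := h3
    exact hlt.trans_le (h k hk)

end Pool.BK5
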