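import Pool.Agent.BK5.StmtsB

set_option autoImplicit false

namespace Pool.BK5

namespace BMod

/-- Coordinates of a point of an open segment. -/
theorem seg_coord {o x y : Pt} (h : x ∈ openSegment ℝ o y) :
    ∃ t : ℝ, 0 < t ∧ t < 1 ∧ x.1 = o.1 + t * (y.1 - o.1) ∧ x.2 = o.2 + t * (y.2 - o.2) := by
  obtain ⟨a, b, ha, hb, hab, h⟩ := h
  refine ⟨b, hb, by linarith, ?_, ?_⟩
  · rw [← h]
    have ha' : a = 1 - b := by linarith
    simp only [Prod.fst_add, Prod.smul_fst, smul_eq_mul]
    rw [ha']; ring
  · rw [← h]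
    have ha' : a = 1 - b := by linarith
    simp only [Prod.snd_add, Prod.smul_snd, smul_eq_mul]
    rw [ha']; ring

theorem rw_nonneg {o x y : Pt} (h : RW o x y) : 0 ≤ D o x y := by
  rcases h with h | h
  · exact h.le
  · exact h.1.ge

theorem rw_seg {o x y : Pt} (h : RW o x y) (h0 : D o x y = 0) :
    ∃ t : ℝ, 0 < t ∧ t < 1 ∧ x.1 = o.1 + t * (y.1 - o.1) ∧ x.2 = o.2 + t * (y.2 - o.2) := by
  rcases h with h | h
  · exact absurd h0 h.ne'
  · exact seg_coord h.2

/-- If `x` is on the segment from `o` to `y` then `D o x z = t * D o y z`. -/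
theorem D_left {o x y z : Pt} {t : ℝ} (h1 : x.1 = o.1 + t * (y.1 - o.1))
    (h2 : x.2 = o.2 + t * (y.2 - o.2)) : D o x z = t * D o y z := by
  unfold D; rw [h1, h2]; ring

theorem D_right {o x y z : Pt} {t : ℝ} (h1 : x.1 = o.1 + t * (y.1 - o.1))
    (h2 : x.2 = o.2 + t * (y.2 - o.2)) : D o z x = t * D o z y := by
  unfold D; rw [h1, h2]; ring

theorem D_swap (a b c : Pt) : D a c b = - D a b c := by unfold D; ring

theorem D_four (o b c d : Pt) : D b c d = D o c d - D o b d + D o b c := by unfold D; ring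

theorem no4_mono {P Q : Finset Pt} (h : No4 P) (hQ : Q ⊆ P) : No4 Q := by
  intro a ha b hb x hx y hy
  exact h a (hQ ha) b (hQ hb) x (hQ hx) y (hQ hy)

/-- The pattern of four points in radial order about the first one. -/
theorem pat4 {P : Finset Pt} (hP : No4 P) {o b c d : Pt} (ho : o ∈ P) (hb : b ∈ P) (hc : c ∈ P)
    (hd : d ∈ P) (hob : o ≠ b) (hoc : o ≠ c) (hod : o ≠ d) (hbc : b ≠ c) (hbd : b ≠ d)
    (hcd : c ≠ d) (r1 : RW o b c) (r2 : RW o b d) (r3 : RW o c d) :
    Pat (D o b c) (D o b d) (D o c d) (D b c d) := by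
  have hw := D_four o b c d
  have hx0 := rw_nonneg r1
  have hy0 := rw_nonneg r2
  have hz0 := rw_nonneg r3
  rcases eq_or_lt_of_le hx0 with hx | hx
  · -- `D o b c = 0`
    obtain ⟨t, ht0, ht1, e1, e2⟩ := rw_seg r1 hx.symm
    have hyz : D o b d = t * D o c d := D_left e1 e2
    have hz : 0 < D o c d := by
      rcases eq_or_lt_of_le hz0 with hz | hz
      · exact absurd (by rw [hyz, ← hz, mul_zero])
          (hP o ho b hb c hc d hd hob hoc hod hbc hbd hcd hx.symm)
      · exact hz
    have hy : 0 < D o b d := by rw [hyz]; exact mul_pos ht0 hz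
    have hw' : 0 < D b c d := by
      rw [hw, hyz, ← hx]
      nlinarith
    unfold Pat
    exact Or.inr (Or.inr (Or.inr (Or.inr (Or.inr (Or.inr (Or.inr (Or.inr
      (Or.inl ⟨hx.symm, hy, hz, hw'⟩))))))))
  · rcases eq_or_lt_of_le hz0 with hz | hz
    · obtain ⟨t, ht0, ht1, e1, e2⟩ := rw_seg r3 hz.symm
      have hxy : D o b c = t * D o b d := D_right e1 e2
      have hy : 0 < D o b d := by
        rcases eq_or_lt_of_le hy0 with hy | hy
        · rw [hxy, ← hy, mul_zero] at hx
          exact absurd hx (lt_irrefl _)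
        · exact hy
      have hw' : D b c d < 0 := by
        rw [hw, hxy, ← hz]
        nlinarith
      unfold Pat
      right; right; right; right; right; right; right; right; right; right; right; right
      left
      exact ⟨hx, hy, hz.symm, hw'⟩
    · have hy : 0 < D o b d := by
        rcases eq_or_lt_of_le hy0 with hy | hy
        · obtain ⟨t, ht0, ht1, e1, e2⟩ := rw_seg r2 hy.symm
          have h1 : D o b c = t * D o d c := D_left e1 e2
          rw [D_swap o c d] at h1
          have : 0 < t * D o c d := mul_pos ht0 hz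
          linarith
        · exact hy
      unfold Pat
      rcases lt_trichotomy (D b c d) 0 with h | h | h
      · right; left; exact ⟨hx, hy, hz, h⟩
      · right; right; right; right; right; right; right; right; right; right; right; right
        right; right; left
        exact ⟨hx, hy, hz, h⟩
      · left; exact ⟨hx, hy, hz, h⟩

/-- Non-consecutive points are on different rays. -/
theorem radz' {P : Finset Pt} (hP : No4 P) {o b c d : Pt} (ho : o ∈ P) (hb : b ∈ P) (hc : c ∈ P)
    (hd : d ∈ P) (hob : o ≠ b) (hoc : o ≠ c) (hod : o ≠ d) (hbc : b ≠ c) (hbd : b ≠ d)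
    (hcd : c ≠ d) (r1 : RW o b c) (r2 : RW o b d) (r3 : RW o c d) : 0 < D o b d := by
  have hx0 := rw_nonneg r1
  have hy0 := rw_nonneg r2
  have hz0 := rw_nonneg r3
  rcases eq_or_lt_of_le hy0 with hy | hy
  · obtain ⟨t, ht0, ht1, e1, e2⟩ := rw_seg r2 hy.symm
    have h1 : D o b c = t * D o d c := D_left e1 e2
    rw [D_swap o c d] at h1
    have h2 : 0 ≤ t * D o c d := mul_nonneg ht0.le hz0
    have h3 : D o b c = 0 := by linarith
    exact absurd hy.symm (hP o ho b hb c hc d hd hob hoc hod hbc hbd hcd h3)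
  · exact hy

end BMod

theorem t_BMod (hNo4 : S_No4) (hSort : S_Sort) (hPat : S_Pat) (hBtw : S_Btw) (hNorm : S_Norm) :
    S_BMod := by
  intro k P c o α β hB ho hpos
  classical
  have hN4 : No4 P := hNo4 k P c hB
  obtain ⟨p, hp0, hmem, hsurj, hinj, hrw⟩ := hSort (P.erase o) o α β (by
    intro x hx
    exact hpos x (Finset.mem_of_mem_erase hx) (Finset.ne_of_mem_erase hx))
  have hcard : (P.erase o).card + 1 = P.card := Finset.card_erase_add_one ho
  have hle : ∀ i, i < P.card ↔ i ≤ (P.erase o).card := by intro i; omega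
  have hmem' : ∀ i, i < P.card → p i ∈ P := by
    intro i hi
    rcases Nat.eq_zero_or_pos i with h | h
    · rw [h, hp0]; exact ho
    · exact Finset.mem_of_mem_erase (hmem i h ((hle i).1 hi))
  have hsurj' : ∀ x ∈ P, ∃ i, i < P.card ∧ p i = x := by
    intro x hx
    by_cases hxo : x = o
    · refine ⟨0, Finset.card_pos.2 ⟨o, ho⟩, ?_⟩
      rw [hp0, hxo]
    · obtain ⟨i, hi0, hi, he⟩ := hsurj x (Finset.mem_erase.2 ⟨hxo, hx⟩)
      exact ⟨i, (hle i).2 hi, he⟩
  have hinj' : ∀ i j, i < P.card → j < P.card → p i = p j → i = j := by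
    intro i j hi hj h
    exact hinj i j ((hle i).1 hi) ((hle j).1 hj) h
  have hrw' : ∀ i j, 0 < i → i < j → j < P.card → RW (p 0) (p i) (p j) := by
    intro i j hi hij hj
    rw [hp0]
    exact hrw i j hi hij ((hle j).1 hj)
  have hne : ∀ i j, i < j → j < P.card → p i ≠ p j := by
    intro i j hij hj h
    have := hinj' i j (hij.trans hj) hj h
    omega
  obtain ⟨col, hc1, hc2, hc3⟩ := hNorm P.card k (fun i => c (p i))
  have himg : (Finset.range P.card).image p ⊆ P := by
    intro x hx
    rw [Finset.mem_image] at hx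
    obtain ⟨i, hi, rfl⟩ := hx
    exact hmem' i (Finset.mem_range.1 hi)
  refine ⟨p, col, ?_, hp0, hmem', hsurj', hinj', hrw', ?_⟩
  · refine ⟨?_, ?_, ?_, hc1, ?_, hc3⟩
    · -- patterns
      intro a b cc d hab hbc hcd hd
      have hcn : cc < P.card := hcd.trans hd
      have hbn : b < P.card := hbc.trans hcn
      have han : a < P.card := hab.trans hbn
      rcases Nat.eq_zero_or_pos a with ha | ha
      · subst ha
        exact BMod.pat4 hN4 (hmem' 0 han) (hmem' b hbn) (hmem' cc hcn) (hmem' d hd)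
          (hne 0 b hab hbn) (hne 0 cc (hab.trans hbc) hcn) (hne 0 d (hab.trans (hbc.trans hcd)) hd)
          (hne b cc hbc hcn) (hne b d (hbc.trans hcd) hd) (hne cc d hcd hd)
          (hrw' b cc hab hbc hcn) (hrw' b d hab (hbc.trans hcd) hd)
          (hrw' cc d (hab.trans hbc) hcd hd)
      · have h0 : 0 < P.card := ha.trans han
        have hb0 : 0 < b := ha.trans hab
        have hc0 : 0 < cc := hb0.trans hbc
        have hd0 : 0 < d := hc0.trans hcd
        refine (hPat (p 0) (p a) (p b) (p cc) (p d) (hrw' a b ha hab hbn)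
          (hrw' a cc ha (hab.trans hbc) hcn) (hrw' a d ha (hab.trans (hbc.trans hcd)) hd)
          (hrw' b cc hb0 hbc hcn) (hrw' b d hb0 (hbc.trans hcd) hd) (hrw' cc d hc0 hcd hd)
          (BMod.no4_mono hN4 ?_) (hne 0 a ha han) (hne 0 b hb0 hbn) (hne 0 cc hc0 hcn)
          (hne 0 d hd0 hd) (hne a b hab hbn) (hne a cc (hab.trans hbc) hcn)
          (hne a d (hab.trans (hbc.trans hcd)) hd) (hne b cc hbc hcn)
          (hne b d (hbc.trans hcd) hd) (hne cc d hcd hd)).1
        intro x hx
        simp only [Finset.mem_insert, Finset.mem_singleton] at hx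
        rcases hx with h | h | h | h | h <;> rw [h]
        · exact hmem' 0 h0
        · exact hmem' a han
        · exact hmem' b hbn
        · exact hmem' cc hcn
        · exact hmem' d hd
    · intro i j hi hij hj
      exact BMod.rw_nonneg (hrw' i j hi hij hj)
    · intro i j hi hij hj
      have h0 : 0 < P.card := by omega
      have h1 : i + 1 < P.card := by omega
      have h2 : i < P.card := by omega
      exact BMod.radz' hN4 (hmem' 0 h0) (hmem' i h2) (hmem' (i + 1) h1) (hmem' j hj)
        (hne 0 i hi h2) (hne 0 (i + 1) (by omega) h1) (hne 0 j (by omega) hj)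
        (hne i (i + 1) (by omega) h1) (hne i j (by omega) hj) (hne (i + 1) j hij hj)
        (hrw' i (i + 1) hi (by omega) h1) (hrw' i j hi (by omega) hj)
        (hrw' (i + 1) j (by omega) hij hj)
    · intro i j hij hj
      rw [hc2 i j (hij.trans hj) hj]
      rw [hB (p i) (hmem' i (hij.trans hj)) (p j) (hmem' j hj) (hne i j hij hj)]
      rw [← hBtw P.card p hinj' hrw' (BMod.no4_mono hN4 himg) i j hij hj]
      constructor
      · rintro ⟨x, hx, hs⟩
        obtain ⟨m, hm, rfl⟩ := hsurj' x hx
        exact ⟨m, hm, hs⟩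
      · rintro ⟨m, hm, hs⟩
        exact ⟨p m, hmem' m hm, hs⟩
  · intro i j hi hj
    exact hc2 i j hi hj

end Pool.BK5
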