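import Pool.Agent.BK5.StmtsB

/-!
MP_70b73c_co, 5-blocked sets, module Btw: the blocker is between the two points in radial order.
-/

set_option autoImplicit false

namespace Pool.BK5

namespace Btw

theorem seg {a b x : Pt} (h : x ∈ openSegment ℝ a b) :
    ∃ t : ℝ, 0 < t ∧ t < 1 ∧ x.1 = a.1 + t * (b.1 - a.1) ∧ x.2 = a.2 + t * (b.2 - a.2) := by
  obtain ⟨s, t, hs, ht, hst, rfl⟩ := h
  refine ⟨t, ht, by linarith, ?_, ?_⟩
  · simp only [Prod.fst_add, Prod.smul_fst, smul_eq_mul]
    have : s = 1 - t := by linarith
    rw [this]
    ring
  · simp only [Prod.snd_add, Prod.smul_snd, smul_eq_mul]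
    have : s = 1 - t := by linarith
    rw [this]
    ring

theorem rw_nonneg {o x y : Pt} (h : RW o x y) : 0 ≤ D o x y := by
  rcases h with h | h
  · exact h.le
  · exact h.1.ge

theorem fwd0 {o x y : Pt} (hxo : x ≠ o) (h1 : x ∈ openSegment ℝ o y) (h2 : RW o y x) :
    False := by
  obtain ⟨t, ht0, ht1, e1, e2⟩ := seg h1
  rcases h2 with h2 | ⟨_, h2⟩
  · unfold D at h2
    rw [e1, e2] at h2
    nlinarith
  · obtain ⟨s, hs0, hs1, f1, f2⟩ := seg h2
    apply hxo
    have hts : t * s < 1 := by nlinarith
    have k1 : (1 - t * s) * (x.1 - o.1) = 0 := by
      rw [f1] at e1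
      linear_combination e1
    have k2 : (1 - t * s) * (x.2 - o.2) = 0 := by
      rw [f2] at e2
      linear_combination e2
    have hne : 1 - t * s ≠ 0 := by linarith
    have l1 : x.1 - o.1 = 0 := (mul_eq_zero.1 k1).resolve_left hne
    have l2 : x.2 - o.2 = 0 := (mul_eq_zero.1 k2).resolve_left hne
    exact Prod.ext (by linarith) (by linarith)

end Btw

open Btw in
theorem t_Btw : S_Btw := by
  intro n p hinj hrw hno i j hij hjn
  have hmem : ∀ m, m < n → p m ∈ (Finset.range n).image p := fun m hm =>
    Finset.mem_image_of_mem p (Finset.mem_range.2 hm)
  have hne : ∀ a b, a < n → b < n → a ≠ b → p a ≠ p b := fun a b ha hb h h' =>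
    h (hinj a b ha hb h')
  have hin : i < n := hij.trans hjn
  have h0n : 0 < n := by omega
  constructor
  · rintro ⟨m, hmn, hm⟩
    obtain ⟨t, ht0, ht1, e1, e2⟩ := seg hm
    have hD : D (p i) (p m) (p j) = 0 := by
      unfold D
      rw [e1, e2]
      ring
    have hmi : m ≠ i := by
      rintro rfl
      apply hne m j hmn hjn (by omega)
      refine Prod.ext ?_ ?_
      · have : t * ((p j).1 - (p m).1) = 0 := by linarith
        have := (mul_eq_zero.1 this).resolve_left ht0.ne'
        linarith
      · have : t * ((p j).2 - (p m).2) = 0 := by linarith
        have := (mul_eq_zero.1 this).resolve_left ht0.ne'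
        linarith
    have hmj : m ≠ j := by
      rintro rfl
      apply hne i m hin hmn (by omega)
      have h1t : 1 - t ≠ 0 := by linarith
      refine Prod.ext ?_ ?_
      · have : (1 - t) * ((p m).1 - (p i).1) = 0 := by linear_combination e1
        have := (mul_eq_zero.1 this).resolve_left h1t
        linarith
      · have : (1 - t) * ((p m).2 - (p i).2) = 0 := by linear_combination e2
        have := (mul_eq_zero.1 this).resolve_left h1t
        linarith
    refine ⟨m, ?_, ?_, hD⟩
    · rcases Nat.eq_zero_or_pos i with rfl | hi
      · omega
      · by_contra hlt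
        have hmi' : m < i := by omega
        rcases hrw i j hi hij hjn with h | ⟨h, hs⟩
        · have hDm : D (p 0) (p i) (p m) = t * D (p 0) (p i) (p j) := by
            unfold D
            rw [e1, e2]
            ring
          have hpos : 0 < D (p 0) (p i) (p m) := by
            rw [hDm]
            positivity
          rcases Nat.eq_zero_or_pos m with rfl | hm0
          · have : D (p 0) (p i) (p 0) = 0 := by
              unfold D
              ring
            linarith
          · have h2 := rw_nonneg (hrw m i hm0 hmi' hin)
            have h3 : D (p 0) (p m) (p i) = -D (p 0) (p i) (p m) := by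
              unfold D
              ring
            linarith
        · obtain ⟨s, hs0, hs1, f1, f2⟩ := seg hs
          have hm0 : p m ≠ p 0 := by
            intro h0
            rw [h0] at e1 e2
            have hc : s + t * (1 - s) ≠ 0 := by
              have : 0 < t * (1 - s) := mul_pos ht0 (by linarith)
              linarith
            apply hne 0 j h0n hjn (by omega)
            refine Prod.ext ?_ ?_
            · have : (s + t * (1 - s)) * ((p j).1 - (p 0).1) = 0 := by
                rw [f1] at e1
                linear_combination -e1
              have := (mul_eq_zero.1 this).resolve_left hc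
              linarith
            · have : (s + t * (1 - s)) * ((p j).2 - (p 0).2) = 0 := by
                rw [f2] at e2
                linear_combination -e2
              have := (mul_eq_zero.1 this).resolve_left hc
              linarith
          have hDm : D (p 0) (p i) (p m) = 0 := by
            have : D (p 0) (p i) (p m) = t * D (p 0) (p i) (p j) := by
              unfold D
              rw [e1, e2]
              ring
            rw [this, h, mul_zero]
          exact hno (p 0) (hmem 0 h0n) (p i) (hmem i hin) (p m) (hmem m hmn) (p j) (hmem j hjn)
            (hne 0 i h0n hin (by omega)) hm0.symm (hne 0 j h0n hjn (by omega))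
            (hne i m hin hmn (by omega)) (hne i j hin hjn (by omega)) (hne m j hmn hjn hmj) hDm h
    · rcases Nat.eq_zero_or_pos i with rfl | hi
      · by_contra hlt
        exact fwd0 (hne m 0 hmn h0n hmi) hm (hrw j m hij (by omega) hmn)
      · by_contra hlt
        have hjm : j < m := by omega
        rcases hrw i j hi hij hjn with h | ⟨h, hs⟩
        · have hDm : D (p 0) (p m) (p j) = (1 - t) * D (p 0) (p i) (p j) := by
            unfold D
            rw [e1, e2]
            ring
          have hpos : 0 < D (p 0) (p m) (p j) := by
            rw [hDm]
            exact mul_pos (by linarith) h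
          have h2 := rw_nonneg (hrw j m (by omega) hjm hmn)
          have h3 : D (p 0) (p j) (p m) = -D (p 0) (p m) (p j) := by
            unfold D
            ring
          linarith
        · have hDm : D (p 0) (p i) (p m) = 0 := by
            have : D (p 0) (p i) (p m) = t * D (p 0) (p i) (p j) := by
              unfold D
              rw [e1, e2]
              ring
            rw [this, h, mul_zero]
          exact hno (p 0) (hmem 0 h0n) (p i) (hmem i hin) (p m) (hmem m hmn) (p j) (hmem j hjn)
            (hne 0 i h0n hin (by omega)) (hne 0 m h0n hmn (by omega)) (hne 0 j h0n hjn (by omega))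
            (hne i m hin hmn (by omega)) (hne i j hin hjn (by omega)) (hne m j hmn hjn hmj) hDm h
  · rintro ⟨m, him, hmj, hD⟩
    have hmn : m < n := hmj.trans hjn
    refine ⟨m, hmn, ?_⟩
    rcases Nat.eq_zero_or_pos i with rfl | hi
    · rcases hrw m j him hmj hjn with h | h
      · exact absurd hD h.ne'
      · exact h.2
    · have h1 : 0 < D (p 0) (p i) (p m) := by
        rcases lt_or_eq_of_le (rw_nonneg (hrw i m hi him hmn)) with h | h
        · exact h
        · exfalso
          have h' : D (p i) (p m) (p 0) = 0 := by
            rw [h]
            unfold D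
            ring
          exact hno (p i) (hmem i hin) (p m) (hmem m hmn) (p 0) (hmem 0 h0n) (p j) (hmem j hjn)
            (hne i m hin hmn (by omega)) (hne i 0 hin h0n (by omega)) (hne i j hin hjn (by omega))
            (hne m 0 hmn h0n (by omega)) (hne m j hmn hjn (by omega)) (hne 0 j h0n hjn (by omega))
            h' hD
      have h2 : 0 < D (p 0) (p m) (p j) := by
        rcases lt_or_eq_of_le (rw_nonneg (hrw m j (by omega) hmj hjn)) with h | h
        · exact h
        · exfalso
          have h' : D (p m) (p j) (p 0) = 0 := by
            rw [h]
            unfold D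
            ring
          have h'' : D (p m) (p j) (p i) = 0 := by
            rw [← hD]
            unfold D
            ring
          exact hno (p m) (hmem m hmn) (p j) (hmem j hjn) (p 0) (hmem 0 h0n) (p i) (hmem i hin)
            (hne m j hmn hjn (by omega)) (hne m 0 hmn h0n (by omega)) (hne m i hmn hin (by omega))
            (hne j 0 hjn h0n (by omega)) (hne j i hjn hin (by omega)) (hne 0 i h0n hin (by omega))
            h' h''
      have h3 : D (p 0) (p i) (p j) = D (p 0) (p i) (p m) + D (p 0) (p m) (p j) := by
        have : D (p i) (p m) (p j) = D (p 0) (p i) (p m) + D (p 0) (p m) (p j) -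
            D (p 0) (p i) (p j) := by
          unfold D
          ring
        linarith
      have h4 : 0 < D (p 0) (p i) (p j) := by
        rw [h3]
        exact add_pos h1 h2
      refine ⟨D (p 0) (p m) (p j) / D (p 0) (p i) (p j), D (p 0) (p i) (p m) / D (p 0) (p i) (p j),
        div_pos h2 h4, div_pos h1 h4, ?_, ?_⟩
      · rw [← add_div, div_eq_one_iff_eq h4.ne', h3]
        ring
      · have k1 : D (p 0) (p m) (p j) * (p i).1 + D (p 0) (p i) (p m) * (p j).1 =
            (p m).1 * D (p 0) (p i) (p j) := by
          have e : D (p 0) (p i) (p j) * ((p m).1 - (p 0).1) =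
              D (p 0) (p m) (p j) * ((p i).1 - (p 0).1) +
                D (p 0) (p i) (p m) * ((p j).1 - (p 0).1) := by
            unfold D
            ring
          linear_combination -e - (p 0).1 * h3
        have k2 : D (p 0) (p m) (p j) * (p i).2 + D (p 0) (p i) (p m) * (p j).2 =
            (p m).2 * D (p 0) (p i) (p j) := by
          have e : D (p 0) (p i) (p j) * ((p m).2 - (p 0).2) =
              D (p 0) (p m) (p j) * ((p i).2 - (p 0).2) +
                D (p 0) (p i) (p m) * ((p j).2 - (p 0).2) := by
            unfold D
            ring
          linear_combination -e - (p 0).2 * h3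
        refine Prod.ext ?_ ?_
        · simp only [Prod.fst_add, Prod.smul_fst, smul_eq_mul]
          rw [div_mul_eq_mul_div, div_mul_eq_mul_div, ← add_div, k1, mul_div_assoc,
            div_self h4.ne', mul_one]
        · simp only [Prod.snd_add, Prod.smul_snd, smul_eq_mul]
          rw [div_mul_eq_mul_div, div_mul_eq_mul_div, ← add_div, k2, mul_div_assoc,
            div_self h4.ne', mul_one]

end Pool.BK5
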