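import Pool.Agent.BK5.StmtsC

/-!
MP_70b73c_co, 5-blocked sets, part C: soundness of the clauses 4 points and Grassmann–Plücker.
-/

set_option autoImplicit false

namespace Pool.BK5

namespace C4GP

theorem aa_eq {b c : Bool} : aa b c = true ↔ b = true ∧ c = true := by
  cases b
  · show false = true ↔ _
    simp
  · show c = true ↔ _
    simp

theorem nn_eq {b : Bool} : nn b = true ↔ b = false := by
  cases b
  · show true = true ↔ _
    simp
  · show false = true ↔ _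
    simp

theorem lt_eq {a b : ℕ} : lt a b = true ↔ a < b := by
  show Nat.ble (Nat.succ a) b = true ↔ _
  rw [Nat.ble_eq]
  exact Iff.rfl

theorem nbeq_ne {a b : ℕ} (h : nn (Nat.beq a b) = true) : a ≠ b := by
  intro h1
  rw [nn_eq] at h
  subst h1
  have h2 : Nat.beq a a = true := Nat.beq_refl a
  rw [h2] at h
  exact Bool.noConfusion h

theorem sub_self (c0 : Sat.Clause) : Sub c0 c0 := fun _ h => h

theorem t_C4 (hSt : S_St) (hOut : S_Out) : S_C4 := by
  intro i j m n FM s z w p Hd c0 hE a b c d h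
  unfold chk4 at h
  rw [aa_eq, aa_eq, aa_eq, aa_eq, aa_eq, lt_eq, lt_eq, lt_eq, lt_eq] at h
  obtain ⟨hac, hbc, hcd, hdn, hab, h⟩ := h
  have hab' := nbeq_ne hab
  obtain ⟨o1, c1, s1, h⟩ := hSt FM c0 _ _ _ (sub_self c0) h
  obtain ⟨o2, c2, s2, h⟩ := hSt FM c0 _ _ _ s1 h
  obtain ⟨o3, c3, s3, h⟩ := hSt FM c0 _ _ _ s2 h
  obtain ⟨o4, c4, s4, h⟩ := hSt FM c0 _ _ _ s3 h
  have H := (hOut i j m n FM s z w p Hd c0 hE).2.2
  have e1 := (H b a c (by omega) (by omega) (by omega) (by omega) (by omega) (by omega) o1).1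
  have e2 := (H a b d (by omega) (by omega) (by omega) (by omega) (by omega) (by omega) o2).1
  have e3 := (H c a d (by omega) (by omega) (by omega) (by omega) (by omega) (by omega) o3).1
  have e4 := (H b c d (by omega) (by omega) (by omega) (by omega) (by omega) (by omega) o4).1
  have hid : D (p b) (p a) (p c) + D (p a) (p b) (p d) + D (p c) (p a) (p d) +
      D (p b) (p c) (p d) = 0 := by
    unfold D
    ring
  linarith

theorem bt_le (q k : ℕ) : bt q k = 0 ∨ bt q k = 1 := by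
  have h : bt q k = (q >>> k) % 2 := rfl
  omega

theorem par : ∀ q : Fin 64, bt 689156323484764560 q = 1 →
    ((bt q 0 + bt q 1) % 2 = 0 ∧ (bt q 2 + bt q 3) % 2 = 1 ∧ (bt q 4 + bt q 5) % 2 = 0) ∨
    ((bt q 0 + bt q 1) % 2 = 1 ∧ (bt q 2 + bt q 3) % 2 = 0 ∧ (bt q 4 + bt q 5) % 2 = 1) := by
  decide

theorem pr {b b' : ℕ} {x y : ℝ} (h : (b = 1 ∧ 0 < x) ∨ (b = 0 ∧ x < 0))
    (h' : (b' = 1 ∧ 0 < y) ∨ (b' = 0 ∧ y < 0)) :
    ((b + b') % 2 = 0 → 0 < x * y) ∧ ((b + b') % 2 = 1 → x * y < 0) := by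
  rcases h with ⟨hb, hx⟩ | ⟨hb, hx⟩ <;> rcases h' with ⟨hb', hy⟩ | ⟨hb', hy⟩ <;> subst hb <;>
    subst hb'
  · exact ⟨fun _ => mul_pos hx hy, fun h => absurd h (by norm_num)⟩
  · exact ⟨fun h => absurd h (by norm_num), fun _ => mul_neg_of_pos_of_neg hx hy⟩
  · exact ⟨fun h => absurd h (by norm_num), fun _ => mul_neg_of_neg_of_pos hx hy⟩
  · exact ⟨fun _ => mul_pos_of_neg_of_neg hx hy, fun h => absurd h (by norm_num)⟩

theorem q_lt {q : ℕ} (h : bt 689156323484764560 q = 1) : q < 64 := by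
  by_contra hq
  have h1 : bt 689156323484764560 q = (689156323484764560 >>> q) % 2 := rfl
  have h2 : (689156323484764560 : ℕ) >>> q = 0 := by
    rw [Nat.shiftRight_eq_div_pow]
    apply Nat.div_eq_of_lt
    calc (689156323484764560 : ℕ) < 2 ^ 64 := by norm_num
      _ ≤ 2 ^ q := Nat.pow_le_pow_right (by norm_num) (by omega)
  rw [h1, h2] at h
  omega

theorem t_CGP (hCa : S_Ca) (hSt : S_St) (hOut : S_Out) : S_CGP := by
  intro i j m n FM s z w p Hd c0 hE t a b c d q h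
  unfold chkGP at h
  rw [aa_eq, aa_eq, aa_eq, aa_eq, aa_eq, aa_eq, aa_eq, aa_eq, aa_eq, aa_eq, lt_eq, lt_eq, lt_eq,
    lt_eq, lt_eq] at h
  obtain ⟨hab, hbc, hcd, hdn, htn, hta, htb, htc, htd, hK, h⟩ := h
  have hta' := nbeq_ne hta
  have htb' := nbeq_ne htb
  have htc' := nbeq_ne htc
  have htd' := nbeq_ne htd
  obtain ⟨o1, c1, s1, h⟩ := hSt FM c0 _ _ _ (sub_self c0) h
  obtain ⟨o2, c2, s2, h⟩ := hSt FM c0 _ _ _ s1 h
  obtain ⟨o3, c3, s3, h⟩ := hSt FM c0 _ _ _ s2 h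
  obtain ⟨o4, c4, s4, h⟩ := hSt FM c0 _ _ _ s3 h
  obtain ⟨o5, c5, s5, h⟩ := hSt FM c0 _ _ _ s4 h
  obtain ⟨o6, c6, s6, h⟩ := hSt FM c0 _ _ _ s5 h
  have O := (hOut i j m n FM s z w p Hd c0 hE).1
  have hn := hE.hn
  have hgp := hE.md.gp
  rw [← hn] at hgp
  have hC := (hCa p).2.1
  have key : ∀ x y k, x < y → y < n → t ≠ x → t ≠ y →
      out FM c0 (Nat.xor (cs t x y) (bt q k)) = true →
      (bt q k = 1 ∧ 0 < D (p t) (p x) (p y)) ∨ (bt q k = 0 ∧ D (p t) (p x) (p y) < 0) := by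
    intro x y k hxy hyn htx hty ho
    have h1 := O _ ho
    have h2 := hC t x y hxy htx hty
    have h3 := hgp t x y htn (by omega) hyn htx hty (by omega)
    rcases bt_le q k with hk | hk
    · right
      rw [hk, h2.1] at h1
      exact ⟨hk, lt_of_le_of_ne (not_lt.mp h1) h3⟩
    · left
      rw [hk, h2.2] at h1
      exact ⟨hk, lt_of_le_of_ne (not_lt.mp h1) (Ne.symm h3)⟩
  have k0 := key a b 0 hab (by omega) hta' htb' o1
  have k1 := key c d 1 hcd (by omega) htc' htd' o2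
  have k2 := key a c 2 (by omega) (by omega) hta' htc' o3
  have k3 := key b d 3 (by omega) (by omega) htb' htd' o4
  have k4 := key a d 4 (by omega) (by omega) hta' htd' o5
  have k5 := key b c 5 (by omega) (by omega) htb' htc' o6
  have hK' : bt 689156323484764560 q = 1 := Nat.eq_of_beq_eq_true hK
  have hq := q_lt hK'
  have hpar := par ⟨q, hq⟩ hK'
  have m1 := pr k0 k1
  have m2 := pr k2 k3
  have m3 := pr k4 k5
  have hid : D (p t) (p a) (p b) * D (p t) (p c) (p d) - D (p t) (p a) (p c) * D (p t) (p b) (p d) +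
      D (p t) (p a) (p d) * D (p t) (p b) (p c) = 0 := by
    unfold D
    ring
  rcases hpar with ⟨p1, p2, p3⟩ | ⟨p1, p2, p3⟩
  · have := m1.1 p1
    have := m2.2 p2
    have := m3.1 p3
    linarith
  · have := m1.2 p1
    have := m2.1 p2
    have := m3.2 p3
    linarith

end C4GP

/-- K5. -/
theorem t_C4 (_hCa : S_Ca) (hSt : S_St) (hOut : S_Out) : S_C4 := C4GP.t_C4 hSt hOut

/-- K6. -/
theorem t_CGP (hCa : S_Ca) (hSt : S_St) (hOut : S_Out) : S_CGP := C4GP.t_CGP hCa hSt hOut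

end Pool.BK5
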