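import Pool.Agent.BK5.StmtsC

/-!
MP_70b73c_co, 5-blocked sets, K8: soundness of the hexagon clauses.
-/

set_option autoImplicit false

namespace Pool.BK5

namespace CHex

theorem aa_eq {b c : Bool} (h : aa b c = true) : b = true ∧ c = true := by
  cases b
  · exact absurd h Bool.false_ne_true
  · exact ⟨rfl, h⟩

theorem lt_eq {a b : ℕ} (h : lt a b = true) : a < b := Nat.le_of_ble_eq_true h

theorem iff_eq {b c : Bool} (h : iff' b true c = true) : b = true ∨ c = true := by
  cases b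
  · exact Or.inr h
  · exact Or.inl rfl

theorem star6_ok (hSt : S_St) {FM : ℕ} {c0 : Sat.Clause} {a b c d e f : ℕ}
    {k : Sat.Clause → Bool} {cl : Sat.Clause} (hc : Sub cl c0)
    (h : star6 FM c0 a b c d e f k cl = true) :
    out FM c0 (ca b a c) = true ∧ out FM c0 (ca b a d) = true ∧ out FM c0 (ca b a e) = true ∧
    out FM c0 (ca b a f) = true ∧ out FM c0 (ca c a d) = true ∧ out FM c0 (ca d a e) = true ∧
    out FM c0 (ca e a f) = true ∧ out FM c0 (ca c b d) = true ∧ out FM c0 (ca d c e) = true ∧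
    out FM c0 (ca e d f) = true ∧ ∃ c', Sub c' c0 ∧ k c' = true := by
  obtain ⟨h1, c1, s1, g1⟩ := hSt FM c0 _ _ cl hc h
  obtain ⟨h2, c2, s2, g2⟩ := hSt FM c0 _ _ c1 s1 g1
  obtain ⟨h3, c3, s3, g3⟩ := hSt FM c0 _ _ c2 s2 g2
  obtain ⟨h4, c4, s4, g4⟩ := hSt FM c0 _ _ c3 s3 g3
  obtain ⟨h5, c5, s5, g5⟩ := hSt FM c0 _ _ c4 s4 g4
  obtain ⟨h6, c6, s6, g6⟩ := hSt FM c0 _ _ c5 s5 g5
  obtain ⟨h7, c7, s7, g7⟩ := hSt FM c0 _ _ c6 s6 g6
  obtain ⟨h8, c8, s8, g8⟩ := hSt FM c0 _ _ c7 s7 g7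
  obtain ⟨h9, c9, s9, g9⟩ := hSt FM c0 _ _ c8 s8 g8
  obtain ⟨h10, c10, s10, g10⟩ := hSt FM c0 _ _ c9 s9 g9
  exact ⟨h1, h2, h3, h4, h5, h6, h7, h8, h9, h10, c10, s10, g10⟩

/-- The hexagon is convex. -/
theorem cv_ok (hStar : S_Star) {n FM : ℕ} {c0 : Sat.Clause} {p : ℕ → Pt} {P : ℕ}
    (hO : ∀ a b c, a < n → b < n → c < n → a ≠ b → a ≠ c → b ≠ c → out FM c0 (ca a b c) = true →
      D (p a) (p b) (p c) < 0 ∧ 0 < D (p b) (p a) (p c))
    (hlt : ∀ r, r < 6 → dg P (5 * r) < n)
    (hne : ∀ r t, r < 6 → t < 6 → r ≠ t → dg P (5 * r) ≠ dg P (5 * t))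
    (o1 : out FM c0 (ca (dg P (5 * 1)) (dg P (5 * 0)) (dg P (5 * 2))) = true)
    (o2 : out FM c0 (ca (dg P (5 * 1)) (dg P (5 * 0)) (dg P (5 * 3))) = true)
    (o3 : out FM c0 (ca (dg P (5 * 1)) (dg P (5 * 0)) (dg P (5 * 4))) = true)
    (o4 : out FM c0 (ca (dg P (5 * 1)) (dg P (5 * 0)) (dg P (5 * 5))) = true)
    (o5 : out FM c0 (ca (dg P (5 * 2)) (dg P (5 * 0)) (dg P (5 * 3))) = true)
    (o6 : out FM c0 (ca (dg P (5 * 3)) (dg P (5 * 0)) (dg P (5 * 4))) = true)
    (o7 : out FM c0 (ca (dg P (5 * 4)) (dg P (5 * 0)) (dg P (5 * 5))) = true)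
    (o8 : out FM c0 (ca (dg P (5 * 2)) (dg P (5 * 1)) (dg P (5 * 3))) = true)
    (o9 : out FM c0 (ca (dg P (5 * 3)) (dg P (5 * 2)) (dg P (5 * 4))) = true)
    (o10 : out FM c0 (ca (dg P (5 * 4)) (dg P (5 * 3)) (dg P (5 * 5))) = true) :
    Cv 6 (fun k => p (dg P (5 * k))) := by
  have key : ∀ r t u, r < 6 → t < 6 → u < 6 → r ≠ t → r ≠ u → t ≠ u →
      out FM c0 (ca (dg P (5 * r)) (dg P (5 * t)) (dg P (5 * u))) = true →
      0 < D (p (dg P (5 * t))) (p (dg P (5 * r))) (p (dg P (5 * u))) := by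
    intro r t u hr ht hu h1 h2 h3 h
    exact (hO _ _ _ (hlt r hr) (hlt t ht) (hlt u hu) (hne r t hr ht h1) (hne r u hr hu h2)
      (hne t u ht hu h3) h).2
  apply hStar 6
  · intro k hk hk6
    interval_cases k
    · exact key 1 0 2 (by decide) (by decide) (by decide) (by decide) (by decide) (by decide) o1
    · exact key 1 0 3 (by decide) (by decide) (by decide) (by decide) (by decide) (by decide) o2
    · exact key 1 0 4 (by decide) (by decide) (by decide) (by decide) (by decide) (by decide) o3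
    · exact key 1 0 5 (by decide) (by decide) (by decide) (by decide) (by decide) (by decide) o4
  · intro k hk hk6
    have hk5 : k < 5 := by omega
    interval_cases k
    · exact key 1 0 2 (by decide) (by decide) (by decide) (by decide) (by decide) (by decide) o1
    · exact key 2 0 3 (by decide) (by decide) (by decide) (by decide) (by decide) (by decide) o5
    · exact key 3 0 4 (by decide) (by decide) (by decide) (by decide) (by decide) (by decide) o6
    · exact key 4 0 5 (by decide) (by decide) (by decide) (by decide) (by decide) (by decide) o7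
  · intro k hk hk6
    have hk5 : k < 4 := by omega
    interval_cases k
    · exact key 2 1 3 (by decide) (by decide) (by decide) (by decide) (by decide) (by decide) o8
    · exact key 3 2 4 (by decide) (by decide) (by decide) (by decide) (by decide) (by decide) o9
    · exact key 4 3 5 (by decide) (by decide) (by decide) (by decide) (by decide) (by decide) o10

theorem nx_eq (s z g : ℕ) : nx s z (Nat.add s g) = s + (g + 1) % z := by
  change s + (s + g - s + 1) % z = _
  rw [Nat.add_sub_cancel_left]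

end CHex

open CHex in
theorem t_CHex (hSt : S_St) (hOut : S_Out) (hLst : S_Lst) (hStar : S_Star) (hHid : S_Hid) :
    S_CHex := by
  intro i j m n FM s z w p Hd c0 henv P kd g e h
  obtain ⟨-, hO2, hO3⟩ := hOut i j m n FM s z w p Hd c0 henv
  obtain ⟨lcw, ldst, lhL, lhR, -⟩ := hLst i j m n FM s z w p Hd c0 henv
  obtain ⟨hd, h⟩ := aa_eq h
  obtain ⟨hcl, h⟩ := aa_eq h
  have hclose : dg P 30 = dg P 0 := Nat.eq_of_beq_eq_true hcl
  obtain ⟨hlt, hne⟩ := ldst n P 6 hd
  obtain ⟨o1, o2, o3, o4, o5, o6, o7, o8, o9, o10, c', hc', hK⟩ :=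
    star6_ok hSt (cl := c0) (fun _ hl => hl) h
  have hcv : Cv 6 (fun k => p (dg P (5 * k))) :=
    cv_ok hStar hO3 hlt hne o1 o2 o3 o4 o5 o6 o7 o8 o9 o10
  have hnext : ∀ q, q < 6 → dg P (5 * ((q + 1) % 6)) = dg P (5 * (q + 1)) := by
    intro q hq
    rcases Nat.lt_or_ge q 5 with h5 | h5
    · rw [Nat.mod_eq_of_lt (by omega)]
    · have : q = 5 := by omega
      subst this
      exact hclose.symm
  have hkind : KindOK i j m p (fun k => dg P (5 * k)) ∧
      ∃ c'', Sub c'' c0 ∧ cw FM c0 P 6 w 9 e c'' = true := by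
    have hbig : KindOK i j m p (fun k => dg P (5 * k)) ∨ 3 ≤ z := by
      rcases henv.h3 with h1 | h1 | h1
      · exact Or.inl (Or.inl (Or.inl h1))
      · exact Or.inl (Or.inl (Or.inr h1))
      · exact Or.inr h1
    have hzN := henv.hz
    have hsN := henv.hs
    cases hb0 : Nat.beq kd 0 with
    | true =>
      rw [hb0] at hK
      obtain ⟨h1, h2⟩ := aa_eq hK
      refine ⟨Or.inl ?_, c', hc', h2⟩
      rcases iff_eq h1 with h3 | h3
      · exact Or.inl (Nat.eq_of_beq_eq_true h3)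
      · exact Or.inr (Nat.eq_of_beq_eq_true h3)
    | false =>
    rw [hb0] at hK
    cases hb1 : Nat.beq kd 1 with
    | true =>
      rw [hb1] at hK
      obtain ⟨h1, h2⟩ := aa_eq hK
      have hg : g < z := lt_eq h1
      obtain ⟨h3, h4⟩ := lhL _ _ _ _ _ c' hc' h2
      refine ⟨?_, h4⟩
      rcases hbig with hbig | hbig
      · exact hbig
      rw [nx_eq] at h3
      refine Or.inr (Or.inl ⟨hzN ▸ hbig, g, hzN ▸ hg, ?_⟩)
      rw [← hzN, ← hsN]
      exact h3
    | false =>
    rw [hb1] at hK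
    cases hb2 : Nat.beq kd 2 with
    | true =>
      rw [hb2] at hK
      obtain ⟨h1, h2⟩ := aa_eq hK
      have hg : g < 6 := lt_eq h1
      obtain ⟨h3, h4⟩ := lhR _ _ _ _ _ c' hc' h2
      refine ⟨?_, h4⟩
      rcases hbig with hbig | hbig
      · exact hbig
      refine Or.inr (Or.inr (Or.inl ⟨hzN ▸ hbig, g, hg, ?_⟩))
      rw [← hzN, ← hsN]
      beta_reduce
      rw [hnext g hg]
      exact h3
    | false =>
    rw [hb2] at hK
    cases hb3 : Nat.beq kd 3 with
    | true =>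
      rw [hb3] at hK
      obtain ⟨h1, h2⟩ := aa_eq hK
      have hg : g < 6 := lt_eq h1
      have main : ∀ q, (q = dg P (5 * g) ∨ q = dg P (5 * (g + 1))) →
          kind3 FM c0 s z (dg P (5 * g)) (dg P (5 * (g + 1))) q (cw FM c0 P 6 w 9 e) c' = true →
          KindOK i j m p (fun k => dg P (5 * k)) ∧
            ∃ c'', Sub c'' c0 ∧ cw FM c0 P 6 w 9 e c'' = true := by
        intro q hq hk3
        obtain ⟨k1, k2⟩ := aa_eq hk3
        obtain ⟨k3, k4⟩ := aa_eq k2
        have k5 : s ≤ q := Nat.le_of_ble_eq_true k1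
        have k6 : q < s + z := lt_eq k3
        obtain ⟨k7, d1, e1, k8⟩ := hSt FM c0 _ _ c' hc' k4
        obtain ⟨k9, d2, e2, k10⟩ := hSt FM c0 _ _ d1 e1 k8
        have k11 := hO2 _ _ _ k7
        have k12 := hO2 _ _ _ k9
        refine ⟨?_, d2, e2, k10⟩
        rcases hbig with hbig | hbig
        · exact hbig
        obtain ⟨q', rfl⟩ := Nat.exists_eq_add_of_le k5
        have k13 : nx s z (s + q') = s + (q' + 1) % z := nx_eq s z q'
        have k14 : pv s z (s + q') = s + (q' + z - 1) % z := by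
          change s + (s + q' - s + z - 1) % z = _
          rw [Nat.add_sub_cancel_left]
        rw [k14] at k11
        rw [k13] at k12
        refine Or.inr (Or.inr (Or.inr (Or.inl ⟨hzN ▸ hbig, g, q', hg, hzN ▸ (by omega), ?_, ?_, ?_⟩)))
        · rw [← hsN]
          beta_reduce
          rw [hnext g hg]
          exact hq.imp Eq.symm Eq.symm
        · rw [← hzN, ← hsN]
          beta_reduce
          rw [hnext g hg]
          exact k12
        · rw [← hzN, ← hsN]
          beta_reduce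
          rw [hnext g hg]
          exact k11
      cases hb4 : Nat.ble s (dg P (Nat.mul 5 g)) with
      | true =>
        rw [hb4] at h2
        exact main _ (Or.inl rfl) h2
      | false =>
        rw [hb4] at h2
        exact main _ (Or.inr rfl) h2
    | false =>
      rw [hb3] at hK
      obtain ⟨h1, h2⟩ := aa_eq hK
      obtain ⟨h3, h4⟩ := aa_eq h2
      have hm : m = 3 := Nat.eq_of_beq_eq_true h3
      obtain ⟨h5, h6⟩ := lhL _ _ _ _ _ c' hc' h4
      refine ⟨Or.inr (Or.inr (Or.inr (Or.inr ⟨hm, ?_⟩))), h6⟩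
      subst hm
      have e1 : s = 9 + i := hsN
      have e2 : z = j := hzN
      subst e1 e2
      exact h5
  obtain ⟨hk, c'', hc'', hcw⟩ := hkind
  obtain ⟨w', hw9, hwE, hins⟩ := hHid i j m p Hd (fun k => dg P (5 * k)) henv.md henv.h0
    (fun k hk => by rw [← henv.hn]; exact hlt k hk) hcv hk
  obtain ⟨r, rfl⟩ := Nat.exists_eq_add_of_le hw9
  have hr : r < w := by
    have := henv.hw
    omega
  obtain ⟨q, hq, hD⟩ := lcw P 6 w 9 e c'' hc'' hcw r hr
  have h1 := hins q hq
  simp only [] at h1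
  rw [hnext q hq] at h1
  linarith

end Pool.BK5
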