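import Pool.Agent.BK5.StmtsC

/-!
MP_70b73c_co, 5-blocked sets, K12: soundness of the minimality clauses.
-/

set_option autoImplicit false

namespace Pool.BK5

namespace CMin

theorem aa_true {b c : Bool} (h : aa b c = true) : b = true ∧ c = true := by
  cases b
  · exact absurd h Bool.false_ne_true
  · exact ⟨rfl, h⟩

theorem lt_true {a b : ℕ} (h : lt a b = true) : a < b := Nat.le_of_ble_eq_true h

theorem ble_true {a b : ℕ} (h : Nat.ble a b = true) : a ≤ b := Nat.le_of_ble_eq_true h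

theorem D_swap (a b c : Pt) : D b a c = -D a b c := by unfold D; ring

theorem D_swap' (a b c : Pt) : D a c b = -D a b c := by unfold D; ring

/-- the strict inequality for three different labels -/
theorem strict {i j m : ℕ} {p : ℕ → Pt} {Hd : Finset Pt} (md : Model i j m p Hd) {a b c : ℕ}
    (ha : a < nP i j m) (hb : b < nP i j m) (hc : c < nP i j m) (hab : a ≠ b) (hac : a ≠ c)
    (hbc : b ≠ c) (h : D (p b) (p a) (p c) ≤ 0) : 0 < D (p a) (p b) (p c) := by
  have h1 := md.gp a b c ha hb hc hab hac hbc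
  have h2 := D_swap (p a) (p b) (p c)
  rcases lt_or_gt_of_ne h1 with h3 | h3
  · linarith
  · exact h3

theorem core (hLst : S_Lst) (hChGeo : S_ChGeo) {i j m n FM s z w : ℕ} {p : ℕ → Pt}
    {Hd : Finset Pt} {c0 : Sat.Clause} (he : Env i j m n FM s z w p Hd c0) {s0 M z' u t E lo z0 w0 : ℕ}
    (hM : s0 = 0 ∧ M = 9 ∨ s0 = 9 ∧ M = i ∧ 3 ≤ i ∧ i ≤ 8) (hz : z' < M) (hu : 1 ≤ u)
    (hu2 : u + 2 ≤ M) (ht : t + M = u + 9) (hlo : lo = s0 + M) (hz0 : z0 = s0 + z')
    (hw0 : w0 = s0 + (z' + u + 1) % M) (hc : chain n FM lo c0 z0 w0 t E c0 = true) : False := by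
  obtain ⟨h1, h2, h3⟩ := (hLst i j m n FM s z w p Hd c0 he).2.2.2.2 lo z0 w0 t E c0 (fun _ h => h) hc
  have hn : n = nP i j m := he.hn
  have hnP : 9 + i ≤ nP i j m := by unfold nP; omega
  have hMn : s0 + M ≤ nP i j m := by rcases hM with h | h <;> omega
  have hr : (z' + u + 1) % M < M := Nat.mod_lt _ (by omega)
  have hzr : (z' + u + 1) % M ≠ z' := by
    intro h
    rcases lt_or_ge (z' + u + 1) M with h4 | h4
    · rw [Nat.mod_eq_of_lt h4] at h
      omega
    · rw [Nat.mod_eq_sub_mod h4, Nat.mod_eq_of_lt (by omega)] at h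
      omega
  have hwn : w0 < nP i j m := by omega
  have hzn : z0 < nP i j m := by omega
  have hzw : z0 ≠ w0 := by omega
  have hwlo : w0 < lo := by omega
  have hzlo : z0 < lo := by omega
  -- all members of the chain are labels different from `z0`
  have hmem : ∀ a, a ≤ t → dg E (5 * a) < nP i j m ∧ dg E (5 * a) ≠ z0 := by
    intro a ha
    rcases Nat.lt_or_ge a t with h4 | h4
    · have := h2 a h4
      omega
    · have : a = t := by omega
      subst this
      rw [h1]
      exact ⟨hwn, fun h => hzw h.symm⟩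
  have hlow : ∀ a, a < t → lo ≤ dg E (5 * a) := fun a ha => (h2 a ha).1
  have hne1 : ∀ a, a + 1 ≤ t → dg E (5 * a) ≠ dg E (5 * (a + 1)) := by
    intro a ha
    rcases Nat.lt_or_ge (a + 1) t with h4 | h4
    · exact (h3 a h4).1
    · have : a + 1 = t := by omega
      rw [this, h1]
      have := hlow a (by omega)
      omega
  have hA : ∀ a, a < t → 0 < D (p z0) (p (dg E (5 * a))) (p w0) := by
    intro a ha
    have h4 := hlow a ha
    exact strict he.md hzn (hmem a ha.le).1 hwn (hmem a ha.le).2.symm hzw (by omega) (h2 a ha).2.2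
  have hB : ∀ a, a + 1 ≤ t → 0 < D (p z0) (p (dg E (5 * a))) (p (dg E (5 * (a + 1)))) := by
    intro a ha
    rcases Nat.lt_or_ge (a + 1) t with h4 | h4
    · exact strict he.md hzn (hmem a (by omega)).1 (hmem (a + 1) ha).1 (hmem a (by omega)).2.symm
        (hmem (a + 1) ha).2.symm (hne1 a ha) (h3 a h4).2.1
    · have h5 : a + 1 = t := by omega
      rw [h5, h1]
      exact hA a (by omega)
  have hne2 : ∀ a, a + 2 ≤ t → dg E (5 * a) ≠ dg E (5 * (a + 2)) := by
    intro a ha h
    have h4 := hB a (by omega)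
    have h5 := hB (a + 1) (by omega)
    have h6 : a + 1 + 1 = a + 2 := rfl
    rw [h6, ← h] at h5
    have h7 := D_swap' (p z0) (p (dg E (5 * a))) (p (dg E (5 * (a + 1))))
    linarith
  have hC : ∀ a, a + 1 < t →
      0 < D (p (dg E (5 * a))) (p (dg E (5 * (a + 1)))) (p (dg E (5 * (a + 2)))) := by
    intro a ha
    have h5 : dg E (5 * (a + 1)) ≠ dg E (5 * (a + 2)) := hne1 (a + 1) (by omega)
    exact strict he.md (hmem a (by omega)).1 (hmem (a + 1) (by omega)).1 (hmem (a + 2) (by omega)).1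
      (hne1 a (by omega)) (hne2 a (by omega)) h5 (h3 a ha).2.2
  subst hlo hz0
  refine hChGeo i j m p Hd s0 M z' u t (fun a => dg E (5 * a)) he.md hM hz hu hu2 ht ?_ ?_ ?_ ?_ ?_
  · intro a ha
    exact ⟨hlow a ha, (hmem a ha.le).1⟩
  · rw [← hw0]
    exact h1
  · intro a ha
    have h4 := hA a ha
    rw [← h1] at h4
    exact h4
  · intro a ha
    exact hB a ha.le
  · intro a ha
    exact hC a ha

end CMin

open CMin in
theorem t_CMin (_hOut : S_Out) (hLst : S_Lst) (hChGeo : S_ChGeo) : S_CMin := by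
  intro i j m n FM s z w p Hd c0 he z' u E
  constructor
  · intro h
    obtain ⟨h1, h⟩ := aa_true h
    obtain ⟨h2, h⟩ := aa_true h
    obtain ⟨h3, h⟩ := aa_true h
    have h1' : z' < 9 := lt_true h1
    have h2' : 1 ≤ u := ble_true h2
    have h3' : u ≤ 7 := ble_true h3
    refine core hLst hChGeo he (s0 := 0) (M := 9) (z' := z') (u := u) (t := u) (E := E)
      (Or.inl ⟨rfl, rfl⟩) h1' h2' (by omega) rfl (lo := 9) rfl (Nat.zero_add z').symm
      (w0 := (z' + u + 1) % 9) (Nat.zero_add _).symm ?_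
    exact h
  · intro hi h
    obtain ⟨h1, h⟩ := aa_true h
    obtain ⟨h2, h⟩ := aa_true h
    obtain ⟨h3, h⟩ := aa_true h
    obtain ⟨h4, h⟩ := aa_true h
    have h1' : z' < i := lt_true h1
    have h2' : 1 ≤ u := ble_true h2
    have h3' : u + 2 ≤ i := ble_true h3
    have h4' : i ≤ 8 := ble_true h4
    refine core hLst hChGeo he (s0 := 9) (M := i) (z' := z') (u := u) (t := u + 9 - i) (E := E)
      (Or.inr ⟨rfl, rfl, hi, h4'⟩) h1' h2' h3' (by omega) (lo := 9 + i) rfl (z0 := 9 + z') rfl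
      (w0 := 9 + (z' + u + 1) % i) rfl ?_
    exact h

end Pool.BK5
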