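import Pool.Agent.BK5.StmtsC

/-!
MP_70b73c_co, 5-blocked sets, K10: soundness of the cone clauses.
-/

set_option autoImplicit false

namespace Pool.BK5

namespace CZ

theorem aa_eq {b c : Bool} (h : aa b c = true) : b = true ∧ c = true := by
  cases b
  · exact absurd h Bool.false_ne_true
  · exact ⟨rfl, h⟩

theorem lt_eq {a b : ℕ} (h : lt a b = true) : a < b := Nat.le_of_ble_eq_true h

theorem iff_eq {b c : Bool} (h : iff' b true c = true) : b = true ∨ c = true := by
  cases b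
  · exact Or.inr h
  · exact Or.inl rfl

theorem star5_ok (hSt : S_St) {FM : ℕ} {c0 : Sat.Clause} {a b c d e : ℕ}
    {k : Sat.Clause → Bool} {cl : Sat.Clause} (hc : Sub cl c0)
    (h : star5 FM c0 a b c d e k cl = true) :
    out FM c0 (ca b a c) = true ∧ out FM c0 (ca b a d) = true ∧ out FM c0 (ca b a e) = true ∧
    out FM c0 (ca c a d) = true ∧ out FM c0 (ca d a e) = true ∧
    out FM c0 (ca c b d) = true ∧ out FM c0 (ca d c e) = true ∧
    ∃ c', Sub c' c0 ∧ k c' = true := by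
  obtain ⟨h1, c1, s1, g1⟩ := hSt FM c0 _ _ cl hc h
  obtain ⟨h2, c2, s2, g2⟩ := hSt FM c0 _ _ c1 s1 g1
  obtain ⟨h3, c3, s3, g3⟩ := hSt FM c0 _ _ c2 s2 g2
  obtain ⟨h4, c4, s4, g4⟩ := hSt FM c0 _ _ c3 s3 g3
  obtain ⟨h5, c5, s5, g5⟩ := hSt FM c0 _ _ c4 s4 g4
  obtain ⟨h6, c6, s6, g6⟩ := hSt FM c0 _ _ c5 s5 g5
  obtain ⟨h7, c7, s7, g7⟩ := hSt FM c0 _ _ c6 s6 g6
  exact ⟨h1, h2, h3, h4, h5, h6, h7, c7, s7, g7⟩

theorem dg_shift (P r : ℕ) : dg (Nat.shiftRight P 5) (5 * r) = dg P (5 * (r + 1)) := by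
  change ((P >>> 5) >>> (5 * r)) % 32 = (P >>> (5 * (r + 1))) % 32
  rw [← Nat.shiftRight_add, show 5 + 5 * r = 5 * (r + 1) by ring]

end CZ

open CZ in
theorem t_CZ (hSt : S_St) (hOut : S_Out) (hLst : S_Lst) (hZGeo : S_ZGeo) : S_CZ := by
  intro i j m n FM s z w p Hd c0 henv hi z' P e h
  obtain ⟨-, -, hO3⟩ := hOut i j m n FM s z w p Hd c0 henv
  obtain ⟨lcw, ldst, -, -, -⟩ := hLst i j m n FM s z w p Hd c0 henv
  obtain ⟨g1, h⟩ := aa_eq h
  obtain ⟨g2, h⟩ := aa_eq h
  obtain ⟨g3, h⟩ := aa_eq h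
  obtain ⟨g4, h⟩ := aa_eq h
  obtain ⟨g5, h⟩ := aa_eq h
  obtain ⟨g6, h⟩ := aa_eq h
  obtain ⟨g7, h⟩ := aa_eq h
  obtain ⟨g8, h⟩ := aa_eq h
  have k1 : 9 + i + j ≤ z' := Nat.le_of_ble_eq_true g1
  have k2 : z' < n := lt_eq g2
  have k3 : m = 2 ∨ m = 3 := (iff_eq g3).imp Nat.eq_of_beq_eq_true Nat.eq_of_beq_eq_true
  have k4 : 9 + i ≤ dg P (5 * 0) := Nat.le_of_ble_eq_true g4
  have k5 : dg P (5 * 0) < 9 + i + j := lt_eq g5
  have k6 : dg P (5 * 4) = 9 + i + (dg P (5 * 0) - (9 + i) + 1) % j := Nat.eq_of_beq_eq_true g6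
  have k7 : dg P (5 * 5) = dg P (5 * 0) := Nat.eq_of_beq_eq_true g7
  obtain ⟨k8, k9⟩ := ldst _ _ _ g8
  simp only [dg_shift] at k8 k9
  have hn : n = nP i j m := henv.hn
  have hzj : z = j := by
    rw [henv.hz]
    unfold zN
    rw [if_neg (by omega)]
  have hj : 3 ≤ j := by
    rcases henv.h3 with h1 | h1 | h1
    · omega
    · omega
    · omega
  have hnP : 9 + i + j ≤ n := by omega
  obtain ⟨o1, o2, o3, o4, o5, o6, o7, c1, hc1, hK⟩ := star5_ok hSt (cl := c0) (fun _ hl => hl) h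
  obtain ⟨o8, c2, hc2, hK2⟩ := hSt FM c0 _ _ c1 hc1 hK
  obtain ⟨o9, c3, hc3, hK3⟩ := hSt FM c0 _ _ c2 hc2 hK2
  obtain ⟨E, hE⟩ := Nat.exists_eq_add_of_le k4
  have hEj : E < j := by omega
  have hsub : dg P (5 * 0) - (9 + i) = E := by omega
  rw [hsub] at k6
  have hmod : (E + 1) % j < j := Nat.mod_lt _ (by omega)
  have hmodne : (E + 1) % j ≠ E := by
    intro h1
    rcases Nat.lt_or_ge (E + 1) j with h2 | h2
    · rw [Nat.mod_eq_of_lt h2] at h1
      omega
    · have h3 : E + 1 = j := by omega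
      rw [h3, Nat.mod_self] at h1
      omega
  have l1 : dg P (5 * 1) < 9 + i := k8 0 (by decide)
  have l2 : dg P (5 * 2) < 9 + i := k8 1 (by decide)
  have l3 : dg P (5 * 3) < 9 + i := k8 2 (by decide)
  have n12 : dg P (5 * 1) ≠ dg P (5 * 2) := k9 0 1 (by decide) (by decide) (by decide)
  have n13 : dg P (5 * 1) ≠ dg P (5 * 3) := k9 0 2 (by decide) (by decide) (by decide)
  have n23 : dg P (5 * 2) ≠ dg P (5 * 3) := k9 1 2 (by decide) (by decide) (by decide)
  have hltn : ∀ r, r < 5 → dg P (5 * r) < n := by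
    intro r hr
    interval_cases r <;> omega
  have hne : ∀ r t, r < 5 → t < 5 → r ≠ t → dg P (5 * r) ≠ dg P (5 * t) := by
    intro r t hr ht hrt
    interval_cases r <;> interval_cases t <;> omega
  have key0 : ∀ r t u, r < n → t < n → u < n → r ≠ t → r ≠ u → t ≠ u →
      out FM c0 (ca r t u) = true → 0 < D (p t) (p r) (p u) := fun r t u hr ht hu h1 h2 h3 h =>
    (hO3 r t u hr ht hu h1 h2 h3 h).2
  have key : ∀ r t u, r < 5 → t < 5 → u < 5 → r ≠ t → r ≠ u → t ≠ u →
      out FM c0 (ca (dg P (5 * r)) (dg P (5 * t)) (dg P (5 * u))) = true →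
      0 < D (p (dg P (5 * t))) (p (dg P (5 * r))) (p (dg P (5 * u))) := by
    intro r t u hr ht hu h1 h2 h3 h
    exact key0 _ _ _ (hltn r hr) (hltn t ht) (hltn u hu) (hne r t hr ht h1) (hne r u hr hu h2)
      (hne t u ht hu h3) h
  obtain ⟨w', hw9, hwi, hins⟩ := hZGeo i j m p Hd z' E (dg P (5 * 1)) (dg P (5 * 2)) (dg P (5 * 3))
    henv.md k3 hi hj k1 (by omega) hEj l1 l2 l3 n12 n13 n23 (fun k => dg P (5 * k)) hE rfl rfl rfl
    k6 (by
      intro k hk hk5
      interval_cases k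
      · exact key 1 0 2 (by decide) (by decide) (by decide) (by decide) (by decide) (by decide) o1
      · exact key 1 0 3 (by decide) (by decide) (by decide) (by decide) (by decide) (by decide) o2
      · exact key 1 0 4 (by decide) (by decide) (by decide) (by decide) (by decide) (by decide) o3)
    (by
      intro k hk hk5
      have hk4 : k < 4 := by omega
      interval_cases k
      · exact key 1 0 2 (by decide) (by decide) (by decide) (by decide) (by decide) (by decide) o1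
      · exact key 2 0 3 (by decide) (by decide) (by decide) (by decide) (by decide) (by decide) o4
      · exact key 3 0 4 (by decide) (by decide) (by decide) (by decide) (by decide) (by decide) o5)
    (by
      intro k hk hk5
      have hk3 : k < 3 := by omega
      interval_cases k
      · exact key 2 1 3 (by decide) (by decide) (by decide) (by decide) (by decide) (by decide) o6
      · exact key 3 2 4 (by decide) (by decide) (by decide) (by decide) (by decide) (by decide) o7)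
    (key0 _ _ _ (hltn 0 (by decide)) k2 (hltn 1 (by decide)) (by omega)
      (hne 0 1 (by decide) (by decide) (by decide)) (by omega) o8)
    (key0 _ _ _ (hltn 3 (by decide)) k2 (hltn 4 (by decide)) (by omega)
      (hne 3 4 (by decide) (by decide) (by decide)) (by omega) o9)
  obtain ⟨r, rfl⟩ := Nat.exists_eq_add_of_le hw9
  obtain ⟨q, hq, hD⟩ := lcw P 5 i 9 e c3 hc3 hK3 r (by omega)
  have h1 := hins q hq
  have hnext : dg P (5 * ((q + 1) % 5)) = dg P (5 * (q + 1)) := by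
    rcases Nat.lt_or_ge q 4 with h4 | h4
    · rw [Nat.mod_eq_of_lt (by omega)]
    · have : q = 4 := by omega
      subst this
      exact k7.symm
  beta_reduce at h1
  rw [hnext] at h1
  linarith

end Pool.BK5
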