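import Pool.Agent.BK5.StmtsC

/-!
MP_70b73c_co, 5-blocked sets, part C: the codes of the atoms.
-/

set_option autoImplicit false

namespace Pool.BK5

namespace Ca

lemma choose_two_step (b : ℕ) : Nat.choose (b + 1) 2 = Nat.choose b 2 + b := by
  have h := Nat.choose_succ_succ' b 1
  rw [Nat.choose_one_right] at h
  have h2 : Nat.choose (b + 1) 2 = b + Nat.choose b 2 := h
  omega

lemma choose_three_step (c : ℕ) : Nat.choose (c + 1) 3 = Nat.choose c 3 + Nat.choose c 2 := by
  have h : Nat.choose (c + 1) 3 = Nat.choose c 2 + Nat.choose c 3 := Nat.choose_succ_succ' c 2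
  omega

lemma two_lt {a b b' : ℕ} (h : a < b) (hb : b < b') : Nat.choose b 2 + a < Nat.choose b' 2 := by
  have h1 := choose_two_step b
  have h2 : Nat.choose (b + 1) 2 ≤ Nat.choose b' 2 := Nat.choose_le_choose 2 hb
  omega

lemma three_lt {a b c c' : ℕ} (h : a < b) (hb : b < c) (hc : c < c') :
    rk a b c < Nat.choose c' 3 := by
  have h1 := choose_three_step c
  have h2 : Nat.choose (c + 1) 3 ≤ Nat.choose c' 3 := Nat.choose_le_choose 3 hc
  have h3 := two_lt h hb
  unfold rk
  omega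

lemma rk_inj {a b c a' b' c' : ℕ} (h : a < b) (hb : b < c) (h' : a' < b') (hb' : b' < c')
    (e : rk a b c = rk a' b' c') : a = a' ∧ b = b' ∧ c = c' := by
  have hc : c = c' := by
    rcases lt_trichotomy c c' with hlt | heq | hgt
    · have := three_lt h hb hlt
      rw [e] at this
      unfold rk at this
      omega
    · exact heq
    · have := three_lt h' hb' hgt
      rw [← e] at this
      unfold rk at this
      omega
  subst hc
  unfold rk at e
  have hbb : b = b' := by
    rcases lt_trichotomy b b' with hlt | heq | hgt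
    · have := two_lt h hlt
      omega
    · exact heq
    · have := two_lt h' hgt
      omega
  subst hbb
  exact ⟨by omega, rfl, rfl⟩

lemma t2d_eq (b : ℕ) : t2d b = 2 * Nat.choose b 2 := by
  have h := Nat.descFactorial_eq_factorial_mul_choose b 2
  have h2 : Nat.descFactorial b 2 = t2d b := by
    show Nat.descFactorial b 2 = b * (b - 1)
    simp [Nat.descFactorial]
    ring
  rw [← h2, h]
  simp [Nat.factorial]

lemma t3d_eq (c : ℕ) : t3d c = 2 * Nat.choose c 3 := by
  have h := Nat.descFactorial_eq_factorial_mul_choose c 3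
  have h2 : Nat.descFactorial c 3 = c * (c - 1) * (c - 2) := by
    simp [Nat.descFactorial]
    ring
  have h3 : t3d c = c * (c - 1) * (c - 2) / 3 := rfl
  rw [h3, ← h2, h]
  have : Nat.factorial 3 = 3 * 2 := rfl
  rw [this, mul_assoc]
  exact Nat.mul_div_cancel_left _ (by norm_num)

lemma rd_eq (x y z : ℕ) : rd x y z = 2 * rk x y z := by
  have h : rd x y z = t3d z + t2d y + 2 * x := rfl
  rw [h, t2d_eq, t3d_eq]
  unfold rk
  ring

lemma tr_even (p : ℕ → Pt) {a b c : ℕ} (h : a < b) (hb : b < c) :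
    tr p (2 * rk a b c) ↔ 0 < D (p a) (p b) (p c) := by
  constructor
  · rintro ⟨a', b', c', h1, h2, (⟨e, hD⟩ | ⟨e, hD⟩)⟩
    · obtain ⟨rfl, rfl, rfl⟩ := rk_inj h hb h1 h2 (by omega)
      exact hD
    · omega
  · intro hD
    exact ⟨a, b, c, h, hb, Or.inl ⟨rfl, hD⟩⟩

lemma tr_odd (p : ℕ → Pt) {a b c : ℕ} (h : a < b) (hb : b < c) :
    tr p (2 * rk a b c + 1) ↔ D (p a) (p b) (p c) < 0 := by
  constructor
  · rintro ⟨a', b', c', h1, h2, (⟨e, hD⟩ | ⟨e, hD⟩)⟩
    · omega
    · obtain ⟨rfl, rfl, rfl⟩ := rk_inj h hb h1 h2 (by omega)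
      exact hD
  · intro hD
    exact ⟨a, b, c, h, hb, Or.inr ⟨rfl, hD⟩⟩

lemma D_swap (a b c : Pt) : D b a c = -D a b c := by unfold D; ring

lemma D_rot (a b c : Pt) : D a b c = D c a b := by unfold D; ring

lemma D_swap2 (a b c : Pt) : D a c b = -D a b c := by unfold D; ring

lemma xor_even (k : ℕ) : Nat.xor (2 * k) 1 = 2 * k + 1 := by
  show (2 * k) ^^^ 1 = 2 * k + 1
  have h1 : (2 * k) % 2 = 0 := by omega
  rw [Nat.xor_one_of_even (by exact ⟨k, by ring⟩)]

lemma xor_odd (k : ℕ) : Nat.xor (2 * k + 1) 1 = 2 * k := by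
  show (2 * k + 1) ^^^ 1 = 2 * k
  rw [Nat.xor_one_of_odd (by exact ⟨k, rfl⟩)]
  omega

lemma xor_zero' (k : ℕ) : Nat.xor k 0 = k := Nat.xor_zero k

lemma ble_t {a b : ℕ} (h : a ≤ b) : Nat.ble a b = true := by
  rw [Nat.ble_eq]; exact h

lemma ble_f {a b : ℕ} (h : b < a) : Nat.ble a b = false := by
  cases e : Nat.ble a b
  · rfl
  · rw [Nat.ble_eq] at e
    omega

/-- the two facts about `cs` -/
lemma cs_tr (p : ℕ → Pt) {s x y : ℕ} (hxy : x < y) (hsx : s ≠ x) (hsy : s ≠ y) :
    (tr p (cs s x y) ↔ 0 < D (p s) (p x) (p y)) ∧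
      (tr p (Nat.xor (cs s x y) 1) ↔ D (p s) (p x) (p y) < 0) := by
  rcases lt_or_gt_of_ne hsx with h1 | h1
  · have e : cs s x y = 2 * rk s x y := by
      unfold cs
      rw [ble_t h1.le]
      exact rd_eq s x y
    rw [e, xor_even]
    exact ⟨tr_even p h1 hxy, tr_odd p h1 hxy⟩
  · rcases lt_or_gt_of_ne hsy with h2 | h2
    · have e : cs s x y = 2 * rk x s y + 1 := by
        unfold cs
        rw [ble_f h1, ble_t h2.le]
        show Nat.succ (rd x s y) = _
        rw [rd_eq]
      rw [e, xor_odd, tr_even p h1 h2, tr_odd p h1 h2, D_swap (p x) (p s) (p y)]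
      constructor
      · exact neg_pos.symm
      · exact neg_lt_zero.symm
    · have e : cs s x y = 2 * rk x y s := by
        unfold cs
        rw [ble_f h1, ble_f h2]
        exact rd_eq x y s
      rw [e, xor_even, tr_even p hxy h2, tr_odd p hxy h2, D_rot (p x) (p y) (p s)]
      exact ⟨Iff.rfl, Iff.rfl⟩

end Ca

open Ca in
theorem t_Ca : S_Ca := by
  intro p
  refine ⟨?_, ?_, ?_⟩
  · intro a b c hab hac hbc
    rcases lt_or_gt_of_ne hbc with h | h
    · have e : ca a b c = cs a b c := by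
        unfold ca
        rw [ble_t h.le]
      rw [e]
      exact (cs_tr p h hab hac).1
    · have e : ca a b c = Nat.xor (cs a c b) 1 := by
        unfold ca
        rw [ble_f h]
      rw [e, (cs_tr p h hac hab).2, D_swap2 (p a) (p b) (p c)]
      exact neg_lt_zero
  · intro s x y hxy hsx hsy
    rw [xor_zero']
    exact cs_tr p hxy hsx hsy
  · intro l hl
    cases l with
    | pos n =>
      rintro ⟨a, b, c, h, hb, (⟨e, hD⟩ | ⟨e, hD⟩)⟩
      · have e' : 2 * n = 2 * rk a b c := e
        exact hl ⟨a, b, c, h, hb, by omega, hD⟩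
      · have e' : 2 * n = 2 * rk a b c + 1 := e
        omega
    | neg n =>
      rintro ⟨a, b, c, h, hb, (⟨e, hD⟩ | ⟨e, hD⟩)⟩
      · have e' : Nat.succ (2 * n) = 2 * rk a b c := e
        omega
      · have e' : Nat.succ (2 * n) = 2 * rk a b c + 1 := e
        obtain ⟨a', b', c', h', hb', e2, hD'⟩ := hl
        obtain ⟨rfl, rfl, rfl⟩ := rk_inj h hb h' hb' (by omega)
        exact lt_asymm hD hD'

end Pool.BK5
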