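import Pool.Agent.BK5.StmtsD
import Pool.Agent.BK5.KB1
import Pool.Agent.BK5.KB2
import Pool.Agent.BK5.KB3

/-!
MP_70b73c_co, 5-blocked sets: the certificates of part B together.
-/

set_option autoImplicit false

namespace Pool.BK5

theorem rfB : ∀ n, 7 ≤ n → n ≤ 17 → RefutedB n 5 2 := by
  intro n h1 h2
  interval_cases n
  exacts [hm7_ok, hm8_ok, hm9_ok, hm10_ok, hm11_ok, hm12_ok, hm13_ok, hm14_ok, hm15_ok, hm16_ok, hm17_ok]

theorem bcerts_of (hD : S_DCerts) : BCerts := hD n4_ok h6_ok rfB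

end Pool.BK5
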