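import Pool.Agent.BK5.StmtsC
import Pool.Agent.BK5.K01
import Pool.Agent.BK5.K02
import Pool.Agent.BK5.K03
import Pool.Agent.BK5.K04
import Pool.Agent.BK5.K05
import Pool.Agent.BK5.K06
import Pool.Agent.BK5.K07
import Pool.Agent.BK5.K08
import Pool.Agent.BK5.K09
import Pool.Agent.BK5.K10
import Pool.Agent.BK5.K11
import Pool.Agent.BK5.K12
import Pool.Agent.BK5.K13
import Pool.Agent.BK5.K14

/-!
MP_70b73c_co, 5-blocked sets: the certificates of part G together.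
-/

set_option autoImplicit false

namespace Pool.BK5

theorem rf5 : ∀ i, 3 ≤ i → i ≤ 8 → Refuted i 0 5 := by
  intro i h1 h2
  interval_cases i
  exacts [k305_ok, k405_ok, k505_ok, k605_ok, k705_ok, k805_ok]

theorem rf00 : ∀ i, 1 ≤ i → i ≤ 2 → Refuted i 0 0 := by
  intro i h1 h2
  interval_cases i
  exacts [k100_ok, k200_ok]

theorem rf0 : ∀ i j, 3 ≤ i → i ≤ 8 → j ≤ 5 → Refuted i j 0 := by
  intro i j h1 h2 h3
  interval_cases i <;> interval_cases j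
  exacts [k300_ok, k310_ok, k320_ok, k330_ok, k340_ok, k350_ok,
    k400_ok, k410_ok, k420_ok, k430_ok, k440_ok, k450_ok,
    k500_ok, k510_ok, k520_ok, k530_ok, k540_ok, k550_ok,
    k600_ok, k610_ok, k620_ok, k630_ok, k640_ok, k650_ok,
    k700_ok, k710_ok, k720_ok, k730_ok, k740_ok, k750_ok,
    k800_ok, k810_ok, k820_ok, k830_ok, k840_ok, k850_ok]

theorem rf2 : ∀ i j, 3 ≤ i → i ≤ 8 → 3 ≤ j → j ≤ 8 → ¬(i = 8 ∧ j = 8) → Refuted i j 2 := by
  intro i j h1 h2 h3 h4 h5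
  interval_cases i <;> interval_cases j
  exacts [k332_ok, k342_ok, k352_ok, k362_ok, k372_ok, k382_ok,
    k432_ok, k442_ok, k452_ok, k462_ok, k472_ok, k482_ok,
    k532_ok, k542_ok, k552_ok, k562_ok, k572_ok, k582_ok,
    k632_ok, k642_ok, k652_ok, k662_ok, k672_ok, k682_ok,
    k732_ok, k742_ok, k752_ok, k762_ok, k772_ok, k782_ok,
    k832_ok, k842_ok, k852_ok, k862_ok, k872_ok, absurd ⟨rfl, rfl⟩ h5]

theorem certs_of (hS : S_Sound) : Certs where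
  c5 i h1 h2 p Hd := hS i 0 5 p Hd (rf5 i h1 h2) (by omega) (Or.inl h1)
  c00 i h1 h2 p := hS i 0 0 p ∅ (rf00 i h1 h2) (fun _ => rfl) (Or.inr ⟨rfl, rfl⟩)
  c0 i j h1 h2 h3 p := hS i j 0 p ∅ (rf0 i j h1 h2 h3) (fun _ => rfl) (Or.inl h1)
  c2 i j h1 h2 h3 h4 h5 p Hd := hS i j 2 p Hd (rf2 i j h1 h2 h3 h4 h5) (by omega) (Or.inl h1)
  c3 p Hd := hS 8 8 3 p Hd k883_ok (by omega) (Or.inl (by omega))
  c6 p := hS 8 8 6 p ∅ k886_ok (fun _ => rfl) (Or.inl (by omega))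

end Pool.BK5
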