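import Pool.Agent.BK5.StmtsC

/-!
MP_70b73c_co, 5-blocked sets: replacing an arc of a layer by a convex chain (`S_ChGeo`).
-/

set_option autoImplicit false

namespace Pool.BK5

namespace ChGeo

theorem cyc (a b c : Pt) : D c a b = D a b c := by
  unfold D
  ring

theorem cyc2 (a b c : Pt) : D a b c = D b c a := by
  unfold D
  ring

theorem idx (m r k : ℕ) (hm : 1 ≤ m) (hk : k < m) :
    (k + r) % m = if k + r % m < m then k + r % m else k + r % m - m := by
  have h0 : r % m < m := Nat.mod_lt _ hm
  rw [← Nat.add_mod_mod]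
  split_ifs with h
  · exact Nat.mod_eq_of_lt h
  · rw [Nat.mod_eq_sub_mod (by omega)]
    exact Nat.mod_eq_of_lt (by omega)

theorem cv (m r : ℕ) (X : ℕ → Pt) (hm : 1 ≤ m) (h : Cv m X) :
    Cv m (fun k => X ((k + r) % m)) := by
  intro i j k hij hjk hk
  have h0 : r % m < m := Nat.mod_lt _ hm
  show 0 < D (X ((i + r) % m)) (X ((j + r) % m)) (X ((k + r) % m))
  rw [idx m r i hm (by omega), idx m r j hm (by omega), idx m r k hm hk]
  split_ifs with h1 h2 h3 h3 h2 h3 h3
  · exact h _ _ _ (by omega) (by omega) (by omega)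
  · rw [← cyc]
    exact h _ _ _ (by omega) (by omega) (by omega)
  · omega
  · rw [cyc2]
    exact h _ _ _ (by omega) (by omega) (by omega)
  all_goals first
    | omega
    | exact h _ _ _ (by omega) (by omega) (by omega)

/-- The combinatorial core: `X` consists of `Y 0`, a chain `C`, and `Y (u + 1), …, Y (M - 1)`. -/
theorem core (hTrans : S_Trans) (hStar : S_Star) (M u t : ℕ) (Y C : ℕ → Pt) (hY : Cv M Y)
    (hu : 1 ≤ u) (huM : u + 2 ≤ M) (htM : t + M = u + 9) (ht : 1 ≤ t)
    (hCt : C t = Y (u + 1))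
    (hleft : ∀ a, a < t → 0 < D (Y 0) (Y 1) (C a))
    (hleft' : ∀ a, a < t → u + 2 < M → 0 < D (Y (u + 1)) (Y (u + 2)) (C a))
    (h1 : ∀ a, a < t → 0 < D (Y 0) (C a) (C t))
    (h2 : ∀ a, a + 1 < t → 0 < D (Y 0) (C a) (C (a + 1)))
    (h3 : ∀ a, a + 1 < t → 0 < D (C a) (C (a + 1)) (C (a + 2)))
    (X : ℕ → Pt) (hX0 : X 0 = Y 0) (hXC : ∀ k, 1 ≤ k → k ≤ t → X k = C (k - 1))
    (hXY : ∀ k, t + 1 ≤ k → k < 9 → X k = Y (k - t + u)) : Cv 9 X := by
  have hXt1 : t + 1 < 9 := by omega
  -- chain including the end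
  have hXC' : ∀ k, 1 ≤ k → k ≤ t + 1 → X k = C (k - 1) := by
    intro k hk hkt
    rcases Nat.lt_or_ge t k with h | h
    · have hk' : k = t + 1 := by omega
      subst hk'
      rw [hXY (t + 1) le_rfl hXt1]
      have e1 : t + 1 - t + u = u + 1 := by omega
      have e2 : t + 1 - 1 = t := by omega
      rw [e1, e2, hCt]
    · exact hXC k hk h
  -- all points are left of Y 0 → Y 1
  have hpos : ∀ k, 1 ≤ k → k < 9 → 0 < D (Y 0) (Y 1) (X k) := by
    intro k hk hk9
    rcases Nat.lt_or_ge t k with h | h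
    · rw [hXY k h hk9]
      exact hY 0 1 (k - t + u) (by omega) (by omega) (by omega)
    · rw [hXC k hk h]
      exact hleft (k - 1) (by omega)
  -- consecutive
  have hcon : ∀ k, 1 ≤ k → k + 1 < 9 → 0 < D (X 0) (X k) (X (k + 1)) := by
    intro k hk hk9
    rw [hX0]
    rcases Nat.lt_trichotomy k t with h | h | h
    · rw [hXC k hk h.le, hXC (k + 1) (by omega) h]
      have e := h2 (k - 1) (by omega)
      have e1 : k - 1 + 1 = k := by omega
      have e2 : k + 1 - 1 = k := by omega
      rw [e1] at e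
      rw [e2]
      exact e
    · subst h
      rw [hXC k hk le_rfl, hXC' (k + 1) (by omega) le_rfl]
      have e := h1 (k - 1) (by omega)
      have e2 : k + 1 - 1 = k := by omega
      rw [e2]
      exact e
    · rw [hXY k h (by omega), hXY (k + 1) (by omega) hk9]
      exact hY 0 (k - t + u) (k + 1 - t + u) (by omega) (by omega) (by omega)
  have hg : ∀ k, 1 ≤ k → k < 9 →
      0 < (-((Y 1).2 - (Y 0).2)) * ((X k).1 - (X 0).1) +
        ((Y 1).1 - (Y 0).1) * ((X k).2 - (X 0).2) := by
    intro k hk hk9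
    have e := hpos k hk hk9
    rw [hX0]
    simp only [D] at e
    linarith
  have hord : ∀ k, 2 ≤ k → k < 9 → 0 < D (X 0) (X 1) (X k) := by
    intro k hk
    induction k, hk using Nat.le_induction with
    | base => intro h; exact hcon 1 le_rfl h
    | succ k hk ih =>
      intro h
      exact (hTrans (X 0) (X 1) (X k) (X (k + 1)) _ _ (hg 1 le_rfl (by omega))
        (hg k (by omega) (by omega)) (hg (k + 1) (by omega) h)).1 (ih (by omega))
        (hcon k (by omega) h)
  refine hStar 9 X hord hcon ?_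
  intro k hk hk9
  rcases Nat.lt_trichotomy k t with h | h | h
  · rw [hXC' k hk (by omega), hXC' (k + 1) (by omega) (by omega),
      hXC' (k + 2) (by omega) (by omega)]
    have e := h3 (k - 1) (by omega)
    have e1 : k - 1 + 1 = k := by omega
    have e2 : k - 1 + 2 = k + 1 := by omega
    have e3 : k + 1 - 1 = k := by omega
    have e4 : k + 2 - 1 = k + 1 := by omega
    rw [e1, e2] at e
    rw [e3, e4]
    exact e
  · subst h
    rw [hXC k hk le_rfl, hXY (k + 1) (by omega) (by omega), hXY (k + 2) (by omega) (by omega)]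
    have e := hleft' (k - 1) (by omega) (by omega)
    have e1 : k + 1 - k + u = u + 1 := by omega
    have e2 : k + 2 - k + u = u + 2 := by omega
    rw [e1, e2, cyc2]
    exact e
  · rw [hXY k h (by omega), hXY (k + 1) (by omega) (by omega), hXY (k + 2) (by omega) (by omega)]
    exact hY (k - t + u) (k + 1 - t + u) (k + 2 - t + u) (by omega) (by omega) (by omega)

end ChGeo

theorem t_ChGeo (hTrans : S_Trans) (hStar : S_Star) (_hPoly : S_Poly) : S_ChGeo := by
  intro i j m p Hd s0 M z u t c hm hs hz hu huM htM hc hct h1 h2 h3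
  have hnP : 9 + i + j ≤ nP i j m := by unfold nP; omega
  have hM9 : M ≤ 9 := by omega
  have ht : 1 ≤ t := by omega
  have hsM : 9 ≤ s0 + M := by omega
  have hsn : s0 + M ≤ nP i j m := by omega
  -- the layer
  have hL : Cv M (fun k => p (s0 + k)) := by
    rcases hs with ⟨hs0, hsM'⟩ | ⟨hs0, hsM', _⟩
    · subst hs0 hsM'
      have e : (fun k => p (0 + k)) = p := by
        funext k
        rw [Nat.zero_add]
      rw [e]
      exact hm.cH
    · subst hs0 hsM'
      exact hm.cI
  -- deeper points are left of the edges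
  have hE : ∀ k x, k < M → s0 + M ≤ x → x < nP i j m →
      0 < D (p (s0 + k)) (p (s0 + (k + 1) % M)) (p x) := by
    intro k x hk hx hxn
    rcases hs with ⟨hs0, hsM'⟩ | ⟨hs0, hsM', h3i, _⟩
    · subst hs0 hsM'
      rw [Nat.zero_add, Nat.zero_add]
      exact hm.inH k x hk (by omega) hxn
    · subst hs0 hsM'
      exact hm.inI h3i k x hk hx hxn
  have hMpos : 0 < M := by omega
  have hYcv := ChGeo.cv M z (fun k => p (s0 + k)) hMpos hL
  have hE' : ∀ k x, s0 + M ≤ x → x < nP i j m →
      0 < D (p (s0 + (k + z) % M)) (p (s0 + (k + 1 + z) % M)) (p x) := by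
    intro k x hx hxn
    have e := hE ((k + z) % M) x (Nat.mod_lt _ hMpos) hx hxn
    have e1 : ((k + z) % M + 1) % M = (k + 1 + z) % M := by
      rw [Nat.mod_add_mod]
      congr 1
      omega
    rw [e1] at e
    exact e
  have hz0 : (0 + z) % M = z := by
    rw [Nat.zero_add, Nat.mod_eq_of_lt hz]
  -- the labels
  have hcv := ChGeo.core hTrans hStar M u t (fun k => p (s0 + (k + z) % M)) (fun a => p (c a))
    hYcv hu huM htM ht
    (by
      show p (c t) = p (s0 + (u + 1 + z) % M)
      rw [hct]
      have e : z + u + 1 = u + 1 + z := by omega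
      rw [e])
    (fun a ha => hE' 0 (c a) (hc a ha).1 (hc a ha).2)
    (fun a ha _ => hE' (u + 1) (c a) (hc a ha).1 (hc a ha).2)
    (fun a ha => by
      show 0 < D (p (s0 + (0 + z) % M)) (p (c a)) (p (c t))
      rw [hz0]
      exact h1 a ha)
    (fun a ha => by
      show 0 < D (p (s0 + (0 + z) % M)) (p (c a)) (p (c (a + 1)))
      rw [hz0]
      exact h2 a ha)
    h3
    (fun k => p (if k = 0 then s0 + (0 + z) % M else if k ≤ t then c (k - 1) else
      s0 + (k - t + u + z) % M))
    (by simp)
    (by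
      intro k hk hkt
      show p (if k = 0 then s0 + (0 + z) % M else if k ≤ t then c (k - 1) else
        s0 + (k - t + u + z) % M) = p (c (k - 1))
      rw [if_neg (by omega), if_pos hkt])
    (by
      intro k hk hkt
      show p (if k = 0 then s0 + (0 + z) % M else if k ≤ t then c (k - 1) else
        s0 + (k - t + u + z) % M) = p (s0 + (k - t + u + z) % M)
      rw [if_neg (by omega), if_neg (by omega)])
  have hmin := hm.min (fun k => if k = 0 then s0 + (0 + z) % M else if k ≤ t then c (k - 1) else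
      s0 + (k - t + u + z) % M)
    (by
      intro k hk
      show (if k = 0 then s0 + (0 + z) % M else if k ≤ t then c (k - 1) else
        s0 + (k - t + u + z) % M) < nP i j m
      have e1 : (0 + z) % M < M := Nat.mod_lt _ hMpos
      have e2 : (k - t + u + z) % M < M := Nat.mod_lt _ hMpos
      split_ifs with g1 g2
      · omega
      · exact (hc (k - 1) (by omega)).2
      · omega)
    hcv 1 (by omega)
  have e : (if (1 : ℕ) = 0 then s0 + (0 + z) % M else if 1 ≤ t then c (1 - 1) else
      s0 + (1 - t + u + z) % M) < 9 := hmin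
  rw [if_neg (by omega), if_pos ht] at e
  have e0 := (hc 0 (by omega)).1
  have e1 : c (1 - 1) = c 0 := rfl
  omega

end Pool.BK5
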