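import Pool.Agent.BK5.Num
import Mathlib.Tactic.Sat.FromLRAT

/-!
MP_70b73c_co, 5-blocked sets, part G: checker for the clauses of the certificates.
An atom `(a, b, c)` stands for `0 < D (p a) (p b) (p c)`.  All functions are written with recursors
(`Bool.rec`, `List.rec`, `Nat.rec`) and raw `Nat` operations, because they are evaluated by the kernel.

Code of an atom: `2 * rk` if `(a, b, c)` is an even permutation of the sorted triple, `2 * rk + 1` if
it is odd, `rk a b c = C(c,3) + C(b,2) + a` for `a < b < c`; the propositional variable `rk a b c`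
is `0 < D (p a) (p b) (p c)`, `a < b < c`.
-/

set_option autoImplicit false

namespace Pool.BK5

noncomputable section

/-- `b && c` -/
def aa (b c : Bool) : Bool := Bool.rec false c b
/-- `!b` -/
def nn (b : Bool) : Bool := Bool.rec true false b
/-- `if b then x else y` -/
def iff' (b x y : Bool) : Bool := Bool.rec y x b
def lt (a b : ℕ) : Bool := Nat.ble (Nat.succ a) b
/-- `2 * C(b,2)` -/
def t2d (b : ℕ) : ℕ := Nat.mul b (Nat.sub b (nat_lit 1))
/-- `2 * C(c,3)` -/
def t3d (c : ℕ) : ℕ :=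
  Nat.div (Nat.mul (Nat.mul c (Nat.sub c (nat_lit 1))) (Nat.sub c (nat_lit 2))) (nat_lit 3)
/-- `2 * rk x y z` for `x < y < z` -/
def rd (x y z : ℕ) : ℕ := Nat.add (Nat.add (t3d z) (t2d y)) (Nat.mul (nat_lit 2) x)
/-- Code of the atom `(s, x, y)`, `x < y`. -/
def cs (s x y : ℕ) : ℕ :=
  Bool.rec (Bool.rec (rd x y s) (Nat.succ (rd x s y)) (Nat.ble s y)) (rd s x y) (Nat.ble s x)
/-- Code of the atom `(a, b, c)`. -/
def ca (a b c : ℕ) : ℕ := Bool.rec (Nat.xor (cs a c b) (nat_lit 1)) (cs a b c) (Nat.ble b c)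

/-- Code of a literal. -/
def lc (l : Sat.Literal) : ℕ :=
  Sat.Literal.rec (fun n => Nat.mul (nat_lit 2) n) (fun n => Nat.succ (Nat.mul (nat_lit 2) n)) l

/-- Membership of a code in a clause. -/
def mem (x : ℕ) (c : Sat.Clause) : Bool :=
  List.rec (motive := fun _ => Bool) false (fun l _ ih => Bool.rec ih true (Nat.beq x (lc l))) c

/-- Bit `k` of `q`. -/
def bt (q k : ℕ) : ℕ := Nat.mod (Nat.shiftRight q k) (nat_lit 2)
/-- Base 32 digit of `q` at the bit position `k`. -/
def dg (q k : ℕ) : ℕ := Nat.mod (Nat.shiftRight q k) (nat_lit 32)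

/-- The code `x` is a fixed false literal (bit of `FM`) or a literal of the clause `c0`. -/
def out (FM : ℕ) (c0 : Sat.Clause) (x : ℕ) : Bool :=
  Bool.rec (mem x c0) true (Nat.beq (bt FM x) (nat_lit 1))

/-- `out FM c0 x`, then continue; `c` is the rest of the clause `c0` (fast path: `x` is its head). -/
def st (FM : ℕ) (c0 : Sat.Clause) (x : ℕ) (k : Sat.Clause → Bool) (c : Sat.Clause) : Bool :=
  List.rec (motive := fun _ => Bool) (aa (out FM c0 x) (k c))
    (fun l t _ => Bool.rec (aa (out FM c0 x) (k c)) (k t) (Nat.beq x (lc l))) c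

/-- Clause 1 (4 points): atoms `(b,a,c)`, `(a,b,d)`, `(c,a,d)`, `(b,c,d)`. -/
def chk4 (n FM : ℕ) (c0 : Sat.Clause) (a b c d : ℕ) : Bool :=
  aa (lt a c) (aa (lt b c) (aa (lt c d) (aa (lt d n) (aa (nn (Nat.beq a b))
    (st FM c0 (ca b a c) (st FM c0 (ca a b d) (st FM c0 (ca c a d) (st FM c0 (ca b c d)
      (fun _ => true)))) c0)))))

/-- Clause 2 (Grassmann–Plücker), `a < b < c < d`, `s` another point; bit `k` of `q` is 1 if the
`k`-th triple of `sab, scd, sac, sbd, sad, sbc` is assumed positive. -/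
def chkGP (n FM : ℕ) (c0 : Sat.Clause) (s a b c d q : ℕ) : Bool :=
  aa (lt a b) (aa (lt b c) (aa (lt c d) (aa (lt d n) (aa (lt s n)
   (aa (nn (Nat.beq s a)) (aa (nn (Nat.beq s b)) (aa (nn (Nat.beq s c)) (aa (nn (Nat.beq s d))
   (aa (Nat.beq (bt (nat_lit 689156323484764560) q) (nat_lit 1))
   (st FM c0 (Nat.xor (cs s a b) (bt q (nat_lit 0)))
    (st FM c0 (Nat.xor (cs s c d) (bt q (nat_lit 1)))
     (st FM c0 (Nat.xor (cs s a c) (bt q (nat_lit 2)))
      (st FM c0 (Nat.xor (cs s b d) (bt q (nat_lit 3)))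
       (st FM c0 (Nat.xor (cs s a d) (bt q (nat_lit 4)))
        (st FM c0 (Nat.xor (cs s b c) (bt q (nat_lit 5))) (fun _ => true)))))) c0))))))))))

/-- Candidates `w, w + 1, …` (`k` of them) with the chosen edges in `e` (base 32): `P` is the packed
polygon (`v` vertices, closed up).  Either `w` is the vertex `q` or the atom of edge `q` is `out`. -/
def cw (FM : ℕ) (c0 : Sat.Clause) (P v : ℕ) (k : ℕ) : ℕ → ℕ → Sat.Clause → Bool :=
  Nat.rec (motive := fun _ => ℕ → ℕ → Sat.Clause → Bool) (fun _ _ _ => true)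
    (fun _ ih w e c =>
      aa (lt (Nat.mod e (nat_lit 32)) v)
        (Bool.rec
          (st FM c0 (ca (dg P (Nat.mul (nat_lit 5) (Nat.mod e (nat_lit 32))))
              (dg P (Nat.mul (nat_lit 5) (Nat.succ (Nat.mod e (nat_lit 32))))) w)
            (ih (Nat.succ w) (Nat.shiftRight e (nat_lit 5))) c)
          (ih (Nat.succ w) (Nat.shiftRight e (nat_lit 5)) c)
          (Nat.beq w (dg P (Nat.mul (nat_lit 5) (Nat.mod e (nat_lit 32))))))) k

/-- `x` is different from the first `k` digits of `P`. -/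
def nin (x P : ℕ) (k : ℕ) : Bool :=
  Nat.rec (motive := fun _ => ℕ → Bool) (fun _ => true)
    (fun _ ih P => aa (nn (Nat.beq x (Nat.mod P (nat_lit 32)))) (ih (Nat.shiftRight P (nat_lit 5)))) k P
/-- The first `k` digits of `P` are pairwise different and `< n`. -/
def dst (n P : ℕ) (k : ℕ) : Bool :=
  Nat.rec (motive := fun _ => ℕ → Bool) (fun _ => true)
    (fun k ih P => aa (lt (Nat.mod P (nat_lit 32)) n)
      (aa (nin (Nat.mod P (nat_lit 32)) (Nat.shiftRight P (nat_lit 5)) k)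
        (ih (Nat.shiftRight P (nat_lit 5))))) k P

/-- Negated star conditions of the polygon. -/
def star6 (FM : ℕ) (c0 : Sat.Clause) (a b c d e f : ℕ) (k : Sat.Clause → Bool) : Sat.Clause → Bool :=
  st FM c0 (ca b a c) (st FM c0 (ca b a d) (st FM c0 (ca b a e) (st FM c0 (ca b a f)
    (st FM c0 (ca c a d) (st FM c0 (ca d a e) (st FM c0 (ca e a f) (st FM c0 (ca c b d)
      (st FM c0 (ca d c e) (st FM c0 (ca e d f) k)))))))))
def star5 (FM : ℕ) (c0 : Sat.Clause) (a b c d e : ℕ) (k : Sat.Clause → Bool) : Sat.Clause → Bool :=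
  st FM c0 (ca b a c) (st FM c0 (ca b a d) (st FM c0 (ca b a e) (st FM c0 (ca c a d)
    (st FM c0 (ca d a e) (st FM c0 (ca c b d) (st FM c0 (ca d c e) k))))))

/-- Atoms `(p, q, x)` for the first `k` digits `x ≠ p, q` of `P`. -/
def hypL (FM : ℕ) (c0 : Sat.Clause) (p q P : ℕ) (k : ℕ) (K : Sat.Clause → Bool) : Sat.Clause → Bool :=
  Nat.rec (motive := fun _ => ℕ → Sat.Clause → Bool) (fun _ => K)
    (fun _ ih P => Bool.rec
      (Bool.rec (st FM c0 (ca p q (Nat.mod P (nat_lit 32))) (ih (Nat.shiftRight P (nat_lit 5))))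
        (ih (Nat.shiftRight P (nat_lit 5))) (Nat.beq q (Nat.mod P (nat_lit 32))))
      (ih (Nat.shiftRight P (nat_lit 5))) (Nat.beq p (Nat.mod P (nat_lit 32)))) k P
/-- Atoms `(a, b, s), …, (a, b, s + k - 1)`. -/
def hypR (FM : ℕ) (c0 : Sat.Clause) (a b s : ℕ) (k : ℕ) (K : Sat.Clause → Bool) : Sat.Clause → Bool :=
  Nat.rec (motive := fun _ => ℕ → Sat.Clause → Bool) (fun _ => K)
    (fun _ ih s => st FM c0 (ca a b s) (ih (Nat.succ s))) k s

/-- Cyclic successor and predecessor in the layer of `z` points starting at `s`. -/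
def nx (s z x : ℕ) : ℕ := Nat.add s (Nat.mod (Nat.succ (Nat.sub x s)) z)
def pv (s z x : ℕ) : ℕ := Nat.add s (Nat.mod (Nat.sub (Nat.add (Nat.sub x s) z) (nat_lit 1)) z)

/-- Kind 3: edge `(a, b)`, one end `q` in the layer, both neighbours of `q` on the right. -/
def kind3 (FM : ℕ) (c0 : Sat.Clause) (s z a b q : ℕ) (K : Sat.Clause → Bool) : Sat.Clause → Bool :=
  fun c => aa (Nat.ble s q) (aa (lt q (Nat.add s z))
    (st FM c0 (ca a b (pv s z q)) (st FM c0 (ca a b (nx s z q)) K) c))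

/-- Clause 3 (hexagon): `P` packed polygon (closed up), `kd` kind, `g` argument of the kind, `e` edges;
`s`, `z` first label and size of the deepest labelled layer, `w` number of candidates, `m` mode. -/
def chkHex (n FM s z w m : ℕ) (c0 : Sat.Clause) (P kd g e : ℕ) : Bool :=
  aa (dst n P (nat_lit 6)) (aa (Nat.beq (dg P (nat_lit 30)) (dg P (nat_lit 0)))
    (star6 FM c0 (dg P (nat_lit 0)) (dg P (nat_lit 5)) (dg P (nat_lit 10)) (dg P (nat_lit 15))
      (dg P (nat_lit 20)) (dg P (nat_lit 25))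
      (Bool.rec
        (Bool.rec
          (Bool.rec
            (Bool.rec
              (fun c => aa (Nat.beq kd (nat_lit 4)) (aa (Nat.beq m (nat_lit 3))
                (hypL FM c0 (Nat.add s z) (Nat.succ (Nat.add s z)) P (nat_lit 6)
                  (cw FM c0 P (nat_lit 6) w (nat_lit 9) e) c)))
              (fun c => aa (lt g (nat_lit 6))
                (Bool.rec
                  (kind3 FM c0 s z (dg P (Nat.mul (nat_lit 5) g)) (dg P (Nat.mul (nat_lit 5) (Nat.succ g)))
                    (dg P (Nat.mul (nat_lit 5) (Nat.succ g))) (cw FM c0 P (nat_lit 6) w (nat_lit 9) e) c)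
                  (kind3 FM c0 s z (dg P (Nat.mul (nat_lit 5) g)) (dg P (Nat.mul (nat_lit 5) (Nat.succ g)))
                    (dg P (Nat.mul (nat_lit 5) g)) (cw FM c0 P (nat_lit 6) w (nat_lit 9) e) c)
                  (Nat.ble s (dg P (Nat.mul (nat_lit 5) g)))))
              (Nat.beq kd (nat_lit 3)))
            (fun c => aa (lt g (nat_lit 6))
              (hypR FM c0 (dg P (Nat.mul (nat_lit 5) g)) (dg P (Nat.mul (nat_lit 5) (Nat.succ g))) s z
                (cw FM c0 P (nat_lit 6) w (nat_lit 9) e) c))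
            (Nat.beq kd (nat_lit 2)))
          (fun c => aa (lt g z)
            (hypL FM c0 (Nat.add s g) (nx s z (Nat.add s g)) P (nat_lit 6)
              (cw FM c0 P (nat_lit 6) w (nat_lit 9) e) c))
          (Nat.beq kd (nat_lit 1)))
        (fun c => aa (iff' (Nat.beq m (nat_lit 0)) true (Nat.beq m (nat_lit 6)))
          (cw FM c0 P (nat_lit 6) w (nat_lit 9) e c))
        (Nat.beq kd (nat_lit 0))) c0))

/-- Clause 4 (cone over the layer edge `p, q` at `z`): pentagon `p, a, b, c, q`, `P` packed. -/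
def chkZ (n FM i j m : ℕ) (c0 : Sat.Clause) (z P e : ℕ) : Bool :=
  aa (Nat.ble (Nat.add (Nat.add (nat_lit 9) i) j) z) (aa (lt z n)
    (aa (iff' (Nat.beq m (nat_lit 2)) true (Nat.beq m (nat_lit 3)))
    (aa (Nat.ble (Nat.add (nat_lit 9) i) (dg P (nat_lit 0)))
    (aa (lt (dg P (nat_lit 0)) (Nat.add (Nat.add (nat_lit 9) i) j))
    (aa (Nat.beq (dg P (nat_lit 20)) (nx (Nat.add (nat_lit 9) i) j (dg P (nat_lit 0))))
    (aa (Nat.beq (dg P (nat_lit 25)) (dg P (nat_lit 0)))
    (aa (dst (Nat.add (nat_lit 9) i) (Nat.shiftRight P (nat_lit 5)) (nat_lit 3))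
      (star5 FM c0 (dg P (nat_lit 0)) (dg P (nat_lit 5)) (dg P (nat_lit 10)) (dg P (nat_lit 15))
        (dg P (nat_lit 20))
        (st FM c0 (ca (dg P (nat_lit 0)) z (dg P (nat_lit 5)))
          (st FM c0 (ca (dg P (nat_lit 15)) z (dg P (nat_lit 20)))
            (cw FM c0 P (nat_lit 5) i (nat_lit 9) e))) c0))))))))

/-- The chain conditions: `E` packed chain `c_0, …, c_{u-1}, w`; all `c_a` are in `[lo, n)`,
neighbours are different; atoms `(c_a, z, w)`, `(c_a, z, c_{a+1})`, `(c_{a+1}, c_a, c_{a+2})`. -/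
def chain (n FM lo : ℕ) (c0 : Sat.Clause) (z w : ℕ) (u : ℕ) : ℕ → Sat.Clause → Bool :=
  Nat.rec (motive := fun _ => ℕ → Sat.Clause → Bool) (fun E _ => Nat.beq (Nat.mod E (nat_lit 32)) w)
    (fun u ih E c =>
      aa (Nat.ble lo (Nat.mod E (nat_lit 32))) (aa (lt (Nat.mod E (nat_lit 32)) n)
        (st FM c0 (ca (Nat.mod E (nat_lit 32)) z w)
          (Bool.rec
            (fun c => aa (nn (Nat.beq (Nat.mod E (nat_lit 32)) (dg E (nat_lit 5))))
              (st FM c0 (ca (Nat.mod E (nat_lit 32)) z (dg E (nat_lit 5)))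
                (st FM c0 (ca (dg E (nat_lit 5)) (Nat.mod E (nat_lit 32)) (dg E (nat_lit 10)))
                  (ih (Nat.shiftRight E (nat_lit 5)))) c))
            (ih (Nat.shiftRight E (nat_lit 5))) (Nat.beq u (nat_lit 0))) c))) u

/-- Clause 6 (minimality of `H`): the arc of `u` points of `H` after `z` is replaced by a chain. -/
def chkMin (n FM : ℕ) (c0 : Sat.Clause) (z u E : ℕ) : Bool :=
  aa (lt z (nat_lit 9)) (aa (Nat.ble (nat_lit 1) u) (aa (Nat.ble u (nat_lit 7))
    (chain n FM (nat_lit 9) c0 z (Nat.mod (Nat.succ (Nat.add z u)) (nat_lit 9)) u E c0)))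

/-- Clause 7: the arc of `u` points of `I` after `9 + z` is replaced by a chain of `u + 9 - i` points
deeper than `I`. -/
def chkIMin (n FM i : ℕ) (c0 : Sat.Clause) (z u E : ℕ) : Bool :=
  aa (lt z i) (aa (Nat.ble (nat_lit 1) u) (aa (Nat.ble (Nat.add u (nat_lit 2)) i)
    (aa (Nat.ble i (nat_lit 8))
    (chain n FM (Nat.add (nat_lit 9) i) c0 (Nat.add (nat_lit 9) z)
      (Nat.add (nat_lit 9) (Nat.mod (Nat.succ (Nat.add z u)) i))
      (Nat.sub (Nat.add u (nat_lit 9)) i) E c0))))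

/-- Clause 5 (cover, mode 5). -/
def chkCov (FM i m : ℕ) (c0 : Sat.Clause) (k q : ℕ) : Bool :=
  aa (lt k i) (aa (lt q (nat_lit 9)) (aa (Nat.beq m (nat_lit 5)) (aa (Nat.ble (nat_lit 3) i)
    (st FM c0 (ca (Nat.add (nat_lit 9) k) (Nat.add (nat_lit 9) (Nat.mod (Nat.succ k) i)) q)
      (st FM c0 (ca (Nat.add (nat_lit 9) (Nat.mod (Nat.succ k) i)) (Nat.add (nat_lit 9) k)
          (Nat.mod (Nat.add q (nat_lit 8)) (nat_lit 9)))
        (st FM c0 (ca (Nat.add (nat_lit 9) k)
            (Nat.add (nat_lit 9) (Nat.mod (Nat.sub (Nat.add k i) (nat_lit 1)) i))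
            (Nat.mod (Nat.succ q) (nat_lit 9))) (fun _ => true))) c0))))

/-- The check of one clause; the descriptor `d` is packed: type (3 bits), then base 32 digits. -/
def chk1 (i j m n FM s z w : ℕ) (c : Sat.Clause) (d : ℕ) : Bool :=
  Bool.rec
    (Bool.rec
      (Bool.rec
        (Bool.rec
          (Bool.rec
            (Bool.rec
              (aa (Nat.beq (Nat.mod d (nat_lit 8)) (nat_lit 5))
                (chkCov FM i m c (dg d (nat_lit 3)) (dg d (nat_lit 8))))
              (chk4 n FM c (dg d (nat_lit 3)) (dg d (nat_lit 8)) (dg d (nat_lit 13))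
                (dg d (nat_lit 18)))
              (Nat.beq (Nat.mod d (nat_lit 8)) (nat_lit 1)))
            (chkIMin n FM i c (dg d (nat_lit 3)) (dg d (nat_lit 8)) (Nat.shiftRight d (nat_lit 13)))
            (Nat.beq (Nat.mod d (nat_lit 8)) (nat_lit 7)))
          (chkZ n FM i j m c (dg d (nat_lit 3))
            (Nat.mod (Nat.shiftRight d (nat_lit 8)) (nat_lit 1073741824))
            (Nat.shiftRight d (nat_lit 38)))
          (Nat.beq (Nat.mod d (nat_lit 8)) (nat_lit 4)))
        (chkMin n FM c (dg d (nat_lit 3)) (dg d (nat_lit 8)) (Nat.shiftRight d (nat_lit 13)))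
        (Nat.beq (Nat.mod d (nat_lit 8)) (nat_lit 6)))
      (chkHex n FM s z w m c (Nat.mod (Nat.shiftRight d (nat_lit 13)) (nat_lit 34359738368))
        (dg d (nat_lit 3)) (dg d (nat_lit 8)) (Nat.shiftRight d (nat_lit 48)))
      (Nat.beq (Nat.mod d (nat_lit 8)) (nat_lit 3)))
    (chkGP n FM c (dg d (nat_lit 3)) (dg d (nat_lit 8)) (dg d (nat_lit 13)) (dg d (nat_lit 18))
      (dg d (nat_lit 23)) (Nat.shiftRight d (nat_lit 28)))
    (Nat.beq (Nat.mod d (nat_lit 8)) (nat_lit 2))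

/-- Binary tree of clauses. -/
inductive CT where
  | leaf (c : Sat.Clause)
  | node (l r : CT)

def CT.flat : CT → Sat.Fmla
  | CT.leaf c => Sat.Fmla.one c
  | CT.node l r => Sat.Fmla.and l.flat r.flat

/-- Reflection of a formula as a tree (found by instance resolution). -/
class Cov (f : Sat.Fmla) (t : outParam CT) : Prop where
  eq : f = t.flat

instance covOne (c : Sat.Clause) : Cov (Sat.Fmla.one c) (CT.leaf c) := ⟨rfl⟩
instance covAnd (a b : Sat.Fmla) (s t : CT) [ha : Cov a s] [hb : Cov b t] :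
    Cov (Sat.Fmla.and a b) (CT.node s t) := ⟨by rw [ha.eq, hb.eq]; rfl⟩

/-- Check all clauses of a tree with a checker `F`, descriptors from the list. -/
def chkT (F : Sat.Clause → ℕ → Bool) (t : CT) : List ℕ → (List ℕ → Bool) → Bool :=
  CT.rec (motive := fun _ => List ℕ → (List ℕ → Bool) → Bool)
    (fun c s k => List.rec (motive := fun _ => Bool) false (fun d s' _ => aa (F c d) (k s')) s)
    (fun _ _ a b s k => a s (fun s' => b s' k)) t

/-- A fixed atom `(a, b, c)` of family `t`. -/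
def fixA (i j m n t a b c : ℕ) : Bool :=
  Bool.rec
  (Bool.rec
  (Bool.rec
  (Bool.rec
  (Bool.rec
  (Bool.rec
  (Bool.rec
    (aa (Nat.beq t (nat_lit 7)) (aa (Nat.beq m (nat_lit 3))
      (aa (Nat.beq a (Nat.add (Nat.add (nat_lit 10) i) j))
      (aa (Nat.beq b (Nat.add (Nat.add (nat_lit 9) i) j)) (Nat.beq c (nat_lit 9))))))
    (aa (nn (Nat.beq m (nat_lit 5))) (aa (Nat.ble (nat_lit 3) i)
      (iff' (aa (Nat.beq a (nat_lit 9)) (aa (Nat.beq b (nat_lit 10)) (Nat.beq c (nat_lit 8)))) true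
      (iff' (aa (Nat.beq a (nat_lit 10)) (aa (Nat.beq b (nat_lit 9)) (Nat.beq c (nat_lit 0)))) true
      (iff' (aa (Nat.beq a (Nat.add (nat_lit 8) i)) (aa (Nat.beq b (nat_lit 9)) (Nat.beq c (nat_lit 1))))
        true
        (aa (Nat.beq a (nat_lit 9)) (aa (Nat.beq b (Nat.add (nat_lit 9) i))
          (aa (lt (Nat.add (nat_lit 9) i) c) (lt c (Nat.add (Nat.add (nat_lit 9) i) j))))))))))
    (Nat.beq t (nat_lit 6)))
    (aa (Nat.ble (nat_lit 3) j) (aa (Nat.ble (Nat.add (nat_lit 9) i) a)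
      (aa (lt a (Nat.add (Nat.add (nat_lit 9) i) j))
      (aa (Nat.beq b (nx (Nat.add (nat_lit 9) i) j a))
        (aa (Nat.ble (Nat.add (Nat.add (nat_lit 9) i) j) c) (lt c n))))))
    (Nat.beq t (nat_lit 5)))
    (aa (Nat.ble (nat_lit 3) i) (aa (Nat.ble (nat_lit 9) a) (aa (lt a (Nat.add (nat_lit 9) i))
      (aa (Nat.beq b (nx (nat_lit 9) i a)) (aa (Nat.ble (Nat.add (nat_lit 9) i) c) (lt c n))))))
    (Nat.beq t (nat_lit 4)))
    (aa (lt a (nat_lit 9)) (aa (Nat.beq b (Nat.mod (Nat.succ a) (nat_lit 9)))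
      (aa (Nat.ble (nat_lit 9) c) (lt c n))))
    (Nat.beq t (nat_lit 3)))
    (aa (Nat.ble (Nat.add (nat_lit 9) i) a) (aa (lt a b) (aa (lt b c)
      (lt c (Nat.add (Nat.add (nat_lit 9) i) j)))))
    (Nat.beq t (nat_lit 2)))
    (aa (Nat.ble (nat_lit 9) a) (aa (lt a b) (aa (lt b c) (lt c (Nat.add (nat_lit 9) i)))))
    (Nat.beq t (nat_lit 1)))
    (aa (lt a b) (aa (lt b c) (lt c (nat_lit 9))))
    (Nat.beq t (nat_lit 0))

/-- `FM` is the set of the codes of the atoms `(b, a, c)` for the fixed atoms `(a, b, c)` of the list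
`l` (packed: family 3 bits, `a`, `b`, `c`). -/
def chkF (i j m n : ℕ) (l : List ℕ) : ℕ → ℕ → Bool :=
  List.rec (motive := fun _ => ℕ → ℕ → Bool) (fun A FM => Nat.beq A FM)
    (fun d _ ih A FM => aa
      (fixA i j m n (Nat.mod d (nat_lit 8)) (dg d (nat_lit 3)) (dg d (nat_lit 8)) (dg d (nat_lit 13)))
      (ih (Nat.lor A (Nat.shiftLeft (nat_lit 1) (ca (dg d (nat_lit 8)) (dg d (nat_lit 3))
        (dg d (nat_lit 13))))) FM)) l

/-- The complete check of an instance. -/
def chkI (i j m n FM s z w : ℕ) (fl ds : List ℕ) (t : CT) : Bool :=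
  aa (Nat.beq n (nP i j m)) (aa (Nat.beq s (zS i m)) (aa (Nat.beq z (zN i j m))
    (aa (Nat.beq (Nat.add (nat_lit 9) w) (wE i j m))
    (aa (iff' (Nat.beq m (nat_lit 0)) true (iff' (Nat.beq m (nat_lit 6)) true (Nat.ble (nat_lit 3) z)))
    (aa (chkF i j m n fl (nat_lit 0) FM)
      (chkT (chk1 i j m n FM s z w) t ds (fun _ => true)))))))

/-- The instance is refuted. -/
def Refuted (i j m : ℕ) : Prop :=
  ∃ (f : Sat.Fmla) (t : CT) (n FM s z w : ℕ) (fl ds : List ℕ), f.proof [] ∧ f = t.flat ∧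
    chkI i j m n FM s z w fl ds t = true

theorem refuted_of {i j m : ℕ} {f : Sat.Fmla} {t : CT} (n FM s z w : ℕ) (fl ds : List ℕ)
    (hf : f.proof []) (h : Cov f t) (h2 : chkI i j m n FM s z w fl ds t = true) : Refuted i j m :=
  ⟨f, t, n, FM, s, z, w, fl, ds, hf, h.eq, h2⟩

end

/-! Texts for the proof command (not used in statements). -/

def chOf (d : ℕ) : Char := if d ≤ 10 then Char.ofNat (47 + d) else if d = 11 then ' ' else
  if d = 12 then '-' else if d = 13 then '\n' else if d = 14 then 'p' else 'c'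

def decT : ℕ → ℕ → String → String
  | 0, _, s => s
  | f + 1, n, s => if n = 0 then s else decT f (n / 16) (s.push (chOf (n % 16)))

/-- Text from base 16 digits. -/
def txt (N : List ℕ) : String := N.foldl (fun s n => decT 100000 n s) (String.ofList [])

/-- First line of a CNF file. -/
def pcnf (a b : ℕ) : String :=
  String.ofList ['p', ' ', 'c', 'n', 'f', ' '] ++ Nat.repr a ++ String.ofList [' '] ++ Nat.repr b ++
    String.ofList ['\n']

end Pool.BK5
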