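import Pool.Agent.BK5.Chk

/-!
MP_70b73c_co, 5-blocked sets, part B: checker for the clauses of the certificates of the blocked side.
Propositional variables (code of a variable = 2 * index, code of its negation = code + 1), `b0 = 2 C(n,3)`:
`P a b c` (`0 < D`), index `2 * rk a b c`; `Z a b c` (`D = 0`), index `2 * rk a b c + 1` (`a < b < c < n`);
`C i a` (`col i = a`), index `b0 + 5 i + a`; `B i j` (`col i = col j`, `i < j`), index `b1 + C(j,2) + i`,
`b1 = b0 + 5 n`; `W a q b` (`col a = 0`, `col b = 0`, not `P a q b`), index `b2 + rk a q b`,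
`b2 = b1 + C(n,2)` (only `ty = 2`); `S i j` (`j` is at most the number of special points among the first
`i`), index `b3 + 8 i + j`; `X i` (`i` is special, `ty = 1`), index `b4 + i`, `b4 = b3 + 8 (n + 1)`.
Types: 0 blocked set; 1 blocked set with 5 special extreme points; 2 hexagon.  The arguments
`B0, …, B4` are twice `b0, …, b4`.
-/

set_option autoImplicit false

namespace Pool.BK5

noncomputable section

def cP (a b c : ℕ) : ℕ := Nat.mul (nat_lit 2) (rd a b c)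
def cZ (a b c : ℕ) : ℕ := Nat.add (Nat.mul (nat_lit 2) (rd a b c)) (nat_lit 2)
def cC (B0 i a : ℕ) : ℕ := Nat.add B0 (Nat.mul (nat_lit 2) (Nat.add (Nat.mul (nat_lit 5) i) a))
def cB (B1 i j : ℕ) : ℕ := Nat.add B1 (Nat.add (t2d j) (Nat.mul (nat_lit 2) i))
def cBs (B1 i j : ℕ) : ℕ := Bool.rec (cB B1 j i) (cB B1 i j) (Nat.ble i j)
def cW (B2 a q b : ℕ) : ℕ := Nat.add B2 (rd a q b)
def cS (B3 i j : ℕ) : ℕ := Nat.add B3 (Nat.mul (nat_lit 2) (Nat.add (Nat.mul (nat_lit 8) i) j))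
def cX (B4 i : ℕ) : ℕ := Nat.add B4 (Nat.mul (nat_lit 2) i)
/-- Special points: `X i` for `ty = 1`, `C i 0` otherwise. -/
def cK (ty B0 B4 i : ℕ) : ℕ := Bool.rec (cC B0 i (nat_lit 0)) (cX B4 i) (Nat.beq ty (nat_lit 1))

/-- Position of a cube: option `o`: 0 nothing, 1 `¬P`, 2 `P`, 3 `¬Z`, 4 `Z`, 5 `P, Z`; `T` the code of
`P`. -/
def pos (FM : ℕ) (c0 : Sat.Clause) (o T : ℕ) (K : Sat.Clause → Bool) : Sat.Clause → Bool :=
  Bool.rec
    (Bool.rec
      (Bool.rec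
        (Bool.rec
          (Bool.rec
            (st FM c0 T (st FM c0 (Nat.add T (nat_lit 2)) K))
            (st FM c0 (Nat.add T (nat_lit 2)) K) (Nat.beq o (nat_lit 4)))
          (st FM c0 (Nat.add T (nat_lit 3)) K) (Nat.beq o (nat_lit 3)))
        (st FM c0 T K) (Nat.beq o (nat_lit 2)))
      (st FM c0 (Nat.succ T) K) (Nat.beq o (nat_lit 1)))
    K (Nat.beq o (nat_lit 0))

/-- Octal digit. -/
def og (q k : ℕ) : ℕ := Nat.mod (Nat.shiftRight q k) (nat_lit 8)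

/-- Type 1: a cube which is incompatible with all sixteen patterns (table). -/
def chkCube (n FM : ℕ) (c0 : Sat.Clause) (Q a b c d : ℕ) : Bool :=
  aa (Nat.beq (bt (nat_lit 683229659992642875211651971614820121373379686248793931338039167736064195764763568827442647713575021338726884458317264300702245987582896457345197404130906492159456795997412415959215511936387734779870823246814535930780443551096533431857504449606719930053826358842673280759986766159134679469243109849277983429951796163944488075016688981912326070866213947712251090980340454347545417271922305208853286567510144896460199263926629337507329339051984502724310934334300207611156609029139596024545641995554410093522465621592914834101016525288634449379003952980839345210194017500542657390827686302652776726951998946882754944238750302010904750320218083758682729051094685599058206174829733955402372537345758618205261262343370526950678843915794482861934981409536485444101005723594518463581385539463742670032187750581537584289943131081662676144276487499311347728806619494633084331411434897408)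 Q) (nat_lit 1)) (aa (lt a b) (aa (lt b c) (aa (lt c d) (aa (lt d n)
    (pos FM c0 (og Q (nat_lit 0)) (cP a b c) (pos FM c0 (og Q (nat_lit 3)) (cP a b d)
      (pos FM c0 (og Q (nat_lit 6)) (cP a c d) (pos FM c0 (og Q (nat_lit 9)) (cP b c d)
        (fun _ => true)))) c0)))))

/-- The codes `f s, …, f (s + k - 1)`. -/
def lp (FM : ℕ) (c0 : Sat.Clause) (f : ℕ → ℕ) (k : ℕ) (K : Sat.Clause → Bool) :
    ℕ → Sat.Clause → Bool :=
  Nat.rec (motive := fun _ => ℕ → Sat.Clause → Bool) (fun _ => K)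
    (fun _ ih s => st FM c0 (f s) (ih (Nat.succ s))) k
/-- The codes `W a q b` for `k` values of `a` from `s`, all `q < b < n`. -/
def lpW (FM : ℕ) (c0 : Sat.Clause) (n B2 q : ℕ) (k : ℕ) (K : Sat.Clause → Bool) :
    ℕ → Sat.Clause → Bool :=
  Nat.rec (motive := fun _ => ℕ → Sat.Clause → Bool) (fun _ => K)
    (fun _ ih s => lp FM c0 (fun b => cW B2 s q b) (Nat.sub n (Nat.succ q)) (ih (Nat.succ s))
      (Nat.succ q)) k

/-- One, two, three, four codes. -/
def s1 (FM : ℕ) (c0 : Sat.Clause) (x : ℕ) : Bool := st FM c0 x (fun _ => true) c0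
def s2 (FM : ℕ) (c0 : Sat.Clause) (x y : ℕ) : Bool := st FM c0 x (st FM c0 y (fun _ => true)) c0
def s3 (FM : ℕ) (c0 : Sat.Clause) (x y z : ℕ) : Bool :=
  st FM c0 x (st FM c0 y (st FM c0 z (fun _ => true))) c0
def s4 (FM : ℕ) (c0 : Sat.Clause) (x y z w : ℕ) : Bool :=
  st FM c0 x (st FM c0 y (st FM c0 z (st FM c0 w (fun _ => true)))) c0

/-- Types 2, …, 10 (all instances); `x, y, z` the arguments. -/
def chkG (n k FM B0 B1 : ℕ) (c0 : Sat.Clause) (t x y z : ℕ) : Bool :=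
  Bool.rec
  (Bool.rec
  (Bool.rec
  (Bool.rec
  (Bool.rec
  (Bool.rec
  (Bool.rec
  (Bool.rec
    -- 10 : `¬C x (y+1)`, `C m y` for `m < x`
    (aa (Nat.beq t (nat_lit 10)) (aa (lt x n) (aa (lt (Nat.succ y) k)
      (st FM c0 (Nat.succ (cC B0 x (Nat.succ y)))
        (lp FM c0 (fun m => cC B0 m y) x (fun _ => true) (nat_lit 0)) c0))))
    -- 9 : `P 0 x y`, `Z 0 x y`
    (aa (lt (nat_lit 0) x) (aa (lt x y) (aa (lt y n)
      (s2 FM c0 (cP (nat_lit 0) x y) (cZ (nat_lit 0) x y)))))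
    (Nat.beq t (nat_lit 9)))
    -- 4 : `¬C x y`, `¬C x z`
    (aa (lt x n) (aa (lt y k) (aa (lt z k) (aa (nn (Nat.beq y z))
      (s2 FM c0 (Nat.succ (cC B0 x y)) (Nat.succ (cC B0 x z)))))))
    (Nat.beq t (nat_lit 4)))
    -- 3 : `C x a`, all `a < k`
    (aa (lt x n) (lp FM c0 (fun a => cC B0 x a) k (fun _ => true) (nat_lit 0) c0))
    (Nat.beq t (nat_lit 3)))
    -- 2 : `¬P x y z`, `¬Z x y z`
    (aa (lt x y) (aa (lt y z) (aa (lt z n) (s2 FM c0 (Nat.succ (cP x y z)) (Nat.succ (cZ x y z))))))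
    (Nat.beq t (nat_lit 2)))
    -- 5 : `¬B x y`, `Z x m y` for `x < m < y`
    (aa (lt x y) (aa (lt y n) (st FM c0 (Nat.succ (cB B1 x y))
      (lp FM c0 (fun m => cZ x m y) (Nat.sub y (Nat.succ x)) (fun _ => true) (Nat.succ x)) c0)))
    (Nat.beq t (nat_lit 5)))
    -- 6 : `¬Z x y z`, `B x z`
    (aa (lt x y) (aa (lt y z) (aa (lt z n) (s2 FM c0 (Nat.succ (cZ x y z)) (cB B1 x z)))))
    (Nat.beq t (nat_lit 6)))
    -- 8 : `B x y`, `¬C x z`, `¬C y z`
    (aa (nn (Nat.beq x y)) (aa (lt x n) (aa (lt y n) (aa (lt z k)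
      (s3 FM c0 (cBs B1 x y) (Nat.succ (cC B0 x z)) (Nat.succ (cC B0 y z)))))))
    (Nat.beq t (nat_lit 8)))
    -- 7 : `¬B x y`, `¬C x z`, `C y z`
    (aa (nn (Nat.beq x y)) (aa (lt x n) (aa (lt y n) (aa (lt z k)
      (s3 FM c0 (Nat.succ (cBs B1 x y)) (Nat.succ (cC B0 x z)) (cC B0 y z))))))
    (Nat.beq t (nat_lit 7))

/-- Types 17, …, 20 (counters, `ty = 1, 2`). -/
def chkS (n ty FM B0 B3 B4 : ℕ) (c0 : Sat.Clause) (t i j : ℕ) : Bool :=
  aa (nn (Nat.beq ty (nat_lit 0))) (aa (lt i n) (aa (lt j (nat_lit 7))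
  (Bool.rec
  (Bool.rec
  (Bool.rec
    (aa (Nat.beq t (nat_lit 20))
      (s3 FM c0 (cS B3 (Nat.succ i) (Nat.succ j)) (Nat.succ (cS B3 i j)) (Nat.succ (cK ty B0 B4 i))))
    (s2 FM c0 (cS B3 (Nat.succ i) (Nat.succ j)) (Nat.succ (cS B3 i (Nat.succ j))))
    (Nat.beq t (nat_lit 19)))
    (s3 FM c0 (Nat.succ (cS B3 (Nat.succ i) (Nat.succ j))) (cS B3 i (Nat.succ j)) (cK ty B0 B4 i))
    (Nat.beq t (nat_lit 18)))
    (s3 FM c0 (Nat.succ (cS B3 (Nat.succ i) (Nat.succ j))) (cS B3 i (Nat.succ j)) (cS B3 i j))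
    (Nat.beq t (nat_lit 17)))))

/-- Types 11, …, 16 (`ty = 2`). -/
def chkH (n FM B0 B2 : ℕ) (c0 : Sat.Clause) (t x y z v : ℕ) : Bool :=
  Bool.rec
  (Bool.rec
  (Bool.rec
  (Bool.rec
  (Bool.rec
    -- 13 : `¬Z 0 (x-1) x`, `C x 0`  (here `x` is the smaller index)
    (aa (Nat.beq t (nat_lit 13)) (aa (lt (nat_lit 0) x) (aa (lt (Nat.succ x) n)
      (s2 FM c0 (Nat.succ (cZ (nat_lit 0) x (Nat.succ x))) (cC B0 (Nat.succ x) (nat_lit 0))))))
    -- 12 : `¬C (x+1) 0`, `Z 0 x (x+1)`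
    (aa (lt (nat_lit 0) x) (aa (lt (Nat.succ x) n)
      (s2 FM c0 (Nat.succ (cC B0 (Nat.succ x) (nat_lit 0))) (cZ (nat_lit 0) x (Nat.succ x)))))
    (Nat.beq t (nat_lit 12)))
    -- 11 : `¬C (x+1) 0`, `¬C x 0`
    (aa (lt (nat_lit 0) x) (aa (lt (Nat.succ x) n)
      (s2 FM c0 (Nat.succ (cC B0 (Nat.succ x) (nat_lit 0))) (Nat.succ (cC B0 x (nat_lit 0))))))
    (Nat.beq t (nat_lit 11)))
    -- 15 : `C x 0`, `C (x+1) 0`, `W a x b` for `2 ≤ a < x < b < n`
    (aa (lt (nat_lit 0) x) (aa (lt (Nat.succ x) n)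
      (st FM c0 (cC B0 x (nat_lit 0)) (st FM c0 (cC B0 (Nat.succ x) (nat_lit 0))
        (lpW FM c0 n B2 x (Nat.sub x (nat_lit 2)) (fun _ => true) (nat_lit 2))) c0)))
    (Nat.beq t (nat_lit 15)))
    -- 14 : `¬W x y z` and `C x 0` / `C z 0` / `¬P x y z`
    (aa (lt x y) (aa (lt y z) (aa (lt z n)
      (s2 FM c0 (Nat.succ (cW B2 x y z))
        (Bool.rec (Bool.rec (Nat.succ (cP x y z)) (cC B0 z (nat_lit 0)) (Nat.beq v (nat_lit 1)))
          (cC B0 x (nat_lit 0)) (Nat.beq v (nat_lit 0)))))))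
    (Nat.beq t (nat_lit 14)))
    -- 16 : `¬C x 0`, `¬C y 0`, `¬C z 0`, `P x y z`
    (aa (lt (nat_lit 0) x) (aa (lt x y) (aa (lt y z) (aa (lt z n)
      (s4 FM c0 (Nat.succ (cC B0 x (nat_lit 0))) (Nat.succ (cC B0 y (nat_lit 0)))
        (Nat.succ (cC B0 z (nat_lit 0))) (cP x y z))))))
    (Nat.beq t (nat_lit 16))

/-- Types 21, 22 (`ty = 1`). -/
def chkX (n FM B4 : ℕ) (c0 : Sat.Clause) (t x y z : ℕ) : Bool :=
  Bool.rec
    -- 22 : `¬X x`, `¬Z 0 x (x+1)`
    (aa (Nat.beq t (nat_lit 22)) (aa (lt (nat_lit 0) x) (aa (lt (Nat.succ x) n)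
      (s2 FM c0 (Nat.succ (cX B4 x)) (Nat.succ (cZ (nat_lit 0) x (Nat.succ x)))))))
    -- 21 : `¬X x`, `P y x z`
    (aa (lt (nat_lit 0) y) (aa (lt y x) (aa (lt x z) (aa (lt z n)
      (s2 FM c0 (Nat.succ (cX B4 x)) (cP y x z))))))
    (Nat.beq t (nat_lit 21))

/-- The check of one clause; the descriptor `d` is packed: type (5 bits), then base 32 digits
(type 1: 12 bits for the cube, then digits). -/
def chkB1 (n k ty FM B0 B1 B2 B3 B4 : ℕ) (c : Sat.Clause) (d : ℕ) : Bool :=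
  Bool.rec
    (Bool.rec
      (Bool.rec
        (Bool.rec
          (aa (Nat.beq ty (nat_lit 1)) (chkX n FM B4 c (Nat.mod d (nat_lit 32)) (dg d (nat_lit 5))
            (dg d (nat_lit 10)) (dg d (nat_lit 15))))
          (chkS n ty FM B0 B3 B4 c (Nat.mod d (nat_lit 32)) (dg d (nat_lit 5)) (dg d (nat_lit 10)))
          (lt (Nat.mod d (nat_lit 32)) (nat_lit 21)))
        (aa (Nat.beq ty (nat_lit 2)) (chkH n FM B0 B2 c (Nat.mod d (nat_lit 32)) (dg d (nat_lit 5))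
          (dg d (nat_lit 10)) (dg d (nat_lit 15)) (dg d (nat_lit 20))))
        (lt (Nat.mod d (nat_lit 32)) (nat_lit 17)))
      (chkG n k FM B0 B1 c (Nat.mod d (nat_lit 32)) (dg d (nat_lit 5)) (dg d (nat_lit 10))
        (dg d (nat_lit 15)))
      (lt (Nat.mod d (nat_lit 32)) (nat_lit 11)))
    (chkCube n FM c (Nat.mod (Nat.shiftRight d (nat_lit 5)) (nat_lit 4096)) (dg d (nat_lit 17))
      (dg d (nat_lit 22)) (dg d (nat_lit 27)) (dg d (nat_lit 32)))
    (Nat.beq (Nat.mod d (nat_lit 32)) (nat_lit 1))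

/-- Bounds for the number of special points among the first `i`. -/
def loB (n ty i : ℕ) : ℕ :=
  Bool.rec
    (Bool.rec
      (Bool.rec
        (Bool.rec (Bool.rec (nat_lit 0) (nat_lit 1) (Nat.ble (nat_lit 1) i)) (nat_lit 2)
          (Nat.ble (nat_lit 3) i))
        (nat_lit 5) (Nat.ble n (Nat.add i (nat_lit 2))))
      (nat_lit 6) (Nat.beq i n))
    (Bool.rec (nat_lit 0) (nat_lit 5) (Nat.beq i n)) (Nat.beq ty (nat_lit 1))
def hiB (n ty i : ℕ) : ℕ :=
  Bool.rec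
    (Bool.rec
      (Bool.rec
        (Bool.rec (Bool.rec (nat_lit 5) (nat_lit 2) (Nat.ble i (nat_lit 4))) (nat_lit 1)
          (Nat.ble i (nat_lit 2)))
        (nat_lit 0) (Nat.beq i (nat_lit 0)))
      (nat_lit 6) (Nat.beq i n))
    (Bool.rec (Nat.sub i (nat_lit 1)) (nat_lit 5) (Nat.ble (nat_lit 6) i)) (Nat.beq ty (nat_lit 1))

/-- Validity of a fixed literal: family `t`, arguments `x`, `y`. -/
def fixB (n k ty t x y : ℕ) : Bool :=
  Bool.rec
  (Bool.rec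
  (Bool.rec
  (Bool.rec
  (Bool.rec
  (Bool.rec
  (Bool.rec
  (Bool.rec
  (Bool.rec
  (Bool.rec
    (aa (Nat.beq t (nat_lit 10)) (Nat.beq ty (nat_lit 1)))
    (aa (nn (Nat.beq ty (nat_lit 0))) (aa (Nat.ble x n) (aa (lt y (nat_lit 8)) (lt (hiB n ty x) y))))
    (Nat.beq t (nat_lit 9)))
    (aa (nn (Nat.beq ty (nat_lit 0))) (aa (Nat.ble x n) (aa (lt y (nat_lit 8)) (Nat.ble y (loB n ty x)))))
    (Nat.beq t (nat_lit 8)))
    (aa (Nat.beq ty (nat_lit 2)) (aa (iff' (Nat.beq x (nat_lit 2)) true (Nat.beq (Nat.succ x) n))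
      (aa (Nat.ble (nat_lit 1) y) (lt y k))))
    (Nat.beq t (nat_lit 7)))
    (aa (Nat.beq ty (nat_lit 2)) (lt x (nat_lit 8)))
    (Nat.beq t (nat_lit 6)))
    (lt (Nat.succ x) n)
    (Nat.beq t (nat_lit 5)))
    true
    (Nat.beq t (nat_lit 4)))
    (aa (lt x y) (aa (lt y k) (lt x n)))
    (Nat.beq t (nat_lit 3)))
    (Nat.ble x (nat_lit 1))
    (Nat.beq t (nat_lit 2)))
    (aa (lt (nat_lit 0) x) (aa (lt (Nat.succ x) y) (lt y n)))
    (Nat.beq t (nat_lit 1)))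
    (aa (lt (nat_lit 0) x) (aa (lt (Nat.succ x) y) (lt y n)))
    (Nat.beq t (nat_lit 0))

/-- Code of the false literal of a fixed literal. -/
def fcB (n B0 B1 B3 B4 t x y : ℕ) : ℕ :=
  Bool.rec
  (Bool.rec
  (Bool.rec
  (Bool.rec
  (Bool.rec
  (Bool.rec
  (Bool.rec
  (Bool.rec
  (Bool.rec
  (Bool.rec
    (cX B4 (nat_lit 0))
    (cS B3 x y)
    (Nat.beq t (nat_lit 9)))
    (Nat.succ (cS B3 x y))
    (Nat.beq t (nat_lit 8)))
    (cC B0 x y)
    (Nat.beq t (nat_lit 7)))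
    (Bool.rec
      (Bool.rec
        (Bool.rec
          (Bool.rec
            (Bool.rec
              (Bool.rec
                (Bool.rec
                  (cC B0 (nat_lit 3) (nat_lit 0))
                  (cC B0 (Nat.sub n (nat_lit 2)) (nat_lit 0)) (Nat.beq x (nat_lit 6)))
                (Nat.succ (cC B0 (Nat.sub n (nat_lit 1)) (nat_lit 0))) (Nat.beq x (nat_lit 5)))
              (Nat.succ (cC B0 (nat_lit 2) (nat_lit 0))) (Nat.beq x (nat_lit 4)))
            (cP (nat_lit 0) (Nat.sub n (nat_lit 2)) (Nat.sub n (nat_lit 1))) (Nat.beq x (nat_lit 3)))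
          (Nat.succ (cZ (nat_lit 0) (Nat.sub n (nat_lit 2)) (Nat.sub n (nat_lit 1))))
          (Nat.beq x (nat_lit 2)))
        (cP (nat_lit 0) (nat_lit 1) (nat_lit 2)) (Nat.beq x (nat_lit 1)))
      (Nat.succ (cZ (nat_lit 0) (nat_lit 1) (nat_lit 2))) (Nat.beq x (nat_lit 0)))
    (Nat.beq t (nat_lit 6)))
    (cB B1 x (Nat.succ x))
    (Nat.beq t (nat_lit 5)))
    (cC B0 (nat_lit 1) (nat_lit 0))
    (Nat.beq t (nat_lit 4)))
    (cC B0 x y)
    (Nat.beq t (nat_lit 3)))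
    (Nat.succ (cC B0 x x))
    (Nat.beq t (nat_lit 2)))
    (cZ (nat_lit 0) x y)
    (Nat.beq t (nat_lit 1)))
    (Nat.succ (cP (nat_lit 0) x y))
    (Nat.beq t (nat_lit 0))

/-- `FM` is the set of the codes of the false literals of the list (packed: family, `x`, `y`). -/
def chkFB (n k ty B0 B1 B3 B4 : ℕ) (l : List ℕ) : ℕ → ℕ → Bool :=
  List.rec (motive := fun _ => ℕ → ℕ → Bool) (fun A FM => Nat.beq A FM)
    (fun d _ ih A FM => aa
      (fixB n k ty (Nat.mod d (nat_lit 32)) (dg d (nat_lit 5)) (dg d (nat_lit 10)))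
      (ih (Nat.lor A (Nat.shiftLeft (nat_lit 1) (fcB n B0 B1 B3 B4 (Nat.mod d (nat_lit 32))
        (dg d (nat_lit 5)) (dg d (nat_lit 10))))) FM)) l

/-- The complete check of an instance. -/
def chkIB (n k ty FM B0 B1 B2 B3 B4 : ℕ) (fl ds : List ℕ) (t : CT) : Bool :=
  aa (Nat.beq B0 (Nat.mul (nat_lit 2) (t3d n)))
  (aa (Nat.beq B1 (Nat.add B0 (Nat.mul (nat_lit 10) n)))
  (aa (Nat.beq B2 (Nat.add B1 (t2d n)))
  (aa (Nat.beq B3 (Bool.rec B2 (Nat.add B2 (t3d n)) (Nat.beq ty (nat_lit 2))))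
  (aa (Nat.beq B4 (Nat.add B3 (Nat.mul (nat_lit 16) (Nat.succ n))))
  (aa (chkFB n k ty B0 B1 B3 B4 fl (nat_lit 0) FM)
    (chkT (chkB1 n k ty FM B0 B1 B2 B3 B4) t ds (fun _ => true)))))))

/-- The instance is refuted. -/
def RefutedB (n k ty : ℕ) : Prop :=
  ∃ (f : Sat.Fmla) (t : CT) (FM B0 B1 B2 B3 B4 : ℕ) (fl ds : List ℕ), f.proof [] ∧ f = t.flat ∧
    chkIB n k ty FM B0 B1 B2 B3 B4 fl ds t = true

theorem refutedB_of {n k ty : ℕ} {f : Sat.Fmla} {t : CT} (FM B0 B1 B2 B3 B4 : ℕ) (fl ds : List ℕ)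
    (hf : f.proof []) (h : Cov f t) (h2 : chkIB n k ty FM B0 B1 B2 B3 B4 fl ds t = true) :
    RefutedB n k ty :=
  ⟨f, t, FM, B0, B1, B2, B3, B4, fl, ds, hf, h.eq, h2⟩

end

end Pool.BK5
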