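import Pool.Agent.BK5.StmtsC

/-!
MP_70b73c_co, 5-blocked sets, part C: cover clauses and fixed atoms.
-/

set_option autoImplicit false

namespace Pool.BK5

namespace CovFix

theorem aa_true {b c : Bool} (h : aa b c = true) : b = true ∧ c = true := by
  cases b
  · exact absurd h (by change ¬(false = true); exact Bool.false_ne_true)
  · exact ⟨rfl, h⟩

theorem iff_true' {b x : Bool} (h : iff' b true x = true) : b = true ∨ x = true := by
  cases b
  · exact Or.inr h
  · exact Or.inl rfl

theorem lt_true {a b : ℕ} (h : lt a b = true) : a < b := Nat.le_of_ble_eq_true h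

theorem nn_true {b : Bool} (h : nn b = true) : b = false := by
  cases b
  · rfl
  · exact absurd h (by change ¬(false = true); exact Bool.false_ne_true)

theorem sub_refl (c : Sat.Clause) : Sub c c := fun _ h => h

theorem D_eq_zero₁ (a c : Pt) : D a a c = 0 := by unfold D; ring

theorem D_eq_zero₂ (a b : Pt) : D a b a = 0 := by unfold D; ring

theorem D_eq_zero₃ (a b : Pt) : D a b b = 0 := by unfold D; ring

theorem D_swap (a b c : Pt) : D b a c = -D a b c := by unfold D; ring

/-- The fixed atoms are true. -/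
theorem fix_pos {i j m : ℕ} {p : ℕ → Pt} {Hd : Finset Pt} (M : Model i j m p Hd) {t a b c : ℕ}
    (h : fixA i j m (nP i j m) t a b c = true) : 0 < D (p a) (p b) (p c) := by
  unfold fixA at h
  rcases h0 : Nat.beq t 0 with _ | _
  swap
  · have h' : aa (lt a b) (aa (lt b c) (lt c 9)) = true := by
      have h1 : Nat.beq t (nat_lit 0) = true := h0
      rw [h1] at h
      exact h
    obtain ⟨h1, h2⟩ := aa_true h'
    obtain ⟨h2, h3⟩ := aa_true h2
    exact M.cH a b c (lt_true h1) (lt_true h2) (lt_true h3)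
  have h1 : Nat.beq t (nat_lit 0) = false := h0
  rw [h1] at h
  clear h0 h1
  rcases h0 : Nat.beq t 1 with _ | _
  swap
  · have h' : aa (Nat.ble 9 a) (aa (lt a b) (aa (lt b c) (lt c (9 + i)))) = true := by
      have h1 : Nat.beq t (nat_lit 1) = true := h0
      rw [h1] at h
      exact h
    obtain ⟨h1, h2⟩ := aa_true h'
    obtain ⟨h2, h3⟩ := aa_true h2
    obtain ⟨h3, h4⟩ := aa_true h3
    have e1 := Nat.le_of_ble_eq_true h1
    have e2 := lt_true h2
    have e3 := lt_true h3
    have e4 := lt_true h4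
    have := M.cI (a - 9) (b - 9) (c - 9) (by omega) (by omega) (by omega)
    simp only at this
    rw [show 9 + (a - 9) = a by omega, show 9 + (b - 9) = b by omega,
      show 9 + (c - 9) = c by omega] at this
    exact this
  have h1 : Nat.beq t (nat_lit 1) = false := h0
  rw [h1] at h
  clear h0 h1
  rcases h0 : Nat.beq t 2 with _ | _
  swap
  · have h' : aa (Nat.ble (9 + i) a) (aa (lt a b) (aa (lt b c) (lt c (9 + i + j)))) = true := by
      have h1 : Nat.beq t (nat_lit 2) = true := h0
      rw [h1] at h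
      exact h
    obtain ⟨h1, h2⟩ := aa_true h'
    obtain ⟨h2, h3⟩ := aa_true h2
    obtain ⟨h3, h4⟩ := aa_true h3
    have e1 := Nat.le_of_ble_eq_true h1
    have e2 := lt_true h2
    have e3 := lt_true h3
    have e4 := lt_true h4
    have := M.cJ (a - (9 + i)) (b - (9 + i)) (c - (9 + i)) (by omega) (by omega) (by omega)
    simp only at this
    rw [show 9 + i + (a - (9 + i)) = a by omega, show 9 + i + (b - (9 + i)) = b by omega,
      show 9 + i + (c - (9 + i)) = c by omega] at this
    exact this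
  have h1 : Nat.beq t (nat_lit 2) = false := h0
  rw [h1] at h
  clear h0 h1
  rcases h0 : Nat.beq t 3 with _ | _
  swap
  · have h' : aa (lt a 9) (aa (Nat.beq b ((a + 1) % 9)) (aa (Nat.ble 9 c) (lt c (nP i j m)))) = true := by
      have h1 : Nat.beq t (nat_lit 3) = true := h0
      rw [h1] at h
      exact h
    obtain ⟨h1, h2⟩ := aa_true h'
    obtain ⟨h2, h3⟩ := aa_true h2
    obtain ⟨h3, h4⟩ := aa_true h3
    have e2 := Nat.eq_of_beq_eq_true h2
    rw [e2]
    exact M.inH a c (lt_true h1) (Nat.le_of_ble_eq_true h3) (lt_true h4)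
  have h1 : Nat.beq t (nat_lit 3) = false := h0
  rw [h1] at h
  clear h0 h1
  rcases h0 : Nat.beq t 4 with _ | _
  swap
  · have h' : aa (Nat.ble 3 i) (aa (Nat.ble 9 a) (aa (lt a (9 + i))
      (aa (Nat.beq b (9 + (a - 9 + 1) % i)) (aa (Nat.ble (9 + i) c) (lt c (nP i j m)))))) = true := by
      have h1 : Nat.beq t (nat_lit 4) = true := h0
      rw [h1] at h
      exact h
    obtain ⟨h1, h2⟩ := aa_true h'
    obtain ⟨h2, h3⟩ := aa_true h2
    obtain ⟨h3, h4⟩ := aa_true h3
    obtain ⟨h4, h5⟩ := aa_true h4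
    obtain ⟨h5, h6⟩ := aa_true h5
    have e1 := Nat.le_of_ble_eq_true h1
    have e2 := Nat.le_of_ble_eq_true h2
    have e3 := lt_true h3
    have e4 := Nat.eq_of_beq_eq_true h4
    have := M.inI e1 (a - 9) c (by omega) (Nat.le_of_ble_eq_true h5) (lt_true h6)
    rw [show 9 + (a - 9) = a by omega] at this
    rw [e4]
    exact this
  have h1 : Nat.beq t (nat_lit 4) = false := h0
  rw [h1] at h
  clear h0 h1
  rcases h0 : Nat.beq t 5 with _ | _
  swap
  · have h' : aa (Nat.ble 3 j) (aa (Nat.ble (9 + i) a) (aa (lt a (9 + i + j))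
      (aa (Nat.beq b (9 + i + (a - (9 + i) + 1) % j)) (aa (Nat.ble (9 + i + j) c)
        (lt c (nP i j m)))))) = true := by
      have h1 : Nat.beq t (nat_lit 5) = true := h0
      rw [h1] at h
      exact h
    obtain ⟨h1, h2⟩ := aa_true h'
    obtain ⟨h2, h3⟩ := aa_true h2
    obtain ⟨h3, h4⟩ := aa_true h3
    obtain ⟨h4, h5⟩ := aa_true h4
    obtain ⟨h5, h6⟩ := aa_true h5
    have e1 := Nat.le_of_ble_eq_true h1
    have e2 := Nat.le_of_ble_eq_true h2
    have e3 := lt_true h3
    have e4 := Nat.eq_of_beq_eq_true h4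
    have := M.inJ e1 (a - (9 + i)) c (by omega) (Nat.le_of_ble_eq_true h5) (lt_true h6)
    rw [show 9 + i + (a - (9 + i)) = a by omega] at this
    rw [e4]
    exact this
  have h1 : Nat.beq t (nat_lit 5) = false := h0
  rw [h1] at h
  clear h0 h1
  rcases h0 : Nat.beq t 6 with _ | _
  swap
  · have h' : aa (nn (Nat.beq m 5)) (aa (Nat.ble 3 i)
      (iff' (aa (Nat.beq a 9) (aa (Nat.beq b 10) (Nat.beq c 8))) true
      (iff' (aa (Nat.beq a 10) (aa (Nat.beq b 9) (Nat.beq c 0))) true
      (iff' (aa (Nat.beq a (8 + i)) (aa (Nat.beq b 9) (Nat.beq c 1))) true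
        (aa (Nat.beq a 9) (aa (Nat.beq b (9 + i))
          (aa (lt (9 + i) c) (lt c (9 + i + j))))))))) = true := by
      have h1 : Nat.beq t (nat_lit 6) = true := h0
      rw [h1] at h
      exact h
    obtain ⟨h1, h2⟩ := aa_true h'
    obtain ⟨h2, h3⟩ := aa_true h2
    have e1 : m ≠ 5 := by
      intro he
      have := nn_true h1
      rw [he] at this
      exact absurd this (by decide)
    have e2 := Nat.le_of_ble_eq_true h2
    obtain ⟨s1, s2, s3, s4⟩ := M.sym e1 e2
    rcases iff_true' h3 with h4 | h4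
    · obtain ⟨g1, g2⟩ := aa_true h4
      obtain ⟨g2, g3⟩ := aa_true g2
      rw [Nat.eq_of_beq_eq_true g1, Nat.eq_of_beq_eq_true g2, Nat.eq_of_beq_eq_true g3]
      exact s1
    rcases iff_true' h4 with h5 | h5
    · obtain ⟨g1, g2⟩ := aa_true h5
      obtain ⟨g2, g3⟩ := aa_true g2
      rw [Nat.eq_of_beq_eq_true g1, Nat.eq_of_beq_eq_true g2, Nat.eq_of_beq_eq_true g3]
      exact s2
    rcases iff_true' h5 with h6 | h6
    · obtain ⟨g1, g2⟩ := aa_true h6
      obtain ⟨g2, g3⟩ := aa_true g2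
      rw [Nat.eq_of_beq_eq_true g1, Nat.eq_of_beq_eq_true g2, Nat.eq_of_beq_eq_true g3]
      rw [show 9 + i - 1 = 8 + i by omega] at s3
      exact s3
    · obtain ⟨g1, g2⟩ := aa_true h6
      obtain ⟨g2, g3⟩ := aa_true g2
      obtain ⟨g3, g4⟩ := aa_true g3
      have e5 := lt_true g3
      have e6 := lt_true g4
      rw [Nat.eq_of_beq_eq_true g1, Nat.eq_of_beq_eq_true g2]
      have := s4 (c - (9 + i)) (by omega) (by omega)
      rw [show 9 + i + (c - (9 + i)) = c by omega] at this
      exact this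
  have h1 : Nat.beq t (nat_lit 6) = false := h0
  rw [h1] at h
  clear h0 h1
  have h' : aa (Nat.beq t 7) (aa (Nat.beq m 3) (aa (Nat.beq a (10 + i + j))
      (aa (Nat.beq b (9 + i + j)) (Nat.beq c 9)))) = true := h
  obtain ⟨_, h2⟩ := aa_true h'
  obtain ⟨h2, h3⟩ := aa_true h2
  obtain ⟨h3, h4⟩ := aa_true h3
  obtain ⟨h4, h5⟩ := aa_true h4
  have := (M.uv (Nat.eq_of_beq_eq_true h2)).1
  rw [Nat.eq_of_beq_eq_true h3, Nat.eq_of_beq_eq_true h4, Nat.eq_of_beq_eq_true h5]
  rw [show 9 + i + j + 1 = 10 + i + j by omega] at this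
  exact this

theorem bt_eq (q x : ℕ) : bt q x = 1 ↔ q.testBit x = true := by
  have h : bt q x = (q >>> x) % 2 := rfl
  rw [h, Nat.testBit, Nat.and_comm, Nat.and_one_is_mod]
  rcases Nat.mod_two_eq_zero_or_one (q >>> x) with h1 | h1 <;> rw [h1] <;> decide

end CovFix

open CovFix

theorem t_CCov (_hCa : S_Ca) (hSt : S_St) (hOut : S_Out) : S_CCov := by
  intro i j m n FM s z w p Hd c0 hE k q h
  have h' : aa (lt k i) (aa (lt q 9) (aa (Nat.beq m 5) (aa (Nat.ble 3 i)
    (st FM c0 (ca (9 + k) (9 + (k + 1) % i) q)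
      (st FM c0 (ca (9 + (k + 1) % i) (9 + k) ((q + 8) % 9))
        (st FM c0 (ca (9 + k) (9 + (k + i - 1) % i) ((q + 1) % 9)) (fun _ => true))) c0)))) = true := h
  obtain ⟨h1, h2⟩ := aa_true h'
  obtain ⟨h2, h3⟩ := aa_true h2
  obtain ⟨h3, h4⟩ := aa_true h3
  obtain ⟨_, h5⟩ := aa_true h4
  obtain ⟨o1, c1, s1, h6⟩ := hSt _ _ _ _ c0 (sub_refl c0) h5
  obtain ⟨o2, c2, s2, h7⟩ := hSt _ _ _ _ c1 s1 h6
  obtain ⟨o3, c3, s3, h8⟩ := hSt _ _ _ _ c2 s2 h7
  have ho := (hOut i j m n FM s z w p Hd c0 hE).2.1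
  have d1 := ho _ _ _ o1
  have d2 := ho _ _ _ o2
  have d3 := ho _ _ _ o3
  rcases hE.md.cov (Nat.eq_of_beq_eq_true h3) k q (lt_true h1) (lt_true h2) with g | g | g
  · linarith
  · linarith
  · linarith

theorem t_Fix (hCa : S_Ca) (_hSt : S_St) (_hOut : S_Out) : S_Fix := by
  intro i j m p Hd l FM M h
  have key : ∀ (l : List ℕ) (A : ℕ), (∀ x, bt A x = 1 → ¬tr p x) →
      chkF i j m (nP i j m) l A FM = true → ∀ x, bt FM x = 1 → ¬tr p x := by
    intro l
    induction l with
    | nil =>
      intro A hA hc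
      have h1 : Nat.beq A FM = true := hc
      rw [← Nat.eq_of_beq_eq_true h1]
      exact hA
    | cons d l ih =>
      intro A hA hc
      have h1 : aa (fixA i j m (nP i j m) (Nat.mod d (nat_lit 8)) (dg d (nat_lit 3)) (dg d (nat_lit 8))
          (dg d (nat_lit 13)))
        (chkF i j m (nP i j m) l (A ||| (1 <<< (ca (dg d (nat_lit 8)) (dg d (nat_lit 3))
          (dg d (nat_lit 13))))) FM) = true := hc
      obtain ⟨h2, h3⟩ := aa_true h1
      refine ih _ ?_ h3
      intro x hx
      rw [bt_eq, Nat.testBit_or, Bool.or_eq_true] at hx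
      rcases hx with hx | hx
      · exact hA x ((bt_eq _ _).2 hx)
      · rw [Nat.testBit_shiftLeft, Bool.and_eq_true, decide_eq_true_eq,
          Nat.testBit_one_eq_true_iff_self_eq_zero] at hx
        have hxe : x = ca (dg d (nat_lit 8)) (dg d (nat_lit 3)) (dg d (nat_lit 13)) := by
          have := hx.1
          have := hx.2
          omega
        have hp := fix_pos M h2
        have n1 : dg d (nat_lit 8) ≠ dg d (nat_lit 3) := by
          intro he
          rw [he, D_eq_zero₁] at hp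
          exact lt_irrefl _ hp
        have n2 : dg d (nat_lit 8) ≠ dg d (nat_lit 13) := by
          intro he
          rw [he, D_eq_zero₃] at hp
          exact lt_irrefl _ hp
        have n3 : dg d (nat_lit 3) ≠ dg d (nat_lit 13) := by
          intro he
          rw [← he, D_eq_zero₂] at hp
          exact lt_irrefl _ hp
        rw [hxe]
        intro htr
        have hq := ((hCa p).1 _ _ _ n1 n2 n3).1 htr
        rw [D_swap] at hq
        linarith
  exact key l 0 (by
    intro x hx
    rw [bt_eq, Nat.zero_testBit] at hx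
    exact absurd hx Bool.false_ne_true) h

end Pool.BK5
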