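import Pool.Agent.BK5.StmtsG

/-!
MP_70b73c_co, 5-blocked sets, part G: the three layers exist.
-/

set_option autoImplicit false

namespace Pool.BK5

namespace Ctx

theorem genP_mono {S T : Finset Pt} (h : T ⊆ S) (hS : GenP S) : GenP T :=
  fun a ha b hb c hc => hS a (h ha) b (h hb) c (h hc)

/-- a point of `T` which is not a vertex of the hull is inside the hull -/
theorem ins_of_isHull {T : Finset Pt} {m : ℕ} {f : ℕ → Pt} (h : IsHull T m f) {s : Pt}
    (hs : s ∈ T) (hn : ∀ k, k < m → s ≠ f k) : 3 ≤ m ∧ Ins m f s := by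
  classical
  have h3 : 3 ≤ m := by
    by_contra hlt
    have hcard := h.small (by omega)
    have hsub : (Finset.range m).image f ⊆ T := by
      intro x hx
      obtain ⟨k, hk, rfl⟩ := Finset.mem_image.1 hx
      exact h.mem k (Finset.mem_range.1 hk)
    have hc2 : ((Finset.range m).image f).card = m := by
      rw [Finset.card_image_of_injOn, Finset.card_range]
      intro a ha b hb hab
      exact h.inj a b (Finset.mem_range.1 (Finset.mem_coe.1 ha))
        (Finset.mem_range.1 (Finset.mem_coe.1 hb)) hab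
    have heq : (Finset.range m).image f = T := Finset.eq_of_subset_of_card_le hsub (by omega)
    rw [← heq] at hs
    obtain ⟨k, hk, hks⟩ := Finset.mem_image.1 hs
    exact hn k (Finset.mem_range.1 hk) hks.symm
  refine ⟨h3, ?_⟩
  rcases h.big h3 s hs with ⟨k, hk, hks⟩ | hins
  · exact absurd hks (hn k hk)
  · exact hins

end Ctx

open Ctx in
theorem t_Ctx (_hSep : S_Sep) (_hPoly : S_Poly) (hHull : S_Hull) : S_Ctx := by
  classical
  intro S gp noHex hX
  -- the 9-gon with the minimal number of inner points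
  have hex : ∃ n, ∃ X : ℕ → Pt, ((∀ k, k < 9 → X k ∈ S) ∧ Cv 9 X) ∧
      {s : Pt | s ∈ S ∧ Ins 9 X s}.ncard = n := by
    obtain ⟨X, hX⟩ := hX
    exact ⟨_, X, hX, rfl⟩
  obtain ⟨H, ⟨hH, cH⟩, hmin⟩ := Nat.find_spec hex
  have hT : GenP (S.filter fun s => Ins 9 H s) := genP_mono (Finset.filter_subset _ _) gp
  obtain ⟨i, I, hI⟩ := hHull _ hT
  have hT' : GenP ((S.filter fun s => Ins 9 H s).filter fun s => ∀ k, k < i → s ≠ I k) :=
    genP_mono (Finset.filter_subset _ _) hT
  obtain ⟨j, J, hJ⟩ := hHull _ hT'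
  refine ⟨H, i, I, j, J, ((S.filter fun s => Ins 9 H s).filter fun s =>
    ∀ k, k < i → s ≠ I k).filter fun s => ∀ k, k < j → s ≠ J k, ?_⟩
  have memJ : ∀ k, k < j → (J k ∈ S ∧ Ins 9 H (J k)) ∧ ∀ l, l < i → J k ≠ I l := fun k hk => by
    have h := hJ.mem k hk
    rw [Finset.mem_filter, Finset.mem_filter] at h
    exact h
  refine ⟨gp, noHex, hH, cH, ?_, ?_, fun k hk => (memJ k hk).1, ?_, ?_, hI.cv, hJ.cv, hI.inj,
    hJ.inj, ?_, ?_⟩
  · intro X h1 h2
    rw [hmin]
    exact Nat.find_min' hex ⟨X, ⟨h1, h2⟩, rfl⟩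
  · intro k hk
    exact Finset.mem_filter.1 (hI.mem k hk)
  · intro s hs
    rw [Finset.mem_filter, Finset.mem_filter, Finset.mem_filter] at hs
    exact hs.1.1
  · intro s hs hins
    by_cases h1 : ∃ k, k < i ∧ s = I k
    · exact Or.inl h1
    · by_cases h2 : ∃ k, k < j ∧ s = J k
      · exact Or.inr (Or.inl h2)
      · refine Or.inr (Or.inr ?_)
        rw [Finset.mem_filter, Finset.mem_filter, Finset.mem_filter]
        exact ⟨⟨⟨hs, hins⟩, fun k hk he => h1 ⟨k, hk, he⟩⟩, fun k hk he => h2 ⟨k, hk, he⟩⟩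
  · intro s hs
    have hs' : s ∈ S.filter (fun s => Ins 9 H s) ∧ ∀ k, k < i → s ≠ I k := by
      rcases hs with ⟨k, hk, rfl⟩ | hs
      · exact Finset.mem_filter.1 (hJ.mem k hk)
      · exact Finset.mem_filter.1 (Finset.mem_filter.1 hs).1
    exact ins_of_isHull hI hs'.1 hs'.2
  · intro s hs
    rw [Finset.mem_filter] at hs
    exact ins_of_isHull hJ hs.1 hs.2

end Pool.BK5
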