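import Pool.Agent.BK5.StmtsG

/-!
MP_70b73c_co, 5-blocked sets: rotation of the labels of the three layers.
-/

set_option autoImplicit false

namespace Pool.BK5

namespace CtxRot

/-- the vertices of a rotated polygon are vertices of the polygon -/
theorem val (m r : ℕ) (X : ℕ → Pt) (k : ℕ) (hk : k < m) : ∃ l, l < m ∧ rot m r X k = X l :=
  ⟨(k + r) % m, Nat.mod_lt _ (by omega), rfl⟩

/-- a convex polygon, rotated (also for `m = 0`) -/
theorem cv (hRot : S_Rot) (m r : ℕ) (X : ℕ → Pt) (h : Cv m X) : Cv m (rot m r X) := by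
  rcases Nat.eq_zero_or_pos m with h0 | h0
  · intro i j k _ _ hk
    omega
  · exact (hRot m r X h0).1 h

theorem vert (hRot : S_Rot) (m r : ℕ) (X : ℕ → Pt) (s : Pt) :
    (∃ k, k < m ∧ s = rot m r X k) ↔ ∃ k, k < m ∧ s = X k := by
  constructor
  · rintro ⟨k, hk, e⟩
    obtain ⟨l, hl, e'⟩ := val m r X k hk
    exact ⟨l, hl, e.trans e'⟩
  · rintro ⟨k, hk, e⟩
    obtain ⟨l, hl, e', _⟩ := (hRot m r X (by omega)).2.2.2 k hk
    exact ⟨l, hl, e.trans e'⟩

theorem inj (m r : ℕ) (X : ℕ → Pt) (h : ∀ k l, k < m → l < m → X k = X l → k = l) :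
    ∀ k l, k < m → l < m → rot m r X k = rot m r X l → k = l := by
  intro k l hk hl e
  have e1 : (k + r) % m = (l + r) % m :=
    h _ _ (Nat.mod_lt _ (by omega)) (Nat.mod_lt _ (by omega)) e
  have e2 : k % m = l % m := Nat.ModEq.add_right_cancel' r e1
  rwa [Nat.mod_eq_of_lt hk, Nat.mod_eq_of_lt hl] at e2

theorem ins (hRot : S_Rot) (m r : ℕ) (X : ℕ → Pt) (w : Pt) (h0 : 1 ≤ m) :
    Ins m (rot m r X) w ↔ Ins m X w :=
  (hRot m r X h0).2.1 w

end CtxRot

theorem t_CtxRot (hRot : S_Rot) : S_CtxRot := by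
  intro S H i I j J U a b c h
  have h9 : ∀ w, Ins 9 (rot 9 a H) w ↔ Ins 9 H w := fun w => CtxRot.ins hRot 9 a H w (by norm_num)
  refine
    { gp := h.gp
      noHex := h.noHex
      hH := ?_
      cH := CtxRot.cv hRot 9 a H h.cH
      min := ?_
      hI := ?_
      hJ := ?_
      hU := fun s hs => ⟨(h.hU s hs).1, (h9 s).2 (h.hU s hs).2⟩
      all := ?_
      cI := CtxRot.cv hRot i b I h.cI
      cJ := CtxRot.cv hRot j c J h.cJ
      iI := CtxRot.inj i b I h.iI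
      iJ := CtxRot.inj j c J h.iJ
      inI := ?_
      inJ := ?_ }
  · intro k hk
    obtain ⟨l, hl, e⟩ := CtxRot.val 9 a H k hk
    rw [e]
    exact h.hH l hl
  · intro X hX cX
    have e : {s : Pt | s ∈ S ∧ Ins 9 (rot 9 a H) s} = {s : Pt | s ∈ S ∧ Ins 9 H s} := by
      ext s
      simp only [Set.mem_setOf_eq, h9]
    rw [e]
    exact h.min X hX cX
  · intro k hk
    obtain ⟨l, hl, e⟩ := CtxRot.val i b I k hk
    rw [e]
    exact ⟨(h.hI l hl).1, (h9 _).2 (h.hI l hl).2⟩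
  · intro k hk
    obtain ⟨l, hl, e⟩ := CtxRot.val j c J k hk
    rw [e]
    exact ⟨(h.hJ l hl).1, (h9 _).2 (h.hJ l hl).2⟩
  · intro s hs hi
    rw [CtxRot.vert hRot i b I s, CtxRot.vert hRot j c J s]
    exact h.all s hs ((h9 s).1 hi)
  · intro s hs
    rw [CtxRot.vert hRot j c J s] at hs
    obtain ⟨h3, h4⟩ := h.inI s hs
    exact ⟨h3, (CtxRot.ins hRot i b I s (by omega)).2 h4⟩
  · intro s hs
    obtain ⟨h3, h4⟩ := h.inJ s hs
    exact ⟨h3, (CtxRot.ins hRot j c J s (by omega)).2 h4⟩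

end Pool.BK5
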