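import Pool.Agent.BK5.StmtsC

/-!
MP_70b73c_co, 5-blocked sets, K4: the list functions of the checker.
-/

set_option autoImplicit false

namespace Pool.BK5

namespace Lst

theorem aa_eq {b c : Bool} : aa b c = true ↔ b = true ∧ c = true := by
  cases b
  · constructor
    · intro h
      exact absurd h Bool.false_ne_true
    · intro h
      exact absurd h.1 Bool.false_ne_true
  · constructor
    · intro h
      exact ⟨rfl, h⟩
    · intro h
      exact h.2

theorem nn_eq {b : Bool} (h : nn b = true) : b = false := by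
  cases b
  · rfl
  · exact absurd h Bool.false_ne_true

theorem lt_eq {a b : ℕ} (h : lt a b = true) : a < b := Nat.le_of_ble_eq_true h

theorem D_aba (a b : Pt) : D a b a = 0 := by
  unfold D
  ring

theorem D_abb (a b : Pt) : D a b b = 0 := by
  unfold D
  ring

theorem dg_zero (P : ℕ) : dg P (5 * 0) = Nat.mod P 32 := rfl

theorem dg_shift (P r : ℕ) : dg (Nat.shiftRight P 5) (5 * r) = dg P (5 * (r + 1)) := by
  have h : Nat.shiftRight (Nat.shiftRight P 5) (5 * r) = Nat.shiftRight P (5 * (r + 1)) := by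
    have h1 := Nat.shiftRight_add P 5 (5 * r)
    have h2 : 5 + 5 * r = 5 * (r + 1) := by ring
    rw [h2] at h1
    exact h1.symm
  exact congrArg (fun t => Nat.mod t 32) h

theorem nin_ok (x : ℕ) : ∀ (k P : ℕ), nin x P k = true → ∀ r, r < k → x ≠ dg P (5 * r) := by
  intro k
  induction k with
  | zero => intro P _ r hr; exact absurd hr (Nat.not_lt_zero r)
  | succ k ih =>
    intro P h r hr
    have h1 : aa (nn (Nat.beq x (Nat.mod P 32))) (nin x (Nat.shiftRight P 5) k) = true := h
    obtain ⟨h2, h3⟩ := aa_eq.1 h1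
    cases r with
    | zero => exact Nat.ne_of_beq_eq_false (nn_eq h2)
    | succ r =>
      have h4 := ih _ h3 r (Nat.lt_of_succ_lt_succ hr)
      rw [dg_shift] at h4
      exact h4

theorem dst_ok (n : ℕ) : ∀ (k P : ℕ), dst n P k = true → (∀ r, r < k → dg P (5 * r) < n) ∧
    ∀ r t, r < k → t < k → r ≠ t → dg P (5 * r) ≠ dg P (5 * t) := by
  intro k
  induction k with
  | zero =>
    intro P _
    exact ⟨fun r hr => absurd hr (Nat.not_lt_zero r), fun r t hr => absurd hr (Nat.not_lt_zero r)⟩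
  | succ k ih =>
    intro P h
    have h1 : aa (lt (Nat.mod P 32) n) (aa (nin (Nat.mod P 32) (Nat.shiftRight P 5) k)
      (dst n (Nat.shiftRight P 5) k)) = true := h
    obtain ⟨h2, h3⟩ := aa_eq.1 h1
    obtain ⟨h4, h5⟩ := aa_eq.1 h3
    obtain ⟨i1, i2⟩ := ih _ h5
    have n1 := nin_ok _ _ _ h4
    refine ⟨?_, ?_⟩
    · intro r hr
      cases r with
      | zero => exact lt_eq h2
      | succ r =>
        have h6 := i1 r (Nat.lt_of_succ_lt_succ hr)
        rw [dg_shift] at h6
        exact h6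
    · intro r t hr ht hne
      cases r with
      | zero =>
        cases t with
        | zero => exact absurd rfl hne
        | succ t =>
          have h6 := n1 t (Nat.lt_of_succ_lt_succ ht)
          rw [dg_shift] at h6
          exact h6
      | succ r =>
        cases t with
        | zero =>
          have h6 := n1 r (Nat.lt_of_succ_lt_succ hr)
          rw [dg_shift] at h6
          exact fun h7 => h6 h7.symm
        | succ t =>
          have h6 := i2 r t (Nat.lt_of_succ_lt_succ hr) (Nat.lt_of_succ_lt_succ ht)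
            (fun h7 => hne (congrArg Nat.succ h7))
          rw [dg_shift, dg_shift] at h6
          exact h6

section

variable {FM : ℕ} {c0 : Sat.Clause} {p : ℕ → Pt}

theorem cw_ok (hSt : S_St)
    (hO : ∀ a b c, out FM c0 (ca a b c) = true → D (p a) (p b) (p c) ≤ 0) (P v : ℕ) :
    ∀ (k w' e : ℕ) (c : Sat.Clause), Sub c c0 → cw FM c0 P v k w' e c = true →
      ∀ r, r < k → ∃ q, q < v ∧
        D (p (dg P (5 * q))) (p (dg P (5 * (q + 1)))) (p (w' + r)) ≤ 0 := by
  intro k
  induction k with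
  | zero => intro w' e c _ _ r hr; exact absurd hr (Nat.not_lt_zero r)
  | succ k ih =>
    intro w' e c hc h
    have h1 : aa (lt (Nat.mod e 32) v)
        (Bool.rec
          (st FM c0 (ca (dg P (5 * Nat.mod e 32)) (dg P (5 * (Nat.mod e 32 + 1))) w')
            (cw FM c0 P v k (w' + 1) (Nat.shiftRight e 5)) c)
          (cw FM c0 P v k (w' + 1) (Nat.shiftRight e 5) c)
          (Nat.beq w' (dg P (5 * Nat.mod e 32)))) = true := h
    obtain ⟨h2, h3⟩ := aa_eq.1 h1
    have hq := lt_eq h2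
    have key : D (p (dg P (5 * Nat.mod e 32))) (p (dg P (5 * (Nat.mod e 32 + 1)))) (p w') ≤ 0 ∧
        ∃ c', Sub c' c0 ∧ cw FM c0 P v k (w' + 1) (Nat.shiftRight e 5) c' = true := by
      cases hb : Nat.beq w' (dg P (5 * Nat.mod e 32)) with
      | true =>
        rw [hb] at h3
        refine ⟨?_, c, hc, h3⟩
        have h4 : w' = dg P (5 * Nat.mod e 32) := Nat.eq_of_beq_eq_true hb
        rw [← h4, D_aba]
      | false =>
        rw [hb] at h3
        obtain ⟨h4, h5⟩ := hSt FM c0 _ _ c hc h3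
        exact ⟨hO _ _ _ h4, h5⟩
    obtain ⟨k1, c', hc', k2⟩ := key
    intro r hr
    cases r with
    | zero => exact ⟨_, hq, k1⟩
    | succ r =>
      obtain ⟨q, hq', h6⟩ := ih (w' + 1) (Nat.shiftRight e 5) c' hc' k2 r (Nat.lt_of_succ_lt_succ hr)
      refine ⟨q, hq', ?_⟩
      have h7 : w' + (r + 1) = w' + 1 + r := by ring
      rw [h7]
      exact h6

theorem hypL_ok (hSt : S_St)
    (hO : ∀ a b c, out FM c0 (ca a b c) = true → D (p a) (p b) (p c) ≤ 0) (a b : ℕ)
    (K : Sat.Clause → Bool) :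
    ∀ (k P : ℕ) (c : Sat.Clause), Sub c c0 → hypL FM c0 a b P k K c = true →
      (∀ r, r < k → D (p a) (p b) (p (dg P (5 * r))) ≤ 0) ∧ ∃ c', Sub c' c0 ∧ K c' = true := by
  intro k
  induction k with
  | zero =>
    intro P c hc h
    exact ⟨fun r hr => absurd hr (Nat.not_lt_zero r), c, hc, h⟩
  | succ k ih =>
    intro P c hc h
    have h1 : (Bool.rec
      (Bool.rec (st FM c0 (ca a b (Nat.mod P 32)) (hypL FM c0 a b (Nat.shiftRight P 5) k K))
        (hypL FM c0 a b (Nat.shiftRight P 5) k K) (Nat.beq b (Nat.mod P 32)))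
      (hypL FM c0 a b (Nat.shiftRight P 5) k K) (Nat.beq a (Nat.mod P 32)) :
        Sat.Clause → Bool) c = true := h
    have key : D (p a) (p b) (p (Nat.mod P 32)) ≤ 0 ∧
        ∃ c', Sub c' c0 ∧ hypL FM c0 a b (Nat.shiftRight P 5) k K c' = true := by
      cases hb : Nat.beq a (Nat.mod P 32) with
      | true =>
        rw [hb] at h1
        refine ⟨?_, c, hc, h1⟩
        rw [← Nat.eq_of_beq_eq_true hb, D_aba]
      | false =>
        rw [hb] at h1
        cases hb2 : Nat.beq b (Nat.mod P 32) with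
        | true =>
          rw [hb2] at h1
          refine ⟨?_, c, hc, h1⟩
          rw [← Nat.eq_of_beq_eq_true hb2, D_abb]
        | false =>
          rw [hb2] at h1
          obtain ⟨h4, h5⟩ := hSt FM c0 _ _ c hc h1
          exact ⟨hO _ _ _ h4, h5⟩
    obtain ⟨k1, c', hc', k2⟩ := key
    obtain ⟨i1, i2⟩ := ih _ c' hc' k2
    refine ⟨?_, i2⟩
    intro r hr
    cases r with
    | zero => exact k1
    | succ r =>
      have h6 := i1 r (Nat.lt_of_succ_lt_succ hr)
      rw [dg_shift] at h6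
      exact h6

theorem hypR_ok (hSt : S_St)
    (hO : ∀ a b c, out FM c0 (ca a b c) = true → D (p a) (p b) (p c) ≤ 0) (a b : ℕ)
    (K : Sat.Clause → Bool) :
    ∀ (k s' : ℕ) (c : Sat.Clause), Sub c c0 → hypR FM c0 a b s' k K c = true →
      (∀ r, r < k → D (p a) (p b) (p (s' + r)) ≤ 0) ∧ ∃ c', Sub c' c0 ∧ K c' = true := by
  intro k
  induction k with
  | zero =>
    intro s' c hc h
    exact ⟨fun r hr => absurd hr (Nat.not_lt_zero r), c, hc, h⟩
  | succ k ih =>
    intro s' c hc h
    have h1 : st FM c0 (ca a b s') (hypR FM c0 a b (s' + 1) k K) c = true := h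
    obtain ⟨h4, c', hc', h5⟩ := hSt FM c0 _ _ c hc h1
    obtain ⟨i1, i2⟩ := ih _ c' hc' h5
    refine ⟨?_, i2⟩
    intro r hr
    cases r with
    | zero => exact hO _ _ _ h4
    | succ r =>
      have h6 := i1 r (Nat.lt_of_succ_lt_succ hr)
      have h7 : s' + (r + 1) = s' + 1 + r := by ring
      rw [h7]
      exact h6

theorem chain_ok (hSt : S_St)
    (hO : ∀ a b c, out FM c0 (ca a b c) = true → D (p a) (p b) (p c) ≤ 0) (n lo z' w' : ℕ) :
    ∀ (u E : ℕ) (c : Sat.Clause), Sub c c0 → chain n FM lo c0 z' w' u E c = true →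
      dg E (5 * u) = w' ∧ (∀ a, a < u → lo ≤ dg E (5 * a) ∧ dg E (5 * a) < n ∧
        D (p (dg E (5 * a))) (p z') (p w') ≤ 0) ∧
      ∀ a, a + 1 < u → dg E (5 * a) ≠ dg E (5 * (a + 1)) ∧
        D (p (dg E (5 * a))) (p z') (p (dg E (5 * (a + 1)))) ≤ 0 ∧
        D (p (dg E (5 * (a + 1)))) (p (dg E (5 * a))) (p (dg E (5 * (a + 2)))) ≤ 0 := by
  intro u
  induction u with
  | zero =>
    intro E c _ h
    refine ⟨Nat.eq_of_beq_eq_true h, fun a ha => absurd ha (Nat.not_lt_zero a),
      fun a ha => absurd ha (Nat.not_lt_zero _)⟩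
  | succ u ih =>
    intro E c hc h
    have h1 : aa (Nat.ble lo (Nat.mod E 32)) (aa (lt (Nat.mod E 32) n)
        (st FM c0 (ca (Nat.mod E 32) z' w')
          (Bool.rec
            (fun c => aa (nn (Nat.beq (Nat.mod E 32) (dg E 5)))
              (st FM c0 (ca (Nat.mod E 32) z' (dg E 5))
                (st FM c0 (ca (dg E 5) (Nat.mod E 32) (dg E 10))
                  (chain n FM lo c0 z' w' u (Nat.shiftRight E 5))) c))
            (chain n FM lo c0 z' w' u (Nat.shiftRight E 5)) (Nat.beq u 0)) c)) = true := h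
    obtain ⟨h2, h3⟩ := aa_eq.1 h1
    obtain ⟨h4, h5⟩ := aa_eq.1 h3
    obtain ⟨h6, c1, hc1, h7⟩ := hSt FM c0 _ _ c hc h5
    have key : (u = 0 ∨ (Nat.mod E 32 ≠ dg E 5 ∧ D (p (Nat.mod E 32)) (p z') (p (dg E 5)) ≤ 0 ∧
        D (p (dg E 5)) (p (Nat.mod E 32)) (p (dg E 10)) ≤ 0)) ∧
        ∃ c', Sub c' c0 ∧ chain n FM lo c0 z' w' u (Nat.shiftRight E 5) c' = true := by
      cases hb : Nat.beq u 0 with
      | true =>
        rw [hb] at h7
        exact ⟨Or.inl (Nat.eq_of_beq_eq_true hb), c1, hc1, h7⟩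
      | false =>
        rw [hb] at h7
        obtain ⟨h8, h9⟩ := aa_eq.1 h7
        obtain ⟨h10, c2, hc2, h11⟩ := hSt FM c0 _ _ c1 hc1 h9
        obtain ⟨h12, h13⟩ := hSt FM c0 _ _ c2 hc2 h11
        exact ⟨Or.inr ⟨Nat.ne_of_beq_eq_false (nn_eq h8), hO _ _ _ h10, hO _ _ _ h12⟩, h13⟩
    obtain ⟨k1, c', hc', k2⟩ := key
    obtain ⟨i0, i1, i2⟩ := ih _ c' hc' k2
    refine ⟨?_, ?_, ?_⟩
    · rw [dg_shift] at i0
      exact i0
    · intro a ha
      cases a with
      | zero => exact ⟨Nat.le_of_ble_eq_true h2, lt_eq h4, hO _ _ _ h6⟩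
      | succ a =>
        have h8 := i1 a (Nat.lt_of_succ_lt_succ ha)
        rw [dg_shift] at h8
        exact h8
    · intro a ha
      cases a with
      | zero =>
        rcases k1 with k1 | k1
        · exfalso
          omega
        · exact k1
      | succ a =>
        have h8 := i2 a (Nat.lt_of_succ_lt_succ ha)
        rw [dg_shift, dg_shift, dg_shift] at h8
        exact h8

end

end Lst

open Lst in
theorem t_Lst (hSt : S_St) (hOut : S_Out) : S_Lst := by
  intro i j m n FM s z w p Hd c0 henv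
  obtain ⟨-, hO, -⟩ := hOut i j m n FM s z w p Hd c0 henv
  refine ⟨?_, ?_, ?_, ?_, ?_⟩
  · intro P v k w' e c hc h
    exact cw_ok hSt hO P v k w' e c hc h
  · intro n' P k h
    exact dst_ok n' k P h
  · intro a b P k K c hc h
    exact hypL_ok hSt hO a b K k P c hc h
  · intro a b s' k K c hc h
    exact hypR_ok hSt hO a b K k s' c hc h
  · intro lo z' w' u E c hc h
    exact chain_ok hSt hO n lo z' w' u E c hc h

end Pool.BK5
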