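import Pool.Agent.BK5.StmtsD
import Pool.Agent.BK5.Lst

/-!
MP_70b73c_co, 5-blocked sets, D4: cube clauses.
-/

set_option autoImplicit false

namespace Pool.BK5

namespace DCube

noncomputable section

open Lst

/-- The table of `chkCube`. -/
def TAB : ℕ := nat_lit 683229659992642875211651971614820121373379686248793931338039167736064195764763568827442647713575021338726884458317264300702245987582896457345197404130906492159456795997412415959215511936387734779870823246814535930780443551096533431857504449606719930053826358842673280759986766159134679469243109849277983429951796163944488075016688981912326070866213947712251090980340454347545417271922305208853286567510144896460199263926629337507329339051984502724310934334300207611156609029139596024545641995554410093522465621592914834101016525288634449379003952980839345210194017500542657390827686302652776726951998946882754944238750302010904750320218083758682729051094685599058206174829733955402372537345758618205261262343370526950678843915794482861934981409536485444101005723594518463581385539463742670032187750581537584289943131081662676144276487499311347728806619494633084331411434897408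

/-- Sign `s` (0 positive, 1 zero, 2 negative) is compatible with option `o`. -/
def al (o s : ℕ) : Bool :=
  Nat.beq (Nat.mod (Nat.shiftRight (nat_lit 9590159) (Nat.add (Nat.mul (nat_lit 3) o) s))
    (nat_lit 2)) (nat_lit 1)

/-- The signs `s, t, u, v` are compatible with the four options of `Q`. -/
def pq (Q s t u v : ℕ) : Bool :=
  aa (al (og Q (nat_lit 0)) s) (aa (al (og Q (nat_lit 3)) t) (aa (al (og Q (nat_lit 6)) u)
    (al (og Q (nat_lit 9)) v)))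

/-- No pattern is compatible with `Q`. -/
def nopat (Q : ℕ) : Bool :=
  (aa (nn (pq Q 0 0 0 0))
    (aa (nn (pq Q 0 0 0 2))
    (aa (nn (pq Q 0 0 2 2))
    (aa (nn (pq Q 0 2 2 2))
    (aa (nn (pq Q 2 2 2 2))
    (aa (nn (pq Q 2 2 2 0))
    (aa (nn (pq Q 2 2 0 0))
    (aa (nn (pq Q 2 0 0 0))
    (aa (nn (pq Q 1 0 0 0))
    (aa (nn (pq Q 1 2 2 2))
    (aa (nn (pq Q 0 1 2 2))
    (aa (nn (pq Q 2 1 0 0))
    (aa (nn (pq Q 0 0 1 2))
    (aa (nn (pq Q 2 2 1 0))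
    (aa (nn (pq Q 0 0 0 1))
    (aa (nn (pq Q 2 2 2 1))
    true))))))))))))))))

/-- The check of one entry of the table. -/
def entry (Q : ℕ) : Bool := Bool.rec true (nopat Q) (Nat.beq (bt TAB Q) (nat_lit 1))

/-- The check of the entries below `m`. -/
def upTo (m : ℕ) : Bool :=
  Nat.rec (motive := fun _ => Bool) true (fun Q ih => aa (entry Q) ih) m

theorem upTo_ok : upTo (nat_lit 2910) = true := by decide +kernel

theorem of_upTo : ∀ m : ℕ, upTo m = true → ∀ Q, Q < m → entry Q = true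
  | 0, _, Q, hQ => absurd hQ (Nat.not_lt_zero Q)
  | m + 1, h, Q, hQ => by
    have h1 : aa (entry m) (upTo m) = true := h
    obtain ⟨h2, h3⟩ := aa_eq.1 h1
    rcases Nat.lt_succ_iff_lt_or_eq.1 hQ with hlt | rfl
    · exact of_upTo m h3 Q hlt
    · exact h2

theorem TAB_lt : TAB < 2 ^ 2910 := by decide +kernel

theorem bt_big (Q : ℕ) (h : 2910 ≤ Q) : bt TAB Q = 0 := by
  show Nat.shiftRight TAB Q % 2 = 0
  have h0 : Nat.shiftRight TAB Q = 0 := by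
    show TAB >>> Q = 0
    rw [Nat.shiftRight_eq_div_pow]
    exact Nat.div_eq_of_lt (lt_of_lt_of_le TAB_lt (Nat.pow_le_pow_right (by norm_num) h))
  rw [h0]

theorem nopat_of {Q : ℕ} (h : Nat.beq (bt TAB Q) 1 = true) : nopat Q = true := by
  by_cases hQ : Q < 2910
  · have h1 : Bool.rec true (nopat Q) (Nat.beq (bt TAB Q) 1) = true := of_upTo 2910 upTo_ok Q hQ
    rw [h] at h1
    exact h1
  · rw [bt_big Q (not_lt.1 hQ)] at h
    exact absurd h (by decide)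

/-- `w` has the sign `s`. -/
def Sg (w : ℝ) (s : ℕ) : Prop := (s = 0 ∧ 0 < w) ∨ (s = 1 ∧ w = 0) ∨ (s = 2 ∧ w < 0)

/-- The constraint of an option. -/
def Con (o : ℕ) (w : ℝ) : Prop :=
  o = 0 ∨ (o = 1 ∧ 0 < w) ∨ (o = 2 ∧ ¬0 < w) ∨ (o = 3 ∧ w = 0) ∨ (o = 4 ∧ w ≠ 0) ∨
    (5 ≤ o ∧ ¬0 < w ∧ w ≠ 0)

theorem al_of {o s : ℕ} {w : ℝ} (ho : o < 8) (hc : Con o w) (hs : Sg w s) : al o s = true := by
  rcases hs with ⟨rfl, hw⟩ | ⟨rfl, hw⟩ | ⟨rfl, hw⟩ <;>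
  rcases hc with rfl | ⟨rfl, h⟩ | ⟨rfl, h⟩ | ⟨rfl, h⟩ | ⟨rfl, h⟩ | ⟨h5, h, h'⟩ <;>
  first
    | decide
    | (exfalso; linarith)
    | (exfalso; exact h hw)
    | (exfalso; exact h' hw)
    | (exfalso; rw [hw] at h; exact lt_irrefl _ h)
    | (interval_cases o <;> decide)

theorem og_lt (Q k : ℕ) : og Q k < 8 := Nat.mod_lt _ (by norm_num)

theorem pq_of {Q s t u v : ℕ} {w x y z : ℝ} (h1 : Con (og Q 0) w) (h2 : Con (og Q 3) x)
    (h3 : Con (og Q 6) y) (h4 : Con (og Q 9) z) (g1 : Sg w s) (g2 : Sg x t) (g3 : Sg y u)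
    (g4 : Sg z v) : pq Q s t u v = true := by
  show aa (al (og Q 0) s) (aa (al (og Q 3) t) (aa (al (og Q 6) u) (al (og Q 9) v))) = true
  rw [al_of (og_lt _ _) h1 g1, al_of (og_lt _ _) h2 g2, al_of (og_lt _ _) h3 g3,
    al_of (og_lt _ _) h4 g4]
  rfl

theorem sp {w : ℝ} (h : 0 < w) : Sg w 0 := Or.inl ⟨rfl, h⟩
theorem sz {w : ℝ} (h : w = 0) : Sg w 1 := Or.inr (Or.inl ⟨rfl, h⟩)
theorem sn {w : ℝ} (h : w < 0) : Sg w 2 := Or.inr (Or.inr ⟨rfl, h⟩)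

theorem nn_of {b : Bool} (h : nn b = true) : b = false := by
  cases b
  · rfl
  · exact absurd h Bool.false_ne_true

theorem no_con {Q : ℕ} {w x y z : ℝ} (hQ : nopat Q = true) (h1 : Con (og Q 0) w)
    (h2 : Con (og Q 3) x) (h3 : Con (og Q 6) y) (h4 : Con (og Q 9) z) (hp : Pat w x y z) :
    False := by
  unfold nopat at hQ
  simp only [aa_eq] at hQ
  obtain ⟨p0, p1, p2, p3, p4, p5, p6, p7, p8, p9, p10, p11, p12, p13, p14, p15, -⟩ := hQ
  rcases hp with ⟨e1, e2, e3, e4⟩ | ⟨e1, e2, e3, e4⟩ | ⟨e1, e2, e3, e4⟩ | ⟨e1, e2, e3, e4⟩ | ⟨e1, e2, e3, e4⟩ | ⟨e1, e2, e3, e4⟩ | ⟨e1, e2, e3, e4⟩ | ⟨e1, e2, e3, e4⟩ | ⟨e1, e2, e3, e4⟩ | ⟨e1, e2, e3, e4⟩ | ⟨e1, e2, e3, e4⟩ | ⟨e1, e2, e3, e4⟩ | ⟨e1, e2, e3, e4⟩ | ⟨e1, e2, e3, e4⟩ | ⟨e1, e2, e3, e4⟩ | ⟨e1, e2, e3, e4⟩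
  · exact absurd (pq_of h1 h2 h3 h4 (sp e1) (sp e2) (sp e3) (sp e4)) (by rw [nn_eq p0]; decide)
  · exact absurd (pq_of h1 h2 h3 h4 (sp e1) (sp e2) (sp e3) (sn e4)) (by rw [nn_eq p1]; decide)
  · exact absurd (pq_of h1 h2 h3 h4 (sp e1) (sp e2) (sn e3) (sn e4)) (by rw [nn_eq p2]; decide)
  · exact absurd (pq_of h1 h2 h3 h4 (sp e1) (sn e2) (sn e3) (sn e4)) (by rw [nn_eq p3]; decide)
  · exact absurd (pq_of h1 h2 h3 h4 (sn e1) (sn e2) (sn e3) (sn e4)) (by rw [nn_eq p4]; decide)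
  · exact absurd (pq_of h1 h2 h3 h4 (sn e1) (sn e2) (sn e3) (sp e4)) (by rw [nn_eq p5]; decide)
  · exact absurd (pq_of h1 h2 h3 h4 (sn e1) (sn e2) (sp e3) (sp e4)) (by rw [nn_eq p6]; decide)
  · exact absurd (pq_of h1 h2 h3 h4 (sn e1) (sp e2) (sp e3) (sp e4)) (by rw [nn_eq p7]; decide)
  · exact absurd (pq_of h1 h2 h3 h4 (sz e1) (sp e2) (sp e3) (sp e4)) (by rw [nn_eq p8]; decide)
  · exact absurd (pq_of h1 h2 h3 h4 (sz e1) (sn e2) (sn e3) (sn e4)) (by rw [nn_eq p9]; decide)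
  · exact absurd (pq_of h1 h2 h3 h4 (sp e1) (sz e2) (sn e3) (sn e4)) (by rw [nn_eq p10]; decide)
  · exact absurd (pq_of h1 h2 h3 h4 (sn e1) (sz e2) (sp e3) (sp e4)) (by rw [nn_eq p11]; decide)
  · exact absurd (pq_of h1 h2 h3 h4 (sp e1) (sp e2) (sz e3) (sn e4)) (by rw [nn_eq p12]; decide)
  · exact absurd (pq_of h1 h2 h3 h4 (sn e1) (sn e2) (sz e3) (sp e4)) (by rw [nn_eq p13]; decide)
  · exact absurd (pq_of h1 h2 h3 h4 (sp e1) (sp e2) (sp e3) (sz e4)) (by rw [nn_eq p14]; decide)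
  · exact absurd (pq_of h1 h2 h3 h4 (sn e1) (sn e2) (sn e3) (sz e4)) (by rw [nn_eq p15]; decide)

theorem con_of {o T : ℕ} {FM : ℕ} {c0 : Sat.Clause} {w : ℝ} {t : ℕ → Prop}
    (hO : ∀ x, out FM c0 x = true → ¬t x) (t0 : t T ↔ 0 < w) (t1 : t (T + 1) ↔ ¬0 < w)
    (t2 : t (T + 2) ↔ w = 0) (t3 : t (T + 3) ↔ w ≠ 0)
    (h : o = 0 ∨ (o = 1 ∧ out FM c0 (T + 1) = true) ∨ (o = 2 ∧ out FM c0 T = true) ∨
        (o = 3 ∧ out FM c0 (T + 3) = true) ∨ (o = 4 ∧ out FM c0 (T + 2) = true) ∨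
        (5 ≤ o ∧ out FM c0 T = true ∧ out FM c0 (T + 2) = true)) : Con o w := by
  rcases h with h | ⟨h, g⟩ | ⟨h, g⟩ | ⟨h, g⟩ | ⟨h, g⟩ | ⟨h, g, g'⟩
  · exact Or.inl h
  · exact Or.inr (Or.inl ⟨h, not_not.1 (fun hn => hO _ g (t1.2 hn))⟩)
  · exact Or.inr (Or.inr (Or.inl ⟨h, fun hn => hO _ g (t0.2 hn)⟩))
  · exact Or.inr (Or.inr (Or.inr (Or.inl ⟨h, not_not.1 (fun hn => hO _ g (t3.2 hn))⟩)))
  · exact Or.inr (Or.inr (Or.inr (Or.inr (Or.inl ⟨h, fun hn => hO _ g (t2.2 hn)⟩))))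
  · exact Or.inr (Or.inr (Or.inr (Or.inr (Or.inr ⟨h, fun hn => hO _ g (t0.2 hn),
      fun hn => hO _ g' (t2.2 hn)⟩))))

theorem chk_split {n FM : ℕ} {c0 : Sat.Clause} {Q a b c d : ℕ}
    (h : chkCube n FM c0 Q a b c d = true) :
    Nat.beq (bt TAB Q) 1 = true ∧ a < b ∧ b < c ∧ c < d ∧ d < n ∧
    pos FM c0 (og Q 0) (cP a b c) (pos FM c0 (og Q 3) (cP a b d)
      (pos FM c0 (og Q 6) (cP a c d) (pos FM c0 (og Q 9) (cP b c d)
        (fun _ => true)))) c0 = true := by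
  have h0 : aa (Nat.beq (bt TAB Q) 1) (aa (lt a b) (aa (lt b c) (aa (lt c d) (aa (lt d n)
    (pos FM c0 (og Q 0) (cP a b c) (pos FM c0 (og Q 3) (cP a b d)
      (pos FM c0 (og Q 6) (cP a c d) (pos FM c0 (og Q 9) (cP b c d)
        (fun _ => true)))) c0))))) = true := h
  obtain ⟨h1, h0⟩ := aa_eq.1 h0
  obtain ⟨h2, h0⟩ := aa_eq.1 h0
  obtain ⟨h3, h0⟩ := aa_eq.1 h0
  obtain ⟨h4, h0⟩ := aa_eq.1 h0
  obtain ⟨h5, h0⟩ := aa_eq.1 h0
  exact ⟨h1, lt_eq h2, lt_eq h3, lt_eq h4, lt_eq h5, h0⟩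

end

end DCube

open DCube in
/-- D4. -/
theorem t_DCube (hDec : S_Dec) (hDLp : S_DLp) (hDOut : S_DOut) : S_DCube := by
  intro n k ty FM B0 B1 B2 B3 B4 p col E c0 hE Q a b c d h
  obtain ⟨hQ, hab, hbc, hcd, hdn, h0⟩ := chk_split h
  have hO := hDOut n k ty FM B0 B1 B2 B3 B4 p col E c0 hE
  obtain ⟨_, _, _, _, _, hP⟩ := hDLp FM c0
  obtain ⟨⟨c1, s1, h0⟩, k1⟩ := hP _ _ _ _ (fun _ h => h) h0
  obtain ⟨⟨c2, s2, h0⟩, k2⟩ := hP _ _ _ _ s1 h0
  obtain ⟨⟨c3, s3, h0⟩, k3⟩ := hP _ _ _ _ s2 h0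
  obtain ⟨_, k4⟩ := hP _ _ _ _ s3 h0
  obtain ⟨_, _, _, _, _, hT, _⟩ := hDec n ty p col E
  obtain ⟨a0, a1, a2, a3, _⟩ := hT a b c hab hbc (by omega)
  obtain ⟨b0, b1, b2, b3, _⟩ := hT a b d hab (by omega) hdn
  obtain ⟨d0, d1, d2, d3, _⟩ := hT a c d (by omega) hcd hdn
  obtain ⟨e0, e1, e2, e3, _⟩ := hT b c d hbc hcd hdn
  exact no_con (nopat_of hQ) (con_of hO a0 a1 a2 a3 k1) (con_of hO b0 b1 b2 b3 k2)
    (con_of hO d0 d1 d2 d3 k3) (con_of hO e0 e1 e2 e3 k4)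
    (hE.be.bm.pat a b c d hab hbc hcd hdn)

end Pool.BK5
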