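import Pool.Agent.BK5.DSX
import Pool.Agent.BK5.CovFix

/-!
MP_70b73c_co, 5-blocked sets, part D, D9: the fixed literals of part B.
-/

set_option autoImplicit false

namespace Pool.BK5

namespace DFix

theorem col_zero {n k : ℕ} {p : ℕ → Pt} {col : ℕ → ℕ} (B : BMod n k p col) (hn : 7 ≤ n) :
    col 0 = 0 := by
  rcases Nat.eq_zero_or_pos (col 0) with h | h
  · exact h
  · obtain ⟨m, hm, _⟩ := B.norm 0 (col 0 - 1) (by omega) (by omega)
    exact absurd hm (Nat.not_lt_zero m)

theorem col_adj {n k : ℕ} {p : ℕ → Pt} {col : ℕ → ℕ} (B : BMod n k p col) {x : ℕ}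
    (hx : x + 1 < n) : col x ≠ col (x + 1) := by
  intro h
  obtain ⟨m, h1, h2, _⟩ := (B.blk x (x + 1) (Nat.lt_succ_self x) hx).1 h
  omega

theorem col_le {n k : ℕ} {p : ℕ → Pt} {col : ℕ → ℕ} (B : BMod n k p col) :
    ∀ x, x < n → col x ≤ x := by
  intro x
  induction x using Nat.strong_induction_on with
  | _ x ih =>
    intro hx
    rcases Nat.eq_zero_or_pos (col x) with h | h
    · omega
    · obtain ⟨m, hm, e⟩ := B.norm x (col x - 1) hx (by omega)
      have := ih m hm (by omega)
      omega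

theorem col_one {n k : ℕ} {p : ℕ → Pt} {col : ℕ → ℕ} (B : BMod n k p col) (hn : 7 ≤ n) :
    col 1 = 1 := by
  have h0 := col_zero B hn
  have h1 := col_adj B (x := 0) (by omega)
  have h2 := col_le B 1 (by omega)
  have h3 : col 0 ≠ col 1 := h1
  omega

theorem cnt_zero (ty : ℕ) (col : ℕ → ℕ) (E : Finset ℕ) : cntE ty col E 0 = 0 := by
  unfold cntE
  rw [Finset.range_zero, Finset.filter_empty, Finset.card_empty]

theorem cnt_mono (ty : ℕ) (col : ℕ → ℕ) (E : Finset ℕ) {i j : ℕ} (h : i ≤ j) :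
    cntE ty col E i ≤ cntE ty col E j := by
  unfold cntE
  exact Finset.card_le_card (Finset.filter_subset_filter _ (Finset.range_mono h))

theorem s1 (ty : ℕ) (col : ℕ → ℕ) (E : Finset ℕ) (i : ℕ) (hty : ty ≠ 1) :
    cntE ty col E (i + 1) = cntE ty col E i + (if col i = 0 then 1 else 0) := by
  rw [DSH.cnt_succ]
  congr 1
  by_cases h : col i = 0
  · rw [if_pos (by rw [if_neg hty]; exact h), if_pos h]
  · rw [if_neg (by rw [if_neg hty]; exact h), if_neg h]

/-- Bounds of the counter for `ty = 1`. -/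
theorem cnt_one {n : ℕ} {p : ℕ → Pt} {col : ℕ → ℕ} {E : Finset ℕ} (hc : E.card = 5)
    (hE : ∀ i ∈ E, 1 ≤ i ∧ i < n ∧ Xt n p i) :
    cntE 1 col E n = 5 ∧ (∀ x, cntE 1 col E x ≤ 5) ∧ ∀ x, cntE 1 col E x ≤ x - 1 := by
  have key : ∀ x, cntE 1 col E x = ((Finset.range x).filter (fun i => i ∈ E)).card := by
    intro x
    unfold cntE
    congr 1
  refine ⟨?_, ?_, ?_⟩
  · rw [key, ← hc]
    congr 1
    ext i
    rw [Finset.mem_filter, Finset.mem_range]
    exact ⟨fun h => h.2, fun h => ⟨(hE i h).2.1, h⟩⟩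
  · intro x
    rw [key, ← hc]
    apply Finset.card_le_card
    intro i hi
    exact (Finset.mem_filter.1 hi).2
  · intro x
    rw [key]
    have h1 : (Finset.range x).filter (fun i => i ∈ E) ⊆ Finset.Ico 1 x := by
      intro i hi
      rw [Finset.mem_filter, Finset.mem_range] at hi
      rw [Finset.mem_Ico]
      exact ⟨(hE i hi.2).1, hi.1⟩
    have h2 := Finset.card_le_card h1
    rw [Nat.card_Ico] at h2
    exact h2

/-- Values of the counter for `ty = 2`. -/
theorem cnt_two {n : ℕ} {p : ℕ → Pt} {col : ℕ → ℕ} {E : Finset ℕ} (H : HMod n p col) :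
    cntE 2 col E 1 = 1 ∧ cntE 2 col E 2 = 1 ∧ cntE 2 col E 3 = 2 ∧ cntE 2 col E 4 = 2 ∧
    cntE 2 col E n = 6 ∧ cntE 2 col E (n - 1) = 5 ∧ cntE 2 col E (n - 2) = 5 := by
  have hn := H.n7
  have h0 := cnt_zero 2 col E
  have a0 := s1 2 col E 0 (by norm_num)
  have a1 := s1 2 col E 1 (by norm_num)
  have a2 := s1 2 col E 2 (by norm_num)
  have a3 := s1 2 col E 3 (by norm_num)
  have c3 : col 3 ≠ 0 := by
    intro h
    exact (H.kz 3 (by norm_num) (by omega) h).1 H.k2
  rw [if_pos H.c0] at a0
  rw [if_neg H.k1] at a1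
  rw [if_pos H.k2] at a2
  rw [if_neg c3] at a3
  have hN : cntE 2 col E n = 6 := by
    rw [← H.cnt]
    unfold cntE
    congr 1
  have b1 := s1 2 col E (n - 1) (by norm_num)
  have b2 := s1 2 col E (n - 2) (by norm_num)
  rw [if_pos H.l1, show n - 1 + 1 = n by omega] at b1
  rw [if_neg H.l2, show n - 2 + 1 = n - 1 by omega] at b2
  have e1 : cntE 2 col E (0 + 1) = cntE 2 col E 1 := rfl
  have e2 : cntE 2 col E (1 + 1) = cntE 2 col E 2 := rfl
  have e3 : cntE 2 col E (2 + 1) = cntE 2 col E 3 := rfl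
  have e4 : cntE 2 col E (3 + 1) = cntE 2 col E 4 := rfl
  omega

theorem le_of {a b : ℕ} (h : Nat.ble a b = true) : a ≤ b := Nat.le_of_ble_eq_true h

theorem not_le_of {a b : ℕ} (h : Nat.ble a b = false) : b < a := by
  by_contra hc
  have : Nat.ble a b = true := Nat.ble_eq_true_of_le (by omega)
  rw [this] at h
  exact absurd h (by decide)

theorem ne_of {a b : ℕ} (h : Nat.beq a b = false) : a ≠ b := by
  intro e
  subst e
  have : Nat.beq a a = true := Nat.beq_refl a
  rw [this] at h
  exact absurd h (by decide)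

theorem loB_le {n k ty : ℕ} {p : ℕ → Pt} {col : ℕ → ℕ} {E : Finset ℕ}
    (be : BE n k ty p col E) (hty : ty ≠ 0) {x : ℕ} (hx : x ≤ n) :
    loB n ty x ≤ cntE ty col E x := by
  have htt := be.tt
  unfold loB
  cases h1 : Nat.beq ty (nat_lit 1) with
  | true =>
    have e1 : ty = 1 := Nat.eq_of_beq_eq_true h1
    subst e1
    obtain ⟨c1, c2⟩ := be.t1 rfl
    obtain ⟨d1, _, _⟩ := cnt_one (col := col) c1 c2
    cases h2 : Nat.beq x n with
    | true =>
      have e2 : x = n := Nat.eq_of_beq_eq_true h2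
      subst e2
      show 5 ≤ _
      omega
    | false => exact Nat.zero_le _
  | false =>
    have e1 : ty ≠ 1 := ne_of h1
    have e2 : ty = 2 := by omega
    subst e2
    obtain ⟨_, H⟩ := be.t2 rfl
    obtain ⟨d1, d2, d3, d4, d5, d6, d7⟩ := cnt_two (E := E) H
    have hn := H.n7
    cases h2 : Nat.beq x n with
    | true =>
      have e2 : x = n := Nat.eq_of_beq_eq_true h2
      subst e2
      show 6 ≤ _
      omega
    | false =>
      have e2 : x ≠ n := ne_of h2
      cases h3 : Nat.ble n (Nat.add x (nat_lit 2)) with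
      | true =>
        have e3 : n ≤ x + 2 := le_of h3
        show 5 ≤ _
        have := cnt_mono 2 col E (show n - 2 ≤ x by omega)
        omega
      | false =>
        cases h4 : Nat.ble (nat_lit 3) x with
        | true =>
          have e4 : 3 ≤ x := le_of h4
          show 2 ≤ _
          have := cnt_mono 2 col E e4
          omega
        | false =>
          cases h5 : Nat.ble (nat_lit 1) x with
          | true =>
            have e5 : 1 ≤ x := le_of h5
            show 1 ≤ _
            have := cnt_mono 2 col E e5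
            omega
          | false => exact Nat.zero_le _

theorem le_hiB {n k ty : ℕ} {p : ℕ → Pt} {col : ℕ → ℕ} {E : Finset ℕ}
    (be : BE n k ty p col E) (hty : ty ≠ 0) {x : ℕ} (hx : x ≤ n) :
    cntE ty col E x ≤ hiB n ty x := by
  have htt := be.tt
  unfold hiB
  cases h1 : Nat.beq ty (nat_lit 1) with
  | true =>
    have e1 : ty = 1 := Nat.eq_of_beq_eq_true h1
    subst e1
    obtain ⟨c1, c2⟩ := be.t1 rfl
    obtain ⟨_, d2, d3⟩ := cnt_one (col := col) c1 c2
    cases h2 : Nat.ble (nat_lit 6) x with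
    | true => exact d2 x
    | false => exact d3 x
  | false =>
    have e1 : ty ≠ 1 := ne_of h1
    have e2 : ty = 2 := by omega
    subst e2
    obtain ⟨_, H⟩ := be.t2 rfl
    obtain ⟨d1, d2, d3, d4, d5, d6, d7⟩ := cnt_two (E := E) H
    have hn := H.n7
    cases h2 : Nat.beq x n with
    | true =>
      have e2 : x = n := Nat.eq_of_beq_eq_true h2
      subst e2
      show _ ≤ 6
      omega
    | false =>
      have e2 : x ≠ n := ne_of h2
      cases h3 : Nat.beq x (nat_lit 0) with
      | true =>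
        have e3 : x = 0 := Nat.eq_of_beq_eq_true h3
        subst e3
        show _ ≤ 0
        rw [cnt_zero]
      | false =>
        cases h4 : Nat.ble x (nat_lit 2) with
        | true =>
          have e4 : x ≤ 2 := le_of h4
          show _ ≤ 1
          have := cnt_mono 2 col E e4
          omega
        | false =>
          cases h5 : Nat.ble x (nat_lit 4) with
          | true =>
            have e5 : x ≤ 4 := le_of h5
            show _ ≤ 2
            have := cnt_mono 2 col E e5
            omega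
          | false =>
            show _ ≤ 5
            have := cnt_mono 2 col E (show x ≤ n - 1 by omega)
            omega

/-- A fixed literal is false. -/
theorem lit (hDec : S_Dec) {n k ty : ℕ} {p : ℕ → Pt} {col : ℕ → ℕ} {E : Finset ℕ}
    (be : BE n k ty p col E) {t x y : ℕ} (h : fixB n k ty t x y = true) :
    ¬trB n ty p col E (fcB n (2 * ix0 n) (2 * ix1 n) (2 * ix3 n ty) (2 * ix4 n ty) t x y) := by
  obtain ⟨_, _, _, _, _, d6, d7, d8, _, _, d11, d12, _⟩ := hDec n ty p col E
  have B := be.bm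
  have hn := be.n7
  have hk := be.k5
  unfold fixB at h
  unfold fcB
  cases h0 : Nat.beq t (nat_lit 0) with
  | true =>
    rw [h0] at h
    obtain ⟨g1, h⟩ := Lst.aa_eq.1 h
    obtain ⟨g2, g3⟩ := Lst.aa_eq.1 h
    have f1 : 0 < x := Lst.lt_eq g1
    have f2 : x + 1 < y := Lst.lt_eq g2
    have f3 : y < n := Lst.lt_eq g3
    intro hc
    exact (d6 0 x y f1 (by omega) f3).2.1.1 hc (B.radz x y f1 f2 f3)
  | false =>
  rw [h0] at h
  cases h1 : Nat.beq t (nat_lit 1) with
  | true =>
    rw [h1] at h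
    obtain ⟨g1, h⟩ := Lst.aa_eq.1 h
    obtain ⟨g2, g3⟩ := Lst.aa_eq.1 h
    have f1 : 0 < x := Lst.lt_eq g1
    have f2 : x + 1 < y := Lst.lt_eq g2
    have f3 : y < n := Lst.lt_eq g3
    intro hc
    have dd := d6 0 x y f1 (by omega) f3
    have hc' : trB n ty p col E (cZ 0 x y) := hc
    rw [dd.2.2.2.2] at hc'
    have := dd.2.2.1.1 hc'
    have := B.radz x y f1 f2 f3
    linarith
  | false =>
  rw [h1] at h
  cases h2 : Nat.beq t (nat_lit 2) with
  | true =>
    rw [h2] at h
    have f1 : x ≤ 1 := le_of h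
    intro hc
    have hc' : trB n ty p col E (cC (2 * ix0 n) x x + 1) := hc
    have := (d7 x x (by omega) (by omega)).2.1 hc'
    have e0 := col_zero B hn
    have e1 := col_one B hn
    rcases (show x = 0 ∨ x = 1 by omega) with rfl | rfl
    · exact this e0
    · exact this e1
  | false =>
  rw [h2] at h
  cases h3 : Nat.beq t (nat_lit 3) with
  | true =>
    rw [h3] at h
    obtain ⟨g1, h⟩ := Lst.aa_eq.1 h
    obtain ⟨g2, g3⟩ := Lst.aa_eq.1 h
    have f1 : x < y := Lst.lt_eq g1
    have f2 : y < k := Lst.lt_eq g2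
    have f3 : x < n := Lst.lt_eq g3
    intro hc
    have hc' : trB n ty p col E (cC (2 * ix0 n) x y) := hc
    have := (d7 x y f3 (by omega)).1.1 hc'
    have := col_le B x f3
    omega
  | false =>
  rw [h3] at h
  cases h4 : Nat.beq t (nat_lit 4) with
  | true =>
    intro hc
    have hc' : trB n ty p col E (cC (2 * ix0 n) 1 0) := hc
    have := (d7 1 0 (by omega) (by omega)).1.1 hc'
    have := col_one B hn
    omega
  | false =>
  rw [h4] at h
  cases h5 : Nat.beq t (nat_lit 5) with
  | true =>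
    rw [h5] at h
    have f1 : x + 1 < n := Lst.lt_eq h
    intro hc
    have hc' : trB n ty p col E (cB (2 * ix1 n) x (x + 1)) := hc
    exact col_adj B f1 ((d8 x (x + 1) (Nat.lt_succ_self x) f1).1.1 hc')
  | false =>
  rw [h5] at h
  cases h6 : Nat.beq t (nat_lit 6) with
  | true =>
    rw [h6] at h
    obtain ⟨g1, _⟩ := Lst.aa_eq.1 h
    have e2 : ty = 2 := Nat.eq_of_beq_eq_true g1
    obtain ⟨_, H⟩ := be.t2 e2
    have dz := d6 0 1 2 (by omega) (by omega) (by omega)
    have dl := d6 0 (n - 2) (n - 1) (by omega) (by omega) (by omega)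
    cases k0 : Nat.beq x (nat_lit 0) with
    | true =>
      intro hc
      have hc' : trB n ty p col E (cZ 0 1 2 + 1) := hc
      rw [dz.2.2.2.2] at hc'
      exact dz.2.2.2.1.1 hc' H.z2
    | false =>
    cases k1 : Nat.beq x (nat_lit 1) with
    | true =>
      intro hc
      have hc' : trB n ty p col E (cP 0 1 2) := hc
      have := dz.1.1 hc'
      rw [H.z2] at this
      exact lt_irrefl _ this
    | false =>
    cases k2 : Nat.beq x (nat_lit 2) with
    | true =>
      intro hc
      have hc' : trB n ty p col E (cZ 0 (n - 2) (n - 1) + 1) := hc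
      rw [dl.2.2.2.2] at hc'
      exact dl.2.2.2.1.1 hc' H.zl
    | false =>
    cases k3 : Nat.beq x (nat_lit 3) with
    | true =>
      intro hc
      have hc' : trB n ty p col E (cP 0 (n - 2) (n - 1)) := hc
      have := dl.1.1 hc'
      rw [H.zl] at this
      exact lt_irrefl _ this
    | false =>
    cases k4 : Nat.beq x (nat_lit 4) with
    | true =>
      intro hc
      have hc' : trB n ty p col E (cC (2 * ix0 n) 2 0 + 1) := hc
      exact (d7 2 0 (by omega) (by omega)).2.1 hc' H.k2
    | false =>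
    cases k5 : Nat.beq x (nat_lit 5) with
    | true =>
      intro hc
      have hc' : trB n ty p col E (cC (2 * ix0 n) (n - 1) 0 + 1) := hc
      exact (d7 (n - 1) 0 (by omega) (by omega)).2.1 hc' H.l1
    | false =>
    cases k6 : Nat.beq x (nat_lit 6) with
    | true =>
      intro hc
      have hc' : trB n ty p col E (cC (2 * ix0 n) (n - 2) 0) := hc
      exact H.l2 ((d7 (n - 2) 0 (by omega) (by omega)).1.1 hc')
    | false =>
      intro hc
      have hc' : trB n ty p col E (cC (2 * ix0 n) 3 0) := hc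
      have c3 := (d7 3 0 (by omega) (by omega)).1.1 hc'
      exact (H.kz 3 (by norm_num) (by omega) c3).1 H.k2
  | false =>
  rw [h6] at h
  cases h7 : Nat.beq t (nat_lit 7) with
  | true =>
    rw [h7] at h
    obtain ⟨g1, h⟩ := Lst.aa_eq.1 h
    obtain ⟨g2, h⟩ := Lst.aa_eq.1 h
    obtain ⟨g3, g4⟩ := Lst.aa_eq.1 h
    have e2 : ty = 2 := Nat.eq_of_beq_eq_true g1
    obtain ⟨_, H⟩ := be.t2 e2
    have f3 : 1 ≤ y := le_of g3
    have f4 : y < k := Lst.lt_eq g4
    have hx : x < n ∧ col x = 0 := by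
      rcases CovFix.iff_true' g2 with q | q
      · have e : x = 2 := Nat.eq_of_beq_eq_true q
        rw [e]
        exact ⟨by omega, H.k2⟩
      · have e : x + 1 = n := Nat.eq_of_beq_eq_true q
        have e' : x = n - 1 := by omega
        rw [e']
        exact ⟨by omega, H.l1⟩
    intro hc
    have hc' : trB n ty p col E (cC (2 * ix0 n) x y) := hc
    have := (d7 x y hx.1 (by omega)).1.1 hc'
    have := hx.2
    omega
  | false =>
  rw [h7] at h
  cases h8 : Nat.beq t (nat_lit 8) with
  | true =>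
    rw [h8] at h
    obtain ⟨g1, h⟩ := Lst.aa_eq.1 h
    obtain ⟨g2, h⟩ := Lst.aa_eq.1 h
    obtain ⟨g3, g4⟩ := Lst.aa_eq.1 h
    have e0 : ty ≠ 0 := ne_of (Lst.nn_eq g1)
    have f2 : x ≤ n := le_of g2
    have f3 : y < 8 := Lst.lt_eq g3
    have f4 : y ≤ loB n ty x := le_of g4
    intro hc
    have hc' : trB n ty p col E (cS (2 * ix3 n ty) x y + 1) := hc
    exact (d11 x y f2 f3).2.1 hc' (f4.trans (loB_le be e0 f2))
  | false =>
  rw [h8] at h
  cases h9 : Nat.beq t (nat_lit 9) with
  | true =>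
    rw [h9] at h
    obtain ⟨g1, h⟩ := Lst.aa_eq.1 h
    obtain ⟨g2, h⟩ := Lst.aa_eq.1 h
    obtain ⟨g3, g4⟩ := Lst.aa_eq.1 h
    have e0 : ty ≠ 0 := ne_of (Lst.nn_eq g1)
    have f2 : x ≤ n := le_of g2
    have f3 : y < 8 := Lst.lt_eq g3
    have f4 : hiB n ty x < y := Lst.lt_eq g4
    intro hc
    have hc' : trB n ty p col E (cS (2 * ix3 n ty) x y) := hc
    have := (d11 x y f2 f3).1.1 hc'
    have := le_hiB be e0 f2
    omega
  | false =>
  rw [h9] at h
  obtain ⟨_, g2⟩ := Lst.aa_eq.1 h
  have e1 : ty = 1 := Nat.eq_of_beq_eq_true g2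
  intro hc
  have hc' : trB n ty p col E (cX (2 * ix4 n ty) 0) := hc
  have := ((be.t1 e1).2 0 ((d12 0).1.1 hc')).1
  omega

end DFix

open DFix

/-- D9.  Fixed literals. -/
theorem t_DFix (hDec : S_Dec) : S_DFix := by
  intro n k ty p col E l FM be h
  have key : ∀ (l : List ℕ) (A : ℕ), (∀ x, bt A x = 1 → ¬trB n ty p col E x) →
      chkFB n k ty (2 * ix0 n) (2 * ix1 n) (2 * ix3 n ty) (2 * ix4 n ty) l A FM = true →
      ∀ x, bt FM x = 1 → ¬trB n ty p col E x := by
    intro l
    induction l with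
    | nil =>
      intro A hA hc
      have h1 : Nat.beq A FM = true := hc
      rw [← Nat.eq_of_beq_eq_true h1]
      exact hA
    | cons d l ih =>
      intro A hA hc
      have h1 : aa (fixB n k ty (Nat.mod d (nat_lit 32)) (dg d (nat_lit 5)) (dg d (nat_lit 10)))
        (chkFB n k ty (2 * ix0 n) (2 * ix1 n) (2 * ix3 n ty) (2 * ix4 n ty) l
          (A ||| (1 <<< (fcB n (2 * ix0 n) (2 * ix1 n) (2 * ix3 n ty) (2 * ix4 n ty)
            (Nat.mod d (nat_lit 32)) (dg d (nat_lit 5)) (dg d (nat_lit 10))))) FM) = true := hc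
      obtain ⟨h2, h3⟩ := Lst.aa_eq.1 h1
      refine ih _ ?_ h3
      intro x hx
      rw [CovFix.bt_eq, Nat.testBit_or, Bool.or_eq_true] at hx
      rcases hx with hx | hx
      · exact hA x ((CovFix.bt_eq _ _).2 hx)
      · rw [Nat.testBit_shiftLeft, Bool.and_eq_true, decide_eq_true_eq,
          Nat.testBit_one_eq_true_iff_self_eq_zero] at hx
        have hxe : x = fcB n (2 * ix0 n) (2 * ix1 n) (2 * ix3 n ty) (2 * ix4 n ty)
            (Nat.mod d (nat_lit 32)) (dg d (nat_lit 5)) (dg d (nat_lit 10)) := by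
          have := hx.1
          have := hx.2
          omega
        rw [hxe]
        exact lit hDec be h2
  exact key l 0 (by
    intro x hx
    rw [CovFix.bt_eq, Nat.zero_testBit] at hx
    exact absurd hx Bool.false_ne_true) h

end Pool.BK5
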