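import Pool.Agent.BK5.StmtsD

/-!
MP_70b73c_co, 5-blocked sets, part D: soundness of the general clauses of part B (`S_DG`).
-/

set_option autoImplicit false

namespace Pool.BK5

namespace DG

theorem aa_eq {b c : Bool} (h : aa b c = true) : b = true ∧ c = true := by
  cases b
  · exact absurd h Bool.false_ne_true
  · exact ⟨rfl, h⟩

theorem lt_eq {a b : ℕ} (h : lt a b = true) : a < b := Nat.le_of_ble_eq_true h

theorem nbq {a b : ℕ} (h : nn (Nat.beq a b) = true) : a ≠ b := by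
  intro e
  subst e
  rw [Nat.beq_refl] at h
  exact absurd h Bool.false_ne_true

/-- The nine shapes of the clause. -/
theorem split {n k FM B0 B1 : ℕ} {c0 : Sat.Clause} {t x y z : ℕ}
    (h : chkG n k FM B0 B1 c0 t x y z = true) :
    -- 7
    (nn (Nat.beq x y) = true ∧ lt x n = true ∧ lt y n = true ∧ lt z k = true ∧
      s3 FM c0 (cBs B1 x y + 1) (cC B0 x z + 1) (cC B0 y z) = true) ∨
    -- 8
    (nn (Nat.beq x y) = true ∧ lt x n = true ∧ lt y n = true ∧ lt z k = true ∧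
      s3 FM c0 (cBs B1 x y) (cC B0 x z + 1) (cC B0 y z + 1) = true) ∨
    -- 6
    (lt x y = true ∧ lt y z = true ∧ lt z n = true ∧
      s2 FM c0 (cZ x y z + 1) (cB B1 x z) = true) ∨
    -- 5
    (lt x y = true ∧ lt y n = true ∧
      st FM c0 (cB B1 x y + 1)
        (lp FM c0 (fun m => cZ x m y) (y - (x + 1)) (fun _ => true) (x + 1)) c0 = true) ∨
    -- 2
    (lt x y = true ∧ lt y z = true ∧ lt z n = true ∧
      s2 FM c0 (cP x y z + 1) (cZ x y z + 1) = true) ∨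
    -- 3
    (lt x n = true ∧ lp FM c0 (fun a => cC B0 x a) k (fun _ => true) 0 c0 = true) ∨
    -- 4
    (lt x n = true ∧ lt y k = true ∧ lt z k = true ∧ nn (Nat.beq y z) = true ∧
      s2 FM c0 (cC B0 x y + 1) (cC B0 x z + 1) = true) ∨
    -- 9
    (lt 0 x = true ∧ lt x y = true ∧ lt y n = true ∧ s2 FM c0 (cP 0 x y) (cZ 0 x y) = true) ∨
    -- 10
    (lt x n = true ∧ lt (y + 1) k = true ∧
      st FM c0 (cC B0 x (y + 1) + 1)
        (lp FM c0 (fun m => cC B0 m y) x (fun _ => true) 0) c0 = true) := by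
  unfold chkG at h
  cases h7 : Nat.beq t 7 with
  | true =>
    rw [h7] at h
    obtain ⟨a1, h⟩ := aa_eq h
    obtain ⟨a2, h⟩ := aa_eq h
    obtain ⟨a3, h⟩ := aa_eq h
    obtain ⟨a4, h⟩ := aa_eq h
    exact Or.inl ⟨a1, a2, a3, a4, h⟩
  | false =>
  rw [h7] at h
  refine Or.inr ?_
  cases h8 : Nat.beq t 8 with
  | true =>
    rw [h8] at h
    obtain ⟨a1, h⟩ := aa_eq h
    obtain ⟨a2, h⟩ := aa_eq h
    obtain ⟨a3, h⟩ := aa_eq h
    obtain ⟨a4, h⟩ := aa_eq h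
    exact Or.inl ⟨a1, a2, a3, a4, h⟩
  | false =>
  rw [h8] at h
  refine Or.inr ?_
  cases h6 : Nat.beq t 6 with
  | true =>
    rw [h6] at h
    obtain ⟨a1, h⟩ := aa_eq h
    obtain ⟨a2, h⟩ := aa_eq h
    obtain ⟨a3, h⟩ := aa_eq h
    exact Or.inl ⟨a1, a2, a3, h⟩
  | false =>
  rw [h6] at h
  refine Or.inr ?_
  cases h5 : Nat.beq t 5 with
  | true =>
    rw [h5] at h
    obtain ⟨a1, h⟩ := aa_eq h
    obtain ⟨a2, h⟩ := aa_eq h
    exact Or.inl ⟨a1, a2, h⟩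
  | false =>
  rw [h5] at h
  refine Or.inr ?_
  cases h2 : Nat.beq t 2 with
  | true =>
    rw [h2] at h
    obtain ⟨a1, h⟩ := aa_eq h
    obtain ⟨a2, h⟩ := aa_eq h
    obtain ⟨a3, h⟩ := aa_eq h
    exact Or.inl ⟨a1, a2, a3, h⟩
  | false =>
  rw [h2] at h
  refine Or.inr ?_
  cases h3 : Nat.beq t 3 with
  | true =>
    rw [h3] at h
    obtain ⟨a1, h⟩ := aa_eq h
    exact Or.inl ⟨a1, h⟩
  | false =>
  rw [h3] at h
  refine Or.inr ?_
  cases h4 : Nat.beq t 4 with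
  | true =>
    rw [h4] at h
    obtain ⟨a1, h⟩ := aa_eq h
    obtain ⟨a2, h⟩ := aa_eq h
    obtain ⟨a3, h⟩ := aa_eq h
    obtain ⟨a4, h⟩ := aa_eq h
    exact Or.inl ⟨a1, a2, a3, a4, h⟩
  | false =>
  rw [h4] at h
  refine Or.inr ?_
  cases h9 : Nat.beq t 9 with
  | true =>
    rw [h9] at h
    obtain ⟨a1, h⟩ := aa_eq h
    obtain ⟨a2, h⟩ := aa_eq h
    obtain ⟨a3, h⟩ := aa_eq h
    exact Or.inl ⟨a1, a2, a3, h⟩
  | false =>
    rw [h9] at h
    obtain ⟨_, h⟩ := aa_eq h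
    obtain ⟨a1, h⟩ := aa_eq h
    obtain ⟨a2, h⟩ := aa_eq h
    exact Or.inr ⟨a1, a2, h⟩

end DG

open DG in
theorem t_DG (hSt : S_St) (hDec : S_Dec) (hDLp : S_DLp) (hDOut : S_DOut) : S_DG := by
  intro n k ty FM B0 B1 B2 B3 B4 p col E c0 henv t x y z h
  obtain ⟨l1, -, l3, l4, -, -⟩ := hDLp FM c0
  obtain ⟨-, -, -, -, -, dP, dC, dB, dBs, -, -, -, -⟩ := hDec n ty p col E
  have hout := hDOut n k ty FM B0 B1 B2 B3 B4 p col E c0 henv
  have hb := henv.be.bm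
  have k5 := henv.be.k5
  have e0 := henv.e0
  have e1 := henv.e1
  have cpos : ∀ i a, i < n → a < k → out FM c0 (cC B0 i a + 1) = true → col i = a := by
    intro i a hi ha ho
    have h1 := hout _ ho
    rw [e0, (dC i a hi (by omega)).2] at h1
    exact not_not.1 h1
  have cneg : ∀ i a, i < n → a < k → out FM c0 (cC B0 i a) = true → col i ≠ a := by
    intro i a hi ha ho
    have h1 := hout _ ho
    rw [e0, (dC i a hi (by omega)).1] at h1
    exact h1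
  have zpos : ∀ a b c, a < b → b < c → c < n → out FM c0 (cZ a b c + 1) = true →
      D (p a) (p b) (p c) = 0 := by
    intro a b c h1 h2 h3 ho
    have h4 := hout _ ho
    have h5 := dP a b c h1 h2 h3
    rw [h5.2.2.2.2] at h4
    exact not_not.1 (fun h6 => h4 (h5.2.2.2.1.2 h6))
  have zneg : ∀ a b c, a < b → b < c → c < n → out FM c0 (cZ a b c) = true →
      D (p a) (p b) (p c) ≠ 0 := by
    intro a b c h1 h2 h3 ho
    have h4 := hout _ ho
    have h5 := dP a b c h1 h2 h3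
    rw [h5.2.2.2.2] at h4
    exact fun h6 => h4 (h5.2.2.1.2 h6)
  rcases split h with ⟨a1, a2, a3, a4, hs⟩ | ⟨a1, a2, a3, a4, hs⟩ | ⟨a1, a2, a3, hs⟩ | ⟨a1, a2, hs⟩ |
    ⟨a1, a2, a3, hs⟩ | ⟨a1, hs⟩ | ⟨a1, a2, a3, a4, hs⟩ | ⟨a1, a2, a3, hs⟩ | ⟨a1, a2, hs⟩
  · -- 7
    obtain ⟨o1, o2, o3⟩ := l4 _ _ _ hs
    have b1 := nbq a1
    have b2 := lt_eq a2
    have b3 := lt_eq a3
    have b4 := lt_eq a4
    have h1 := hout _ o1
    rw [e1, (dBs x y b1 b2 b3).2] at h1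
    have h2 : col x = col y := not_not.1 h1
    exact cneg y z b3 b4 o3 (h2 ▸ cpos x z b2 b4 o2)
  · -- 8
    obtain ⟨o1, o2, o3⟩ := l4 _ _ _ hs
    have b1 := nbq a1
    have b2 := lt_eq a2
    have b3 := lt_eq a3
    have b4 := lt_eq a4
    have h1 := hout _ o1
    rw [e1, (dBs x y b1 b2 b3).1] at h1
    exact h1 ((cpos x z b2 b4 o2).trans (cpos y z b3 b4 o3).symm)
  · -- 6
    obtain ⟨o1, o2⟩ := l3 _ _ hs
    have b1 := lt_eq a1
    have b2 := lt_eq a2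
    have b3 := lt_eq a3
    have h1 := zpos x y z b1 b2 b3 o1
    have h2 := hout _ o2
    rw [e1, (dB x z (by omega) b3).1] at h2
    exact h2 ((hb.blk x z (by omega) b3).2 ⟨y, b1, b2, h1⟩)
  · -- 5
    obtain ⟨o1, c', hc', h2⟩ := hSt FM c0 _ _ c0 (fun l hl => hl) hs
    have o2 := (l1 (fun m => cZ x m y) (y - (x + 1)) (fun _ => true) (x + 1) c' hc' h2).1
    have b1 := lt_eq a1
    have b2 := lt_eq a2
    have h1 := hout _ o1
    rw [e1, (dB x y b1 b2).2] at h1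
    obtain ⟨m, m1, m2, m3⟩ := (hb.blk x y b1 b2).1 (not_not.1 h1)
    have h3 := o2 (m - (x + 1)) (by omega)
    have h4 : x + 1 + (m - (x + 1)) = m := by omega
    simp only [h4] at h3
    exact zneg x m y m1 m2 b2 h3 m3
  · -- 2
    obtain ⟨o1, o2⟩ := l3 _ _ hs
    have b1 := lt_eq a1
    have b2 := lt_eq a2
    have b3 := lt_eq a3
    have h1 := zpos x y z b1 b2 b3 o2
    have h2 := hout _ o1
    rw [(dP x y z b1 b2 b3).2.1] at h2
    have h3 : 0 < D (p x) (p y) (p z) := not_not.1 h2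
    exact h3.ne' h1
  · -- 3
    have b1 := lt_eq a1
    have o1 := (l1 (fun a => cC B0 x a) k (fun _ => true) 0 c0 (fun l hl => hl) hs).1
    have h1 := hb.clt x b1
    have h2 := o1 (col x) h1
    simp only [Nat.zero_add] at h2
    exact cneg x (col x) b1 h1 h2 rfl
  · -- 4
    obtain ⟨o1, o2⟩ := l3 _ _ hs
    have b1 := lt_eq a1
    have b2 := lt_eq a2
    have b3 := lt_eq a3
    have b4 := nbq a4
    exact b4 ((cpos x y b1 b2 o1).symm.trans (cpos x z b1 b3 o2))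
  · -- 9
    obtain ⟨o1, o2⟩ := l3 _ _ hs
    have b1 := lt_eq a1
    have b2 := lt_eq a2
    have b3 := lt_eq a3
    have h1 := zneg 0 x y b1 b2 b3 o2
    have h2 := hout _ o1
    rw [(dP 0 x y b1 b2 b3).1] at h2
    exact h2 (lt_of_le_of_ne (hb.rad x y b1 b2 b3) (Ne.symm h1))
  · -- 10
    obtain ⟨o1, c', hc', h2⟩ := hSt FM c0 _ _ c0 (fun l hl => hl) hs
    have o2 := (l1 (fun m => cC B0 m y) x (fun _ => true) 0 c' hc' h2).1
    have b1 := lt_eq a1
    have b2 := lt_eq a2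
    have h1 := cpos x (y + 1) b1 b2 o1
    obtain ⟨m, m1, m2⟩ := hb.norm x y b1 h1
    have h3 := o2 m m1
    simp only [Nat.zero_add] at h3
    exact cneg m y (by omega) (by omega) h3 m2

end Pool.BK5
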