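import Pool.Agent.BK5.StmtsD

/-!
MP_70b73c_co, 5-blocked sets, part D: soundness of the hexagon clauses of part B (`S_DH`).
-/

set_option autoImplicit false

namespace Pool.BK5

namespace DH

theorem aa_eq {b c : Bool} (h : aa b c = true) : b = true ∧ c = true := by
  cases b
  · exact absurd h Bool.false_ne_true
  · exact ⟨rfl, h⟩

theorem lt_eq {a b : ℕ} (h : lt a b = true) : a < b := Nat.le_of_ble_eq_true h

/-- The six shapes of the clause. -/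
theorem split {n FM B0 B2 : ℕ} {c0 : Sat.Clause} {t x y z v : ℕ}
    (h : chkH n FM B0 B2 c0 t x y z v = true) :
    (lt 0 x = true ∧ lt x y = true ∧ lt y z = true ∧ lt z n = true ∧
      s4 FM c0 (cC B0 x 0 + 1) (cC B0 y 0 + 1) (cC B0 z 0 + 1) (cP x y z) = true) ∨
    (lt x y = true ∧ lt y z = true ∧ lt z n = true ∧
      ((v = 0 ∧ s2 FM c0 (cW B2 x y z + 1) (cC B0 x 0) = true) ∨
       (v = 1 ∧ s2 FM c0 (cW B2 x y z + 1) (cC B0 z 0) = true) ∨
       s2 FM c0 (cW B2 x y z + 1) (cP x y z + 1) = true)) ∨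
    (lt 0 x = true ∧ lt (x + 1) n = true ∧
      st FM c0 (cC B0 x 0) (st FM c0 (cC B0 (x + 1) 0)
        (lpW FM c0 n B2 x (x - 2) (fun _ => true) 2)) c0 = true) ∨
    (lt 0 x = true ∧ lt (x + 1) n = true ∧
      s2 FM c0 (cC B0 (x + 1) 0 + 1) (cC B0 x 0 + 1) = true) ∨
    (lt 0 x = true ∧ lt (x + 1) n = true ∧
      s2 FM c0 (cC B0 (x + 1) 0 + 1) (cZ 0 x (x + 1)) = true) ∨
    (lt 0 x = true ∧ lt (x + 1) n = true ∧
      s2 FM c0 (cZ 0 x (x + 1) + 1) (cC B0 (x + 1) 0) = true) := by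
  unfold chkH at h
  cases h16 : Nat.beq t 16 with
  | true =>
    rw [h16] at h
    obtain ⟨a1, h⟩ := aa_eq h
    obtain ⟨a2, h⟩ := aa_eq h
    obtain ⟨a3, h⟩ := aa_eq h
    obtain ⟨a4, h⟩ := aa_eq h
    exact Or.inl ⟨a1, a2, a3, a4, h⟩
  | false =>
  rw [h16] at h
  cases h14 : Nat.beq t 14 with
  | true =>
    rw [h14] at h
    obtain ⟨a1, h⟩ := aa_eq h
    obtain ⟨a2, h⟩ := aa_eq h
    obtain ⟨a3, h⟩ := aa_eq h
    refine Or.inr (Or.inl ⟨a1, a2, a3, ?_⟩)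
    cases hv0 : Nat.beq v 0 with
    | true =>
      rw [hv0] at h
      exact Or.inl ⟨Nat.eq_of_beq_eq_true hv0, h⟩
    | false =>
      rw [hv0] at h
      cases hv1 : Nat.beq v 1 with
      | true =>
        rw [hv1] at h
        exact Or.inr (Or.inl ⟨Nat.eq_of_beq_eq_true hv1, h⟩)
      | false =>
        rw [hv1] at h
        exact Or.inr (Or.inr h)
  | false =>
  rw [h14] at h
  cases h15 : Nat.beq t 15 with
  | true =>
    rw [h15] at h
    obtain ⟨a1, h⟩ := aa_eq h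
    obtain ⟨a2, h⟩ := aa_eq h
    exact Or.inr (Or.inr (Or.inl ⟨a1, a2, h⟩))
  | false =>
  rw [h15] at h
  cases h11 : Nat.beq t 11 with
  | true =>
    rw [h11] at h
    obtain ⟨a1, h⟩ := aa_eq h
    obtain ⟨a2, h⟩ := aa_eq h
    exact Or.inr (Or.inr (Or.inr (Or.inl ⟨a1, a2, h⟩)))
  | false =>
  rw [h11] at h
  cases h12 : Nat.beq t 12 with
  | true =>
    rw [h12] at h
    obtain ⟨a1, h⟩ := aa_eq h
    obtain ⟨a2, h⟩ := aa_eq h
    exact Or.inr (Or.inr (Or.inr (Or.inr (Or.inl ⟨a1, a2, h⟩))))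
  | false =>
    rw [h12] at h
    obtain ⟨a0, h⟩ := aa_eq h
    obtain ⟨a1, h⟩ := aa_eq h
    obtain ⟨a2, h⟩ := aa_eq h
    exact Or.inr (Or.inr (Or.inr (Or.inr (Or.inr ⟨a1, a2, h⟩))))

end DH

open DH in
theorem t_DH (hSt : S_St) (hDec : S_Dec) (hDLp : S_DLp) (hDOut : S_DOut) : S_DH := by
  intro n k ty FM B0 B1 B2 B3 B4 p col E c0 henv hty t x y z v h
  obtain ⟨-, l2, l3, -, l5, -⟩ := hDLp FM c0
  obtain ⟨-, -, -, -, -, dP, dC, -, -, dW, -, -, -⟩ := hDec n ty p col E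
  have hout := hDOut n k ty FM B0 B1 B2 B3 B4 p col E c0 henv
  obtain ⟨-, hm⟩ := henv.be.t2 hty
  have e0 := henv.e0
  have e2 := henv.e2
  have cpos : ∀ i, i < n → out FM c0 (cC B0 i 0 + 1) = true → col i = 0 := by
    intro i hi ho
    have h1 := hout _ ho
    rw [e0] at h1
    rw [(dC i 0 hi (by omega)).2] at h1
    exact not_not.1 h1
  have cneg : ∀ i, i < n → out FM c0 (cC B0 i 0) = true → col i ≠ 0 := by
    intro i hi ho
    have h1 := hout _ ho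
    rw [e0] at h1
    rw [(dC i 0 hi (by omega)).1] at h1
    exact h1
  have wpos : ∀ a q b, a < q → q < b → b < n → out FM c0 (cW B2 a q b + 1) = true →
      col a = 0 ∧ col b = 0 ∧ ¬0 < D (p a) (p q) (p b) := by
    intro a q b h1 h2 h3 ho
    have h4 := hout _ ho
    rw [e2] at h4
    rw [(dW hty a q b h1 h2 h3).2] at h4
    exact not_not.1 h4
  have wneg : ∀ a q b, a < q → q < b → b < n → out FM c0 (cW B2 a q b) = true →
      ¬(col a = 0 ∧ col b = 0 ∧ ¬0 < D (p a) (p q) (p b)) := by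
    intro a q b h1 h2 h3 ho
    have h4 := hout _ ho
    rw [e2] at h4
    rw [(dW hty a q b h1 h2 h3).1] at h4
    exact h4
  rcases split h with ⟨a1, a2, a3, a4, hs⟩ | ⟨a1, a2, a3, hs⟩ | ⟨a1, a2, hs⟩ | ⟨a1, a2, hs⟩ |
    ⟨a1, a2, hs⟩ | ⟨a1, a2, hs⟩
  · -- 16
    obtain ⟨o1, o2, o3, o4⟩ := l5 _ _ _ _ hs
    have b1 := lt_eq a1
    have b2 := lt_eq a2
    have b3 := lt_eq a3
    have b4 := lt_eq a4
    have h1 := hout _ o4
    rw [(dP x y z b2 b3 b4).1] at h1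
    exact h1 (hm.cv x y z b1 b2 b3 b4 (cpos x (by omega) o1) (cpos y (by omega) o2)
      (cpos z b4 o3))
  · -- 14
    have b1 := lt_eq a1
    have b2 := lt_eq a2
    have b3 := lt_eq a3
    rcases hs with ⟨-, hs⟩ | ⟨-, hs⟩ | hs
    · obtain ⟨o1, o2⟩ := l3 _ _ hs
      exact cneg x (by omega) o2 (wpos x y z b1 b2 b3 o1).1
    · obtain ⟨o1, o2⟩ := l3 _ _ hs
      exact cneg z b3 o2 (wpos x y z b1 b2 b3 o1).2.1
    · obtain ⟨o1, o2⟩ := l3 _ _ hs
      have h1 := hout _ o2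
      rw [(dP x y z b1 b2 b3).2.1] at h1
      exact h1 (wpos x y z b1 b2 b3 o1).2.2
  · -- 15
    have b1 := lt_eq a1
    have b2 := lt_eq a2
    obtain ⟨o1, c1, s1, g1⟩ := hSt FM c0 _ _ c0 (fun _ hl => hl) hs
    obtain ⟨o2, c2, s2, g2⟩ := hSt FM c0 _ _ c1 s1 g1
    obtain ⟨o3, -⟩ := l2 n B2 x (x - 2) (fun _ => true) 2 c2 s2 g2
    rcases hm.ins x b1 b2 with h1 | h1 | ⟨a, b, h1, h2, h3, h4, h5, h6, h7⟩
    · exact cneg x (by omega) o1 h1
    · exact cneg (x + 1) b2 o2 h1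
    · have h8 := o3 (a - 2) b (by omega) h3 h4
      have h9 : 2 + (a - 2) = a := by omega
      rw [h9] at h8
      exact wneg a x b h2 h3 h4 h8 ⟨h5, h6, not_lt.2 h7⟩
  · -- 11
    have b1 := lt_eq a1
    have b2 := lt_eq a2
    obtain ⟨o1, o2⟩ := l3 _ _ hs
    exact (hm.kz (x + 1) (by omega) b2 (cpos (x + 1) b2 o1)).1 (cpos x (by omega) o2)
  · -- 12
    have b1 := lt_eq a1
    have b2 := lt_eq a2
    obtain ⟨o1, o2⟩ := l3 _ _ hs
    obtain ⟨-, -, d3, -, d5⟩ := dP 0 x (x + 1) b1 (by omega) b2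
    rw [d5] at o2
    have h1 := hout _ o2
    rw [d3] at h1
    exact h1 (hm.kz (x + 1) (by omega) b2 (cpos (x + 1) b2 o1)).2
  · -- 13
    have b1 := lt_eq a1
    have b2 := lt_eq a2
    obtain ⟨o1, o2⟩ := l3 _ _ hs
    obtain ⟨-, -, -, d4, d5⟩ := dP 0 x (x + 1) b1 (by omega) b2
    rw [d5] at o1
    have h1 := hout _ o1
    have h2 : cP 0 x (x + 1) + 2 + 1 = cP 0 x (x + 1) + 3 := rfl
    rw [h2, d4] at h1
    exact cneg (x + 1) b2 o2 (hm.zk (x + 1) (by omega) b2 (not_not.1 h1))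

end Pool.BK5
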