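import Pool.Agent.BK5.StmtsC

/-!
MP_70b73c_co, 5-blocked sets: the step function of the clause checker and the atoms which are `out`
(statements `S_St` and `S_Out` of part C).
-/

set_option autoImplicit false

namespace Pool.BK5

namespace StOut

theorem aa_true {b c : Bool} (h : aa b c = true) : b = true ∧ c = true := by
  cases b
  · exact absurd h (by show ¬ (false = true); decide)
  · exact ⟨rfl, h⟩

theorem beq_true {x y : ℕ} (h : Nat.beq x y = true) : x = y := Nat.eq_of_beq_eq_true h

theorem mem_of_mem (x : ℕ) (l : Sat.Literal) (hx : x = lc l) (c : List Sat.Literal)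
    (hl : l ∈ c) : mem x c = true := by
  induction c with
  | nil => exact absurd hl List.not_mem_nil
  | cons a t ih =>
    show (Bool.rec (mem x t) true (Nat.beq x (lc a)) : Bool) = true
    rcases hb : Nat.beq x (lc a) with _ | _
    · rcases List.mem_cons.1 hl with h | h
      · exfalso
        rw [hx, h] at hb
        have h2 : Nat.beq (lc a) (lc a) = true := Nat.beq_refl _
        rw [h2] at hb
        exact absurd hb (by decide)
      · exact ih h
    · rfl

theorem out_of_mem (FM : ℕ) (c0 : Sat.Clause) (x : ℕ) (h : mem x c0 = true) :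
    out FM c0 x = true := by
  show (Bool.rec (mem x c0) true (Nat.beq (bt FM x) (nat_lit 1)) : Bool) = true
  rcases Nat.beq (bt FM x) (nat_lit 1) with _ | _
  · exact h
  · rfl

theorem out_cases (FM : ℕ) (c0 : Sat.Clause) (x : ℕ) (h : out FM c0 x = true) :
    bt FM x = 1 ∨ mem x c0 = true := by
  have h' : (Bool.rec (mem x c0) true (Nat.beq (bt FM x) (nat_lit 1)) : Bool) = true := h
  rcases hb : Nat.beq (bt FM x) (nat_lit 1) with _ | _
  · rw [hb] at h'
    exact Or.inr h'
  · exact Or.inl (beq_true hb)

theorem D_self_left (a c : Pt) : D a a c = 0 := by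
  simp only [D]
  ring

theorem D_self_right (a b : Pt) : D a b b = 0 := by
  simp only [D]
  ring

theorem D_self_out (a b : Pt) : D a b a = 0 := by
  simp only [D]
  ring

theorem D_swap (a b c : Pt) : D b a c = -D a b c := by
  simp only [D]
  ring

end StOut

open StOut in
theorem t_St : S_St := by
  intro FM c0 x k c hc h
  revert hc h
  cases c with
  | nil =>
    intro hc h
    have h' : aa (out FM c0 x) (k []) = true := h
    obtain ⟨h1, h2⟩ := aa_true h'
    exact ⟨h1, [], hc, h2⟩
  | cons l t =>
    intro hc h
    have h' : (Bool.rec (aa (out FM c0 x) (k (l :: t))) (k t) (Nat.beq x (lc l)) : Bool) = true := h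
    rcases hb : Nat.beq x (lc l) with _ | _
    · rw [hb] at h'
      have h'' : aa (out FM c0 x) (k (l :: t)) = true := h'
      obtain ⟨h1, h2⟩ := aa_true h''
      exact ⟨h1, l :: t, hc, h2⟩
    · rw [hb] at h'
      have h'' : k t = true := h'
      have hl : l ∈ (show List Sat.Literal from c0) := hc l (List.mem_cons_self ..)
      refine ⟨out_of_mem FM c0 x (mem_of_mem x l (beq_true hb) c0 hl), t, ?_, h''⟩
      intro l' hl'
      exact hc l' (List.mem_cons_of_mem _ hl')

open StOut in
theorem t_Out (hCa : S_Ca) : S_Out := by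
  intro i j m n FM s z w p Hd c0 he
  have h1 : ∀ x, out FM c0 x = true → ¬tr p x := by
    intro x hx
    rcases out_cases FM c0 x hx with h | h
    · exact he.fm x h
    · exact he.cl x h
  have h2 : ∀ a b c, out FM c0 (ca a b c) = true → D (p a) (p b) (p c) ≤ 0 := by
    intro a b c h
    by_cases hab : a = b
    · rw [hab, D_self_left]
    by_cases hac : a = c
    · rw [← hac, D_self_out]
    by_cases hbc : b = c
    · rw [hbc, D_self_right]
    exact not_lt.1 fun hD => h1 _ h (((hCa p).1 a b c hab hac hbc).2 hD)
  refine ⟨h1, h2, ?_⟩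
  intro a b c ha hb hc hab hac hbc h
  have h3 := h2 a b c h
  rw [he.hn] at ha hb hc
  have h4 := he.md.gp a b c ha hb hc hab hac hbc
  have h5 : D (p a) (p b) (p c) < 0 := lt_of_le_of_ne h3 h4
  refine ⟨h5, ?_⟩
  rw [D_swap]
  linarith

end Pool.BK5
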