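import Pool.Agent.BK5.StmtsD
import Pool.Agent.BK5.StOut

/-!
MP_70b73c_co, 5-blocked sets, D2, D3: the list functions of the checker of part B.
-/

set_option autoImplicit false

namespace Pool.BK5

theorem t_DLp (hSt : S_St) : S_DLp := by
  intro FM c0
  have hself : Sub c0 c0 := fun _ h => h
  have hlp : ∀ (f : ℕ → ℕ) (k : ℕ) (K : Sat.Clause → Bool) (s : ℕ) (c : Sat.Clause), Sub c c0 →
      lp FM c0 f k K s c = true →
      (∀ r, r < k → out FM c0 (f (s + r)) = true) ∧ ∃ c', Sub c' c0 ∧ K c' = true := by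
    intro f k K
    induction k with
    | zero =>
      intro s c hc h
      exact ⟨fun r hr => absurd hr (Nat.not_lt_zero r), c, hc, h⟩
    | succ k ih =>
      intro s c hc h
      have h' : st FM c0 (f s) (lp FM c0 f k K (Nat.succ s)) c = true := h
      obtain ⟨h1, c', hc', h2⟩ := hSt FM c0 _ _ c hc h'
      obtain ⟨h3, h4⟩ := ih (Nat.succ s) c' hc' h2
      refine ⟨fun r hr => ?_, h4⟩
      cases r with
      | zero => exact h1
      | succ r =>
        have h5 := h3 r (Nat.lt_of_succ_lt_succ hr)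
        have e : Nat.succ s + r = s + (r + 1) := by omega
        rw [e] at h5
        exact h5
  refine ⟨hlp, ?_, ?_, ?_, ?_, ?_⟩
  · intro n B2 q k K
    induction k with
    | zero =>
      intro s c hc h
      exact ⟨fun r b hr => absurd hr (Nat.not_lt_zero r), c, hc, h⟩
    | succ k ih =>
      intro s c hc h
      have h' : lp FM c0 (fun b => cW B2 s q b) (Nat.sub n (Nat.succ q))
        (lpW FM c0 n B2 q k K (Nat.succ s)) (Nat.succ q) c = true := h
      obtain ⟨h1, c', hc', h2⟩ := hlp _ _ _ _ c hc h'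
      obtain ⟨h3, h4⟩ := ih (Nat.succ s) c' hc' h2
      refine ⟨fun r b hr hqb hbn => ?_, h4⟩
      cases r with
      | zero =>
        have h5 := h1 (b - (q + 1)) (by
          show b - (q + 1) < n - (q + 1)
          omega)
        have e : Nat.succ q + (b - (q + 1)) = b := by omega
        rw [e] at h5
        exact h5
      | succ r =>
        have h5 := h3 r b (Nat.lt_of_succ_lt_succ hr) hqb hbn
        have e : Nat.succ s + r = s + (r + 1) := by omega
        rw [e] at h5
        exact h5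
  · intro x y h
    obtain ⟨h1, c', hc', h2⟩ := hSt FM c0 _ _ c0 hself h
    obtain ⟨h3, -⟩ := hSt FM c0 _ _ c' hc' h2
    exact ⟨h1, h3⟩
  · intro x y z h
    obtain ⟨h1, c', hc', h2⟩ := hSt FM c0 _ _ c0 hself h
    obtain ⟨h3, c2, hc2, h4⟩ := hSt FM c0 _ _ c' hc' h2
    obtain ⟨h5, -⟩ := hSt FM c0 _ _ c2 hc2 h4
    exact ⟨h1, h3, h5⟩
  · intro x y z w h
    obtain ⟨h1, c', hc', h2⟩ := hSt FM c0 _ _ c0 hself h
    obtain ⟨h3, c2, hc2, h4⟩ := hSt FM c0 _ _ c' hc' h2
    obtain ⟨h5, c3, hc3, h6⟩ := hSt FM c0 _ _ c2 hc2 h4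
    obtain ⟨h7, -⟩ := hSt FM c0 _ _ c3 hc3 h6
    exact ⟨h1, h3, h5, h7⟩
  · intro o T K c hc h
    unfold pos at h
    rcases h0 : Nat.beq o (nat_lit 0) with _ | _
    · rw [h0] at h
      rcases h1 : Nat.beq o (nat_lit 1) with _ | _
      · rw [h1] at h
        rcases h2 : Nat.beq o (nat_lit 2) with _ | _
        · rw [h2] at h
          rcases h3 : Nat.beq o (nat_lit 3) with _ | _
          · rw [h3] at h
            rcases h4 : Nat.beq o (nat_lit 4) with _ | _
            · rw [h4] at h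
              obtain ⟨a1, c1, hc1, a2⟩ := hSt FM c0 _ _ c hc h
              obtain ⟨a3, a4⟩ := hSt FM c0 _ _ c1 hc1 a2
              have n0 := Nat.ne_of_beq_eq_false h0
              have n1 := Nat.ne_of_beq_eq_false h1
              have n2 := Nat.ne_of_beq_eq_false h2
              have n3 := Nat.ne_of_beq_eq_false h3
              have n4 := Nat.ne_of_beq_eq_false h4
              refine ⟨a4, Or.inr (Or.inr (Or.inr (Or.inr (Or.inr ⟨?_, a1, a3⟩))))⟩
              have n0' : o ≠ 0 := n0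
              have n1' : o ≠ 1 := n1
              have n2' : o ≠ 2 := n2
              have n3' : o ≠ 3 := n3
              have n4' : o ≠ 4 := n4
              omega
            · rw [h4] at h
              obtain ⟨a1, a2⟩ := hSt FM c0 _ _ c hc h
              exact ⟨a2, Or.inr (Or.inr (Or.inr (Or.inr (Or.inl
                ⟨Nat.eq_of_beq_eq_true h4, a1⟩))))⟩
          · rw [h3] at h
            obtain ⟨a1, a2⟩ := hSt FM c0 _ _ c hc h
            exact ⟨a2, Or.inr (Or.inr (Or.inr (Or.inl ⟨Nat.eq_of_beq_eq_true h3, a1⟩)))⟩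
        · rw [h2] at h
          obtain ⟨a1, a2⟩ := hSt FM c0 _ _ c hc h
          exact ⟨a2, Or.inr (Or.inr (Or.inl ⟨Nat.eq_of_beq_eq_true h2, a1⟩))⟩
      · rw [h1] at h
        obtain ⟨a1, a2⟩ := hSt FM c0 _ _ c hc h
        exact ⟨a2, Or.inr (Or.inl ⟨Nat.eq_of_beq_eq_true h1, a1⟩)⟩
    · rw [h0] at h
      exact ⟨⟨c, hc, h⟩, Or.inl (Nat.eq_of_beq_eq_true h0)⟩

theorem t_DOut : S_DOut := by
  intro n k ty FM B0 B1 B2 B3 B4 p col E c0 hE x hx
  rcases StOut.out_cases FM c0 x hx with h | h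
  · exact hE.fm x h
  · exact hE.cl x h

end Pool.BK5
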