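import Pool.Agent.BK5.StmtsD
import Pool.Agent.BK5.Lst

/-!
MP_70b73c_co, 5-blocked sets, D6 and D8: counter clauses and extreme point clauses.
-/

set_option autoImplicit false

namespace Pool.BK5

namespace DSH

theorem beq_no {a b : ℕ} (h : a ≠ b) : Nat.beq a b = false := by
  cases hb : Nat.beq a b
  · rfl
  · exact absurd (Nat.eq_of_beq_eq_true hb) h

/-- The counter step. -/
theorem cnt_succ (ty : ℕ) (col : ℕ → ℕ) (E : Finset ℕ) (i : ℕ) :
    cntE ty col E (i + 1) =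
      cntE ty col E i + (if (if ty = 1 then i ∈ E else col i = 0) then 1 else 0) := by
  classical
  unfold cntE
  rw [Finset.range_add_one, Finset.filter_insert]
  split_ifs with h1 h2 h2
  · rw [Finset.card_insert_of_notMem]
    intro h
    exact Finset.notMem_range_self (Finset.mem_filter.1 h).1
  · rw [add_zero]
  · rw [Finset.card_insert_of_notMem]
    intro h
    exact Finset.notMem_range_self (Finset.mem_filter.1 h).1
  · rw [add_zero]

/-- The code of the special points. -/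
theorem cK_tr (hDec : S_Dec) {n k ty FM B0 B1 B2 B3 B4 : ℕ} {p : ℕ → Pt} {col : ℕ → ℕ}
    {E : Finset ℕ} {c0 : Sat.Clause} (h : EnvB n k ty FM B0 B1 B2 B3 B4 p col E c0) {i : ℕ}
    (hi : i < n) :
    (trB n ty p col E (cK ty B0 B4 i) ↔ (if ty = 1 then i ∈ E else col i = 0)) ∧
    (trB n ty p col E (Nat.succ (cK ty B0 B4 i)) ↔ ¬(if ty = 1 then i ∈ E else col i = 0)) := by
  obtain ⟨_, _, _, _, _, _, d7, _, _, _, _, d12, _⟩ := hDec n ty p col E
  by_cases ht : ty = 1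
  · subst ht
    have e : cK 1 B0 B4 i = cX B4 i := rfl
    rw [e, if_pos rfl, h.e4]
    exact d12 i
  · have e : cK ty B0 B4 i = cC B0 i 0 := by
      have h1 : Nat.beq ty 1 = false := beq_no ht
      show Bool.rec (cC B0 i 0) (cX B4 i) (Nat.beq ty 1) = cC B0 i 0
      rw [h1]
    rw [e, if_neg ht, h.e0]
    exact d7 i 0 hi (by norm_num)

/-- The body of `chkS`. -/
theorem chkS_eq (n ty FM B0 B3 B4 : ℕ) (c0 : Sat.Clause) (t i j : ℕ) :
    chkS n ty FM B0 B3 B4 c0 t i j =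
      aa (nn (Nat.beq ty 0)) (aa (lt i n) (aa (lt j 7)
      (Bool.rec
      (Bool.rec
      (Bool.rec
        (aa (Nat.beq t 20)
          (s3 FM c0 (cS B3 (i + 1) (j + 1)) (Nat.succ (cS B3 i j)) (Nat.succ (cK ty B0 B4 i))))
        (s2 FM c0 (cS B3 (i + 1) (j + 1)) (Nat.succ (cS B3 i (j + 1))))
        (Nat.beq t 19))
        (s3 FM c0 (Nat.succ (cS B3 (i + 1) (j + 1))) (cS B3 i (j + 1)) (cK ty B0 B4 i))
        (Nat.beq t 18))
        (s3 FM c0 (Nat.succ (cS B3 (i + 1) (j + 1))) (cS B3 i (j + 1)) (cS B3 i j))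
        (Nat.beq t 17)))) := rfl

/-- The body of `chkX`. -/
theorem chkX_eq (n FM B4 : ℕ) (c0 : Sat.Clause) (t x y z : ℕ) :
    chkX n FM B4 c0 t x y z =
      Bool.rec
        (aa (Nat.beq t 22) (aa (lt 0 x) (aa (lt (x + 1) n)
          (s2 FM c0 (Nat.succ (cX B4 x)) (Nat.succ (cZ 0 x (x + 1)))))))
        (aa (lt 0 y) (aa (lt y x) (aa (lt x z) (aa (lt z n)
          (s2 FM c0 (Nat.succ (cX B4 x)) (cP y x z))))))
        (Nat.beq t 21) := rfl

end DSH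

open DSH in
/-- D6.  Counters. -/
theorem t_DS (hDec : S_Dec) (hDLp : S_DLp) (hDOut : S_DOut) : S_DS := by
  intro n k ty FM B0 B1 B2 B3 B4 p col E c0 h t i j hc
  rw [chkS_eq] at hc
  obtain ⟨_, hc⟩ := Lst.aa_eq.1 hc
  obtain ⟨hi, hc⟩ := Lst.aa_eq.1 hc
  obtain ⟨hj, hc⟩ := Lst.aa_eq.1 hc
  have hi' := Lst.lt_eq hi
  have hj' := Lst.lt_eq hj
  have ho := hDOut n k ty FM B0 B1 B2 B3 B4 p col E c0 h
  obtain ⟨_, _, l2, l3, _, _⟩ := hDLp FM c0
  obtain ⟨_, _, _, _, _, _, _, _, _, _, d11, _, _⟩ := hDec n ty p col E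
  rw [← h.e3] at d11
  have hk := cK_tr hDec h hi'
  have hs := cnt_succ ty col E i
  have a1 := d11 (i + 1) (j + 1) (by omega) (by omega)
  have a2 := d11 i (j + 1) (by omega) (by omega)
  have a3 := d11 i j (by omega) (by omega)
  cases h17 : Nat.beq t 17
  · rw [h17] at hc
    cases h18 : Nat.beq t 18
    · rw [h18] at hc
      cases h19 : Nat.beq t 19
      · rw [h19] at hc
        obtain ⟨_, hc⟩ := Lst.aa_eq.1 hc
        obtain ⟨o1, o2, o3⟩ := l3 _ _ _ hc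
        have b1 := mt a1.1.2 (ho _ o1)
        have b2 := mt a3.2.2 (ho _ o2)
        have b3 := mt hk.2.2 (ho _ o3)
        rw [if_pos (not_not.1 b3)] at hs
        omega
      · rw [h19] at hc
        obtain ⟨o1, o2⟩ := l2 _ _ hc
        have b1 := mt a1.1.2 (ho _ o1)
        have b2 := mt a2.2.2 (ho _ o2)
        omega
    · rw [h18] at hc
      obtain ⟨o1, o2, o3⟩ := l3 _ _ _ hc
      have b1 := mt a1.2.2 (ho _ o1)
      have b2 := mt a2.1.2 (ho _ o2)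
      have b3 := mt hk.1.2 (ho _ o3)
      rw [if_neg b3] at hs
      omega
  · rw [h17] at hc
    obtain ⟨o1, o2, o3⟩ := l3 _ _ _ hc
    have b1 := mt a1.2.2 (ho _ o1)
    have b2 := mt a2.1.2 (ho _ o2)
    have b3 := mt a3.1.2 (ho _ o3)
    have b4 : (if (if ty = 1 then i ∈ E else col i = 0) then 1 else 0) ≤ 1 := by
      split_ifs <;> omega
    omega

open DSH in
/-- D8.  Extreme point clauses. -/
theorem t_DX (hDec : S_Dec) (hDLp : S_DLp) (hDOut : S_DOut) : S_DX := by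
  intro n k ty FM B0 B1 B2 B3 B4 p col E c0 h hty t x y z hc
  rw [chkX_eq] at hc
  have ho := hDOut n k ty FM B0 B1 B2 B3 B4 p col E c0 h
  obtain ⟨_, _, l2, _, _, _⟩ := hDLp FM c0
  obtain ⟨_, _, _, _, _, d6, _, _, _, _, _, d12, _⟩ := hDec n ty p col E
  rw [← h.e4] at d12
  have hE := (h.be.t1 hty).2
  cases h21 : Nat.beq t 21
  · rw [h21] at hc
    obtain ⟨_, hc⟩ := Lst.aa_eq.1 hc
    obtain ⟨h0x, hc⟩ := Lst.aa_eq.1 hc
    obtain ⟨hxn, hc⟩ := Lst.aa_eq.1 hc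
    obtain ⟨o1, o2⟩ := l2 _ _ hc
    have h0x' := Lst.lt_eq h0x
    have hxn' := Lst.lt_eq hxn
    have dd := d6 0 x (x + 1) h0x' (Nat.lt_succ_self x) hxn'
    have b1 := not_not.1 (mt (d12 x).2.2 (ho _ o1))
    rw [dd.2.2.2.2] at o2
    have b2 := mt dd.2.2.2.1.2 (ho _ o2)
    exact b2 ((hE x b1).2.2.2 hxn')
  · rw [h21] at hc
    obtain ⟨h0y, hc⟩ := Lst.aa_eq.1 hc
    obtain ⟨hyx, hc⟩ := Lst.aa_eq.1 hc
    obtain ⟨hxz, hc⟩ := Lst.aa_eq.1 hc
    obtain ⟨hzn, hc⟩ := Lst.aa_eq.1 hc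
    obtain ⟨o1, o2⟩ := l2 _ _ hc
    have h0y' := Lst.lt_eq h0y
    have hyx' := Lst.lt_eq hyx
    have hxz' := Lst.lt_eq hxz
    have hzn' := Lst.lt_eq hzn
    have dd := d6 y x z hyx' hxz' hzn'
    have b1 := not_not.1 (mt (d12 x).2.2 (ho _ o1))
    have b2 := mt dd.1.2 (ho _ o2)
    exact b2 ((hE x b1).2.2.1 y z h0y' hyx' hxz' hzn')

end Pool.BK5
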