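import Pool.Agent.BK5.StmtsD
import Pool.Agent.BK5.Ca

/-!
MP_70b73c_co, 5-blocked sets, part D: decoding of the codes of part B (`S_Dec`).
-/

set_option autoImplicit false

namespace Pool.BK5

namespace Dec

lemma trB_even (n ty : ℕ) (p : ℕ → Pt) (col : ℕ → ℕ) (E : Finset ℕ) (r : ℕ) :
    trB n ty p col E (2 * r) ↔ valB n ty p col E r := by
  unfold trB
  rw [if_pos (by omega : 2 * r % 2 = 0), (by omega : 2 * r / 2 = r)]

lemma trB_odd (n ty : ℕ) (p : ℕ → Pt) (col : ℕ → ℕ) (E : Finset ℕ) (r : ℕ) :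
    trB n ty p col E (2 * r + 1) ↔ ¬valB n ty p col E r := by
  unfold trB
  rw [if_neg (by omega : ¬(2 * r + 1) % 2 = 0), (by omega : (2 * r + 1) / 2 = r)]

lemma v0 (n ty : ℕ) (p : ℕ → Pt) (col : ℕ → ℕ) (E : Finset ℕ) (r : ℕ) (h : r < ix0 n) :
    valB n ty p col E r ↔
      ∃ a b c, a < b ∧ b < c ∧ c < n ∧ ((r = 2 * rk a b c ∧ 0 < D (p a) (p b) (p c)) ∨
        (r = 2 * rk a b c + 1 ∧ D (p a) (p b) (p c) = 0)) := by
  unfold valB
  rw [if_pos h]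

lemma v1 (n ty : ℕ) (p : ℕ → Pt) (col : ℕ → ℕ) (E : Finset ℕ) (r : ℕ) (h0 : ix0 n ≤ r)
    (h : r < ix1 n) :
    valB n ty p col E r ↔ col ((r - ix0 n) / 5) = (r - ix0 n) % 5 := by
  unfold valB
  rw [if_neg (by omega), if_pos h]

lemma ix01 (n : ℕ) : ix0 n ≤ ix1 n := by unfold ix1; omega
lemma ix12 (n : ℕ) : ix1 n ≤ ix2 n := by unfold ix2; omega
lemma ix23 (n ty : ℕ) : ix2 n ≤ ix3 n ty := by unfold ix3; omega
lemma ix34 (n ty : ℕ) : ix3 n ty ≤ ix4 n ty := by unfold ix4; omega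

lemma v2 (n ty : ℕ) (p : ℕ → Pt) (col : ℕ → ℕ) (E : Finset ℕ) (r : ℕ) (h0 : ix1 n ≤ r)
    (h : r < ix2 n) :
    valB n ty p col E r ↔
      ∃ i j, i < j ∧ j < n ∧ r = ix1 n + Nat.choose j 2 + i ∧ col i = col j := by
  have h1 := ix01 n
  unfold valB
  rw [if_neg (by omega), if_neg (by omega), if_pos h]

lemma v3 (n ty : ℕ) (p : ℕ → Pt) (col : ℕ → ℕ) (E : Finset ℕ) (r : ℕ) (h0 : ix2 n ≤ r)
    (h : r < ix3 n ty) :
    valB n ty p col E r ↔
      ∃ a q b, a < q ∧ q < b ∧ b < n ∧ r = ix2 n + rk a q b ∧ col a = 0 ∧ col b = 0 ∧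
        ¬0 < D (p a) (p q) (p b) := by
  have h1 := ix01 n
  have h2 := ix12 n
  unfold valB
  rw [if_neg (by omega), if_neg (by omega), if_neg (by omega), if_pos h]

lemma v4 (n ty : ℕ) (p : ℕ → Pt) (col : ℕ → ℕ) (E : Finset ℕ) (r : ℕ) (h0 : ix3 n ty ≤ r)
    (h : r < ix4 n ty) :
    valB n ty p col E r ↔ (r - ix3 n ty) % 8 ≤ cntE ty col E ((r - ix3 n ty) / 8) := by
  have h1 := ix01 n
  have h2 := ix12 n
  have h3 := ix23 n ty
  unfold valB
  rw [if_neg (by omega), if_neg (by omega), if_neg (by omega), if_neg (by omega), if_pos h]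

lemma v5 (n ty : ℕ) (p : ℕ → Pt) (col : ℕ → ℕ) (E : Finset ℕ) (r : ℕ) (h0 : ix4 n ty ≤ r) :
    valB n ty p col E r ↔ r - ix4 n ty ∈ E := by
  have h1 := ix01 n
  have h2 := ix12 n
  have h3 := ix23 n ty
  have h4 := ix34 n ty
  unfold valB
  rw [if_neg (by omega), if_neg (by omega), if_neg (by omega), if_neg (by omega),
    if_neg (by omega)]

lemma cP_eq (a b c : ℕ) : cP a b c = 2 * (2 * rk a b c) := by
  have h : cP a b c = 2 * rd a b c := rfl
  rw [h, Ca.rd_eq]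

lemma cZ_eq (a b c : ℕ) : cZ a b c = 2 * (2 * rk a b c) + 2 := by
  have h : cZ a b c = 2 * rd a b c + 2 := rfl
  rw [h, Ca.rd_eq]

lemma cC_eq (B i a : ℕ) : cC (2 * B) i a = 2 * (B + 5 * i + a) := by
  have h : cC (2 * B) i a = 2 * B + 2 * (5 * i + a) := rfl
  rw [h]; ring

lemma cB_eq (B i j : ℕ) : cB (2 * B) i j = 2 * (B + Nat.choose j 2 + i) := by
  have h : cB (2 * B) i j = 2 * B + (t2d j + 2 * i) := rfl
  rw [h, Ca.t2d_eq]; ring

lemma cW_eq (B a q b : ℕ) : cW (2 * B) a q b = 2 * (B + rk a q b) := by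
  have h : cW (2 * B) a q b = 2 * B + rd a q b := rfl
  rw [h, Ca.rd_eq]; ring

lemma cS_eq (B i j : ℕ) : cS (2 * B) i j = 2 * (B + (8 * i + j)) := by
  have h : cS (2 * B) i j = 2 * B + 2 * (8 * i + j) := rfl
  rw [h]; ring

lemma cX_eq (B i : ℕ) : cX (2 * B) i = 2 * (B + i) := by
  have h : cX (2 * B) i = 2 * B + 2 * i := rfl
  rw [h]; ring

lemma vP (n ty : ℕ) (p : ℕ → Pt) (col : ℕ → ℕ) (E : Finset ℕ) {a b c : ℕ} (h : a < b)
    (hb : b < c) (hc : c < n) :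
    valB n ty p col E (2 * rk a b c) ↔ 0 < D (p a) (p b) (p c) := by
  have h3 := Ca.three_lt h hb hc
  rw [v0 n ty p col E _ (by unfold ix0; omega)]
  constructor
  · rintro ⟨a', b', c', h1, h2, _, (⟨e, hD⟩ | ⟨e, hD⟩)⟩
    · obtain ⟨rfl, rfl, rfl⟩ := Ca.rk_inj h hb h1 h2 (by omega)
      exact hD
    · omega
  · intro hD
    exact ⟨a, b, c, h, hb, hc, Or.inl ⟨rfl, hD⟩⟩

lemma vZ (n ty : ℕ) (p : ℕ → Pt) (col : ℕ → ℕ) (E : Finset ℕ) {a b c : ℕ} (h : a < b)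
    (hb : b < c) (hc : c < n) :
    valB n ty p col E (2 * rk a b c + 1) ↔ D (p a) (p b) (p c) = 0 := by
  have h3 := Ca.three_lt h hb hc
  rw [v0 n ty p col E _ (by unfold ix0; omega)]
  constructor
  · rintro ⟨a', b', c', h1, h2, _, (⟨e, hD⟩ | ⟨e, hD⟩)⟩
    · omega
    · obtain ⟨rfl, rfl, rfl⟩ := Ca.rk_inj h hb h1 h2 (by omega)
      exact hD
  · intro hD
    exact ⟨a, b, c, h, hb, hc, Or.inr ⟨rfl, hD⟩⟩

lemma vC (n ty : ℕ) (p : ℕ → Pt) (col : ℕ → ℕ) (E : Finset ℕ) {i a : ℕ} (hi : i < n)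
    (ha : a < 5) : valB n ty p col E (ix0 n + 5 * i + a) ↔ col i = a := by
  rw [v1 n ty p col E _ (by omega) (by unfold ix1; omega),
    (by omega : (ix0 n + 5 * i + a - ix0 n) / 5 = i),
    (by omega : (ix0 n + 5 * i + a - ix0 n) % 5 = a)]

lemma vB (n ty : ℕ) (p : ℕ → Pt) (col : ℕ → ℕ) (E : Finset ℕ) {i j : ℕ} (hij : i < j)
    (hj : j < n) : valB n ty p col E (ix1 n + Nat.choose j 2 + i) ↔ col i = col j := by
  have h3 := Ca.two_lt hij hj
  rw [v2 n ty p col E _ (by omega) (by unfold ix2; omega)]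
  constructor
  · rintro ⟨i', j', h1, h2, e, hc⟩
    have hjj : j = j' := by
      rcases lt_trichotomy j j' with hlt | heq | hgt
      · have := Ca.two_lt hij hlt
        omega
      · exact heq
      · have := Ca.two_lt h1 hgt
        omega
    subst hjj
    have hii : i = i' := by omega
    subst hii
    exact hc
  · intro hc
    exact ⟨i, j, hij, hj, rfl, hc⟩

lemma vW (n : ℕ) (p : ℕ → Pt) (col : ℕ → ℕ) (E : Finset ℕ) {a q b : ℕ} (h : a < q)
    (hb : q < b) (hc : b < n) :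
    valB n 2 p col E (ix2 n + rk a q b) ↔
      (col a = 0 ∧ col b = 0 ∧ ¬0 < D (p a) (p q) (p b)) := by
  have h3 := Ca.three_lt h hb hc
  have e3 : ix3 n 2 = ix2 n + Nat.choose n 3 := by unfold ix3; rw [if_pos rfl]
  rw [v3 n 2 p col E _ (by omega) (by omega)]
  constructor
  · rintro ⟨a', b', c', h1, h2, _, e, hD⟩
    obtain ⟨rfl, rfl, rfl⟩ := Ca.rk_inj h hb h1 h2 (by omega)
    exact hD
  · intro hD
    exact ⟨a, q, b, h, hb, hc, rfl, hD⟩

lemma vS (n ty : ℕ) (p : ℕ → Pt) (col : ℕ → ℕ) (E : Finset ℕ) {i j : ℕ} (hi : i ≤ n)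
    (hj : j < 8) : valB n ty p col E (ix3 n ty + (8 * i + j)) ↔ j ≤ cntE ty col E i := by
  rw [v4 n ty p col E _ (by omega) (by unfold ix4; omega),
    (by omega : (ix3 n ty + (8 * i + j) - ix3 n ty) / 8 = i),
    (by omega : (ix3 n ty + (8 * i + j) - ix3 n ty) % 8 = j)]

lemma vX (n ty : ℕ) (p : ℕ → Pt) (col : ℕ → ℕ) (E : Finset ℕ) (i : ℕ) :
    valB n ty p col E (ix4 n ty + i) ↔ i ∈ E := by
  rw [v5 n ty p col E _ (by omega), (by omega : ix4 n ty + i - ix4 n ty = i)]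

lemma dB (n ty : ℕ) (p : ℕ → Pt) (col : ℕ → ℕ) (E : Finset ℕ) {i j : ℕ} (hij : i < j)
    (hj : j < n) :
    (trB n ty p col E (cB (2 * ix1 n) i j) ↔ col i = col j) ∧
      (trB n ty p col E (cB (2 * ix1 n) i j + 1) ↔ col i ≠ col j) := by
  rw [cB_eq, trB_even, trB_odd, vB n ty p col E hij hj]
  exact ⟨Iff.rfl, Iff.rfl⟩

end Dec

open Dec in
theorem t_Dec : S_Dec := by
  intro n ty p col E
  refine ⟨?_, ?_, ?_, ?_, ?_, ?_, ?_, ?_, ?_, ?_, ?_, ?_, ?_⟩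
  · rw [Ca.t3d_eq]; rfl
  · unfold ix1; ring
  · rw [Ca.t2d_eq]; unfold ix2; ring
  · rw [Ca.t3d_eq]; unfold ix3
    split_ifs <;> ring
  · unfold ix4; ring
  · intro a b c h hb hc
    have e2 : 2 * (2 * rk a b c) + 2 = 2 * (2 * rk a b c + 1) := by ring
    have e3 : 2 * (2 * rk a b c) + 3 = 2 * (2 * rk a b c + 1) + 1 := by ring
    rw [cP_eq, cZ_eq, trB_even, trB_odd, e2, e3, trB_even, trB_odd, vP n ty p col E h hb hc,
      vZ n ty p col E h hb hc]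
    exact ⟨Iff.rfl, Iff.rfl, Iff.rfl, Iff.rfl, rfl⟩
  · intro i a hi ha
    rw [cC_eq, trB_even, trB_odd, vC n ty p col E hi ha]
    exact ⟨Iff.rfl, Iff.rfl⟩
  · intro i j hij hj
    exact dB n ty p col E hij hj
  · intro i j hne hi hj
    rcases lt_or_gt_of_ne hne with h | h
    · have e : cBs (2 * ix1 n) i j = cB (2 * ix1 n) i j := by
        unfold cBs
        rw [Ca.ble_t h.le]
      rw [e]
      exact dB n ty p col E h hj
    · have e : cBs (2 * ix1 n) i j = cB (2 * ix1 n) j i := by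
        unfold cBs
        rw [Ca.ble_f h]
      rw [e]
      have := dB n ty p col E h hi
      rw [this.1, this.2]
      exact ⟨eq_comm, ne_comm⟩
  · intro h2 a q b h hb hc
    subst h2
    rw [cW_eq, trB_even, trB_odd, vW n p col E h hb hc]
    exact ⟨Iff.rfl, Iff.rfl⟩
  · intro i j hi hj
    rw [cS_eq, trB_even, trB_odd, vS n ty p col E hi hj]
    exact ⟨Iff.rfl, Iff.rfl⟩
  · intro i
    rw [cX_eq, trB_even, trB_odd, vX n ty p col E i]
    exact ⟨Iff.rfl, Iff.rfl⟩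
  · intro l hl
    cases l with
    | pos m =>
      have e : lc (Sat.Literal.pos m) = 2 * m := rfl
      rw [e, trB_even]
      exact hl
    | neg m =>
      have e : lc (Sat.Literal.neg m) = 2 * m + 1 := rfl
      rw [e, trB_odd]
      exact fun h => h hl

end Pool.BK5
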