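import Mathlib.Data.Nat.Notation

/-!
MP_70b73c_co, 5-blocked sets: sizes of the label sets (see `Model` in `Defs.lean`).
-/

set_option autoImplicit false

namespace Pool.BK5

/-- Number of extra points. -/
def nE (mode : ℕ) : ℕ := if mode = 2 then 1 else if mode = 3 then 2 else if mode = 6 then 1 else 0

/-- Number of labelled points. -/
def nP (i j mode : ℕ) : ℕ := 9 + i + j + nE mode

/-- The labelled points `9 ≤ w < wE` are the candidates for points inside a hexagon. -/
def wE (i j mode : ℕ) : ℕ := if mode = 6 then 9 + i + j + 1 else 9 + i + j

/-- First label and size of the deepest completely labelled layer. -/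
def zS (i mode : ℕ) : ℕ := if mode = 5 then 9 else 9 + i
def zN (i j mode : ℕ) : ℕ := if mode = 5 then i else j

end Pool.BK5
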