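import Mathlib
import Pool.Agent.BK5.Num

/-!
MP_70b73c_co, 5-blocked sets: basic definitions.
-/

set_option autoImplicit false

namespace Pool.BK5

abbrev Pt : Type := ℝ × ℝ

/-- Twice the signed area of the triangle `abc`; positive iff `abc` is counterclockwise. -/
def D (a b c : Pt) : ℝ := (b.1 - a.1) * (c.2 - a.2) - (b.2 - a.2) * (c.1 - a.1)

/-- `X 0, …, X (m - 1)` is a counterclockwise convex polygon (for `m ≤ 2` no condition). -/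
def Cv (m : ℕ) (X : ℕ → Pt) : Prop :=
  ∀ i j k, i < j → j < k → k < m → 0 < D (X i) (X j) (X k)

/-- `w` is strictly inside the polygon `X 0, …, X (m - 1)`. -/
def Ins (m : ℕ) (X : ℕ → Pt) (w : Pt) : Prop :=
  ∀ k, k < m → 0 < D (X k) (X ((k + 1) % m)) w

/-- General position. -/
def GenP (S : Finset Pt) : Prop :=
  ∀ a ∈ S, ∀ b ∈ S, ∀ c ∈ S, a ≠ b → a ≠ c → b ≠ c → D a b c ≠ 0

/-- `S` contains an empty convex hexagon. -/
def EHex (S : Finset Pt) : Prop :=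
  ∃ X : ℕ → Pt, (∀ k, k < 6 → X k ∈ S) ∧ Cv 6 X ∧ ∀ s ∈ S, ¬Ins 6 X s

/-- `P` is `k`-blocked by the colouring `c`. -/
def Blk (k : ℕ) (P : Finset Pt) (c : Pt → Fin k) : Prop :=
  ∀ v ∈ P, ∀ w ∈ P, v ≠ w → (c v = c w ↔ ∃ x ∈ P, x ∈ openSegment ℝ v w)

/-- `m` points `f 0, …, f (m - 1)` are the convex hull vertices of `T` (all of `T` if `|T| ≤ 2`). -/
structure IsHull (T : Finset Pt) (m : ℕ) (f : ℕ → Pt) : Prop where
  mem : ∀ k, k < m → f k ∈ T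
  inj : ∀ k l, k < m → l < m → f k = f l → k = l
  cv : Cv m f
  small : m ≤ 2 → T.card = m
  big : 3 ≤ m → ∀ x ∈ T, (∃ k, k < m ∧ x = f k) ∨ Ins m f x

/-- The three layers: `H` (9-gon), `I` (hull of the points inside `H`), `J` (hull of the remaining
points), `U` the rest. -/
structure Ctx (S : Finset Pt) (H : ℕ → Pt) (i : ℕ) (I : ℕ → Pt) (j : ℕ) (J : ℕ → Pt)
    (U : Finset Pt) : Prop where
  gp : GenP S
  noHex : ¬EHex S
  hH : ∀ k, k < 9 → H k ∈ S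
  cH : Cv 9 H
  min : ∀ X : ℕ → Pt, (∀ k, k < 9 → X k ∈ S) → Cv 9 X →
    {s : Pt | s ∈ S ∧ Ins 9 H s}.ncard ≤ {s : Pt | s ∈ S ∧ Ins 9 X s}.ncard
  hI : ∀ k, k < i → I k ∈ S ∧ Ins 9 H (I k)
  hJ : ∀ k, k < j → J k ∈ S ∧ Ins 9 H (J k)
  hU : ∀ s ∈ U, s ∈ S ∧ Ins 9 H s
  all : ∀ s ∈ S, Ins 9 H s → (∃ k, k < i ∧ s = I k) ∨ (∃ k, k < j ∧ s = J k) ∨ s ∈ U
  cI : Cv i I
  cJ : Cv j J
  iI : ∀ k l, k < i → l < i → I k = I l → k = l
  iJ : ∀ k l, k < j → l < j → J k = J l → k = l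
  inI : ∀ s, (∃ k, k < j ∧ s = J k) ∨ s ∈ U → 3 ≤ i ∧ Ins i I s
  inJ : ∀ s ∈ U, 3 ≤ j ∧ Ins j J s

/-- The facts used by the certificates.  Labels: `H = 0..8`, `I = 9..8+i`, `J = 9+i..8+i+j`, extras.
`mode`: 0 all points known; 2 one point `z` inside `J` labelled; 3 two points `u = n-2`, `v = n-1`
inside `J` labelled, all other points inside `J` left of `u → v` and `I_0` right of it;
5 only `H` and `I` labelled; 6 exactly one point inside `J`, labelled.  `Hd` are the points which are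
not labelled (in modes 2 and 3: all points inside `J`). -/
structure Model (i j mode : ℕ) (p : ℕ → Pt) (Hd : Finset Pt) : Prop where
  gp : ∀ a b c, a < nP i j mode → b < nP i j mode → c < nP i j mode → a ≠ b → a ≠ c → b ≠ c →
    D (p a) (p b) (p c) ≠ 0
  cH : Cv 9 p
  cI : Cv i (fun k => p (9 + k))
  cJ : Cv j (fun k => p (9 + i + k))
  inH : ∀ k x, k < 9 → 9 ≤ x → x < nP i j mode → 0 < D (p k) (p ((k + 1) % 9)) (p x)
  inI : 3 ≤ i → ∀ k x, k < i → 9 + i ≤ x → x < nP i j mode →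
    0 < D (p (9 + k)) (p (9 + (k + 1) % i)) (p x)
  inJ : 3 ≤ j → ∀ k x, k < j → 9 + i + j ≤ x → x < nP i j mode →
    0 < D (p (9 + i + k)) (p (9 + i + (k + 1) % j)) (p x)
  sym : mode ≠ 5 → 3 ≤ i → 0 < D (p 9) (p 10) (p 8) ∧ 0 < D (p 10) (p 9) (p 0) ∧
    0 < D (p (9 + i - 1)) (p 9) (p 1) ∧ ∀ x, 1 ≤ x → x < j → 0 < D (p 9) (p (9 + i)) (p (9 + i + x))
  uv : mode = 3 → 0 < D (p (9 + i + j + 1)) (p (9 + i + j)) (p 9) ∧
    ∀ w ∈ Hd, 0 ≤ D (p (9 + i + j)) (p (9 + i + j + 1)) w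
  hin : ∀ w ∈ Hd, ∀ k, k < zN i j mode →
    0 < D (p (zS i mode + k)) (p (zS i mode + (k + 1) % zN i j mode)) w
  hz : mode = 2 ∨ mode = 3 → ∀ x, 9 + i + j ≤ x → x < nP i j mode → p x ∈ Hd
  cov : mode = 5 → ∀ k m, k < i → m < 9 →
    0 < D (p (9 + k)) (p (9 + (k + 1) % i)) (p m) ∨
    0 < D (p (9 + (k + 1) % i)) (p (9 + k)) (p ((m + 8) % 9)) ∨
    0 < D (p (9 + k)) (p (9 + (k + i - 1) % i)) (p ((m + 1) % 9))
  hex : ∀ X : ℕ → Pt, (∀ k, k < 6 → (∃ a, a < nP i j mode ∧ X k = p a) ∨ X k ∈ Hd) → Cv 6 X →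
    (∀ w ∈ Hd, ¬Ins 6 X w) → ∃ w, 9 ≤ w ∧ w < wE i j mode ∧ Ins 6 X (p w)
  min : ∀ x : ℕ → ℕ, (∀ k, k < 9 → x k < nP i j mode) → Cv 9 (fun k => p (x k)) →
    ∀ k, k < 9 → x k < 9

end Pool.BK5
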