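import Pool.Agent.BK5.StmtsG

/-!
MP_70b73c_co, 5-blocked sets: turns in the lexicographic order, the cups-caps theorem and the
Erdős–Szekeres theorem for the 9-gon.
-/

set_option autoImplicit false

namespace Pool.BK5.ES

open Pool.BK5

lemma turn_pos {u1 u2 v1 v2 w1 w2 : ℝ} (hu : 0 < u1 ∨ (u1 = 0 ∧ 0 < u2))
    (hv : 0 < v1 ∨ (v1 = 0 ∧ 0 < v2)) (hw : 0 < w1 ∨ (w1 = 0 ∧ 0 < w2))
    (hP : 0 < u1 * v2 - u2 * v1) (hQ : 0 < v1 * w2 - v2 * w1) : 0 < u1 * w2 - u2 * w1 := by
  have e1 : (u1 * w2 - u2 * w1) * v1 = (v1 * w2 - v2 * w1) * u1 + (u1 * v2 - u2 * v1) * w1 := by ring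
  have hu0 : 0 ≤ u1 := by rcases hu with h | ⟨h, _⟩ <;> linarith
  have hw0 : 0 ≤ w1 := by rcases hw with h | ⟨h, _⟩ <;> linarith
  have a1 : 0 ≤ (v1 * w2 - v2 * w1) * u1 := mul_nonneg hQ.le hu0
  have a2 : 0 ≤ (u1 * v2 - u2 * v1) * w1 := mul_nonneg hP.le hw0
  rcases hv with hv | ⟨hv, hv2⟩
  · by_contra hR
    push Not at hR
    have h3 : (u1 * w2 - u2 * w1) * v1 ≤ 0 := mul_nonpos_of_nonpos_of_nonneg hR hv.le
    have h4 : (v1 * w2 - v2 * w1) * u1 = 0 := by linarith
    have h6 : u1 = 0 := by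
      rcases mul_eq_zero.mp h4 with h | h
      · exact absurd h hQ.ne'
      · exact h
    rcases hu with h | ⟨_, h⟩
    · exact absurd h6 h.ne'
    · rw [h6] at hP
      nlinarith
  · exfalso
    have e0 : (u1 * w2 - u2 * w1) * v1 = 0 := by rw [hv, mul_zero]
    have h4 : (v1 * w2 - v2 * w1) * u1 = 0 := by linarith
    have h6 : u1 = 0 := by
      rcases mul_eq_zero.mp h4 with h | h
      · exact absurd h hQ.ne'
      · exact h
    rw [h6, hv] at hP
    simp at hP

lemma turn_neg {u1 u2 v1 v2 w1 w2 : ℝ} (hu : 0 < u1 ∨ (u1 = 0 ∧ 0 < u2))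
    (hv : 0 < v1 ∨ (v1 = 0 ∧ 0 < v2)) (hw : 0 < w1 ∨ (w1 = 0 ∧ 0 < w2))
    (hP : u1 * v2 - u2 * v1 < 0) (hQ : v1 * w2 - v2 * w1 < 0) : u1 * w2 - u2 * w1 < 0 := by
  have e1 : (u1 * w2 - u2 * w1) * v1 = (v1 * w2 - v2 * w1) * u1 + (u1 * v2 - u2 * v1) * w1 := by ring
  have hu0 : 0 ≤ u1 := by rcases hu with h | ⟨h, _⟩ <;> linarith
  have hw0 : 0 ≤ w1 := by rcases hw with h | ⟨h, _⟩ <;> linarith
  have a1 : (v1 * w2 - v2 * w1) * u1 ≤ 0 := mul_nonpos_of_nonpos_of_nonneg hQ.le hu0
  have a2 : (u1 * v2 - u2 * v1) * w1 ≤ 0 := mul_nonpos_of_nonpos_of_nonneg hP.le hw0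
  rcases hv with hv | ⟨hv, hv2⟩
  · by_contra hR
    push Not at hR
    have h3 : 0 ≤ (u1 * w2 - u2 * w1) * v1 := mul_nonneg hR hv.le
    have h5 : (u1 * v2 - u2 * v1) * w1 = 0 := by linarith
    have h6 : w1 = 0 := by
      rcases mul_eq_zero.mp h5 with h | h
      · exact absurd h hP.ne
      · exact h
    rcases hw with h | ⟨_, h⟩
    · exact absurd h6 h.ne'
    · rw [h6] at hQ
      nlinarith
  · exfalso
    have e0 : (u1 * w2 - u2 * w1) * v1 = 0 := by rw [hv, mul_zero]
    have h4 : (v1 * w2 - v2 * w1) * u1 = 0 := by linarith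
    have h6 : u1 = 0 := by
      rcases mul_eq_zero.mp h4 with h | h
      · exact absurd h hQ.ne
      · exact h
    rw [h6, hv] at hP
    simp at hP

lemma lex_sub {a b : Pt} (h : lexlt a b) : 0 < b.1 - a.1 ∨ (b.1 - a.1 = 0 ∧ 0 < b.2 - a.2) := by
  rcases h with h | ⟨h1, h2⟩
  · left; linarith
  · right; exact ⟨by linarith, by linarith⟩

lemma lexTurn : S_LexTurn := by
  intro a b c d hab hbc hcd
  have hu := lex_sub hab
  have hv := lex_sub hbc
  have hw := lex_sub hcd
  have e1 : D a b c = (b.1 - a.1) * (c.2 - b.2) - (b.2 - a.2) * (c.1 - b.1) := by unfold D; ring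
  have e2 : D b c d = (c.1 - b.1) * (d.2 - c.2) - (c.2 - b.2) * (d.1 - c.1) := by unfold D; ring
  have e3 : D a b d = D a b c + ((b.1 - a.1) * (d.2 - c.2) - (b.2 - a.2) * (d.1 - c.1)) := by
    unfold D; ring
  have e4 : D a c d = D b c d + ((b.1 - a.1) * (d.2 - c.2) - (b.2 - a.2) * (d.1 - c.1)) := by
    unfold D; ring
  constructor
  · intro h1 h2
    have h3 := turn_pos hu hv hw (by rw [← e1]; exact h1) (by rw [← e2]; exact h2)
    exact ⟨by rw [e3]; linarith, by rw [e4]; linarith⟩
  · intro h1 h2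
    have h3 := turn_neg hu hv hw (by rw [← e1]; exact h1) (by rw [← e2]; exact h2)
    exact ⟨by rw [e3]; linarith, by rw [e4]; linarith⟩

lemma lex_trans {a b c : Pt} (h1 : lexlt a b) (h2 : lexlt b c) : lexlt a c := by
  rcases h1 with h1 | ⟨h1, h1'⟩ <;> rcases h2 with h2 | ⟨h2, h2'⟩
  · left; linarith
  · left; linarith
  · left; linarith
  · right; exact ⟨by linarith, by linarith⟩

lemma lex_ne {a b : Pt} (h : lexlt a b) : a ≠ b := by
  rintro rfl
  rcases h with h | ⟨_, h⟩ <;> exact lt_irrefl _ h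

lemma lex_total {a b : Pt} (h : a ≠ b) : lexlt a b ∨ lexlt b a := by
  rcases lt_trichotomy a.1 b.1 with h1 | h1 | h1
  · left; left; exact h1
  · rcases lt_trichotomy a.2 b.2 with h2 | h2 | h2
    · left; right; exact ⟨h1, h2⟩
    · exact absurd (Prod.ext h1 h2) h
    · right; right; exact ⟨h1.symm, h2⟩
  · right; left; exact h1

/-- `r + 2` points of `S`, a cup with the last two points `y`, `x`. -/
def CupEnd (S : Finset Pt) : ℕ → Pt → Pt → Prop
  | 0, y, x => y ∈ S ∧ x ∈ S ∧ lexlt y x
  | (r + 1), y, x => ∃ z, CupEnd S r z y ∧ x ∈ S ∧ lexlt y x ∧ 0 < D z y x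

/-- `r + 2` points of `S`, a cap with the first two points `x`, `y`. -/
def CapStart (S : Finset Pt) : ℕ → Pt → Pt → Prop
  | 0, x, y => x ∈ S ∧ y ∈ S ∧ lexlt x y
  | (r + 1), x, y => ∃ z, CapStart S r y z ∧ x ∈ S ∧ lexlt x y ∧ D x y z < 0

lemma cup_mono {S T : Finset Pt} (h : S ⊆ T) : ∀ (r : ℕ) (y x : Pt), CupEnd S r y x → CupEnd T r y x := by
  intro r
  induction r with
  | zero => rintro y x ⟨h1, h2, h3⟩; exact ⟨h h1, h h2, h3⟩
  | succ r ih => rintro y x ⟨z, h1, h2, h3, h4⟩; exact ⟨z, ih _ _ h1, h h2, h3, h4⟩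

lemma cap_mono {S T : Finset Pt} (h : S ⊆ T) :
    ∀ (r : ℕ) (y x : Pt), CapStart S r y x → CapStart T r y x := by
  intro r
  induction r with
  | zero => rintro y x ⟨h1, h2, h3⟩; exact ⟨h h1, h h2, h3⟩
  | succ r ih => rintro y x ⟨z, h1, h2, h3, h4⟩; exact ⟨z, ih _ _ h1, h h2, h3, h4⟩

lemma cup_facts {S : Finset Pt} : ∀ (r : ℕ) (y x : Pt), CupEnd S r y x → y ∈ S ∧ x ∈ S ∧ lexlt y x := by
  intro r
  induction r with
  | zero => rintro y x h; exact h
  | succ r ih => rintro y x ⟨z, h1, h2, h3, _⟩; exact ⟨(ih _ _ h1).2.1, h2, h3⟩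

lemma cap_facts {S : Finset Pt} :
    ∀ (r : ℕ) (x y : Pt), CapStart S r x y → x ∈ S ∧ y ∈ S ∧ lexlt x y := by
  intro r
  induction r with
  | zero => rintro x y h; exact h
  | succ r ih => rintro x y ⟨z, h1, h2, h3, _⟩; exact ⟨h2, (ih _ _ h1).1, h3⟩

lemma genP_mono {S T : Finset Pt} (h : S ⊆ T) (hT : GenP T) : GenP S :=
  fun a ha b hb c hc => hT a (h ha) b (h hb) c (h hc)

/-- two lexicographically ordered points -/
lemma exists_pair {S : Finset Pt} (h : 1 < S.card) : ∃ y ∈ S, ∃ x ∈ S, lexlt y x := by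
  obtain ⟨a, ha, b, hb, hab⟩ := Finset.one_lt_card.mp h
  rcases lex_total hab with h1 | h1
  · exact ⟨a, ha, b, hb, h1⟩
  · exact ⟨b, hb, a, ha, h1⟩

open Classical in
/-- The cups-caps theorem. -/
lemma cups_caps : ∀ (N a b : ℕ), a + b = N → ∀ S : Finset Pt, GenP S → (a + b).choose a < S.card →
    (∃ y x, CupEnd S a y x) ∨ (∃ x y, CapStart S b x y) := by
  intro N
  induction N using Nat.strong_induction_on with
  | _ N ih =>
    intro a b hab S hS hc
    rcases a with _ | a
    · left
      rw [Nat.choose_zero_right] at hc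
      obtain ⟨y, hy, x, hx, h⟩ := exists_pair hc
      exact ⟨y, x, hy, hx, h⟩
    · rcases b with _ | b
      · right
        rw [Nat.add_zero, Nat.choose_self] at hc
        obtain ⟨y, hy, x, hx, h⟩ := exists_pair hc
        exact ⟨y, x, hy, hx, h⟩
      · set A := S.filter (fun x => ∃ y, CupEnd S a y x) with hA
        have hAS : A ⊆ S := Finset.filter_subset _ _
        have hpascal : (a + 1 + (b + 1)).choose (a + 1) =
            (a + (b + 1)).choose a + (a + 1 + b).choose (a + 1) := by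
          have : a + 1 + (b + 1) = (a + (b + 1)) + 1 := by ring
          rw [this, Nat.choose_succ_succ]
          congr 2
          ring
        have hcard : A.card + (S \ A).card = S.card := by
          rw [add_comm]; exact Finset.card_sdiff_add_card_eq_card hAS
        by_cases h1 : (a + (b + 1)).choose a < (S \ A).card
        · rcases ih (a + (b + 1)) (by omega) a (b + 1) rfl (S \ A)
            (genP_mono Finset.sdiff_subset hS) h1 with ⟨y, x, h⟩ | ⟨x, y, h⟩
          · exfalso
            have h2 := (cup_facts _ _ _ h).2.1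
            rw [Finset.mem_sdiff] at h2
            apply h2.2
            rw [hA, Finset.mem_filter]
            exact ⟨h2.1, y, cup_mono Finset.sdiff_subset _ _ _ h⟩
          · right
            exact ⟨x, y, cap_mono Finset.sdiff_subset _ _ _ h⟩
        · have h2 : (a + 1 + b).choose (a + 1) < A.card := by omega
          rcases ih (a + 1 + b) (by omega) (a + 1) b rfl A (genP_mono hAS hS) h2 with
            ⟨y, x, h⟩ | ⟨x0, x1, h⟩
          · left
            exact ⟨y, x, cup_mono hAS _ _ _ h⟩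
          · obtain ⟨hx0, hx1, hlt⟩ := cap_facts _ _ _ h
            have hx0' := hx0
            rw [hA, Finset.mem_filter] at hx0'
            obtain ⟨hx0S, y, hy⟩ := hx0'
            obtain ⟨hyS, _, hylt⟩ := cup_facts _ _ _ hy
            have hne := hS y hyS x0 hx0S x1 (hAS hx1) (lex_ne hylt) (lex_ne (lex_trans hylt hlt))
              (lex_ne hlt)
            rcases lt_or_gt_of_ne hne with h3 | h3
            · right
              exact ⟨y, x0, x1, cap_mono hAS _ _ _ h, hyS, hylt, h3⟩
            · left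
              exact ⟨x0, x1, y, hy, hAS hx1, hlt, h3⟩

/-- the points of a cup as a sequence -/
lemma cup_seq {S : Finset Pt} : ∀ (r : ℕ) (y x : Pt), CupEnd S r y x → ∃ X : ℕ → Pt,
    (∀ k, k < r + 2 → X k ∈ S) ∧ (∀ k, k + 1 < r + 2 → lexlt (X k) (X (k + 1))) ∧
    (∀ k, k + 2 < r + 2 → 0 < D (X k) (X (k + 1)) (X (k + 2))) ∧ X r = y ∧ X (r + 1) = x := by
  intro r
  induction r with
  | zero =>
    rintro y x ⟨h1, h2, h3⟩
    refine ⟨fun k => if k = 0 then y else x, fun k hk => ?_, fun k hk => ?_, fun k hk => ?_, ?_, ?_⟩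
    · simp only; split_ifs
      · exact h1
      · exact h2
    · have : k = 0 := by omega
      subst this; simpa using h3
    · omega
    · simp
    · simp
  | succ r ih =>
    rintro y x ⟨z, h1, h2, h3, h4⟩
    obtain ⟨X, a1, a2, a3, a4, a5⟩ := ih z y h1
    refine ⟨fun k => if k < r + 2 then X k else x, fun k hk => ?_, fun k hk => ?_, fun k hk => ?_,
      ?_, ?_⟩
    · simp only; split_ifs with hk'
      · exact a1 k hk'
      · exact h2
    · simp only
      rcases Nat.lt_or_ge (k + 1) (r + 2) with h5 | h5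
      · rw [if_pos (by omega), if_pos h5]; exact a2 k h5
      · have : k = r + 1 := by omega
        subst this
        rw [if_pos (by omega), if_neg (by omega), a5]; exact h3
    · simp only
      rcases Nat.lt_or_ge (k + 2) (r + 2) with h5 | h5
      · rw [if_pos (by omega), if_pos (by omega), if_pos h5]; exact a3 k h5
      · have : k = r := by omega
        subst this
        rw [if_pos (by omega), if_pos (by omega), if_neg (by omega), a4, a5]; exact h4
    · simp only; rw [if_pos (by omega), a5]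
    · simp only; rw [if_neg (by omega)]

/-- the points of a cap as a sequence -/
lemma cap_seq {S : Finset Pt} : ∀ (r : ℕ) (x y : Pt), CapStart S r x y → ∃ X : ℕ → Pt,
    (∀ k, k < r + 2 → X k ∈ S) ∧ (∀ k, k + 1 < r + 2 → lexlt (X k) (X (k + 1))) ∧
    (∀ k, k + 2 < r + 2 → D (X k) (X (k + 1)) (X (k + 2)) < 0) ∧ X 0 = x ∧ X 1 = y := by
  intro r
  induction r with
  | zero =>
    rintro x y ⟨h1, h2, h3⟩
    refine ⟨fun k => if k = 0 then x else y, fun k hk => ?_, fun k hk => ?_, fun k hk => ?_, ?_, ?_⟩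
    · simp only; split_ifs
      · exact h1
      · exact h2
    · have : k = 0 := by omega
      subst this; simpa using h3
    · omega
    · simp
    · simp
  | succ r ih =>
    rintro x y ⟨z, h1, h2, h3, h4⟩
    obtain ⟨X, a1, a2, a3, a4, a5⟩ := ih y z h1
    refine ⟨fun k => if k = 0 then x else X (k - 1), fun k hk => ?_, fun k hk => ?_, fun k hk => ?_,
      ?_, ?_⟩
    · simp only; split_ifs with hk'
      · exact h2
      · exact a1 _ (by omega)
    · simp only
      rcases k with _ | k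
      · simp only [if_true]; rw [if_neg (by omega)]; simpa [a4] using h3
      · rw [if_neg (by omega), if_neg (by omega)]
        have := a2 k (by omega)
        simpa using this
    · simp only
      rcases k with _ | k
      · simp only [if_true]; rw [if_neg (by omega), if_neg (by omega)]
        simpa [a4, a5] using h4
      · rw [if_neg (by omega), if_neg (by omega), if_neg (by omega)]
        have := a3 k (by omega)
        simpa using this
    · simp
    · simpa using a4

lemma lex_seq {X : ℕ → Pt} {r : ℕ} (h : ∀ k, k + 1 < r → lexlt (X k) (X (k + 1))) :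
    ∀ i j, i < j → j < r → lexlt (X i) (X j) := by
  intro i j hij
  induction j, hij using Nat.le_induction with
  | base => intro hj; exact h i hj
  | succ j hj ih => intro hj'; exact lex_trans (ih (by omega)) (h j hj')

lemma all_pos {X : ℕ → Pt} {r : ℕ} (h : ∀ k, k + 1 < r → lexlt (X k) (X (k + 1)))
    (h2 : ∀ k, k + 2 < r → 0 < D (X k) (X (k + 1)) (X (k + 2))) :
    ∀ d i j k, i < j → j < k → k < r → k - i ≤ d → 0 < D (X i) (X j) (X k) := by
  have hl := lex_seq h
  intro d
  induction d with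
  | zero => intro i j k h1 h3 _ h4; omega
  | succ d ih =>
    intro i j k h1 h3 h4 h5
    by_cases h6 : k - i ≤ d
    · exact ih i j k h1 h3 h4 h6
    · by_cases h7 : j + 1 < k
      · have a1 := ih i j (k - 1) h1 (by omega) (by omega) (by omega)
        have a2 := ih j (k - 1) k (by omega) (by omega) h4 (by omega)
        exact ((lexTurn (X i) (X j) (X (k - 1)) (X k) (hl _ _ h1 (by omega))
          (hl _ _ (by omega) (by omega)) (hl _ _ (by omega) h4)).1 a1 a2).1
      · have hk : k = j + 1 := by omega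
        by_cases h8 : i + 1 < j
        · have a1 := ih i (i + 1) j (by omega) h8 (by omega) (by omega)
          have a2 := ih (i + 1) j k h8 h3 h4 (by omega)
          exact ((lexTurn (X i) (X (i + 1)) (X j) (X k) (hl _ _ (by omega) (by omega))
            (hl _ _ h8 (by omega)) (hl _ _ h3 h4)).1 a1 a2).2
        · have hj : j = i + 1 := by omega
          subst hj; subst hk
          exact h2 i h4

lemma all_neg {X : ℕ → Pt} {r : ℕ} (h : ∀ k, k + 1 < r → lexlt (X k) (X (k + 1)))
    (h2 : ∀ k, k + 2 < r → D (X k) (X (k + 1)) (X (k + 2)) < 0) :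
    ∀ d i j k, i < j → j < k → k < r → k - i ≤ d → D (X i) (X j) (X k) < 0 := by
  have hl := lex_seq h
  intro d
  induction d with
  | zero => intro i j k h1 h3 _ h4; omega
  | succ d ih =>
    intro i j k h1 h3 h4 h5
    by_cases h6 : k - i ≤ d
    · exact ih i j k h1 h3 h4 h6
    · by_cases h7 : j + 1 < k
      · have a1 := ih i j (k - 1) h1 (by omega) (by omega) (by omega)
        have a2 := ih j (k - 1) k (by omega) (by omega) h4 (by omega)
        exact ((lexTurn (X i) (X j) (X (k - 1)) (X k) (hl _ _ h1 (by omega))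
          (hl _ _ (by omega) (by omega)) (hl _ _ (by omega) h4)).2 a1 a2).1
      · have hk : k = j + 1 := by omega
        by_cases h8 : i + 1 < j
        · have a1 := ih i (i + 1) j (by omega) h8 (by omega) (by omega)
          have a2 := ih (i + 1) j k h8 h3 h4 (by omega)
          exact ((lexTurn (X i) (X (i + 1)) (X j) (X k) (hl _ _ (by omega) (by omega))
            (hl _ _ h8 (by omega)) (hl _ _ h3 h4)).2 a1 a2).2
        · have hj : j = i + 1 := by omega
          subst hj; subst hk
          exact h2 i h4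

lemma D_rev (a b c : Pt) : D c b a = - D a b c := by unfold D; ring

lemma es : S_ES := by
  intro S hS hc
  have h14 : (7 + 7).choose 7 < S.card := by
    have : (7 + 7).choose 7 = 3432 := by decide
    omega
  rcases cups_caps 14 7 7 rfl S hS h14 with ⟨y, x, h⟩ | ⟨x, y, h⟩
  · obtain ⟨X, a1, a2, a3, _, _⟩ := cup_seq 7 y x h
    refine ⟨X, a1, fun i j k h1 h2 h3 => ?_⟩
    exact all_pos a2 a3 9 i j k h1 h2 h3 (by omega)
  · obtain ⟨X, a1, a2, a3, _, _⟩ := cap_seq 7 x y h
    refine ⟨fun k => X (8 - k), fun k hk => a1 _ (by omega), fun i j k h1 h2 h3 => ?_⟩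
    show 0 < D (X (8 - i)) (X (8 - j)) (X (8 - k))
    have e := D_rev (X (8 - k)) (X (8 - j)) (X (8 - i))
    have e2 := all_neg a2 a3 9 (8 - k) (8 - j) (8 - i) (by omega) (by omega) (by omega) (by omega)
    rw [e]; linarith

end Pool.BK5.ES

namespace Pool.BK5

theorem t_LexTurn : S_LexTurn := ES.lexTurn

theorem t_ES : S_ES := ES.es

end Pool.BK5
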