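import Pool.Agent.BK5.StmtsG

/-!
MP_70b73c_co, 5-blocked sets: transitivity, turns and the star criterion.
-/

set_option autoImplicit false

namespace Pool.BK5

namespace Star

theorem key (p1 p2 q1 q2 r1 r2 α β : ℝ) :
    (α * q1 + β * q2) * (p1 * r2 - p2 * r1) =
      (q1 * r2 - q2 * r1) * (α * p1 + β * p2) + (p1 * q2 - p2 * q1) * (α * r1 + β * r2) := by
  ring

theorem D_eq (o x y : Pt) :
    D o x y = (x.1 - o.1) * (y.2 - o.2) - (x.2 - o.2) * (y.1 - o.1) := rfl

theorem id1 (o a b c d : Pt) :
    D o b c * D a b d = D o a b * D b c d + D o b d * D a b c := by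
  simp only [D]; ring

theorem id2 (o a b c d : Pt) :
    D o b c * D a c d = D o a c * D b c d + D o c d * D a b c := by
  simp only [D]; ring

end Star

theorem t_Trans : S_Trans := by
  intro o x y z α β hx hy hz
  have k := Star.key (x.1 - o.1) (x.2 - o.2) (y.1 - o.1) (y.2 - o.2) (z.1 - o.1) (z.2 - o.2) α β
  rw [← Star.D_eq o x z, ← Star.D_eq o y z, ← Star.D_eq o x y] at k
  refine ⟨fun h1 h2 => ?_, fun h1 h2 => ?_, fun h1 h2 => ?_, fun h1 h2 => ?_⟩
  · have : 0 < (α * (y.1 - o.1) + β * (y.2 - o.2)) * D o x z := by
      rw [k]; positivity
    exact pos_of_mul_pos_right this hy.le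
  · have : 0 < (α * (y.1 - o.1) + β * (y.2 - o.2)) * D o x z := by
      rw [k]
      have a1 := mul_nonneg h2 hx.le
      have a2 := mul_pos h1 hz
      linarith
    exact pos_of_mul_pos_right this hy.le
  · have : 0 < (α * (y.1 - o.1) + β * (y.2 - o.2)) * D o x z := by
      rw [k]
      have a1 := mul_pos h2 hx
      have a2 := mul_nonneg h1 hz.le
      linarith
    exact pos_of_mul_pos_right this hy.le
  · have : 0 ≤ (α * (y.1 - o.1) + β * (y.2 - o.2)) * D o x z := by
      rw [k]
      have a1 := mul_nonneg h2 hx.le
      have a2 := mul_nonneg h1 hz.le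
      linarith
    exact nonneg_of_mul_nonneg_right this hy

theorem t_Turn : S_Turn := by
  intro o a b c d hab hac had hbc hbd hcd h1 h2
  constructor
  · have := Star.id1 o a b c d
    have h : 0 < D o b c * D a b d := by
      rw [this]; positivity
    exact pos_of_mul_pos_right h hbc.le
  · have := Star.id2 o a b c d
    have h : 0 < D o b c * D a c d := by
      rw [this]; positivity
    exact pos_of_mul_pos_right h hbc.le

theorem t_Star : S_Star := by
  intro m X h1 h2 h3
  -- order about X 0
  have hord : ∀ i j, 1 ≤ i → i < j → j < m → 0 < D (X 0) (X i) (X j) := by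
    intro i j hi hij hj
    by_cases h : i = 1
    · subst h
      exact h1 j (by omega) hj
    · induction j, hij using Nat.le_induction with
      | base => exact h2 i hi hj
      | succ j hij ih =>
        have ih' := ih (by omega)
        have hs := h2 j (by omega) hj
        have g : ∀ k, 2 ≤ k → k < m →
            0 < (-((X 1).2 - (X 0).2)) * ((X k).1 - (X 0).1) +
              ((X 1).1 - (X 0).1) * ((X k).2 - (X 0).2) := by
          intro k hk hkm
          have := h1 k hk hkm
          simp only [D] at this
          linarith
        exact (t_Trans (X 0) (X i) (X j) (X (j + 1)) _ _ (g i (by omega) (by omega))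
          (g j (by omega) (by omega)) (g (j + 1) (by omega) hj)).1 ih' hs
  have hmain : ∀ n i j k, 1 ≤ i → i < j → j < k → k < m → k - i = n →
      0 < D (X i) (X j) (X k) := by
    intro n
    induction n using Nat.strong_induction_on with
    | _ n ih =>
      intro i j k hi hij hjk hk hn
      by_cases hn2 : n = 2
      · have hj : j = i + 1 := by omega
        have hk2 : k = i + 2 := by omega
        subst hj hk2
        exact h3 i hi (by omega)
      · by_cases hjk1 : j < k - 1
        · have e1 := ih (k - 1 - i) (by omega) i j (k - 1) hi hij hjk1 (by omega) rfl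
          have e2 := ih (k - j) (by omega) j (k - 1) k (by omega) hjk1 (by omega) hk rfl
          exact (t_Turn (X 0) (X i) (X j) (X (k - 1)) (X k)
            (hord i j hi hij (by omega)) (hord i (k - 1) hi (by omega) (by omega))
            (hord i k hi (by omega) hk) (hord j (k - 1) (by omega) hjk1 (by omega))
            (hord j k (by omega) hjk hk) (hord (k - 1) k (by omega) (by omega) hk) e1 e2).1
        · have hj : j = k - 1 := by omega
          subst hj
          have e1 := ih (k - 1 - i) (by omega) i (i + 1) (k - 1) hi (by omega) (by omega)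
            (by omega) rfl
          have e2 := ih (k - (i + 1)) (by omega) (i + 1) (k - 1) k (by omega) (by omega)
            (by omega) hk rfl
          exact (t_Turn (X 0) (X i) (X (i + 1)) (X (k - 1)) (X k)
            (hord i (i + 1) hi (by omega) (by omega)) (hord i (k - 1) hi (by omega) (by omega))
            (hord i k hi (by omega) hk) (hord (i + 1) (k - 1) (by omega) (by omega) (by omega))
            (hord (i + 1) k (by omega) (by omega) hk)
            (hord (k - 1) k (by omega) (by omega) hk) e1 e2).2
  intro i j k hij hjk hk
  by_cases hi : i = 0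
  · subst hi
    exact hord j k (by omega) hjk hk
  · exact hmain (k - i) i j k (by omega) hij hjk hk rfl

end Pool.BK5
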