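import Pool.Agent.BK5.StmtsE
import Pool.Agent.BK5.ES
import Pool.Agent.BK5.Star

/-!
MP_70b73c_co, 5-blocked sets: the cups-caps theorem in the radial order about an extreme point and the
bound of Tóth and Valtr for the 9-gon.
-/

set_option autoImplicit false

namespace Pool.BK5.ES2

open Pool.BK5

/-- `r + 2` points of `S`, a cup with the last two points `y`, `x`. -/
def CupEnd (R : Pt → Pt → Prop) (S : Finset Pt) : ℕ → Pt → Pt → Prop
  | 0, y, x => y ∈ S ∧ x ∈ S ∧ R y x
  | (r + 1), y, x => ∃ z, CupEnd R S r z y ∧ x ∈ S ∧ R y x ∧ 0 < D z y x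

/-- `r + 2` points of `S`, a cap with the first two points `x`, `y`. -/
def CapStart (R : Pt → Pt → Prop) (S : Finset Pt) : ℕ → Pt → Pt → Prop
  | 0, x, y => x ∈ S ∧ y ∈ S ∧ R x y
  | (r + 1), x, y => ∃ z, CapStart R S r y z ∧ x ∈ S ∧ R x y ∧ D x y z < 0

/-- The relation is a strict total order on `S`. -/
structure Ord (R : Pt → Pt → Prop) (S : Finset Pt) : Prop where
  irr : ∀ a b, R a b → a ≠ b
  tr : ∀ a ∈ S, ∀ b ∈ S, ∀ c ∈ S, R a b → R b c → R a c
  tot : ∀ a ∈ S, ∀ b ∈ S, a ≠ b → R a b ∨ R b a

variable {R : Pt → Pt → Prop}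

lemma ord_mono {S T : Finset Pt} (h : S ⊆ T) (hT : Ord R T) : Ord R S :=
  ⟨hT.irr, fun a ha b hb c hc => hT.tr a (h ha) b (h hb) c (h hc),
    fun a ha b hb => hT.tot a (h ha) b (h hb)⟩

lemma cup_mono {S T : Finset Pt} (h : S ⊆ T) :
    ∀ (r : ℕ) (y x : Pt), CupEnd R S r y x → CupEnd R T r y x := by
  intro r
  induction r with
  | zero => rintro y x ⟨h1, h2, h3⟩; exact ⟨h h1, h h2, h3⟩
  | succ r ih => rintro y x ⟨z, h1, h2, h3, h4⟩; exact ⟨z, ih _ _ h1, h h2, h3, h4⟩

lemma cap_mono {S T : Finset Pt} (h : S ⊆ T) :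
    ∀ (r : ℕ) (y x : Pt), CapStart R S r y x → CapStart R T r y x := by
  intro r
  induction r with
  | zero => rintro y x ⟨h1, h2, h3⟩; exact ⟨h h1, h h2, h3⟩
  | succ r ih => rintro y x ⟨z, h1, h2, h3, h4⟩; exact ⟨z, ih _ _ h1, h h2, h3, h4⟩

lemma cup_facts {S : Finset Pt} :
    ∀ (r : ℕ) (y x : Pt), CupEnd R S r y x → y ∈ S ∧ x ∈ S ∧ R y x := by
  intro r
  induction r with
  | zero => rintro y x h; exact h
  | succ r ih => rintro y x ⟨z, h1, h2, h3, _⟩; exact ⟨(ih _ _ h1).2.1, h2, h3⟩

lemma cap_facts {S : Finset Pt} :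
    ∀ (r : ℕ) (x y : Pt), CapStart R S r x y → x ∈ S ∧ y ∈ S ∧ R x y := by
  intro r
  induction r with
  | zero => rintro x y h; exact h
  | succ r ih => rintro x y ⟨z, h1, h2, h3, _⟩; exact ⟨h2, (ih _ _ h1).1, h3⟩

/-- two ordered points -/
lemma exists_pair {S : Finset Pt} (hO : Ord R S) (h : 1 < S.card) :
    ∃ y ∈ S, ∃ x ∈ S, R y x := by
  obtain ⟨a, ha, b, hb, hab⟩ := Finset.one_lt_card.mp h
  rcases hO.tot a ha b hb hab with h1 | h1
  · exact ⟨a, ha, b, hb, h1⟩
  · exact ⟨b, hb, a, ha, h1⟩

open Classical in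
/-- The cups-caps theorem. -/
lemma cups_caps : ∀ (N a b : ℕ), a + b = N → ∀ S : Finset Pt, GenP S → Ord R S →
    (a + b).choose a < S.card → (∃ y x, CupEnd R S a y x) ∨ (∃ x y, CapStart R S b x y) := by
  intro N
  induction N using Nat.strong_induction_on with
  | _ N ih =>
    intro a b hab S hS hO hc
    rcases a with _ | a
    · left
      rw [Nat.choose_zero_right] at hc
      obtain ⟨y, hy, x, hx, h⟩ := exists_pair hO hc
      exact ⟨y, x, hy, hx, h⟩
    · rcases b with _ | b
      · right
        rw [Nat.add_zero, Nat.choose_self] at hc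
        obtain ⟨y, hy, x, hx, h⟩ := exists_pair hO hc
        exact ⟨y, x, hy, hx, h⟩
      · set A := S.filter (fun x => ∃ y, CupEnd R S a y x) with hA
        have hAS : A ⊆ S := Finset.filter_subset _ _
        have hpascal : (a + 1 + (b + 1)).choose (a + 1) =
            (a + (b + 1)).choose a + (a + 1 + b).choose (a + 1) := by
          have : a + 1 + (b + 1) = (a + (b + 1)) + 1 := by ring
          rw [this, Nat.choose_succ_succ]
          congr 2
          ring
        have hcard : A.card + (S \ A).card = S.card := by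
          rw [add_comm]; exact Finset.card_sdiff_add_card_eq_card hAS
        by_cases h1 : (a + (b + 1)).choose a < (S \ A).card
        · rcases ih (a + (b + 1)) (by omega) a (b + 1) rfl (S \ A)
            (ES.genP_mono Finset.sdiff_subset hS) (ord_mono Finset.sdiff_subset hO) h1 with
            ⟨y, x, h⟩ | ⟨x, y, h⟩
          · exfalso
            have h2 := (cup_facts _ _ _ h).2.1
            rw [Finset.mem_sdiff] at h2
            apply h2.2
            rw [hA, Finset.mem_filter]
            exact ⟨h2.1, y, cup_mono Finset.sdiff_subset _ _ _ h⟩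
          · right
            exact ⟨x, y, cap_mono Finset.sdiff_subset _ _ _ h⟩
        · have h2 : (a + 1 + b).choose (a + 1) < A.card := by omega
          rcases ih (a + 1 + b) (by omega) (a + 1) b rfl A (ES.genP_mono hAS hS)
            (ord_mono hAS hO) h2 with ⟨y, x, h⟩ | ⟨x0, x1, h⟩
          · left
            exact ⟨y, x, cup_mono hAS _ _ _ h⟩
          · obtain ⟨hx0, hx1, hlt⟩ := cap_facts _ _ _ h
            have hx0' := hx0
            rw [hA, Finset.mem_filter] at hx0'
            obtain ⟨hx0S, y, hy⟩ := hx0'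
            obtain ⟨hyS, _, hylt⟩ := cup_facts _ _ _ hy
            have hne := hS y hyS x0 hx0S x1 (hAS hx1) (hO.irr _ _ hylt)
              (hO.irr _ _ (hO.tr _ hyS _ hx0S _ (hAS hx1) hylt hlt)) (hO.irr _ _ hlt)
            rcases lt_or_gt_of_ne hne with h3 | h3
            · right
              exact ⟨y, x0, x1, cap_mono hAS _ _ _ h, hyS, hylt, h3⟩
            · left
              exact ⟨x0, x1, y, hy, hAS hx1, hlt, h3⟩

/-- the points of a cup as a sequence -/
lemma cup_seq {S : Finset Pt} : ∀ (r : ℕ) (y x : Pt), CupEnd R S r y x → ∃ X : ℕ → Pt,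
    (∀ k, k < r + 2 → X k ∈ S) ∧ (∀ k, k + 1 < r + 2 → R (X k) (X (k + 1))) ∧
    (∀ k, k + 2 < r + 2 → 0 < D (X k) (X (k + 1)) (X (k + 2))) ∧ X r = y ∧ X (r + 1) = x := by
  intro r
  induction r with
  | zero =>
    rintro y x ⟨h1, h2, h3⟩
    refine ⟨fun k => if k = 0 then y else x, fun k hk => ?_, fun k hk => ?_, fun k hk => ?_, ?_, ?_⟩
    · simp only; split_ifs
      · exact h1
      · exact h2
    · have : k = 0 := by omega
      subst this; simpa using h3
    · omega
    · simp
    · simp
  | succ r ih =>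
    rintro y x ⟨z, h1, h2, h3, h4⟩
    obtain ⟨X, a1, a2, a3, a4, a5⟩ := ih z y h1
    refine ⟨fun k => if k < r + 2 then X k else x, fun k hk => ?_, fun k hk => ?_, fun k hk => ?_,
      ?_, ?_⟩
    · simp only; split_ifs with hk'
      · exact a1 k hk'
      · exact h2
    · simp only
      rcases Nat.lt_or_ge (k + 1) (r + 2) with h5 | h5
      · rw [if_pos (by omega), if_pos h5]; exact a2 k h5
      · have : k = r + 1 := by omega
        subst this
        rw [if_pos (by omega), if_neg (by omega), a5]; exact h3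
    · simp only
      rcases Nat.lt_or_ge (k + 2) (r + 2) with h5 | h5
      · rw [if_pos (by omega), if_pos (by omega), if_pos h5]; exact a3 k h5
      · have : k = r := by omega
        subst this
        rw [if_pos (by omega), if_pos (by omega), if_neg (by omega), a4, a5]; exact h4
    · simp only; rw [if_pos (by omega), a5]
    · simp only; rw [if_neg (by omega)]

/-- the points of a cap as a sequence -/
lemma cap_seq {S : Finset Pt} : ∀ (r : ℕ) (x y : Pt), CapStart R S r x y → ∃ X : ℕ → Pt,
    (∀ k, k < r + 2 → X k ∈ S) ∧ (∀ k, k + 1 < r + 2 → R (X k) (X (k + 1))) ∧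
    (∀ k, k + 2 < r + 2 → D (X k) (X (k + 1)) (X (k + 2)) < 0) ∧ X 0 = x ∧ X 1 = y := by
  intro r
  induction r with
  | zero =>
    rintro x y ⟨h1, h2, h3⟩
    refine ⟨fun k => if k = 0 then x else y, fun k hk => ?_, fun k hk => ?_, fun k hk => ?_, ?_, ?_⟩
    · simp only; split_ifs
      · exact h1
      · exact h2
    · have : k = 0 := by omega
      subst this; simpa using h3
    · omega
    · simp
    · simp
  | succ r ih =>
    rintro x y ⟨z, h1, h2, h3, h4⟩
    obtain ⟨X, a1, a2, a3, a4, a5⟩ := ih y z h1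
    refine ⟨fun k => if k = 0 then x else X (k - 1), fun k hk => ?_, fun k hk => ?_, fun k hk => ?_,
      ?_, ?_⟩
    · simp only; split_ifs with hk'
      · exact h2
      · exact a1 _ (by omega)
    · simp only
      rcases k with _ | k
      · simp only [if_true]; rw [if_neg (by omega)]; simpa [a4] using h3
      · rw [if_neg (by omega), if_neg (by omega)]
        have := a2 k (by omega)
        simpa using this
    · simp only
      rcases k with _ | k
      · simp only [if_true]; rw [if_neg (by omega), if_neg (by omega)]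
        simpa [a4, a5] using h4
      · rw [if_neg (by omega), if_neg (by omega), if_neg (by omega)]
        have := a3 k (by omega)
        simpa using this
    · simp
    · simpa using a4

lemma ord_seq {S : Finset Pt} (hO : Ord R S) {X : ℕ → Pt} {r : ℕ} (hX : ∀ k, k < r → X k ∈ S)
    (h : ∀ k, k + 1 < r → R (X k) (X (k + 1))) :
    ∀ i j, i < j → j < r → R (X i) (X j) := by
  intro i j hij
  induction j, hij using Nat.le_induction with
  | base => intro hj; exact h i hj
  | succ j hj ih =>
    intro hj'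
    exact hO.tr _ (hX i (by omega)) _ (hX j (by omega)) _ (hX (j + 1) hj') (ih (by omega)) (h j hj')

/-- negative turns compose -/
lemma turn (o a b c d : Pt) (hab : 0 < D o a b) (hac : 0 < D o a c) (hbc : 0 < D o b c)
    (hbd : 0 < D o b d) (hcd : 0 < D o c d) (h1 : D a b c < 0) (h2 : D b c d < 0) :
    D a b d < 0 ∧ D a c d < 0 := by
  have e1 := Star.id1 o a b c d
  have e2 := Star.id2 o a b c d
  constructor
  · by_contra h
    push Not at h
    have a1 := mul_nonneg hbc.le h
    have a2 := mul_neg_of_pos_of_neg hab h2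
    have a3 := mul_neg_of_pos_of_neg hbd h1
    linarith
  · by_contra h
    push Not at h
    have a1 := mul_nonneg hbc.le h
    have a2 := mul_neg_of_pos_of_neg hac h2
    have a3 := mul_neg_of_pos_of_neg hcd h1
    linarith

lemma all_neg {o : Pt} {X : ℕ → Pt} {r : ℕ} (hl : ∀ i j, i < j → j < r → 0 < D o (X i) (X j))
    (h2 : ∀ k, k + 2 < r → D (X k) (X (k + 1)) (X (k + 2)) < 0) :
    ∀ d i j k, i < j → j < k → k < r → k - i ≤ d → D (X i) (X j) (X k) < 0 := by
  intro d
  induction d with
  | zero => intro i j k h1 h3 _ h4; omega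
  | succ d ih =>
    intro i j k h1 h3 h4 h5
    by_cases h6 : k - i ≤ d
    · exact ih i j k h1 h3 h4 h6
    · by_cases h7 : j + 1 < k
      · have a1 := ih i j (k - 1) h1 (by omega) (by omega) (by omega)
        have a2 := ih j (k - 1) k (by omega) (by omega) h4 (by omega)
        exact (turn o (X i) (X j) (X (k - 1)) (X k) (hl _ _ h1 (by omega))
          (hl _ _ (by omega) (by omega)) (hl _ _ (by omega) (by omega))
          (hl _ _ (by omega) h4) (hl _ _ (by omega) h4) a1 a2).1
      · have hk : k = j + 1 := by omega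
        by_cases h8 : i + 1 < j
        · have a1 := ih i (i + 1) j (by omega) h8 (by omega) (by omega)
          have a2 := ih (i + 1) j k h8 h3 h4 (by omega)
          exact (turn o (X i) (X (i + 1)) (X j) (X k) (hl _ _ (by omega) (by omega))
            (hl _ _ h1 (by omega)) (hl _ _ h8 (by omega)) (hl _ _ (by omega) h4)
            (hl _ _ h3 h4) a1 a2).2
        · have hj : j = i + 1 := by omega
          subst hj; subst hk
          exact h2 i h4

/-- a lexicographically smallest point -/
lemma exists_least {S : Finset Pt} (h : S.Nonempty) : ∃ x ∈ S, ∀ a ∈ S, a ≠ x → lexlt x a := by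
  obtain ⟨x, hx, hmin⟩ := S.exists_min_image (fun p => toLex p) h
  refine ⟨x, hx, fun a ha hne => ?_⟩
  rcases ES.lex_total hne with h1 | h1
  · exfalso
    have h2 := hmin a ha
    have h3 : toLex a < toLex x := by
      rw [Prod.Lex.toLex_lt_toLex]
      exact h1
    exact absurd h2 (not_le.2 h3)
  · exact h1

lemma ord_radial {S : Finset Pt} {x : Pt} (hS : GenP S) (hx : x ∈ S)
    (h : ∀ a ∈ S, a ≠ x → lexlt x a) : Ord (fun a b => 0 < D x a b) (S.erase x) := by
  refine ⟨?_, ?_, ?_⟩
  · rintro a b hab rfl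
    have : D x a a = 0 := by unfold D; ring
    rw [this] at hab
    exact lt_irrefl _ hab
  · intro a ha b hb c hc hab hbc
    rw [Finset.mem_erase] at ha hb hc
    exact ES.turn_pos (ES.lex_sub (h a ha.2 ha.1)) (ES.lex_sub (h b hb.2 hb.1))
      (ES.lex_sub (h c hc.2 hc.1)) hab hbc
  · intro a ha b hb hab
    rw [Finset.mem_erase] at ha hb
    have h1 := hS x hx a ha.2 b hb.2 (Ne.symm ha.1) (Ne.symm hb.1) hab
    rcases lt_or_gt_of_ne h1 with h2 | h2
    · right
      have h3 : D x b a = - D x a b := by unfold D; ring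
      rw [h3]
      linarith
    · left
      exact h2

end Pool.BK5.ES2

namespace Pool.BK5

open ES2 in
theorem t_ES2 (_hTrans : S_Trans) (_hTurn : S_Turn) (hStar : S_Star) : S_ES2 := by
  intro S hS hc
  have hne : S.Nonempty := Finset.card_pos.1 (by omega)
  obtain ⟨x, hx, hmin⟩ := exists_least hne
  have hO := ord_radial hS hx hmin
  have hT : GenP (S.erase x) := ES.genP_mono (Finset.erase_subset x S) hS
  have h13 : (6 + 7).choose 6 < (S.erase x).card := by
    have h1 : (6 + 7).choose 6 = 1716 := by decide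
    rw [h1, Finset.card_erase_of_mem hx]
    omega
  rcases cups_caps 13 6 7 rfl (S.erase x) hT hO h13 with ⟨y, z, h⟩ | ⟨y, z, h⟩
  · obtain ⟨X, a1, a2, a3, _, _⟩ := cup_seq 6 y z h
    refine ⟨fun k => if k = 0 then x else X (k - 1), fun k hk => ?_, hStar 9 _ ?_ ?_ ?_⟩
    · simp only
      split_ifs
      · exact hx
      · exact Finset.mem_of_mem_erase (a1 _ (by omega))
    · intro k hk1 hk2
      try simp only
      rw [if_pos trivial, if_neg (by omega), if_neg (by omega)]
      exact ord_seq hO a1 a2 0 (k - 1) (by omega) (by omega)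
    · intro k hk1 hk2
      try simp only
      rw [if_pos trivial, if_neg (by omega), if_neg (by omega)]
      have := a2 (k - 1) (by omega)
      rw [show k - 1 + 1 = k + 1 - 1 by omega] at this
      exact this
    · intro k hk1 hk2
      try simp only
      rw [if_neg (by omega), if_neg (by omega), if_neg (by omega)]
      have := a3 (k - 1) (by omega)
      rw [show k - 1 + 1 = k + 1 - 1 by omega, show k - 1 + 2 = k + 2 - 1 by omega] at this
      exact this
  · obtain ⟨X, a1, a2, a3, _, _⟩ := cap_seq 7 y z h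
    have hl := ord_seq hO a1 a2
    refine ⟨fun k => X (8 - k), fun k hk => Finset.mem_of_mem_erase (a1 _ (by omega)),
      fun i j k h1 h2 h3 => ?_⟩
    show 0 < D (X (8 - i)) (X (8 - j)) (X (8 - k))
    have e := ES.D_rev (X (8 - k)) (X (8 - j)) (X (8 - i))
    have e2 := all_neg hl a3 9 (8 - k) (8 - j) (8 - i) (by omega) (by omega) (by omega) (by omega)
    rw [e]; linarith

end Pool.BK5
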