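import Pool.Agent.BK5.StmtsE

/-!
MP_70b73c_co, 5-blocked sets: the final count.
-/

set_option autoImplicit false

namespace Pool.BK5

theorem t_Final2 (hCl3 : S_Cl3) (hNoHex : S_NoHex) : S_Final2 := by
  classical
  intro hB hG hES P c hP
  have hcl : ∀ a : Fin 5, (P.filter (fun x => c x = a)).card ≤ 1717 := by
    intro a
    by_contra hcon
    push Not at hcon
    have hmem : ∀ s, s ∈ P.filter (fun x => c x = a) ↔ s ∈ P ∧ c s = a := by
      intro s
      rw [Finset.mem_filter]
    have hgp : GenP (P.filter (fun x => c x = a)) :=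
      hCl3 5 P c hP a _ (fun x hx => (hmem x).1 hx)
    have h9 := hES _ hgp (by omega)
    exact hNoHex hB P c a _ hP hmem (hG _ hgp h9)
  have hsum : P.card = ∑ a : Fin 5, (P.filter (fun x => c x = a)).card :=
    Finset.card_eq_sum_card_fiberwise (f := c) (t := Finset.univ)
      (fun x _ => Finset.mem_coe.2 (Finset.mem_univ _))
  rw [hsum]
  calc ∑ a : Fin 5, (P.filter (fun x => c x = a)).card ≤ ∑ _a : Fin 5, 1717 :=
        Finset.sum_le_sum (fun a _ => hcl a)
    _ = 8585 := by simp

end Pool.BK5
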