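import Pool.Agent.BK5.StmtsG

/-!
MP_70b73c_co, 5-blocked sets: Gerken's theorem from the certificates (statement `S_Gerken`).
-/

set_option autoImplicit false

namespace Pool.BK5

namespace Gerken

theorem D_swap (a b c : Pt) : D a b c = -D b a c := by simp only [D]; ring

theorem D_self1 (a b : Pt) : D a b a = 0 := by simp only [D]; ring

theorem mod_ne_of_lt {j r x : ℕ} (hr : r < j) (hx : 1 ≤ x) (hxj : x < j) : (x + r) % j ≠ r := by
  by_cases h : x + r < j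
  · rw [Nat.mod_eq_of_lt h]; omega
  · rw [Nat.mod_eq_sub_mod (by omega), Nat.mod_eq_of_lt (by omega)]; omega

theorem succ_mod_ne {i k : ℕ} (hk : k < i) (hi : 2 ≤ i) : (k + 1) % i ≠ k := by
  rw [Nat.add_comm]; exact mod_ne_of_lt hk le_rfl (by omega)

theorem pred_mod_ne {i k : ℕ} (hk : k < i) (hi : 2 ≤ i) : (k + i - 1) % i ≠ k := by
  have h := mod_ne_of_lt (x := i - 1) hk (by omega) (by omega)
  have e : i - 1 + k = k + i - 1 := by omega
  rwa [e] at h

/-- positive from nonpositive after a swap, in general position -/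
theorem pos_of {S : Finset Pt} (gp : GenP S) {a b c : Pt} (ha : a ∈ S) (hb : b ∈ S) (hc : c ∈ S)
    (hab : a ≠ b) (hac : a ≠ c) (hbc : b ≠ c) (h : D a b c ≤ 0) : 0 < D b a c := by
  have h1 := gp a ha b hb c hc hab hac hbc
  have h2 := D_swap a b c
  rcases lt_or_eq_of_le h with h3 | h3
  · linarith
  · exact absurd h3 h1

section
variable {S : Finset Pt} {H : ℕ → Pt} {i : ℕ} {I : ℕ → Pt} {j : ℕ} {J : ℕ → Pt} {U : Finset Pt}

theorem I_ne_H (c : Ctx S H i I j J U) {k m : ℕ} (hk : k < i) (hm : m < 9) : I k ≠ H m := by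
  intro e
  have h := (c.hI k hk).2 m hm
  rw [e, D_self1] at h
  exact lt_irrefl _ h

theorem I_ne_J (c : Ctx S H i I j J U) {k x : ℕ} (hk : k < i) (hx : x < j) : I k ≠ J x := by
  intro e
  have h := (c.inI (J x) (Or.inl ⟨x, hx, rfl⟩)).2 k hk
  rw [← e, D_self1] at h
  exact lt_irrefl _ h

/-- tangent point of the `J` as seen from `I k` -/
theorem tangent (hTan : S_Tan) (c : Ctx S H i I j J U) {k : ℕ} (hk : k < i) (hj : 1 ≤ j) :
    ∃ r, r < j ∧ ∀ x, x < j → x ≠ r → 0 < D (I k) (J r) (J x) := by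
  classical
  have hlin : ∀ x : Pt, D (I k) (I ((k + 1) % i)) x =
      (-((I ((k + 1) % i)).2 - (I k).2)) * (x.1 - (I k).1) +
        ((I ((k + 1) % i)).1 - (I k).1) * (x.2 - (I k).2) := by
    intro x; simp only [D]; ring
  obtain ⟨⟨r, hr, hr2⟩, -⟩ := hTan ((Finset.range j).image J) (I k)
    (-((I ((k + 1) % i)).2 - (I k).2)) ((I ((k + 1) % i)).1 - (I k).1)
    ⟨J 0, Finset.mem_image.2 ⟨0, Finset.mem_range.2 (by omega), rfl⟩⟩
    (by
      intro x hx
      obtain ⟨a, ha, rfl⟩ := Finset.mem_image.1 hx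
      rw [← hlin]
      exact (c.inI (J a) (Or.inl ⟨a, Finset.mem_range.1 ha, rfl⟩)).2 k hk)
    (by
      intro x hx y hy hxy
      obtain ⟨a, ha, rfl⟩ := Finset.mem_image.1 hx
      obtain ⟨b, hb, rfl⟩ := Finset.mem_image.1 hy
      rw [Finset.mem_range] at ha hb
      exact c.gp _ (c.hI k hk).1 _ (c.hJ a ha).1 _ (c.hJ b hb).1 (I_ne_J c hk ha)
        (I_ne_J c hk hb) hxy)
  obtain ⟨a, ha, rfl⟩ := Finset.mem_image.1 hr
  rw [Finset.mem_range] at ha
  refine ⟨a, ha, fun x hx hxa => hr2 _ (Finset.mem_image.2 ⟨x, Finset.mem_range.2 hx, rfl⟩) ?_⟩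
  intro e
  exact hxa (c.iJ x a hx ha e)

end

end Gerken

open Gerken

theorem t_Gerken (_hRot : S_Rot) (hTan : S_Tan) (hCtx : S_Ctx) (hSize : S_Size)
    (hCtxRot : S_CtxRot) (hMod : S_Mod) (hMod5 : S_Mod5) (hUV : S_UV) : S_Gerken := by
  intro hC S gp h9
  by_contra hEx
  obtain ⟨H, i, I, j, J, U, c⟩ := hCtx S gp hEx h9
  obtain ⟨i8, j8, i1, jU⟩ := hSize S H i I j J U c
  by_cases hi : 3 ≤ i
  swap
  · have hj : j = 0 := by
      by_contra hj
      exact hi (c.inI (J 0) (Or.inl ⟨0, by omega, rfl⟩)).1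
    have hU : U = ∅ := by
      rw [Finset.eq_empty_iff_forall_notMem]
      intro s hs
      exact hi (c.inI s (Or.inr hs)).1
    have hM := hMod S H i I j J J U 0 ∅ c (fun h => absurd h hi) (Or.inl ⟨rfl, hU, rfl⟩)
    subst hj
    exact hC.c00 i i1 (by omega) _ hM
  -- the corner
  have hex : ∃ k m, k < i ∧ m < 9 ∧ D (I k) (I ((k + 1) % i)) (H m) ≤ 0 ∧
      D (I ((k + 1) % i)) (I k) (H ((m + 8) % 9)) ≤ 0 ∧
      D (I k) (I ((k + i - 1) % i)) (H ((m + 1) % 9)) ≤ 0 := by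
    by_contra hno
    obtain ⟨Hd, hM⟩ := hMod5 S H i I j J U c hi (by
      intro k m hk hm
      by_contra h
      push Not at h
      exact hno ⟨k, m, hk, hm, h.1, h.2.1, h.2.2⟩)
    exact hC.c5 i hi i8 _ _ hM
  obtain ⟨k, m, hk, hm, h1, h2, h3⟩ := hex
  have hk1 : (k + 1) % i < i := Nat.mod_lt _ (by omega)
  have hk2 : (k + i - 1) % i < i := Nat.mod_lt _ (by omega)
  have hm8 : (m + 8) % 9 < 9 := Nat.mod_lt _ (by norm_num)
  have hm1 : (m + 1) % 9 < 9 := Nat.mod_lt _ (by norm_num)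
  have n1 : I k ≠ I ((k + 1) % i) := fun e => succ_mod_ne hk (by omega) (c.iI _ _ hk hk1 e).symm
  have n2 : I k ≠ I ((k + i - 1) % i) :=
    fun e => pred_mod_ne hk (by omega) (c.iI _ _ hk hk2 e).symm
  have p1 : 0 < D (I ((k + 1) % i)) (I k) (H m) :=
    pos_of gp (c.hI k hk).1 (c.hI _ hk1).1 (c.hH m hm) n1 (I_ne_H c hk hm) (I_ne_H c hk1 hm) h1
  have p2 : 0 < D (I k) (I ((k + 1) % i)) (H ((m + 8) % 9)) :=
    pos_of gp (c.hI _ hk1).1 (c.hI k hk).1 (c.hH _ hm8) n1.symm (I_ne_H c hk1 hm8)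
      (I_ne_H c hk hm8) h2
  have p3 : 0 < D (I ((k + i - 1) % i)) (I k) (H ((m + 1) % 9)) :=
    pos_of gp (c.hI k hk).1 (c.hI _ hk2).1 (c.hH _ hm1) n2 (I_ne_H c hk hm1) (I_ne_H c hk2 hm1) h3
  -- the tangent point
  obtain ⟨r, hr⟩ : ∃ r, ∀ x, 1 ≤ x → x < j → 0 < D (I k) (rot j r J 0) (rot j r J x) := by
    by_cases hj : 1 ≤ j
    · obtain ⟨r, hr, hr2⟩ := tangent hTan c hk hj
      refine ⟨r, fun x hx hxj => ?_⟩
      have e0 : rot j r J 0 = J r := by
        show J ((0 + r) % j) = J r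
        rw [Nat.zero_add, Nat.mod_eq_of_lt hr]
      rw [e0]
      exact hr2 _ (Nat.mod_lt _ (by omega)) (mod_ne_of_lt hr hx hxj)
    · exact ⟨0, fun x hx hxj => by omega⟩
  have c2 := hCtxRot S H i I j J U m k r c
  have eI0 : rot i k I 0 = I k := by
    show I ((0 + k) % i) = I k
    rw [Nat.zero_add, Nat.mod_eq_of_lt hk]
  have eI1 : rot i k I 1 = I ((k + 1) % i) := by
    show I ((1 + k) % i) = _
    rw [Nat.add_comm]
  have eIi : rot i k I (i - 1) = I ((k + i - 1) % i) := by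
    show I ((i - 1 + k) % i) = _
    have e : i - 1 + k = k + i - 1 := by omega
    rw [e]
  have eH0 : rot 9 m H 0 = H m := by
    show H ((0 + m) % 9) = H m
    rw [Nat.zero_add, Nat.mod_eq_of_lt hm]
  have eH8 : rot 9 m H 8 = H ((m + 8) % 9) := by
    show H ((8 + m) % 9) = _
    rw [Nat.add_comm]
  have eH1 : rot 9 m H 1 = H ((m + 1) % 9) := by
    show H ((1 + m) % 9) = _
    rw [Nat.add_comm]
  have hsym : 3 ≤ i → 0 < D (rot i k I 0) (rot i k I 1) (rot 9 m H 8) ∧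
      0 < D (rot i k I 1) (rot i k I 0) (rot 9 m H 0) ∧
      0 < D (rot i k I (i - 1)) (rot i k I 0) (rot 9 m H 1) ∧
      ∀ x, 1 ≤ x → x < j → 0 < D (rot i k I 0) (rot j r J 0) (rot j r J x) := by
    intro _
    rw [eI0, eI1, eIi, eH0, eH8, eH1]
    exact ⟨p2, p1, p3, hr⟩
  by_cases hU : U = ∅
  · have hj5 : j ≤ 5 := by
      by_contra h
      exact (Finset.nonempty_iff_ne_empty.1 (jU (by omega))) hU
    exact hC.c0 i j hi i8 hj5 _
      (hMod S _ i _ j _ J U 0 ∅ c2 hsym (Or.inl ⟨rfl, hU, rfl⟩))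
  · obtain ⟨e, he⟩ := Finset.nonempty_iff_ne_empty.2 hU
    have hj3 : 3 ≤ j := (c.inJ e he).1
    by_cases h88 : i = 8 ∧ j = 8
    · obtain ⟨rfl, rfl⟩ := h88
      by_cases hc : 2 ≤ U.card
      · obtain ⟨u, hu, v, hv, huv, h4, h5⟩ := hUV S _ 8 _ 8 _ U c2 hc
        have hM := hMod S _ 8 _ 8 _ (fun n => if n = 0 then u else v) U 3 U c2 hsym
          (Or.inr (Or.inr (Or.inl ⟨rfl, by simpa using hu, by simpa using hv, by simpa using huv,
            by simpa using h4, by simpa using h5, rfl⟩)))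
        exact hC.c3 _ _ hM
      · have hc1 : U.card = 1 := by
          have := Finset.card_pos.2 ⟨e, he⟩
          omega
        obtain ⟨e', rfl⟩ := Finset.card_eq_one.1 hc1
        have hM := hMod S _ 8 _ 8 _ (fun _ => e') {e'} 6 ∅ c2 hsym
          (Or.inr (Or.inr (Or.inr ⟨rfl, rfl, rfl⟩)))
        exact hC.c6 _ hM
    · have hM := hMod S _ i _ j _ (fun _ => e) U 2 U c2 hsym
        (Or.inr (Or.inl ⟨rfl, he, rfl⟩))
      exact hC.c2 i j hi i8 hj3 j8 h88 _ _ hM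

end Pool.BK5
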