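import Pool.Agent.BK5.StmtsB

/-!
MP_70b73c_co, 5-blocked sets, part B11: a 4-blocked set of 12 points does not have six extreme
points.
-/

set_option autoImplicit false

namespace Pool.BK5

namespace H6

/-- An affine function, positive at two points, is positive on the open segment. -/
theorem seg_pos {A B x y z : Pt} (hx : 0 < D A B x) (hz : 0 < D A B z)
    (hy : y ∈ openSegment ℝ x z) : 0 < D A B y := by
  obtain ⟨s, t, hs, ht, hst, rfl⟩ := hy
  have h : D A B (s • x + t • z) = s * D A B x + t * D A B z := by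
    obtain ⟨x1, x2⟩ := x
    obtain ⟨z1, z2⟩ := z
    obtain ⟨A1, A2⟩ := A
    obtain ⟨B1, B2⟩ := B
    have hs' : s = 1 - t := by linarith
    subst hs'
    simp only [D, Prod.fst_add, Prod.snd_add, Prod.smul_fst, Prod.smul_snd, smul_eq_mul]
    ring
  rw [h]
  positivity

/-- Barycentric coordinates. -/
theorem bary (A B o x y z : Pt) :
    D o x z * D A B y = -D x y z * D A B o + D o y z * D A B x + D o x y * D A B z := by
  obtain ⟨x1, x2⟩ := x
  obtain ⟨y1, y2⟩ := y
  obtain ⟨z1, z2⟩ := z
  obtain ⟨o1, o2⟩ := o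
  obtain ⟨A1, A2⟩ := A
  obtain ⟨B1, B2⟩ := B
  simp only [D]
  ring

theorem tri_pos {A B o x y z : Pt} (ho : 0 < D A B o) (hx : 0 < D A B x) (hz : 0 < D A B z)
    (hoxz : 0 < D o x z) (h1 : 0 ≤ D o x y) (h2 : 0 ≤ D o y z) (h3 : D x y z ≤ 0) :
    0 < D A B y := by
  have hb := bary A B o x y z
  have hsum : D o x z = -D x y z + D o y z + D o x y := by
    simp only [D]
    ring
  by_contra hcon
  have hcon' : D A B y ≤ 0 := not_lt.1 hcon
  have hl : D o x z * D A B y ≤ 0 := mul_nonpos_of_nonneg_of_nonpos hoxz.le hcon'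
  have e1 : 0 ≤ -D x y z * D A B o := mul_nonneg (by linarith) ho.le
  have e2 : 0 ≤ D o y z * D A B x := mul_nonneg h2 hx.le
  have e3 : 0 ≤ D o x y * D A B z := mul_nonneg h1 hz.le
  have f1 : -D x y z * D A B o = 0 := by linarith
  have f2 : D o y z * D A B x = 0 := by linarith
  have f3 : D o x y * D A B z = 0 := by linarith
  have g1 : -D x y z = 0 := (mul_eq_zero.1 f1).resolve_right ho.ne'
  have g2 : D o y z = 0 := (mul_eq_zero.1 f2).resolve_right hx.ne'
  have g3 : D o x y = 0 := (mul_eq_zero.1 f3).resolve_right hz.ne'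
  linarith

end H6

open H6 in
theorem t_H6 (hBMod : S_BMod) : S_H6 := by
  classical
  rintro hC P c hP hcard ⟨e, heP, hinj, hext⟩
  obtain ⟨A0, B0, hz0, hpos0⟩ := hext 0 (by norm_num)
  have he0 : e 0 ∈ P := heP 0 (by norm_num)
  obtain ⟨p, col, hM, hp0, hpP, hPp, hpinj, hRW, -⟩ :=
    hBMod 4 P c (e 0) (-(B0.2 - A0.2)) (B0.1 - A0.1) hP he0 (by
      intro x hx hne
      have h1 := hpos0 x hx hne
      simp only [D] at h1 hz0
      nlinarith)
  rw [hcard] at hM hpP hPp hpinj hRW
  choose g hg using fun k : ℕ => fun hk : k < 6 => hPp (e k) (heP k hk)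
  -- the indices of `e 1, …, e 5`
  let f : Fin 5 → ℕ := fun k => g (k.1 + 1) (by omega)
  have hf : ∀ k : Fin 5, f k < 12 ∧ p (f k) = e (k.1 + 1) := fun k => hg (k.1 + 1) (by omega)
  have hfinj : Function.Injective f := by
    intro k l hkl
    have h := (hf k).2.symm.trans ((congrArg p hkl).trans (hf l).2)
    have := hinj _ _ (by omega) (by omega) h
    exact Fin.ext (by omega)
  refine hC.h6 p col (Finset.univ.image f) hM ?_ ?_ ?_
  · rw [Finset.card_image_of_injective _ hfinj, Finset.card_univ, Fintype.card_fin]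
  · intro i hi
    obtain ⟨k, -, rfl⟩ := Finset.mem_image.1 hi
    refine ⟨?_, (hf k).1⟩
    by_contra hcon
    have h0 : f k = 0 := by omega
    have h1 := (hf k).2
    rw [h0, hp0] at h1
    have := hinj _ _ (by norm_num) (by omega) h1
    omega
  · intro i hi
    obtain ⟨k, -, rfl⟩ := Finset.mem_image.1 hi
    obtain ⟨hi12, hpi⟩ := hf k
    have hi1 : 1 ≤ f k := by
      by_contra hcon
      have h0 : f k = 0 := by omega
      have h1 := hpi
      rw [h0, hp0] at h1
      have := hinj _ _ (by norm_num) (by omega) h1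
      omega
    generalize f k = i at hi12 hpi hi1
    obtain ⟨A, B, hz, hpos⟩ := hext (k.1 + 1) (by omega)
    rw [← hpi] at hz hpos
    have hlt : ∀ j, j < 12 → j ≠ i → 0 < D A B (p j) := fun j hj hne =>
      hpos _ (hpP j hj) (fun h => hne (hpinj j i hj hi12 h))
    have ho := hlt 0 (by norm_num) (by omega)
    constructor
    · intro a b ha hai hib hb
      by_contra hcon
      have hcon' := not_lt.1 hcon
      have h := tri_pos ho (hlt a (by omega) (by omega)) (hlt b hb (by omega))
        (hM.radz a b (by omega) (by omega) hb) (hM.rad a i (by omega) hai hi12)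
        (hM.rad i b (by omega) hib hb) hcon'
      rw [hz] at h
      exact lt_irrefl _ h
    · intro hi' h0
      rcases hRW i (i + 1) (by omega) (by omega) hi' with h | ⟨-, h⟩
      · rw [h0] at h
        exact lt_irrefl _ h
      · have h2 := seg_pos ho (hlt (i + 1) hi' (by omega)) h
        rw [hz] at h2
        exact lt_irrefl _ h2

end Pool.BK5
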