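import Pool.Agent.BK5.StmtsB

/-!
MP_70b73c_co, 5-blocked sets: B13, the hexagon model.
-/

set_option autoImplicit false

namespace Pool.BK5

namespace HModAux

theorem D_rot (a b c : Pt) : D a b c = D b c a := by
  unfold D; ring

theorem D_swap (a b c : Pt) : D a c b = -D a b c := by
  unfold D; ring

theorem D_aab (a b : Pt) : D a a b = 0 := by
  unfold D; ring

theorem D_abb (a b : Pt) : D a b b = 0 := by
  unfold D; ring

theorem D_aba (a b : Pt) : D a b a = 0 := by
  unfold D; ring

theorem RW.nonneg {o x y : Pt} (h : RW o x y) : 0 ≤ D o x y := by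
  rcases h with h | h
  · exact h.le
  · exact h.1.ge

/-- points of an open segment -/
theorem seg {a b x : Pt} (h : x ∈ openSegment ℝ a b) :
    ∃ t : ℝ, 0 < t ∧ t < 1 ∧ x.1 = a.1 + t * (b.1 - a.1) ∧ x.2 = a.2 + t * (b.2 - a.2) := by
  obtain ⟨u, v, hu, hv, huv, rfl⟩ := h
  refine ⟨v, hv, by linarith, ?_, ?_⟩
  · simp only [Prod.fst_add, Prod.smul_fst, smul_eq_mul]
    have : u = 1 - v := by linarith
    rw [this]; ring
  · simp only [Prod.snd_add, Prod.smul_snd, smul_eq_mul]
    have : u = 1 - v := by linarith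
    rw [this]; ring

/-- a point between `o` and `x` does not have `x` between `o` and itself -/
theorem seg_asymm {o x e : Pt} (hne : o ≠ x) (h1 : e ∈ openSegment ℝ o x)
    (h2 : x ∈ openSegment ℝ o e) : False := by
  obtain ⟨t, ht0, ht1, hx1, hx2⟩ := seg h1
  obtain ⟨s, hs0, hs1, hy1, hy2⟩ := seg h2
  apply hne
  have hst : t * s < 1 := by nlinarith
  have e1 : (1 - t * s) * (x.1 - o.1) = 0 := by
    rw [hx1] at hy1
    linear_combination hy1
  have e2 : (1 - t * s) * (x.2 - o.2) = 0 := by
    rw [hx2] at hy2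
    linear_combination hy2
  have h3 : (1 - t * s) ≠ 0 := by linarith
  have f1 := (mul_eq_zero.1 e1).resolve_left h3
  have f2 := (mul_eq_zero.1 e2).resolve_left h3
  exact Prod.ext (by linarith) (by linarith)

theorem seg_symm {a b x : Pt} (h : x ∈ openSegment ℝ a b) : x ∈ openSegment ℝ b a := by
  rwa [openSegment_symm]

/-- `D o e y` for `e` on the ray from `o` to `x` -/
theorem D_seg {o x e : Pt} (h : e ∈ openSegment ℝ o x) (y : Pt) :
    ∃ t : ℝ, 0 < t ∧ D o e y = t * D o x y := by
  obtain ⟨t, ht0, _, hx1, hx2⟩ := seg h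
  refine ⟨t, ht0, ?_⟩
  unfold D
  rw [hx1, hx2]
  ring

end HModAux

open HModAux

theorem t_HMod (_hNo4 : S_No4) (_hCl3 : S_Cl3) (hBMod : S_BMod) (hHexR : S_HexR) : S_HMod := by
  intro P c a X hP hX hcv hemp Q hQ
  obtain ⟨Q', R, hQ', hQb, hQa, hR, hcard, _, e, he1, he2, he3⟩ := hHexR P c a X hP hX hcv hemp
  have hQQ : Q' = Q := by
    ext s
    rw [hQ' s, hQ s]
  subst hQQ
  -- facts on the hexagon
  have hD : ∀ i j k, i < j → j < k → k < 6 → 0 < D (X i) (X j) (X k) := hcv
  have hXQ : ∀ k, k < 6 → X k ∈ Q' := by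
    intro k hk
    rw [hQ (X k)]
    refine ⟨(hX k hk).1, ?_⟩
    intro l hl
    have key : ∀ k l, k < 6 → l < 6 → 0 ≤ D (X l) (X ((l + 1) % 6)) (X k) := by
      intro k l hk hl
      rcases Nat.lt_or_ge l 5 with h5 | h5
      · rw [Nat.mod_eq_of_lt (show l + 1 < 6 by omega)]
        rcases lt_trichotomy k l with h | h | h
        · rw [D_rot, D_rot]
          exact (hD k l (l + 1) h (by omega) (by omega)).le
        · rw [h, D_aba]
        · rcases Nat.eq_or_lt_of_le (show l + 1 ≤ k by omega) with h' | h'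
          · rw [← h', D_abb]
          · exact (hD l (l + 1) k (by omega) h' hk).le
      · have hl5 : l = 5 := by omega
        subst hl5
        rw [show (5 + 1) % 6 = 0 from rfl]
        rcases Nat.eq_zero_or_pos k with h | h
        · rw [h, D_abb]
        · rcases Nat.eq_or_lt_of_le (show k ≤ 5 by omega) with h' | h'
          · rw [h', D_aba]
          · rw [D_rot]
            exact (hD 0 k 5 h h' (by omega)).le
    exact key k l hk hl
  have hXa : ∀ k, k < 6 → c (X k) = a := fun k hk => (hX k hk).2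
  have hXinj : ∀ k l, k < l → l < 6 → X k ≠ X l := by
    intro k l hkl hl h
    have key : ∃ m, m < 6 ∧ m ≠ k ∧ m ≠ l := by
      by_cases h0 : k = 0 ∨ l = 0
      · by_cases h1 : k = 1 ∨ l = 1
        · exact ⟨2, by omega, by omega, by omega⟩
        · exact ⟨1, by omega, by omega, by omega⟩
      · exact ⟨0, by omega, by omega, by omega⟩
    obtain ⟨m, hm, hmk, hml⟩ := key
    rcases lt_or_gt_of_ne hmk with h1 | h1
    · have := hD m k l h1 hkl hl
      rw [h, D_abb] at this
      exact lt_irrefl _ this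
    · rcases lt_or_gt_of_ne hml with h2 | h2
      · have := hD k m l h1 h2 hl
        rw [h, D_aba] at this
        exact lt_irrefl _ this
      · have := hD k l m hkl h2 hm
        rw [h, D_aab] at this
        exact lt_irrefl _ this
  have h01 : X 0 ≠ X 1 := hXinj 0 1 (by omega) (by omega)
  have h05 : X 0 ≠ X 5 := hXinj 0 5 (by omega) (by omega)
  -- the functional
  have hfun : ∀ x ∈ Q', x ≠ X 0 →
      0 < ((X 5).2 - (X 1).2) * (x.1 - (X 0).1) + ((X 1).1 - (X 5).1) * (x.2 - (X 0).2) := by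
    intro x hx hne
    have h1 := ((hQ x).1 hx).2 0 (by omega)
    have h2 := ((hQ x).1 hx).2 5 (by omega)
    rw [show (0 + 1) % 6 = 1 from rfl] at h1
    rw [show (5 + 1) % 6 = 0 from rfl] at h2
    have hsum : ((X 5).2 - (X 1).2) * (x.1 - (X 0).1) + ((X 1).1 - (X 5).1) * (x.2 - (X 0).2) =
        D (X 0) (X 1) x + D (X 5) (X 0) x := by
      unfold D; ring
    rw [hsum]
    rcases lt_or_eq_of_le (add_nonneg h1 h2) with h | h
    · exact h
    · exfalso
      apply hne
      have e1 : D (X 0) (X 1) x = 0 := by linarith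
      have e2 : D (X 5) (X 0) x = 0 := by linarith
      have h015 := hD 0 1 5 (by omega) (by omega) (by omega)
      unfold D at e1 e2 h015
      have f1 : ((X 1).1 - (X 0).1) * ((X 5).2 - (X 0).2) - ((X 1).2 - (X 0).2) * ((X 5).1 - (X 0).1) ≠ 0 :=
        ne_of_gt h015
      refine Prod.ext ?_ ?_
      · have : (((X 1).1 - (X 0).1) * ((X 5).2 - (X 0).2) - ((X 1).2 - (X 0).2) * ((X 5).1 - (X 0).1)) *
            (x.1 - (X 0).1) = 0 := by
          linear_combination ((X 1).1 - (X 0).1) * e2 + ((X 5).1 - (X 0).1) * e1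
        have := (mul_eq_zero.1 this).resolve_left f1
        linarith
      · have : (((X 1).1 - (X 0).1) * ((X 5).2 - (X 0).2) - ((X 1).2 - (X 0).2) * ((X 5).1 - (X 0).1)) *
            (x.2 - (X 0).2) = 0 := by
          linear_combination ((X 5).2 - (X 0).2) * e1 + ((X 1).2 - (X 0).2) * e2
        have := (mul_eq_zero.1 this).resolve_left f1
        linarith
  obtain ⟨p, col, hB, hp0, hpQ, hpS, hpI, hpR, hpc⟩ :=
    hBMod 5 Q' c (X 0) _ _ hQb (hXQ 0 (by omega)) hfun
  have hn7 : 7 ≤ Q'.card := by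
    have : 0 < R.card := Finset.card_pos.2 ⟨e 0, (he1 0 (by omega)).1⟩
    omega
  refine ⟨p, col, ?_⟩
  generalize hn : Q'.card = n at *
  -- indices of the vertices
  have hidx : ∀ k, ∃ i, k < 6 → i < n ∧ p i = X k := by
    intro k
    by_cases hk : k < 6
    · obtain ⟨i, hi, h⟩ := hpS (X k) (hXQ k hk)
      exact ⟨i, fun _ => ⟨hi, h⟩⟩
    · exact ⟨0, fun h => absurd h hk⟩
  choose t ht using hidx
  have ht0 : t 0 = 0 := hpI _ _ (ht 0 (by omega)).1 (by omega) (by rw [(ht 0 (by omega)).2, hp0])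
  have hcol0 : col 0 = 0 := by
    rcases Nat.eq_zero_or_pos (col 0) with h | h
    · exact h
    · obtain ⟨m, hm, _⟩ := hB.norm 0 (col 0 - 1) (by omega) (by omega)
      omega
  have hcolt : ∀ k, k < 6 → col (t k) = 0 := by
    intro k hk
    have h1 := (hpc (t k) 0 (ht k hk).1 (by omega)).2 (by
      rw [(ht k hk).2, hp0, hXa k hk, hXa 0 (by omega)])
    rw [h1, hcol0]
  have hcol : ∀ i, i < n → col i = 0 → ∃ k, k < 6 ∧ i = t k := by
    intro i hi h
    have h1 : c (p i) = a := by
      have := (hpc i 0 hi (by omega)).1 (by rw [h, hcol0])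
      rw [this, hp0, hXa 0 (by omega)]
    obtain ⟨k, hk, hk'⟩ := hQa (p i) (hpQ i hi) h1
    exact ⟨k, hk, hpI _ _ hi (ht k hk).1 (by rw [hk', (ht k hk).2])⟩
  have htpos : ∀ k, 0 < k → k < 6 → 0 < t k := by
    intro k hk0 hk
    rcases Nat.eq_zero_or_pos (t k) with h | h
    · exfalso
      have h1 := (ht k hk).2
      rw [h, hp0] at h1
      exact hXinj 0 k hk0 hk h1
    · exact h
  -- order
  have hord : ∀ i j, 0 < i → i < n → 0 < j → j < n → 0 < D (p 0) (p i) (p j) → i < j := by
    intro i j hi hin hj hjn h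
    rcases lt_trichotomy i j with h1 | h1 | h1
    · exact h1
    · rw [h1, D_abb] at h
      exact absurd h (lt_irrefl _)
    · have h2 := RW.nonneg (hpR j i hj h1 hin)
      rw [D_swap] at h2
      linarith
  have htmono : ∀ k l, k < l → l < 6 → t k < t l := by
    intro k l hkl hl
    rcases Nat.eq_zero_or_pos k with h | h
    · rw [h, ht0]
      exact htpos l (by omega) hl
    · refine hord _ _ (htpos k h (by omega)) (ht k (by omega)).1 (htpos l (by omega) hl)
        (ht l hl).1 ?_
      rw [(ht k (by omega)).2, (ht l hl).2, hp0]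
      exact hD 0 k l h hkl hl
  -- points of colour different from a
  have hcolR : ∀ i, i < n → p i ∈ R → col i ≠ 0 := by
    intro i hi hiR h
    obtain ⟨k, hk, rfl⟩ := hcol i hi h
    have := ((hR _).1 hiR).2
    rw [(ht k hk).2] at this
    exact this (hXa k hk)
  have hcase : ∀ i, i < n → (∃ k, k < 6 ∧ i = t k) ∨ p i ∈ R := by
    intro i hi
    by_cases h : c (p i) = a
    · left
      obtain ⟨k, hk, hk'⟩ := hQa (p i) (hpQ i hi) h
      exact ⟨k, hk, hpI _ _ hi (ht k hk).1 (by rw [hk', (ht k hk).2])⟩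
    · right
      exact (hR _).2 ⟨hpQ i hi, h⟩
  -- the first two points
  have hleft1 : ∀ i, 0 < i → i < n → p i ≠ e 0 → p i ≠ X 1 → 0 < D (X 0) (X 1) (p i) := by
    intro i hi0 hi h1 h2
    rcases hcase i hi with ⟨k, hk, rfl⟩ | h
    · rw [(ht k hk).2] at h2 ⊢
      have hk0 : k ≠ 0 := by
        rintro rfl
        omega
      have hk1 : k ≠ 1 := by
        rintro rfl
        exact h2 rfl
      exact hD 0 1 k (by omega) (by omega) hk
    · exact (he3 0 (by omega)).2 (p i) h h1
  have hleft5 : ∀ i, 0 < i → i < n → p i ≠ e 5 → p i ≠ X 5 → 0 < D (X 0) (p i) (X 5) := by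
    intro i hi0 hi h1 h2
    rcases hcase i hi with ⟨k, hk, rfl⟩ | h
    · rw [(ht k hk).2] at h2 ⊢
      have hk0 : k ≠ 0 := by
        rintro rfl
        omega
      have hk1 : k ≠ 5 := by
        rintro rfl
        exact h2 rfl
      exact hD 0 k 5 (by omega) (by omega) (by omega)
    · have h3 := (he3 5 (by omega)).2 (p i) h h1
      rw [show (5 + 1) % 6 = 0 from rfl, D_rot] at h3
      exact h3
  have he0Q : e 0 ∈ Q' := ((hR _).1 (he1 0 (by omega)).1).1
  have he5Q : e 5 ∈ Q' := ((hR _).1 (he1 5 (by omega)).1).1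
  obtain ⟨u0, hu0, hpu0⟩ := hpS (e 0) he0Q
  obtain ⟨u5, hu5, hpu5⟩ := hpS (e 5) he5Q
  have hseg0 : e 0 ∈ openSegment ℝ (X 0) (X 1) := (he1 0 (by omega)).2
  have hseg5 : e 5 ∈ openSegment ℝ (X 0) (X 5) := seg_symm (he1 5 (by omega)).2
  have hne : ∀ x ∈ R, ∀ k, k < 6 → x ≠ X k := by
    rintro x hx k hk rfl
    exact ((hR _).1 hx).2 (hXa k hk)
  have he0R := (he1 0 (by omega)).1
  have he5R := (he1 5 (by omega)).1
  have hu0pos : 0 < u0 := by
    rcases Nat.eq_zero_or_pos u0 with h | h
    · exfalso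
      rw [h, hp0] at hpu0
      exact hne _ he0R 0 (by omega) hpu0.symm
    · exact h
  have hu5pos : 0 < u5 := by
    rcases Nat.eq_zero_or_pos u5 with h | h
    · exfalso
      rw [h, hp0] at hpu5
      exact hne _ he5R 0 (by omega) hpu5.symm
    · exact h
  have ht1 := ht 1 (by omega)
  have ht5 := ht 5 (by omega)
  have hfirst : ∀ i, 0 < i → i < n → p i ≠ e 0 → p i ≠ X 1 → t 1 < i ∧ u0 < i := by
    intro i hi0 hi h1 h2
    have h3 := hleft1 i hi0 hi h1 h2
    constructor
    · refine hord _ _ (htpos 1 (by omega) (by omega)) ht1.1 hi0 hi ?_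
      rw [ht1.2, hp0]
      exact h3
    · refine hord _ _ hu0pos hu0 hi0 hi ?_
      rw [hpu0, hp0]
      obtain ⟨s, hs, h⟩ := D_seg hseg0 (p i)
      rw [h]
      exact mul_pos hs h3
  have hlast : ∀ i, 0 < i → i < n → p i ≠ e 5 → p i ≠ X 5 → i < t 5 ∧ i < u5 := by
    intro i hi0 hi h1 h2
    have h3 := hleft5 i hi0 hi h1 h2
    constructor
    · refine hord _ _ hi0 hi (htpos 5 (by omega) (by omega)) ht5.1 ?_
      rw [ht5.2, hp0]
      exact h3
    · refine hord _ _ hi0 hi hu5pos hu5 ?_
      rw [hpu5, hp0]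
      obtain ⟨s, hs, h⟩ := D_seg hseg5 (p i)
      rw [D_swap, h, ← mul_neg, ← D_swap]
      exact mul_pos hs h3
  have hu0t1 : u0 < t 1 := by
    rcases lt_trichotomy u0 (t 1) with h | h | h
    · exact h
    · exfalso
      rw [h, ht1.2] at hpu0
      exact hne _ he0R 1 (by omega) hpu0.symm
    · exfalso
      have h1 := hpR (t 1) u0 (htpos 1 (by omega) (by omega)) h hu0
      rw [hp0, ht1.2, hpu0] at h1
      have h2 : D (X 0) (X 1) (e 0) = 0 := (he3 0 (by omega)).1
      rcases h1 with h1 | h1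
      · rw [h2] at h1
        exact lt_irrefl _ h1
      · exact seg_asymm h01 hseg0 h1.2
  have hu5t5 : u5 < t 5 := by
    rcases lt_trichotomy u5 (t 5) with h | h | h
    · exact h
    · exfalso
      rw [h, ht5.2] at hpu5
      exact hne _ he5R 5 (by omega) hpu5.symm
    · exfalso
      have h1 := hpR (t 5) u5 (htpos 5 (by omega) (by omega)) h hu5
      rw [hp0, ht5.2, hpu5] at h1
      have h2 : D (X 5) (X 0) (e 5) = 0 := (he3 5 (by omega)).1
      have h3 : D (X 0) (X 5) (e 5) = 0 := by
        rw [D_rot, D_swap, h2, neg_zero]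
      rcases h1 with h1 | h1
      · rw [h3] at h1
        exact lt_irrefl _ h1
      · exact seg_asymm h05 hseg5 h1.2
  have hu01 : u0 = 1 := by
    by_contra h
    have h1 : p 1 ≠ e 0 := fun h' => h (hpI _ _ hu0 (by omega) (by rw [hpu0, h']))
    have h2 : p 1 ≠ X 1 := by
      intro h'
      have := hpI _ _ ht1.1 (show 1 < n by omega) (by rw [ht1.2, h'])
      omega
    have := (hfirst 1 (by omega) (by omega) h1 h2).2
    omega
  have ht12 : t 1 = 2 := by
    by_contra h
    have h1 : p 2 ≠ e 0 := by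
      intro h'
      have := hpI _ _ hu0 (show 2 < n by omega) (by rw [hpu0, h'])
      omega
    have h2 : p 2 ≠ X 1 := fun h' => h (hpI _ _ ht1.1 (by omega) (by rw [ht1.2, h']))
    have := (hfirst 2 (by omega) (by omega) h1 h2).1
    omega
  have ht5n : t 5 = n - 1 := by
    by_contra h
    have h1 : p (n - 1) ≠ e 5 := by
      intro h'
      have := hpI _ _ hu5 (show n - 1 < n by omega) (by rw [hpu5, h'])
      have := ht5.1
      omega
    have h2 : p (n - 1) ≠ X 5 := fun h' => h (hpI _ _ ht5.1 (by omega) (by rw [ht5.2, h']))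
    have := (hlast (n - 1) (by omega) (by omega) h1 h2).1
    omega
  have hu5n : u5 = n - 2 := by
    by_contra h
    have h1 : p (n - 2) ≠ e 5 := fun h' => h (hpI _ _ hu5 (by omega) (by rw [hpu5, h']))
    have h2 : p (n - 2) ≠ X 5 := by
      intro h'
      have := hpI _ _ ht5.1 (show n - 2 < n by omega) (by rw [ht5.2, h'])
      omega
    have := (hlast (n - 2) (by omega) (by omega) h1 h2).2
    omega
  have hp1 : p 1 = e 0 := by rw [← hpu0, hu01]
  have hp2 : p 2 = X 1 := by rw [← ht1.2, ht12]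
  have hpn1 : p (n - 1) = X 5 := by rw [← ht5.2, ht5n]
  have hpn2 : p (n - 2) = e 5 := by rw [← hpu5, hu5n]
  refine
    { b := hB
      n7 := hn7
      c0 := hcol0
      k1 := hcolR 1 (by omega) (by rw [hp1]; exact he0R)
      k2 := by rw [← ht12]; exact hcolt 1 (by omega)
      z2 := ?_
      l1 := by rw [← ht5n]; exact hcolt 5 (by omega)
      l2 := hcolR (n - 2) (by omega) (by rw [hpn2]; exact he5R)
      zl := ?_
      kz := ?_
      zk := ?_
      cv := ?_
      ins := ?_
      cnt := ?_ }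
  · rw [hp0, hp1, hp2]
    have h2 : D (X 0) (X 1) (e 0) = 0 := (he3 0 (by omega)).1
    rw [D_swap, h2, neg_zero]
  · rw [hp0, hpn1, hpn2]
    have h2 : D (X 5) (X 0) (e 5) = 0 := (he3 5 (by omega)).1
    rw [← D_rot, h2]
  · intro j hj hjn hjc
    have h1 := (hB.blk 0 j (by omega) hjn).1 (by rw [hcol0, hjc])
    obtain ⟨m, hm0, hmj, hm⟩ := h1
    have hmj' : m = j - 1 := by
      by_contra h
      have := hB.radz m j hm0 (by omega) hjn
      rw [hm] at this
      exact lt_irrefl _ this
    rw [hmj'] at hm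
    refine ⟨?_, hm⟩
    intro hc
    obtain ⟨k, hk, hk'⟩ := hcol j hjn hjc
    obtain ⟨l, hl, hl'⟩ := hcol (j - 1) (by omega) hc
    have hl0 : 0 < l := by
      rcases Nat.eq_zero_or_pos l with h | h
      · rw [h, ht0] at hl'
        omega
      · exact h
    have hlk : l < k := by
      rcases lt_trichotomy l k with h | h | h
      · exact h
      · rw [h] at hl'
        omega
      · have := htmono k l h hl
        omega
    have h3 := hD 0 l k hl0 hlk hk
    rw [hl', hk', hp0, (ht l hl).2, (ht k hk).2] at hm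
    rw [hm] at h3
    exact lt_irrefl _ h3
  · intro j hj hjn hz
    have h1 := (hB.blk 0 j (by omega) hjn).2 ⟨j - 1, by omega, by omega, hz⟩
    rw [← h1, hcol0]
  · intro i j l hi hij hjl hln hic hjc hlc
    obtain ⟨k1, hk1, rfl⟩ := hcol i (by omega) hic
    obtain ⟨k2, hk2, rfl⟩ := hcol j (by omega) hjc
    obtain ⟨k3, hk3, rfl⟩ := hcol l hln hlc
    have hlt : ∀ k l, k < 6 → l < 6 → t k < t l → k < l := by
      intro k l hk hl h
      rcases lt_trichotomy k l with h' | h' | h'
      · exact h'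
      · rw [h'] at h
        exact absurd h (lt_irrefl _)
      · have := htmono l k h' hk
        omega
    rw [(ht k1 hk1).2, (ht k2 hk2).2, (ht k3 hk3).2]
    exact hD k1 k2 k3 (hlt _ _ hk1 hk2 hij) (hlt _ _ hk2 hk3 hjl) hk3
  · intro q hq hqn
    by_cases hc1 : col q = 0
    · exact Or.inl hc1
    by_cases hc2 : col (q + 1) = 0
    · exact Or.inr (Or.inl hc2)
    refine Or.inr (Or.inr ?_)
    have hqne : ∀ k, k < 6 → q ≠ t k := fun k hk h => hc1 (by rw [h]; exact hcolt k hk)
    have hq1 : q ≠ 1 := by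
      rintro rfl
      apply hc2
      rw [show 1 + 1 = t 1 by rw [ht12]]
      exact hcolt 1 (by omega)
    have hqt1 : t 1 < q := by
      have := hqne 1 (by omega)
      omega
    have hqt5 : q < t 5 := by
      have := hqne 5 (by omega)
      omega
    have key : ∃ l, 1 ≤ l ∧ l < 5 ∧ t l < q ∧ q < t (l + 1) := by
      have h2 := hqne 2 (by omega)
      have h3 := hqne 3 (by omega)
      have h4 := hqne 4 (by omega)
      rcases lt_or_gt_of_ne h2 with h | h
      · exact ⟨1, by omega, by omega, hqt1, h⟩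
      rcases lt_or_gt_of_ne h3 with h' | h'
      · exact ⟨2, by omega, by omega, h, h'⟩
      rcases lt_or_gt_of_ne h4 with h'' | h''
      · exact ⟨3, by omega, by omega, h', h''⟩
      · exact ⟨4, by omega, by omega, h'', hqt5⟩
    obtain ⟨l, hl1, hl5, hl, hl'⟩ := key
    have htl : 2 ≤ t l := by
      rcases Nat.eq_or_lt_of_le hl1 with h | h
      · rw [← h, ht12]
      · have := htmono 1 l h (by omega)
        omega
    refine ⟨t l, t (l + 1), htl, hl, hl', (ht (l + 1) (by omega)).1, hcolt l (by omega),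
      hcolt (l + 1) (by omega), ?_⟩
    rw [(ht l (by omega)).2, (ht (l + 1) (by omega)).2]
    have h1 := ((hQ (p q)).1 (hpQ q (by omega))).2 l (by omega)
    rw [Nat.mod_eq_of_lt (show l + 1 < 6 by omega)] at h1
    rw [D_swap]
    linarith
  · have hset : (Finset.range n).filter (fun i => col i = 0) = (Finset.range 6).image t := by
      ext i
      simp only [Finset.mem_filter, Finset.mem_range, Finset.mem_image]
      constructor
      · rintro ⟨h1, h2⟩
        obtain ⟨k, hk, h⟩ := hcol i h1 h2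
        exact ⟨k, hk, h.symm⟩
      · rintro ⟨k, hk, rfl⟩
        exact ⟨(ht k hk).1, hcolt k hk⟩
    rw [hset, Finset.card_image_of_injOn, Finset.card_range]
    intro k hk l hl h
    simp only [Finset.coe_range, Set.mem_Iio] at hk hl
    rcases lt_trichotomy k l with h' | h' | h'
    · have := htmono k l h' hl
      omega
    · exact h'
    · have := htmono l k h' hk
      omega

end Pool.BK5
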