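import Pool.Agent.BK5.StmtsG

/-!
MP_70b73c_co, 5-blocked sets, C4: a hexagon with vertices in the layers has an inner point.
-/

set_option autoImplicit false

namespace Pool.BK5

theorem t_HexIn (hSep : S_Sep) (hPoly : S_Poly) : S_HexIn := by
  intro S H i I j J U hC X hX hcX
  have hmem : ∀ k, k < 6 → X k ∈ S := by
    intro k hk
    rcases hX k hk with ⟨a, ha, h⟩ | ⟨a, ha, h⟩ | ⟨a, ha, h⟩ | h
    · rw [h]; exact hC.hH a ha
    · rw [h]; exact (hC.hI a ha).1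
    · rw [h]; exact (hC.hJ a ha).1
    · exact (hC.hU _ h).1
  have hex : ∃ s ∈ S, Ins 6 X s := by
    by_contra hne
    apply hC.noHex
    refine ⟨X, hmem, hcX, ?_⟩
    intro s hs hin
    exact hne ⟨s, hs, hin⟩
  obtain ⟨s, hs, hin⟩ := hex
  have hH : Ins 9 H s := by
    intro k hk
    have hP := hPoly 9 H (by norm_num) hC.cH k k hk hk
    refine (hSep 6 X s (H k) (H ((k + 1) % 9)) hP.2.2 (by norm_num) hin).1 ?_
    intro l hl
    rcases hX l hl with ⟨a, ha, h⟩ | ⟨a, ha, h⟩ | ⟨a, ha, h⟩ | h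
    · rw [h]; exact (hPoly 9 H (by norm_num) hC.cH k a hk ha).2.1
    · rw [h]; exact ((hC.hI a ha).2 k hk).le
    · rw [h]; exact ((hC.hJ a ha).2 k hk).le
    · exact ((hC.hU _ h).2 k hk).le
  rcases hC.all s hs hH with ⟨k, hk, h⟩ | ⟨k, hk, h⟩ | h
  · exact Or.inl ⟨k, hk, h ▸ hin⟩
  · exact Or.inr (Or.inl ⟨k, hk, h ▸ hin⟩)
  · exact Or.inr (Or.inr ⟨s, h, hin⟩)

end Pool.BK5
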