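import Pool.Agent.BK5.StmtsB

/-!
MP_70b73c_co, 5-blocked sets, module HexR: the hexagon region.
-/

set_option autoImplicit false

namespace Pool.BK5

namespace HexR

theorem D_rot (a b c : Pt) : D a b c = D b c a := by
  unfold D
  ring

theorem D_self1 (a b : Pt) : D a b a = 0 := by
  unfold D
  ring

theorem D_self2 (a b : Pt) : D a b b = 0 := by
  unfold D
  ring

/-- `D` is affine in the last argument. -/
theorem D_seg (a b v w x : Pt) (h : x ∈ openSegment ℝ v w) :
    ∃ s t : ℝ, 0 < s ∧ 0 < t ∧ D a b x = s * D a b v + t * D a b w := by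
  obtain ⟨s, t, hs, ht, hst, rfl⟩ := h
  refine ⟨s, t, hs, ht, ?_⟩
  have hs' : s = 1 - t := by linarith
  subst hs'
  unfold D
  simp only [Prod.fst_add, Prod.snd_add, Prod.smul_fst, Prod.smul_snd, smul_eq_mul]
  ring

/-- Two non parallel lines meet in one point. -/
theorem meet {A B C v : Pt} (h : D A B C ≠ 0) (h1 : D A B v = 0) (h2 : D B C v = 0) : v = B := by
  have e1 : (v.1 - B.1) * D A B C = 0 := by
    have : (v.1 - B.1) * D A B C = (C.1 - B.1) * D A B v - (B.1 - A.1) * D B C v := by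
      unfold D
      ring
    rw [this, h1, h2]
    ring
  have e2 : (v.2 - B.2) * D A B C = 0 := by
    have : (v.2 - B.2) * D A B C = (C.2 - B.2) * D A B v - (B.2 - A.2) * D B C v := by
      unfold D
      ring
    rw [this, h1, h2]
    ring
  have e3 := (mul_eq_zero.1 e1).resolve_right h
  have e4 := (mul_eq_zero.1 e2).resolve_right h
  exact Prod.ext (by linarith) (by linarith)

/-- The vertices of a convex hexagon lie on the left of the edges. -/
theorem edge_pos {X : ℕ → Pt} (h : Cv 6 X) (l k : ℕ) (hl : l < 6) (hk : k < 6) (h1 : k ≠ l)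
    (h2 : k ≠ (l + 1) % 6) : 0 < D (X l) (X ((l + 1) % 6)) (X k) := by
  by_cases hl5 : l = 5
  · subst hl5
    have h3 : (5 + 1) % 6 = 0 := rfl
    rw [h3] at h2 ⊢
    have := h 0 k 5 (by omega) (by omega) (by omega)
    rwa [D_rot (X 5) (X 0) (X k)]
  · have h3 : (l + 1) % 6 = l + 1 := Nat.mod_eq_of_lt (by omega)
    rw [h3] at h2 ⊢
    rcases Nat.lt_or_ge k l with h4 | h4
    · have := h k l (l + 1) h4 (by omega) (by omega)
      rwa [← D_rot (X k) (X l) (X (l + 1))]
    · exact h l (l + 1) k (by omega) (by omega) (by omega)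

theorem edge_nonneg {X : ℕ → Pt} (h : Cv 6 X) (l k : ℕ) (hl : l < 6) (hk : k < 6) :
    0 ≤ D (X l) (X ((l + 1) % 6)) (X k) := by
  by_cases h1 : k = l
  · rw [h1, D_self1]
  · by_cases h2 : k = (l + 1) % 6
    · rw [h2, D_self2]
    · exact (edge_pos h l k hl hk h1 h2).le

theorem X_inj {X : ℕ → Pt} (h : Cv 6 X) (k l : ℕ) (hk : k < 6) (hl : l < 6) (hkl : X k = X l) :
    k = l := by
  by_contra hne
  rcases Nat.lt_or_gt_of_ne hne with h1 | h1
  · by_cases h2 : l = (k + 1) % 6
    · -- use a third vertex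
      obtain ⟨m, hm, hm1, hm2⟩ : ∃ m, m < 6 ∧ m ≠ k ∧ m ≠ l := by
        by_cases a0 : k ≠ 0 ∧ l ≠ 0
        · exact ⟨0, by omega, by omega, by omega⟩
        · by_cases a1 : k ≠ 1 ∧ l ≠ 1
          · exact ⟨1, by omega, by omega, by omega⟩
          · exact ⟨2, by omega, by omega, by omega⟩
      have h3 := edge_pos h k m hk hm hm1 (by rw [← h2]; exact hm2)
      rw [← h2, hkl] at h3
      have : D (X l) (X l) (X m) = 0 := by
        unfold D
        ring
      linarith
    · have h3 := edge_pos h k l hk hl (by omega) h2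
      rw [← hkl, D_self1] at h3
      exact lt_irrefl _ h3
  · by_cases h2 : k = (l + 1) % 6
    · obtain ⟨m, hm, hm1, hm2⟩ : ∃ m, m < 6 ∧ m ≠ k ∧ m ≠ l := by
        by_cases a0 : k ≠ 0 ∧ l ≠ 0
        · exact ⟨0, by omega, by omega, by omega⟩
        · by_cases a1 : k ≠ 1 ∧ l ≠ 1
          · exact ⟨1, by omega, by omega, by omega⟩
          · exact ⟨2, by omega, by omega, by omega⟩
      have h3 := edge_pos h l m hl hm hm2 (by rw [← h2]; exact hm1)
      rw [← h2, hkl] at h3
      have : D (X l) (X l) (X m) = 0 := by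
        unfold D
        ring
      linarith
    · have h3 := edge_pos h l k hl hk (by omega) h2
      rw [hkl, D_self1] at h3
      exact lt_irrefl _ h3

/-- Colours different from `a` can be renamed. -/
theorem recolour (c : Pt → Fin 5) (a : Fin 5) :
    ∃ c' : Pt → Fin 4, ∀ v w, c v ≠ a → c w ≠ a → (c' v = c' w ↔ c v = c w) := by
  classical
  refine ⟨fun x => if h : c x ≠ a then (finSuccAboveEquiv a).symm ⟨c x, h⟩ else 0, ?_⟩
  intro v w hv hw
  simp only [hv, hw, ne_eq, not_false_eq_true, dite_true]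
  constructor
  · intro h
    have h2 := (finSuccAboveEquiv a).symm.injective h
    exact congrArg Subtype.val h2
  · intro h
    congr 1
    exact Subtype.ext h

end HexR

open HexR in
theorem t_HexR (hNo4 : S_No4) (hCl3 : S_Cl3) (hConv : S_Conv) : S_HexR := by
  classical
  intro P c a X hB hX hC hI
  obtain ⟨Q, memQ⟩ : ∃ Q : Finset Pt, ∀ s, s ∈ Q ↔
      s ∈ P ∧ ∀ k, k < 6 → 0 ≤ D (X k) (X ((k + 1) % 6)) s :=
    ⟨P.filter (fun s => ∀ k, k < 6 → 0 ≤ D (X k) (X ((k + 1) % 6)) s), fun s => by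
      simp only [Finset.mem_filter]⟩
  obtain ⟨R, hR⟩ : ∃ R : Finset Pt, R = Q.filter (fun s => c s ≠ a) := ⟨_, rfl⟩
  have memR : ∀ s, s ∈ R ↔ s ∈ Q ∧ c s ≠ a := by
    intro s
    rw [hR, Finset.mem_filter]
  have hmod : ∀ k, k < 6 → (k + 1) % 6 < 6 := fun k _ => Nat.mod_lt _ (by norm_num)
  have hmodne : ∀ k, k < 6 → k ≠ (k + 1) % 6 := by
    intro k hk
    by_cases h5 : k = 5
    · subst h5
      decide
    · rw [Nat.mod_eq_of_lt (by omega)]
      omega
  have hXne : ∀ k, k < 6 → X k ≠ X ((k + 1) % 6) := fun k hk he =>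
    hmodne k hk (X_inj hC k _ hk (hmod k hk) he)
  -- convexity
  have hconv : ∀ v ∈ Q, ∀ w ∈ Q, ∀ x ∈ P, x ∈ openSegment ℝ v w → x ∈ Q := by
    intro v hv w hw x hx hxs
    rw [memQ] at hv hw ⊢
    refine ⟨hx, fun k hk => ?_⟩
    obtain ⟨s, t, hs, ht, he⟩ := D_seg (X k) (X ((k + 1) % 6)) v w x hxs
    rw [he]
    have h1 := hv.2 k hk
    have h2 := hw.2 k hk
    positivity
  have hBQ : Blk 5 Q c := hConv 5 P Q c hB (fun s hs => ((memQ s).1 hs).1)
    (fun v hv w hw x hx _ hxs => hconv v hv w hw x hx hxs)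
  -- collinear points of the class
  have hcol : ∀ k, k < 6 → ∀ s ∈ P, c s = a → s ≠ X k → s ≠ X ((k + 1) % 6) →
      D (X k) (X ((k + 1) % 6)) s ≠ 0 := by
    intro k hk s hs hsa h1 h2
    have hg := hCl3 5 P c hB a {X k, X ((k + 1) % 6), s} (by
      intro x hx
      simp only [Finset.mem_insert, Finset.mem_singleton] at hx
      rcases hx with rfl | rfl | rfl
      · exact hX k hk
      · exact hX _ (hmod k hk)
      · exact ⟨hs, hsa⟩)
    exact hg (X k) (by simp) (X ((k + 1) % 6)) (by simp) s (by simp) (hXne k hk) (Ne.symm h1)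
      (Ne.symm h2)
  -- the points of colour `a`
  have hcls : ∀ s ∈ Q, c s = a → ∃ k, k < 6 ∧ s = X k := by
    intro s hs hsa
    by_contra hcon
    push Not at hcon
    obtain ⟨hsP, hsQ⟩ := (memQ s).1 hs
    apply hI s hsP hsa
    intro k hk
    rcases lt_or_eq_of_le (hsQ k hk) with h | h
    · exact h
    · exact absurd h.symm (hcol k hk s hsP hsa (hcon k hk) (hcon _ (hmod k hk)))
  have hXQ : ∀ k, k < 6 → X k ∈ Q := fun k hk =>
    (memQ _).2 ⟨(hX k hk).1, fun l hl => edge_nonneg hC l k hl hk⟩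
  -- the vertices are extreme
  have hext : ∀ k, k < 6 → ∀ v ∈ Q, ∀ w ∈ Q, X k ∈ openSegment ℝ v w → v = X k := by
    intro k hk v hv w hw hxs
    have hv' := ((memQ v).1 hv).2
    have hw' := ((memQ w).1 hw).2
    obtain ⟨j, hj, hjk⟩ : ∃ j, j < 6 ∧ (j + 1) % 6 = k := by
      by_cases h0 : k = 0
      · exact ⟨5, by omega, by omega⟩
      · exact ⟨k - 1, by omega, by rw [Nat.sub_add_cancel (by omega)]; exact Nat.mod_eq_of_lt hk⟩
    have z1 : D (X j) (X k) v = 0 := by
      obtain ⟨s, t, hs, ht, he⟩ := D_seg (X j) (X k) v w (X k) hxs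
      have h1 := hv' j hj
      have h2 := hw' j hj
      rw [hjk] at h1 h2
      rw [D_self2] at he
      have h3 : 0 ≤ s * D (X j) (X k) v := mul_nonneg hs.le h1
      have h4 : 0 ≤ t * D (X j) (X k) w := mul_nonneg ht.le h2
      have h5 : s * D (X j) (X k) v = 0 := by linarith
      exact (mul_eq_zero.1 h5).resolve_left hs.ne'
    have z2 : D (X k) (X ((k + 1) % 6)) v = 0 := by
      obtain ⟨s, t, hs, ht, he⟩ := D_seg (X k) (X ((k + 1) % 6)) v w (X k) hxs
      have h1 := hv' k hk
      have h2 := hw' k hk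
      rw [D_self1] at he
      have h3 : 0 ≤ s * D (X k) (X ((k + 1) % 6)) v := mul_nonneg hs.le h1
      have h4 : 0 ≤ t * D (X k) (X ((k + 1) % 6)) w := mul_nonneg ht.le h2
      have h5 : s * D (X k) (X ((k + 1) % 6)) v = 0 := by linarith
      exact (mul_eq_zero.1 h5).resolve_left hs.ne'
    have hjk' : j ≠ k := by
      have := hmodne j hj
      rwa [hjk] at this
    have h6 : (k + 1) % 6 ≠ j := by
      intro h7
      rcases Nat.lt_or_ge k 5 with h8 | h8
      · rw [Nat.mod_eq_of_lt (by omega)] at h7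
        rcases Nat.lt_or_ge j 5 with h9 | h9
        · rw [Nat.mod_eq_of_lt (by omega)] at hjk
          omega
        · have : j = 5 := by omega
          subst this
          omega
      · have h9 : k = 5 := by omega
        subst h9
        have : j = 0 := by omega
        subst this
        omega
    have h7 : D (X j) (X k) (X ((k + 1) % 6)) ≠ 0 := by
      have := edge_pos hC j ((k + 1) % 6) hj (hmod k hk) h6 (by
        rw [hjk]
        exact (hmodne k hk).symm)
      rw [hjk] at this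
      exact this.ne'
    exact meet h7 z1 z2
  -- the number of points
  have hcard : Q.card = R.card + 6 := by
    have h1 : (Q.filter (fun s => c s ≠ a)).card + (Q.filter (fun s => ¬ c s ≠ a)).card = Q.card :=
      Finset.card_filter_add_card_filter_not _
    have h2 : Q.filter (fun s => ¬ c s ≠ a) = (Finset.range 6).image X := by
      ext s
      rw [Finset.mem_filter, Finset.mem_image]
      constructor
      · rintro ⟨hs, hsa⟩
        rw [not_not] at hsa
        obtain ⟨k, hk, rfl⟩ := hcls s hs hsa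
        exact ⟨k, Finset.mem_range.2 hk, rfl⟩
      · rintro ⟨k, hk, rfl⟩
        rw [Finset.mem_range] at hk
        exact ⟨hXQ k hk, not_not.2 (hX k hk).2⟩
    have h3 : ((Finset.range 6).image X).card = 6 := by
      rw [Finset.card_image_of_injOn, Finset.card_range]
      intro k hk l hl h
      rw [Finset.mem_coe, Finset.mem_range] at hk hl
      exact X_inj hC k l hk hl h
    rw [h2, h3] at h1
    rw [hR]
    omega
  -- `R` is blocked
  have hBR : ∃ c' : Pt → Fin 4, Blk 4 R c' := by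
    obtain ⟨c', hc'⟩ := recolour c a
    refine ⟨c', fun v hv w hw hvw => ?_⟩
    obtain ⟨hvQ, hva⟩ := (memR v).1 hv
    obtain ⟨hwQ, hwa⟩ := (memR w).1 hw
    rw [hc' v w hva hwa, hBQ v hvQ w hwQ hvw]
    constructor
    · rintro ⟨x, hx, hxs⟩
      refine ⟨x, (memR x).2 ⟨hx, ?_⟩, hxs⟩
      intro hxa
      obtain ⟨k, hk, rfl⟩ := hcls x hx hxa
      have := hext k hk v hvQ w hwQ hxs
      rw [this] at hva
      exact hva (hX k hk).2
    · rintro ⟨x, hx, hxs⟩
      exact ⟨x, ((memR x).1 hx).1, hxs⟩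
  -- the blockers on the edges
  have hex : ∀ k, k < 6 → ∃ x, x ∈ P ∧ x ∈ openSegment ℝ (X k) (X ((k + 1) % 6)) := by
    intro k hk
    have h1 := (hB (X k) (hX k hk).1 (X ((k + 1) % 6)) (hX _ (hmod k hk)).1 (hXne k hk)).1
      (by rw [(hX k hk).2, (hX _ (hmod k hk)).2])
    obtain ⟨x, hx, hxs⟩ := h1
    exact ⟨x, hx, hxs⟩
  choose! e he using hex
  have hDe : ∀ k, k < 6 → D (X k) (X ((k + 1) % 6)) (e k) = 0 := by
    intro k hk
    obtain ⟨s, t, _, _, hE⟩ := D_seg (X k) (X ((k + 1) % 6)) _ _ _ (he k hk).2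
    rw [hE, D_self1, D_self2]
    ring
  have hene1 : ∀ k, k < 6 → e k ≠ X k := by
    intro k hk h
    have h1 := (he k hk).2
    rw [h, left_mem_openSegment_iff] at h1
    exact hXne k hk h1
  have hene2 : ∀ k, k < 6 → e k ≠ X ((k + 1) % 6) := by
    intro k hk h
    have h1 := (he k hk).2
    rw [h, right_mem_openSegment_iff] at h1
    exact hXne k hk h1
  have heQ : ∀ k, k < 6 → e k ∈ Q := fun k hk =>
    hconv _ (hXQ k hk) _ (hXQ _ (hmod k hk)) _ (he k hk).1 (he k hk).2
  have heR : ∀ k, k < 6 → e k ∈ R := by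
    intro k hk
    refine (memR _).2 ⟨heQ k hk, fun h => ?_⟩
    exact hcol k hk (e k) (he k hk).1 h (hene1 k hk) (hene2 k hk) (hDe k hk)
  refine ⟨Q, R, memQ, hBQ, hcls, memR, hcard, hBR, e, ?_, ?_, ?_⟩
  · exact fun k hk => ⟨heR k hk, (he k hk).2⟩
  · intro k l hk hl hkl
    by_contra hne
    obtain ⟨s, t, hs, ht, hE⟩ := D_seg (X l) (X ((l + 1) % 6)) _ _ _ (he k hk).2
    rw [hkl, hDe l hl] at hE
    have h1 := edge_nonneg hC l k hl hk
    have h2 := edge_nonneg hC l ((k + 1) % 6) hl (hmod k hk)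
    by_cases h3 : k = (l + 1) % 6
    · -- then the next vertex is strictly left of the edge `l`
      have h4 : (k + 1) % 6 ≠ l := by
        intro h5
        have := hmodne k hk
        omega
      have h5 := edge_pos hC l ((k + 1) % 6) hl (hmod k hk) h4 (by
        rw [← h3]
        exact (hmodne k hk).symm)
      have h6 : 0 < t * D (X l) (X ((l + 1) % 6)) (X ((k + 1) % 6)) := mul_pos ht h5
      have h7 : 0 ≤ s * D (X l) (X ((l + 1) % 6)) (X k) := mul_nonneg hs.le h1
      linarith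
    · have h5 := edge_pos hC l k hl hk hne h3
      have h6 : 0 < s * D (X l) (X ((l + 1) % 6)) (X k) := mul_pos hs h5
      have h7 : 0 ≤ t * D (X l) (X ((l + 1) % 6)) (X ((k + 1) % 6)) := mul_nonneg ht.le h2
      linarith
  · intro k hk
    refine ⟨hDe k hk, fun x hx hxe => ?_⟩
    obtain ⟨hxQ, hxa⟩ := (memR x).1 hx
    obtain ⟨hxP, hx'⟩ := (memQ x).1 hxQ
    rcases lt_or_eq_of_le (hx' k hk) with h | h
    · exact h
    · exfalso
      have hx1 : X k ≠ x := by
        intro h1
        rw [← h1] at hxa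
        exact hxa (hX k hk).2
      have hx2 : X ((k + 1) % 6) ≠ x := by
        intro h1
        rw [← h1] at hxa
        exact hxa (hX _ (hmod k hk)).2
      exact hNo4 5 P c hB (X k) (hX k hk).1 (X ((k + 1) % 6)) (hX _ (hmod k hk)).1 (e k)
        (he k hk).1 x hxP (hXne k hk) (Ne.symm (hene1 k hk)) hx1 (Ne.symm (hene2 k hk)) hx2
        (Ne.symm hxe) (hDe k hk) h.symm

end Pool.BK5
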