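import Pool.Agent.BK5.StmtsC

/-!
MP_70b73c_co, 5-blocked sets: a labelled hexagon contains a candidate.
-/

set_option autoImplicit false

namespace Pool.BK5

namespace Hid

theorem layR (hPoly : S_Poly) (m : ℕ) (X : ℕ → Pt) (q : ℕ) (A B : Pt) (hm : 3 ≤ m)
    (hC : Cv m X) (hq : q < m) (h0 : D A B (X q) = 0) (h1 : D A B (X ((q + 1) % m)) ≤ 0)
    (h2 : D A B (X ((q + m - 1) % m)) ≤ 0) (l : ℕ) (hl : l < m) : D A B (X l) ≤ 0 := by
  have hm0 : 0 < m := by omega
  have e1 : ((q + m - 1) % m + 1) % m = q := by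
    rcases Nat.eq_zero_or_pos q with h | h
    · subst h
      rw [Nat.zero_add, Nat.mod_eq_of_lt (by omega : m - 1 < m)]
      have : m - 1 + 1 = m := by omega
      rw [this, Nat.mod_self]
    · have h3 : (q + m - 1) % m = q - 1 := by
        have : q + m - 1 = (q - 1) + m := by omega
        rw [this, Nat.add_mod_right, Nat.mod_eq_of_lt (by omega)]
      rw [h3]
      have : q - 1 + 1 = q := by omega
      rw [this, Nat.mod_eq_of_lt hq]
  have ha : (q + 1) % m < m := Nat.mod_lt _ hm0
  have hb : (q + m - 1) % m < m := Nat.mod_lt _ hm0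
  have hne1 : (q + m - 1) % m ≠ q := by
    intro h
    rw [h] at e1
    rcases Nat.lt_or_ge (q + 1) m with h4 | h4
    · rw [Nat.mod_eq_of_lt h4] at e1
      omega
    · have : q + 1 = m := by omega
      rw [this, Nat.mod_self] at e1
      omega
  have hne2 : (q + m - 1) % m ≠ (q + 1) % m := by
    rcases Nat.eq_zero_or_pos q with h | h
    · subst h
      rw [Nat.zero_add, Nat.zero_add, Nat.mod_eq_of_lt (by omega : m - 1 < m),
        Nat.mod_eq_of_lt (by omega : 1 < m)]
      omega
    · have h3 : (q + m - 1) % m = q - 1 := by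
        have : q + m - 1 = (q - 1) + m := by omega
        rw [this, Nat.add_mod_right, Nat.mod_eq_of_lt (by omega)]
      rw [h3]
      rcases Nat.lt_or_ge (q + 1) m with h4 | h4
      · rw [Nat.mod_eq_of_lt h4]
        omega
      · have : q + 1 = m := by omega
        rw [this, Nat.mod_self]
        omega
  have d1 : 0 < D (X q) (X ((q + 1) % m)) (X ((q + m - 1) % m)) :=
    (hPoly m X hm hC q _ hq hb).1 hne1 hne2
  have d2 : 0 ≤ D (X ((q + m - 1) % m)) (X q) (X l) := by
    have := (hPoly m X hm hC ((q + m - 1) % m) l hb hl).2.1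
    rwa [e1] at this
  have d3 : 0 ≤ D (X q) (X ((q + 1) % m)) (X l) := (hPoly m X hm hC q l hq hl).2.1
  have key : D (X q) (X ((q + 1) % m)) (X ((q + m - 1) % m)) * (D A B (X l) - D A B (X q)) =
      D (X ((q + m - 1) % m)) (X q) (X l) * (D A B (X ((q + 1) % m)) - D A B (X q)) +
      D (X q) (X ((q + 1) % m)) (X l) * (D A B (X ((q + m - 1) % m)) - D A B (X q)) := by
    unfold D
    ring
  rw [h0, sub_zero, sub_zero, sub_zero] at key
  have k1 : D (X ((q + m - 1) % m)) (X q) (X l) * D A B (X ((q + 1) % m)) ≤ 0 :=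
    mul_nonpos_of_nonneg_of_nonpos d2 h1
  have k2 : D (X q) (X ((q + 1) % m)) (X l) * D A B (X ((q + m - 1) % m)) ≤ 0 :=
    mul_nonpos_of_nonneg_of_nonpos d3 h2
  by_contra hcon
  have hpos : 0 < D A B (X l) := lt_of_not_ge hcon
  have := mul_pos d1 hpos
  linarith

theorem D_left (A B : Pt) : D A B A = 0 := by unfold D; ring

theorem D_right (A B : Pt) : D A B B = 0 := by unfold D; ring

end Hid

open Hid in
theorem t_Hid (hSep : S_Sep) (hPoly : S_Poly) : S_Hid := by
  intro i j m p Hd x hM hHd hx hCv hK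
  refine hM.hex (fun k => p (x k)) (fun k hk => Or.inl ⟨x k, hx k hk, rfl⟩) hCv ?_
  intro w hw hIns
  have hlay : Cv (zN i j m) (fun k => p (zS i m + k)) := by
    unfold zN zS
    by_cases h : m = 5
    · rw [if_pos h, if_pos h]
      exact hM.cI
    · rw [if_neg h, if_neg h]
      exact hM.cJ
  have hInsL : Ins (zN i j m) (fun k => p (zS i m + k)) w := hM.hin w hw
  -- all layer vertices on the right of an edge of the hexagon
  have hcase2 : 3 ≤ zN i j m → ∀ g, g < 6 → (∀ r, r < zN i j m →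
      D (p (x g)) (p (x ((g + 1) % 6))) (p (zS i m + r)) ≤ 0) → False := by
    intro h3 g hg hr
    have hne : p (x g) ≠ p (x ((g + 1) % 6)) :=
      (hPoly 6 (fun k => p (x k)) (by norm_num) hCv g 0 hg (by norm_num)).2.2
    have h4 := (hSep (zN i j m) (fun k => p (zS i m + k)) w (p (x g)) (p (x ((g + 1) % 6))) hne
      (by omega) hInsL).2.1 hr
    exact absurd (hIns g hg) (not_lt.2 h4.le)
  rcases hK with hK | ⟨h3, g, hg, hK⟩ | ⟨h3, g, hg, hK⟩ | ⟨h3, g, q, hg, hq, hv, hK1, hK2⟩ |
    ⟨h3, hK⟩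
  · rw [hHd hK] at hw
    exact absurd hw (Finset.notMem_empty w)
  · have hne : p (zS i m + g) ≠ p (zS i m + (g + 1) % zN i j m) :=
      (hPoly (zN i j m) (fun k => p (zS i m + k)) h3 hlay g 0 hg (by omega)).2.2
    have h4 := (hSep 6 (fun k => p (x k)) w _ _ hne (by norm_num) hIns).2.1 hK
    exact absurd (hInsL g hg) (not_lt.2 h4.le)
  · exact hcase2 h3 g hg hK
  · refine hcase2 h3 g hg fun r hr => ?_
    refine layR hPoly (zN i j m) (fun k => p (zS i m + k)) q _ _ h3 hlay hq ?_ hK1 hK2 r hr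
    rcases hv with hv | hv
    · rw [← hv]
      exact D_left _ _
    · rw [← hv]
      exact D_right _ _
  · obtain ⟨u1, u2⟩ := hM.uv h3
    have hne : p (9 + i + j) ≠ p (9 + i + j + 1) := by
      intro h
      rw [h] at u1
      unfold D at u1
      nlinarith
    have h4 := (hSep 6 (fun k => p (x k)) w _ _ hne (by norm_num) hIns).2.1 hK
    exact absurd (u2 w hw) (not_le.2 h4)

end Pool.BK5
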