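import Pool.Agent.BK5.StmtsG

/-!
MP_70b73c_co, 5-blocked sets: existence of the convex hull (A9), by gift wrapping around a point `a`
which is strictly minimal in some direction.
-/

set_option autoImplicit false

namespace Pool.BK5.Hull

open Pool.BK5

theorem D_aab (x y : Pt) : D x x y = 0 := by
  unfold D; ring

theorem D_aba (x y : Pt) : D x y x = 0 := by
  unfold D; ring

theorem D_abb (x y : Pt) : D x y y = 0 := by
  unfold D; ring

theorem D_swap (x y z : Pt) : D y x z = -D x y z := by
  unfold D; ring

theorem D_swap' (x y z : Pt) : D x z y = -D x y z := by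
  unfold D; ring

theorem D_cyc (x y z : Pt) : D y z x = D x y z := by
  unfold D; ring

/-- Barycentric identity. -/
theorem D_bary (a b c w A B : Pt) :
    D a b c * D A B w = D b c w * D A B a + D c a w * D A B b + D a b w * D A B c := by
  unfold D; ring

/-- First point in angular order. -/
theorem exists_first (hTrans : S_Trans) (o : Pt) (α β : ℝ) (W : Finset Pt) (hne : W.Nonempty)
    (hpos : ∀ x ∈ W, 0 < α * (x.1 - o.1) + β * (x.2 - o.2))
    (hgp : ∀ x ∈ W, ∀ y ∈ W, x ≠ y → D o x y ≠ 0) :
    ∃ u ∈ W, ∀ w ∈ W, w ≠ u → 0 < D o u w := by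
  classical
  induction W using Finset.induction_on with
  | empty => exact absurd hne (by simp)
  | insert b W hb ih =>
    by_cases hW : W.Nonempty
    · obtain ⟨u, hu, hmin⟩ := ih hW (fun x hx => hpos x (Finset.mem_insert_of_mem hx))
        (fun x hx y hy => hgp x (Finset.mem_insert_of_mem hx) y (Finset.mem_insert_of_mem hy))
      have hbu : b ≠ u := fun h => hb (h ▸ hu)
      have h0 := hgp b (Finset.mem_insert_self _ _) u (Finset.mem_insert_of_mem hu) hbu
      rcases lt_or_gt_of_ne h0 with h | h
      · refine ⟨u, Finset.mem_insert_of_mem hu, fun w hw hwu => ?_⟩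
        rcases Finset.mem_insert.mp hw with rfl | hw
        · rw [D_swap']
          linarith
        · exact hmin w hw hwu
      · refine ⟨b, Finset.mem_insert_self _ _, fun w hw hwb => ?_⟩
        rcases Finset.mem_insert.mp hw with rfl | hw
        · exact absurd rfl hwb
        · by_cases hwu : w = u
          · rw [hwu]; exact h
          · exact (hTrans o b u w α β (hpos b (Finset.mem_insert_self _ _))
              (hpos u (Finset.mem_insert_of_mem hu)) (hpos w (Finset.mem_insert_of_mem hw))).1 h
              (hmin w hw hwu)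
    · rw [Finset.not_nonempty_iff_eq_empty] at hW
      subst hW
      refine ⟨b, Finset.mem_insert_self _ _, fun w hw hwb => ?_⟩
      rcases Finset.mem_insert.mp hw with rfl | hw
      · exact absurd rfl hwb
      · exact absurd hw (by simp)

/-- The chain starting at `v`. -/
theorem exists_chain (hTrans : S_Trans) (T : Finset Pt) (hT : GenP T) (a : Pt) (ha : a ∈ T)
    (α β : ℝ) (hpos : ∀ x ∈ T, x ≠ a → 0 < α * (x.1 - a.1) + β * (x.2 - a.2)) :
    ∀ (N : ℕ) (v : Pt), v ∈ T → v ≠ a → (T.filter fun w => 0 < D a v w).card ≤ N →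
      ∃ (n : ℕ) (g : ℕ → Pt), g 0 = v ∧ (∀ k, k ≤ n → g k ∈ T ∧ g k ≠ a) ∧
        (∀ k, 1 ≤ k → k ≤ n → 0 < D a v (g k)) ∧
        (∀ k, k < n → 0 < D a (g k) (g (k + 1))) ∧
        (∀ k, k < n → ∀ w ∈ T, 0 < D a (g k) w → w ≠ g (k + 1) → 0 < D (g k) (g (k + 1)) w) ∧
        (∀ w ∈ T, ¬0 < D a (g n) w) ∧ ((∃ w ∈ T, 0 < D a v w) → 1 ≤ n) := by
  intro N
  induction N with
  | zero =>
    intro v hv hva hN
    have hem : (T.filter fun w => 0 < D a v w) = ∅ := Finset.card_eq_zero.mp (by omega)
    have hno : ∀ w ∈ T, ¬0 < D a v w := by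
      intro w hw h
      have : w ∈ T.filter fun w => 0 < D a v w := Finset.mem_filter.mpr ⟨hw, h⟩
      rw [hem] at this
      exact absurd this (by simp)
    refine ⟨0, fun _ => v, rfl, fun k _ => ⟨hv, hva⟩, fun k h1 h2 => by omega,
      fun k hk => by omega, fun k hk => by omega, hno, fun ⟨w, hw, h⟩ => absurd h (hno w hw)⟩
  | succ N ih =>
    intro v hv hva hN
    by_cases hne : (T.filter fun w => 0 < D a v w).Nonempty
    · have hdist : ∀ x ∈ T.filter (fun w => 0 < D a v w), x ∈ T ∧ x ≠ a ∧ x ≠ v := by
        intro x hx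
        obtain ⟨hxT, hx⟩ := Finset.mem_filter.mp hx
        refine ⟨hxT, ?_, ?_⟩
        · rintro rfl
          rw [D_aba] at hx
          exact lt_irrefl _ hx
        · rintro rfl
          rw [D_abb] at hx
          exact lt_irrefl _ hx
      obtain ⟨u, hu, hmin⟩ := exists_first hTrans v (-(v.2 - a.2)) (v.1 - a.1)
        (T.filter fun w => 0 < D a v w) hne
        (by
          intro x hx
          have h := (Finset.mem_filter.mp hx).2
          have h2 : D a v x = -(v.2 - a.2) * (x.1 - v.1) + (v.1 - a.1) * (x.2 - v.2) := by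
            unfold D; ring
          rw [h2] at h
          exact h)
        (by
          intro x hx y hy hxy
          obtain ⟨hxT, -, hxv⟩ := hdist x hx
          obtain ⟨hyT, -, hyv⟩ := hdist y hy
          exact hT v hv x hxT y hyT (Ne.symm hxv) (Ne.symm hyv) hxy)
      obtain ⟨huT, hua, huv⟩ := hdist u hu
      have hvu : 0 < D a v u := (Finset.mem_filter.mp hu).2
      have htr : ∀ x ∈ T, x ≠ a → 0 < D a u x → 0 < D a v x := fun x hx hxa h =>
        (hTrans a v u x α β (hpos v hv hva) (hpos u huT hua) (hpos x hx hxa)).1 hvu h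
      have hcard : (T.filter fun w => 0 < D a u w).card ≤ N := by
        have hss : (T.filter fun w => 0 < D a u w) ⊂ (T.filter fun w => 0 < D a v w) := by
          rw [Finset.ssubset_iff_of_subset]
          · refine ⟨u, hu, fun h => ?_⟩
            have := (Finset.mem_filter.mp h).2
            rw [D_abb] at this
            exact lt_irrefl _ this
          · intro x hx
            obtain ⟨hxT, hx⟩ := Finset.mem_filter.mp hx
            have hxa : x ≠ a := by
              rintro rfl
              rw [D_aba] at hx
              exact lt_irrefl _ hx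
            exact Finset.mem_filter.mpr ⟨hxT, htr x hxT hxa hx⟩
        have := Finset.card_lt_card hss
        omega
      obtain ⟨n, g, hg0, hgT, hgW, hgA, hgC, hgE, -⟩ := ih u huT hua hcard
      refine ⟨n + 1, fun k => if k = 0 then v else g (k - 1), by simp, ?_, ?_, ?_, ?_, ?_,
        fun _ => by omega⟩
      · intro k hk
        by_cases h0 : k = 0
        · simp [h0, hv, hva]
        · simp only [h0, if_false]
          exact hgT (k - 1) (by omega)
      · intro k hk1 hk2
        have h0 : k ≠ 0 := by omega
        simp only [h0, if_false]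
        by_cases h1 : k = 1
        · subst h1
          simpa [hg0] using hvu
        · exact htr _ (hgT (k - 1) (by omega)).1 (hgT (k - 1) (by omega)).2
            (hgW (k - 1) (by omega) (by omega))
      · intro k hk
        by_cases h0 : k = 0
        · subst h0
          simpa [hg0] using hvu
        · have h1 : k + 1 ≠ 0 := by omega
          have h2 := hgA (k - 1) (by omega)
          rw [show k - 1 + 1 = k by omega] at h2
          simp only [h0, h1, if_false, Nat.add_sub_cancel]
          exact h2
      · intro k hk w hw hpw hne'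
        by_cases h0 : k = 0
        · subst h0
          simp only [if_true, Nat.zero_add, Nat.one_ne_zero, if_false, Nat.sub_self, hg0]
            at hpw hne' ⊢
          exact hmin w (Finset.mem_filter.mpr ⟨hw, hpw⟩) hne'
        · have h1 : k + 1 ≠ 0 := by omega
          have h2 := hgC (k - 1) (by omega) w hw
          rw [show k - 1 + 1 = k by omega] at h2
          simp only [h0, h1, if_false, Nat.add_sub_cancel] at hpw hne' ⊢
          exact h2 hpw hne'
      · intro w hw
        have h1 : n + 1 ≠ 0 := by omega
        simp only [h1, if_false, Nat.add_sub_cancel]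
        exact hgE w hw
    · rw [Finset.not_nonempty_iff_eq_empty] at hne
      have hno : ∀ w ∈ T, ¬0 < D a v w := by
        intro w hw h
        have : w ∈ T.filter fun w => 0 < D a v w := Finset.mem_filter.mpr ⟨hw, h⟩
        rw [hne] at this
        exact absurd this (by simp)
      refine ⟨0, fun _ => v, rfl, fun k _ => ⟨hv, hva⟩, fun k h1 h2 => by omega,
        fun k hk => by omega, fun k hk => by omega, hno, fun ⟨w, hw, h⟩ => absurd h (hno w hw)⟩

/-- A point which is strictly minimal in some direction. -/
theorem exists_extreme (T : Finset Pt) (hne : T.Nonempty) :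
    ∃ a ∈ T, ∃ α β : ℝ, ∀ x ∈ T, x ≠ a → 0 < α * (x.1 - a.1) + β * (x.2 - a.2) := by
  classical
  obtain ⟨K, hK⟩ := Infinite.exists_notMem_finset
    ((T ×ˢ T).image fun q : Pt × Pt => -(q.1.2 - q.2.2) / (q.1.1 - q.2.1))
  obtain ⟨a, ha, hmin⟩ := Finset.exists_min_image T (fun x => K * x.1 + x.2) hne
  refine ⟨a, ha, K, 1, fun x hx hxa => ?_⟩
  have h1 := hmin x hx
  have h2 : K * x.1 + x.2 ≠ K * a.1 + a.2 := by
    intro h
    by_cases h3 : x.1 = a.1
    · apply hxa
      rw [h3] at h
      exact Prod.ext h3 (by linarith)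
    · apply hK
      rw [Finset.mem_image]
      refine ⟨(x, a), Finset.mem_product.mpr ⟨hx, ha⟩, ?_⟩
      have h4 : x.1 - a.1 ≠ 0 := sub_ne_zero.mpr h3
      field_simp
      linarith
  have h3 : K * a.1 + a.2 < K * x.1 + x.2 := lt_of_le_of_ne h1 (Ne.symm h2)
  linarith

theorem inj_of_cv (m : ℕ) (f : ℕ → Pt) (hm : 3 ≤ m) (hcv : Cv m f) :
    ∀ k l, k < l → l < m → f k ≠ f l := by
  intro k l hkl hl heq
  by_cases h1 : l + 1 < m
  · have h := hcv k l (l + 1) hkl (by omega) h1
    rw [heq, D_aab] at h
    exact lt_irrefl _ h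
  · by_cases h2 : k = 0
    · have h := hcv k 1 l (by omega) (by omega) hl
      rw [heq, D_aba] at h
      exact lt_irrefl _ h
    · have h := hcv 0 k l (by omega) hkl hl
      rw [heq, D_abb] at h
      exact lt_irrefl _ h

/-- Between which vertices of the chain is `x`? -/
theorem exists_between (a x : Pt) (g : ℕ → Pt) (k : ℕ) (h0 : 0 < D a (g 0) x)
    (hk : ¬0 < D a (g k) x) : ∃ l, l < k ∧ 0 < D a (g l) x ∧ ¬0 < D a (g (l + 1)) x := by
  induction k with
  | zero => exact absurd h0 hk
  | succ k ih =>
    by_cases h : 0 < D a (g k) x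
    · exact ⟨k, by omega, h, hk⟩
    · obtain ⟨l, hl, h1, h2⟩ := ih h
      exact ⟨l, by omega, h1, h2⟩

theorem hull_big (hTrans : S_Trans) (hStar : S_Star) (T : Finset Pt) (hT : GenP T)
    (h3 : 3 ≤ T.card) : ∃ (m : ℕ) (f : ℕ → Pt), IsHull T m f := by
  classical
  obtain ⟨a, ha, α, β, hpos⟩ := exists_extreme T (Finset.card_pos.mp (by omega))
  have hRne : (T.erase a).Nonempty := Finset.card_pos.mp (by rw [Finset.card_erase_of_mem ha]; omega)
  obtain ⟨v, hv, hmin⟩ := exists_first hTrans a α β (T.erase a) hRne
    (fun x hx => hpos x (Finset.mem_of_mem_erase hx) (Finset.ne_of_mem_erase hx))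
    (fun x hx y hy hxy => hT a ha x (Finset.mem_of_mem_erase hx) y (Finset.mem_of_mem_erase hy)
      (Ne.symm (Finset.ne_of_mem_erase hx)) (Ne.symm (Finset.ne_of_mem_erase hy)) hxy)
  have hvT := Finset.mem_of_mem_erase hv
  have hva := Finset.ne_of_mem_erase hv
  have hmin' : ∀ w ∈ T, w ≠ a → w ≠ v → 0 < D a v w := fun w hw hwa hwv =>
    hmin w (Finset.mem_erase.mpr ⟨hwa, hw⟩) hwv
  obtain ⟨n, g, hg0, hgT, hgW, hgA, hgC, hgE, hn⟩ :=
    exists_chain hTrans T hT a ha α β hpos _ v hvT hva le_rfl
  have hn1 : 1 ≤ n := by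
    apply hn
    have hcard : 1 ≤ ((T.erase a).erase v).card := by
      rw [Finset.card_erase_of_mem hv, Finset.card_erase_of_mem ha]; omega
    obtain ⟨w, hw⟩ := Finset.card_pos.mp hcard
    have hwv := Finset.ne_of_mem_erase hw
    have hw' := Finset.mem_of_mem_erase hw
    exact ⟨w, Finset.mem_of_mem_erase hw', hmin' w (Finset.mem_of_mem_erase hw')
      (Finset.ne_of_mem_erase hw') hwv⟩
  set f : ℕ → Pt := fun k => if k = 0 then a else g (k - 1) with hf
  have hf0 : f 0 = a := by simp [hf]
  have hfs : ∀ k, f (k + 1) = g k := by intro k; simp [hf]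
  have hne_of : ∀ x y : Pt, 0 < D a x y → y ≠ x := by
    rintro x y h rfl
    rw [D_abb] at h
    exact lt_irrefl _ h
  -- consecutive turns
  have hturn : ∀ k, k + 1 < n → 0 < D (g k) (g (k + 1)) (g (k + 2)) := by
    intro k hk
    have h1 := hgA k (by omega)
    have h2 := hgA (k + 1) (by omega)
    have h3 : 0 < D a (g k) (g (k + 2)) :=
      (hTrans a (g k) (g (k + 1)) (g (k + 2)) α β
        (hpos _ (hgT k (by omega)).1 (hgT k (by omega)).2)
        (hpos _ (hgT (k + 1) (by omega)).1 (hgT (k + 1) (by omega)).2)
        (hpos _ (hgT (k + 2) (by omega)).1 (hgT (k + 2) (by omega)).2)).1 h1 h2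
    exact hgC k (by omega) _ (hgT (k + 2) (by omega)).1 h3 (hne_of _ _ h2)
  have hcv : Cv (n + 2) f := by
    apply hStar
    · intro k hk1 hk2
      obtain ⟨l, rfl⟩ : ∃ l, k = l + 1 := ⟨k - 1, by omega⟩
      rw [hf0, hfs l, hfs 0, hg0]
      exact hgW l (by omega) (by omega)
    · intro k hk1 hk2
      obtain ⟨l, rfl⟩ : ∃ l, k = l + 1 := ⟨k - 1, by omega⟩
      rw [hf0, hfs, hfs]
      exact hgA l (by omega)
    · intro k hk1 hk2
      obtain ⟨l, rfl⟩ : ∃ l, k = l + 1 := ⟨k - 1, by omega⟩
      rw [hfs, hfs, hfs]
      exact hturn l (by omega)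
  refine ⟨n + 2, f, ?_, ?_, hcv, fun h => by omega, ?_⟩
  · intro k hk
    rcases Nat.eq_zero_or_pos k with rfl | hk0
    · rw [hf0]; exact ha
    · obtain ⟨l, rfl⟩ : ∃ l, k = l + 1 := ⟨k - 1, by omega⟩
      rw [hfs]
      exact (hgT l (by omega)).1
  · intro k l hk hl heq
    rcases Nat.lt_trichotomy k l with h | h | h
    · exact absurd heq (inj_of_cv _ f (by omega) hcv k l h hl)
    · exact h
    · exact absurd heq.symm (inj_of_cv _ f (by omega) hcv l k h hk)
  · intro _ x hx
    by_cases hxf : ∃ k, k < n + 2 ∧ x = f k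
    · exact Or.inl hxf
    · right
      have hnf : ∀ k, k < n + 2 → x ≠ f k := fun k hk h => hxf ⟨k, hk, h⟩
      have hxa : x ≠ a := by have := hnf 0 (by omega); rwa [hf0] at this
      have hxg : ∀ k, k ≤ n → x ≠ g k := by
        intro k hk
        have := hnf (k + 1) (by omega)
        rwa [hfs] at this
      have hx0 : 0 < D a (g 0) x := by
        rw [hg0]
        exact hmin' x hx hxa (by have := hxg 0 (by omega); rwa [hg0] at this)
      intro k hk
      rcases Nat.eq_zero_or_pos k with rfl | hk0
      · rw [Nat.mod_eq_of_lt (by omega), hf0, hfs]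
        exact hx0
      · obtain ⟨l, rfl⟩ : ∃ l, k = l + 1 := ⟨k - 1, by omega⟩
        by_cases hln : l = n
        · subst hln
          rw [show (l + 1 + 1) % (l + 2) = 0 by rw [Nat.mod_self], hf0, hfs]
          have h1 := hgE x hx
          have h2 := hT a ha (g l) (hgT l le_rfl).1 x hx (Ne.symm (hgT l le_rfl).2)
            (Ne.symm hxa) (Ne.symm (hxg l le_rfl))
          rw [D_swap]
          have h3 : D a (g l) x < 0 := lt_of_le_of_ne (not_lt.mp h1) h2
          linarith
        · rw [Nat.mod_eq_of_lt (by omega), hfs, hfs]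
          by_cases hc : 0 < D a (g l) x
          · exact hgC l (by omega) x hx hc (hxg (l + 1) (by omega))
          · obtain ⟨r, hr, hr1, hr2⟩ := exists_between a x g l hx0 hc
            have h1 : 0 < D (g r) (g (r + 1)) x :=
              hgC r (by omega) x hx hr1 (hxg (r + 1) (by omega))
            have h2 : 0 < D (g (r + 1)) a x := by
              have h3 := hT a ha (g (r + 1)) (hgT (r + 1) (by omega)).1 x hx
                (Ne.symm (hgT (r + 1) (by omega)).2) (Ne.symm hxa)
                (Ne.symm (hxg (r + 1) (by omega)))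
              rw [D_swap]
              have h4 : D a (g (r + 1)) x < 0 := lt_of_le_of_ne (not_lt.mp hr2) h3
              linarith
            have h3 : 0 < D a (g r) (g (r + 1)) := hgA r (by omega)
            have h4 : 0 < D (g l) (g (l + 1)) a := by
              rw [D_cyc]
              exact hgA l (by omega)
            have h5 : 0 < D (g l) (g (l + 1)) (g r) := by
              have h6 := hcv (r + 1) (l + 1) (l + 2) (by omega) (by omega) (by omega)
              rw [hfs, hfs, show l + 2 = (l + 1) + 1 by omega, hfs] at h6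
              rw [D_cyc]
              exact h6
            have h6 : 0 ≤ D (g l) (g (l + 1)) (g (r + 1)) := by
              by_cases hrl : r + 1 = l
              · rw [hrl, D_aba]
              · have h7 := hcv (r + 2) (l + 1) (l + 2) (by omega) (by omega) (by omega)
                rw [show r + 2 = (r + 1) + 1 by omega, hfs, hfs,
                  show l + 2 = (l + 1) + 1 by omega, hfs] at h7
                rw [D_cyc]
                exact h7.le
            have h7 := D_bary a (g r) (g (r + 1)) x (g l) (g (l + 1))
            have h8 : 0 < D a (g r) (g (r + 1)) * D (g l) (g (l + 1)) x := by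
              rw [h7]
              have e1 := mul_pos h1 h4
              have e2 := mul_pos h2 h5
              have e3 := mul_nonneg hr1.le h6
              linarith
            exact (mul_pos_iff_of_pos_left h3).mp h8

end Pool.BK5.Hull

namespace Pool.BK5

theorem t_Hull (hTrans : S_Trans) (hTurn : S_Turn) (hStar : S_Star) : S_Hull := by
  have _ := hTurn
  classical
  intro T hT
  by_cases h3 : 3 ≤ T.card
  · exact Hull.hull_big hTrans hStar T hT h3
  · have hcases : T.card = 0 ∨ T.card = 1 ∨ T.card = 2 := by omega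
    rcases hcases with h | h | h
    · exact ⟨0, fun _ => (0, 0), fun k hk => by omega, fun k l hk => by omega,
        fun i j k _ _ hk => by omega, fun _ => h, fun h' => by omega⟩
    · obtain ⟨a, rfl⟩ := Finset.card_eq_one.mp h
      exact ⟨1, fun _ => a, fun k _ => by simp, fun k l hk hl _ => by omega,
        fun i j k _ _ hk => by omega, fun _ => h, fun h' => by omega⟩
    · obtain ⟨a, b, hab, rfl⟩ := Finset.card_eq_two.mp h
      refine ⟨2, fun k => if k = 0 then a else b, fun k _ => ?_, fun k l hk hl heq => ?_,
        fun i j k _ _ hk => by omega, fun _ => h, fun h' => by omega⟩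
      · by_cases hk : k = 0 <;> simp [hk]
      · by_cases hk0 : k = 0 <;> by_cases hl0 : l = 0
        · omega
        · simp [hk0, hl0] at heq
          exact absurd heq hab
        · simp [hk0, hl0] at heq
          exact absurd heq.symm hab
        · omega

end Pool.BK5
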