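import Pool.Agent.BK5.StmtsB

/-!
B4: blocked subsets of every smaller size.
-/

set_option autoImplicit false

namespace Pool.BK5

namespace Lex

/-- lexicographic comparison -/
def Lt (p q : Pt) : Prop := p.1 < q.1 ∨ (p.1 = q.1 ∧ p.2 < q.2)

theorem lt_total (p q : Pt) (h : p ≠ q) : Lt p q ∨ Lt q p := by
  rcases lt_trichotomy p.1 q.1 with h1 | h1 | h1
  · exact Or.inl (Or.inl h1)
  · rcases lt_trichotomy p.2 q.2 with h2 | h2 | h2
    · exact Or.inl (Or.inr ⟨h1, h2⟩)
    · exact absurd (Prod.ext h1 h2) h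
    · exact Or.inr (Or.inr ⟨h1.symm, h2⟩)
  · exact Or.inr (Or.inl h1)

theorem between (v w x : Pt) (h : Lt v w) (hx : x ∈ openSegment ℝ v w) : Lt x w := by
  obtain ⟨a, b, ha, hb, hab, rfl⟩ := hx
  have hb1 : b = 1 - a := by linarith
  subst hb1
  rcases h with h | ⟨h1, h2⟩
  · left
    simp only [Prod.fst_add, Prod.smul_fst, smul_eq_mul]
    nlinarith
  · right
    simp only [Prod.fst_add, Prod.smul_fst, smul_eq_mul, Prod.snd_add, Prod.smul_snd]
    refine ⟨by rw [h1]; ring, by nlinarith⟩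

theorem lt_iff (p q : Pt) : Lt p q ↔ toLex p < toLex q := by
  rw [Prod.Lex.lt_iff]
  rfl

theorem step (hConv : S_Conv) (k : ℕ) (P : Finset Pt) (c : Pt → Fin k) (hB : Blk k P c)
    (hP : P.Nonempty) : ∃ Q : Finset Pt, Q ⊆ P ∧ Q.card + 1 = P.card ∧ Blk k Q c := by
  classical
  obtain ⟨M, hM, hmax⟩ := Finset.exists_max_image P (fun p : Pt => toLex p) hP
  refine ⟨P.erase M, Finset.erase_subset _ _, Finset.card_erase_add_one hM, ?_⟩
  refine hConv k P (P.erase M) c hB (Finset.erase_subset _ _) ?_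
  intro v hv w hw x hx hvw hseg
  refine Finset.mem_erase.2 ⟨?_, hx⟩
  rintro rfl
  have hv' := (Finset.mem_erase.1 hv).2
  have hw' := (Finset.mem_erase.1 hw).2
  rcases lt_total v w hvw with h | h
  · have h1 := (lt_iff _ _).1 (between v w x h hseg)
    exact absurd (hmax w hw') (not_le.2 h1)
  · rw [openSegment_symm] at hseg
    have h1 := (lt_iff _ _).1 (between w v x h hseg)
    exact absurd (hmax v hv') (not_le.2 h1)

end Lex

theorem t_Lex (hConv : S_Conv) : S_Lex := by
  intro k P c m hB hm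
  obtain ⟨d, hd⟩ := Nat.exists_eq_add_of_le hm
  induction d generalizing P with
  | zero => exact ⟨P, Finset.Subset.refl P, by omega, hB⟩
  | succ d ih =>
    have hne : P.Nonempty := by
      rw [← Finset.card_pos]
      omega
    obtain ⟨Q, hQP, hQc, hQB⟩ := Lex.step hConv k P c hB hne
    obtain ⟨R, hRQ, hRc, hRB⟩ := ih Q hQB (by omega) (by omega)
    exact ⟨R, hRQ.trans hQP, hRc, hRB⟩

end Pool.BK5
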