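import Pool.Agent.BK5.StmtsG

/-!
MP_70b73c_co, 5-blocked sets: the model of the modes 0, 2, 3, 6.
-/

set_option autoImplicit false

namespace Pool.BK5

namespace Mod

lemma lab_H (H : ℕ → Pt) (i : ℕ) (I : ℕ → Pt) (j : ℕ) (J E : ℕ → Pt) {x : ℕ} (h : x < 9) :
    lab H i I j J E x = H x := by
  simp [lab, h]

lemma lab_I (H : ℕ → Pt) (i : ℕ) (I : ℕ → Pt) (j : ℕ) (J E : ℕ → Pt) {x : ℕ} (h : x < i) :
    lab H i I j J E (9 + x) = I x := by
  have h1 : ¬ (9 + x < 9) := by omega
  have h2 : 9 + x < 9 + i := by omega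
  have h3 : 9 + x - 9 = x := by omega
  simp only [lab, h1, if_false, h2, if_true, h3]

lemma lab_J (H : ℕ → Pt) (i : ℕ) (I : ℕ → Pt) (j : ℕ) (J E : ℕ → Pt) {x : ℕ} (h : x < j) :
    lab H i I j J E (9 + i + x) = J x := by
  have h1 : ¬ (9 + i + x < 9) := by omega
  have h2 : ¬ (9 + i + x < 9 + i) := by omega
  have h3 : 9 + i + x < 9 + i + j := by omega
  have h4 : 9 + i + x - 9 - i = x := by omega
  simp only [lab, h1, if_false, h2, h3, if_true, h4]

lemma lab_E (H : ℕ → Pt) (i : ℕ) (I : ℕ → Pt) (j : ℕ) (J E : ℕ → Pt) (x : ℕ) :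
    lab H i I j J E (9 + i + j + x) = E x := by
  have h1 : ¬ (9 + i + j + x < 9) := by omega
  have h2 : ¬ (9 + i + j + x < 9 + i) := by omega
  have h3 : ¬ (9 + i + j + x < 9 + i + j) := by omega
  have h4 : 9 + i + j + x - 9 - i - j = x := by omega
  simp only [lab, h1, if_false, h2, h3, h4]

lemma D_self_right (a b : Pt) : D a b a = 0 := by
  simp [D]

lemma not_ins (m : ℕ) (X : ℕ → Pt) (k : ℕ) (hk : k < m) : ¬ Ins m X (X k) := by
  intro h
  have := h k hk
  rw [D_self_right] at this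
  exact lt_irrefl _ this

lemma D_12 (a b : Pt) : D a a b = 0 := by
  simp [D]

lemma D_23 (a b : Pt) : D a b b = 0 := by
  simp only [D]; ring

/-- a convex polygon with at least three vertices has different vertices -/
lemma cv_inj (m : ℕ) (X : ℕ → Pt) (hm : 3 ≤ m) (h : Cv m X) {a b : ℕ} (ha : a < m) (hb : b < m)
    (e : X a = X b) : a = b := by
  by_contra hne
  wlog hab : a < b generalizing a b
  · exact this hb ha e.symm (Ne.symm hne) (by omega)
  by_cases h1 : b + 1 < m
  · have := h a b (b + 1) hab (by omega) h1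
    rw [e, D_12] at this
    exact lt_irrefl _ this
  · by_cases h2 : 0 < a
    · have := h 0 a b h2 hab hb
      rw [e, D_23] at this
      exact lt_irrefl _ this
    · have := h a (a + 1) b (by omega) (by omega) hb
      rw [e, D_self_right] at this
      exact lt_irrefl _ this

/-- decomposition of the labels -/
lemma cases_lab {i j n x : ℕ} (hx : x < 9 + i + j + n) :
    x < 9 ∨ (∃ k, k < i ∧ x = 9 + k) ∨ (∃ k, k < j ∧ x = 9 + i + k) ∨
      ∃ k, k < n ∧ x = 9 + i + j + k := by
  by_cases h1 : x < 9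
  · exact Or.inl h1
  · by_cases h2 : x < 9 + i
    · exact Or.inr (Or.inl ⟨x - 9, by omega, by omega⟩)
    · by_cases h3 : x < 9 + i + j
      · exact Or.inr (Or.inr (Or.inl ⟨x - 9 - i, by omega, by omega⟩))
      · exact Or.inr (Or.inr (Or.inr ⟨x - 9 - i - j, by omega, by omega⟩))

end Mod

open Pool.BK5.Mod in
theorem t_Mod (hSep : S_Sep) (hPoly : S_Poly) (hHexIn : S_HexIn) : S_Mod := by
  intro S H i I j J E U mode Hd C hsym hmode
  -- the extra points
  have hEU : ∀ k, k < nE mode → E k ∈ U := by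
    intro k hk
    rcases hmode with ⟨h, _, _⟩ | ⟨h, h0, _⟩ | ⟨h, h0, h1, _⟩ | ⟨h, hU, _⟩
    · subst h; simp [nE] at hk
    · subst h
      have : k = 0 := by simp [nE] at hk; exact hk
      rw [this]; exact h0
    · subst h
      have : k < 2 := by simpa [nE] using hk
      rcases (by omega : k = 0 ∨ k = 1) with h | h
      · rw [h]; exact h0
      · rw [h]; exact h1
    · subst h
      have : k = 0 := by simp [nE] at hk; exact hk
      rw [this, hU]; simp
  have hEinj : ∀ k l, k < nE mode → l < nE mode → E k = E l → k = l := by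
    intro k l hk hl e
    rcases hmode with ⟨h, _, _⟩ | ⟨h, h0, _⟩ | ⟨h, h0, h1, h2, _⟩ | ⟨h, hU, _⟩
    · subst h; simp [nE] at hk
    · subst h
      simp [nE] at hk hl
      omega
    · subst h
      have hk' : k < 2 := by simpa [nE] using hk
      have hl' : l < 2 := by simpa [nE] using hl
      rcases (by omega : k = 0 ∨ k = 1) with a | a <;> rcases (by omega : l = 0 ∨ l = 1) with b | b
      · omega
      · rw [a, b] at e; exact absurd e h2
      · rw [a, b] at e; exact absurd e.symm h2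
      · omega
    · subst h
      simp [nE] at hk hl
      omega
  have hm5 : mode ≠ 5 := by
    rcases hmode with ⟨h, _⟩ | ⟨h, _⟩ | ⟨h, _⟩ | ⟨h, _⟩ <;> omega
  set p := lab H i I j J E with hp
  have pH : ∀ x, x < 9 → p x = H x := fun x h => lab_H H i I j J E h
  have pI : ∀ x, x < i → p (9 + x) = I x := fun x h => lab_I H i I j J E h
  have pJ : ∀ x, x < j → p (9 + i + x) = J x := fun x h => lab_J H i I j J E h
  have pE : ∀ x, p (9 + i + j + x) = E x := fun x => lab_E H i I j J E x
  -- membership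
  have mem : ∀ a, a < nP i j mode → p a ∈ S := by
    intro a ha
    rcases cases_lab ha with h | ⟨k, hk, rfl⟩ | ⟨k, hk, rfl⟩ | ⟨k, hk, rfl⟩
    · rw [pH a h]; exact C.hH a h
    · rw [pI k hk]; exact (C.hI k hk).1
    · rw [pJ k hk]; exact (C.hJ k hk).1
    · rw [pE]; exact (C.hU _ (hEU k hk)).1
  -- inside
  have insH : ∀ x, 9 ≤ x → x < nP i j mode → Ins 9 H (p x) := by
    intro a h9 ha
    rcases cases_lab ha with h | ⟨k, hk, rfl⟩ | ⟨k, hk, rfl⟩ | ⟨k, hk, rfl⟩
    · omega
    · rw [pI k hk]; exact (C.hI k hk).2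
    · rw [pJ k hk]; exact (C.hJ k hk).2
    · rw [pE]; exact (C.hU _ (hEU k hk)).2
  have insI : ∀ x, 9 + i ≤ x → x < nP i j mode → 3 ≤ i ∧ Ins i I (p x) := by
    intro a h9 ha
    rcases cases_lab ha with h | ⟨k, hk, rfl⟩ | ⟨k, hk, rfl⟩ | ⟨k, hk, rfl⟩
    · omega
    · omega
    · rw [pJ k hk]; exact C.inI _ (Or.inl ⟨k, hk, rfl⟩)
    · rw [pE]; exact C.inI _ (Or.inr (hEU k hk))
  have insJ : ∀ x, 9 + i + j ≤ x → x < nP i j mode → 3 ≤ j ∧ Ins j J (p x) := by
    intro a h9 ha
    rcases cases_lab ha with h | ⟨k, hk, rfl⟩ | ⟨k, hk, rfl⟩ | ⟨k, hk, rfl⟩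
    · omega
    · omega
    · omega
    · rw [pE]; exact C.inJ _ (hEU k hk)
  -- injectivity
  have inj : ∀ a b, a < nP i j mode → b < nP i j mode → p a = p b → a = b := by
    have key : ∀ a b, a < b → a < nP i j mode → b < nP i j mode → p a ≠ p b := by
      intro a b hab ha hb e
      rcases cases_lab ha with h | ⟨k, hk, rfl⟩ | ⟨k, hk, rfl⟩ | ⟨k, hk, rfl⟩
      · by_cases hb9 : b < 9
        · rw [pH a h, pH b hb9] at e
          have := cv_inj 9 H (by norm_num) C.cH h hb9 e
          omega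
        · have := insH b (by omega) hb
          rw [← e, pH a h] at this
          exact not_ins 9 H a h this
      · by_cases hb9 : b < 9 + i
        · obtain ⟨l, rfl⟩ : ∃ l, b = 9 + l := ⟨b - 9, by omega⟩
          rw [pI k hk, pI l (by omega)] at e
          have := C.iI k l hk (by omega) e
          omega
        · have := (insI b (by omega) hb).2
          rw [← e, pI k hk] at this
          exact not_ins i I k hk this
      · by_cases hb9 : b < 9 + i + j
        · obtain ⟨l, rfl⟩ : ∃ l, b = 9 + i + l := ⟨b - 9 - i, by omega⟩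
          rw [pJ k hk, pJ l (by omega)] at e
          have := C.iJ k l hk (by omega) e
          omega
        · have := (insJ b (by omega) hb).2
          rw [← e, pJ k hk] at this
          exact not_ins j J k hk this
      · obtain ⟨l, rfl⟩ : ∃ l, b = 9 + i + j + l := ⟨b - 9 - i - j, by omega⟩
        rw [pE, pE] at e
        have := hEinj k l hk (by unfold nP at hb; omega) e
        omega
    intro a b ha hb e
    by_contra hne
    rcases lt_or_gt_of_ne hne with h | h
    · exact key a b h ha hb e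
    · exact key b a h hb ha e.symm
  have lt9 : ∀ x, x < 9 → x < nP i j mode := by
    intro x hx; unfold nP; omega
  refine
    { gp := ?_, cH := ?_, cI := ?_, cJ := ?_, inH := ?_, inI := ?_, inJ := ?_, sym := ?_, uv := ?_,
      hin := ?_, hz := ?_, cov := ?_, hex := ?_, min := ?_ }
  · intro a b c ha hb hc hab hac hbc
    exact C.gp _ (mem a ha) _ (mem b hb) _ (mem c hc) (fun e => hab (inj a b ha hb e))
      (fun e => hac (inj a c ha hc e)) (fun e => hbc (inj b c hb hc e))
  · intro a b c hab hbc hc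
    rw [pH a (by omega), pH b (by omega), pH c hc]
    exact C.cH a b c hab hbc hc
  · intro a b c hab hbc hc
    show 0 < D (p (9 + a)) (p (9 + b)) (p (9 + c))
    rw [pI a (by omega), pI b (by omega), pI c hc]
    exact C.cI a b c hab hbc hc
  · intro a b c hab hbc hc
    show 0 < D (p (9 + i + a)) (p (9 + i + b)) (p (9 + i + c))
    rw [pJ a (by omega), pJ b (by omega), pJ c hc]
    exact C.cJ a b c hab hbc hc
  · intro k x hk h9 hx
    rw [pH k hk, pH ((k + 1) % 9) (Nat.mod_lt _ (by norm_num))]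
    exact insH x h9 hx k hk
  · intro hi k x hk h9 hx
    rw [pI k hk, pI ((k + 1) % i) (Nat.mod_lt _ (by omega))]
    exact (insI x h9 hx).2 k hk
  · intro hj k x hk h9 hx
    rw [pJ k hk, pJ ((k + 1) % j) (Nat.mod_lt _ (by omega))]
    exact (insJ x h9 hx).2 k hk
  · intro _ hi
    obtain ⟨h1, h2, h3, h4⟩ := hsym hi
    have e9 : p 9 = I 0 := pI 0 (by omega)
    have e10 : p 10 = I 1 := pI 1 (by omega)
    have el : p (9 + i - 1) = I (i - 1) := by
      have := pI (i - 1) (by omega)
      rw [← this]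
      congr 1
      omega
    refine ⟨?_, ?_, ?_, ?_⟩
    · rw [e9, e10, pH 8 (by norm_num)]; exact h1
    · rw [e9, e10, pH 0 (by norm_num)]; exact h2
    · rw [e9, el, pH 1 (by norm_num)]; exact h3
    · intro x h1x hxj
      have e1 : p (9 + i) = J 0 := pJ 0 (by omega)
      rw [e9, e1, pJ x hxj]
      exact h4 x h1x hxj
  · intro hm3
    rcases hmode with ⟨h, _⟩ | ⟨h, _⟩ | ⟨h, h0, h1, h2, h3, h4, h5⟩ | ⟨h, _⟩
    · omega
    · omega
    · have hi : 3 ≤ i := (C.inI _ (Or.inr h0)).1
      have e9 : p 9 = I 0 := pI 0 (by omega)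
      have eE0 : p (9 + i + j) = E 0 := pE 0
      rw [e9, eE0, pE 1]
      exact ⟨h3, by rw [h5]; exact h4⟩
    · omega
  · intro w hw k hk
    have hwU : w ∈ U := by
      rcases hmode with ⟨_, _, h⟩ | ⟨_, _, h⟩ | ⟨_, _, _, _, _, _, h⟩ | ⟨_, _, h⟩
      · rw [h] at hw; simp at hw
      · rw [h] at hw; exact hw
      · rw [h] at hw; exact hw
      · rw [h] at hw; simp at hw
    have ez : zN i j mode = j := by simp [zN, hm5]
    have es : zS i mode = 9 + i := by simp [zS, hm5]
    rw [ez] at hk ⊢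
    rw [es, pJ k hk, pJ ((k + 1) % j) (Nat.mod_lt _ (by omega))]
    exact (C.inJ w hwU).2 k hk
  · intro hm x h9 hx
    have hU : Hd = U := by
      rcases hmode with ⟨h, _⟩ | ⟨_, _, h⟩ | ⟨_, _, _, _, _, _, h⟩ | ⟨h, _⟩
      · omega
      · exact h
      · exact h
      · omega
    obtain ⟨l, rfl⟩ : ∃ l, x = 9 + i + j + l := ⟨x - 9 - i - j, by omega⟩
    rw [pE, hU]
    exact hEU l (by unfold nP at hx; omega)
  · intro h
    exact absurd h hm5
  · intro X hX hcv hHd
    have hX' : ∀ k, k < 6 → (∃ a, a < 9 ∧ X k = H a) ∨ (∃ a, a < i ∧ X k = I a) ∨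
        (∃ a, a < j ∧ X k = J a) ∨ X k ∈ U := by
      intro k hk
      rcases hX k hk with ⟨a, ha, e⟩ | h
      · rcases cases_lab ha with h | ⟨l, hl, rfl⟩ | ⟨l, hl, rfl⟩ | ⟨l, hl, rfl⟩
        · exact Or.inl ⟨a, h, by rw [e, pH a h]⟩
        · exact Or.inr (Or.inl ⟨l, hl, by rw [e, pI l hl]⟩)
        · exact Or.inr (Or.inr (Or.inl ⟨l, hl, by rw [e, pJ l hl]⟩))
        · exact Or.inr (Or.inr (Or.inr (by rw [e, pE]; exact hEU l hl)))
      · refine Or.inr (Or.inr (Or.inr ?_))
        rcases hmode with ⟨_, _, h'⟩ | ⟨_, _, h'⟩ | ⟨_, _, _, _, _, _, h'⟩ | ⟨_, _, h'⟩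
        · rw [h'] at h; simp at h
        · rw [h'] at h; exact h
        · rw [h'] at h; exact h
        · rw [h'] at h; simp at h
    have hwE : 9 + i + j ≤ wE i j mode := by
      unfold wE; split <;> omega
    rcases hHexIn S H i I j J U C X hX' hcv with ⟨k, hk, h⟩ | ⟨k, hk, h⟩ | ⟨s, hs, h⟩
    · exact ⟨9 + k, by omega, by omega, by rw [pI k hk]; exact h⟩
    · exact ⟨9 + i + k, by omega, by omega, by rw [pJ k hk]; exact h⟩
    · rcases hmode with ⟨_, h', _⟩ | ⟨_, _, h'⟩ | ⟨_, _, _, _, _, _, h'⟩ | ⟨hm, h', _⟩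
      · rw [h'] at hs; simp at hs
      · exact absurd h (hHd s (by rw [h']; exact hs))
      · exact absurd h (hHd s (by rw [h']; exact hs))
      · have hsE : s = E 0 := by rw [h'] at hs; simpa using hs
        refine ⟨9 + i + j, by omega, ?_, ?_⟩
        · unfold wE; rw [if_pos hm]; omega
        · have : p (9 + i + j) = E 0 := pE 0
          rw [this, ← hsE]; exact h
  · intro x hx hcv k hk
    by_contra hxk
    have hX : ∀ k, k < 9 → p (x k) ∈ S := fun k hk => mem _ (hx k hk)
    have hmin := C.min (fun k => p (x k)) hX hcv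
    have hsub : {s : Pt | s ∈ S ∧ Ins 9 (fun k => p (x k)) s} ⊂ {s : Pt | s ∈ S ∧ Ins 9 H s} := by
      refine ⟨?_, ?_⟩
      · rintro s ⟨hs, hins⟩
        refine ⟨hs, ?_⟩
        intro l hl
        have hne : H l ≠ H ((l + 1) % 9) := (hPoly 9 H (by norm_num) C.cH l l hl hl).2.2
        refine (hSep 9 (fun k => p (x k)) s (H l) (H ((l + 1) % 9)) hne (by norm_num) hins).1 ?_
        intro m hm
        show 0 ≤ D (H l) (H ((l + 1) % 9)) (p (x m))
        by_cases h9 : x m < 9
        · rw [pH _ h9]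
          exact (hPoly 9 H (by norm_num) C.cH l (x m) hl h9).2.1
        · exact (insH (x m) (by omega) (hx m hm) l hl).le
      · intro hcon
        have h1 : p (x k) ∈ {s : Pt | s ∈ S ∧ Ins 9 H s} :=
          ⟨hX k hk, insH (x k) (by omega) (hx k hk)⟩
        have h2 := hcon h1
        exact not_ins 9 (fun k => p (x k)) k hk h2.2
    have hfin : {s : Pt | s ∈ S ∧ Ins 9 H s}.Finite :=
      S.finite_toSet.subset (fun s hs => hs.1)
    have := Set.ncard_lt_ncard hsub hfin
    omega

end Pool.BK5
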