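import Pool.Agent.BK5.Mod

/-!
MP_70b73c_co, 5-blocked sets: the model of the mode 5.
-/

set_option autoImplicit false

namespace Pool.BK5

namespace Mod5

lemma nP5 (i : ℕ) : nP i 0 5 = 9 + i := by
  simp [nP, nE]

lemma wE5 (i : ℕ) : wE i 0 5 = 9 + i := by
  simp [wE]

lemma zS5 (i : ℕ) : zS i 5 = 9 := by
  simp [zS]

lemma zN5 (i : ℕ) : zN i 0 5 = i := by
  simp [zN]

/-- decomposition of the labels -/
lemma cases_lab5 {i x : ℕ} (hx : x < 9 + i) : x < 9 ∨ ∃ k, k < i ∧ x = 9 + k := by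
  by_cases h1 : x < 9
  · exact Or.inl h1
  · exact Or.inr ⟨x - 9, by omega, by omega⟩

end Mod5

open Pool.BK5.Mod Pool.BK5.Mod5 in
theorem t_Mod5 (hSep : S_Sep) (hPoly : S_Poly) (hHexIn : S_HexIn) : S_Mod5 := by
  classical
  intro S H i I j J U C hi hcov
  set p := lab H i I 0 J J with hp
  have pH : ∀ x, x < 9 → p x = H x := fun x h => lab_H H i I 0 J J h
  have pI : ∀ x, x < i → p (9 + x) = I x := fun x h => lab_I H i I 0 J J h
  -- the unlabelled points
  set Hd : Finset Pt := (Finset.range j).image J ∪ U with hHd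
  have memHd : ∀ w, w ∈ Hd ↔ (∃ k, k < j ∧ w = J k) ∨ w ∈ U := by
    intro w
    rw [hHd, Finset.mem_union, Finset.mem_image]
    constructor
    · rintro (⟨k, hk, e⟩ | h)
      · exact Or.inl ⟨k, Finset.mem_range.mp hk, e.symm⟩
      · exact Or.inr h
    · rintro (⟨k, hk, e⟩ | h)
      · exact Or.inl ⟨k, Finset.mem_range.mpr hk, e.symm⟩
      · exact Or.inr h
  -- membership
  have mem : ∀ a, a < 9 + i → p a ∈ S := by
    intro a ha
    rcases cases_lab5 ha with h | ⟨k, hk, rfl⟩
    · rw [pH a h]; exact C.hH a h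
    · rw [pI k hk]; exact (C.hI k hk).1
  have insH : ∀ x, 9 ≤ x → x < 9 + i → Ins 9 H (p x) := by
    intro a h9 ha
    rcases cases_lab5 ha with h | ⟨k, hk, rfl⟩
    · omega
    · rw [pI k hk]; exact (C.hI k hk).2
  -- injectivity
  have inj : ∀ a b, a < 9 + i → b < 9 + i → p a = p b → a = b := by
    have key : ∀ a b, a < b → a < 9 + i → b < 9 + i → p a ≠ p b := by
      intro a b hab ha hb e
      rcases cases_lab5 ha with h | ⟨k, hk, rfl⟩
      · by_cases hb9 : b < 9
        · rw [pH a h, pH b hb9] at e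
          have := cv_inj 9 H (by norm_num) C.cH h hb9 e
          omega
        · have := insH b (by omega) hb
          rw [← e, pH a h] at this
          exact not_ins 9 H a h this
      · obtain ⟨l, rfl⟩ : ∃ l, b = 9 + l := ⟨b - 9, by omega⟩
        rw [pI k hk, pI l (by omega)] at e
        have := C.iI k l hk (by omega) e
        omega
    intro a b ha hb e
    by_contra hne
    rcases lt_or_gt_of_ne hne with h | h
    · exact key a b h ha hb e
    · exact key b a h hb ha e.symm
  refine ⟨Hd,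
    { gp := ?_, cH := ?_, cI := ?_, cJ := ?_, inH := ?_, inI := ?_, inJ := ?_, sym := ?_, uv := ?_,
      hin := ?_, hz := ?_, cov := ?_, hex := ?_, min := ?_ }⟩
  · intro a b c ha hb hc hab hac hbc
    rw [nP5] at ha hb hc
    exact C.gp _ (mem a ha) _ (mem b hb) _ (mem c hc) (fun e => hab (inj a b ha hb e))
      (fun e => hac (inj a c ha hc e)) (fun e => hbc (inj b c hb hc e))
  · intro a b c hab hbc hc
    rw [pH a (by omega), pH b (by omega), pH c hc]
    exact C.cH a b c hab hbc hc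
  · intro a b c hab hbc hc
    show 0 < D (p (9 + a)) (p (9 + b)) (p (9 + c))
    rw [pI a (by omega), pI b (by omega), pI c hc]
    exact C.cI a b c hab hbc hc
  · intro a b c _ _ hc
    omega
  · intro k x hk h9 hx
    rw [nP5] at hx
    rw [pH k hk, pH ((k + 1) % 9) (Nat.mod_lt _ (by norm_num))]
    exact insH x h9 hx k hk
  · intro _ k x hk h9 hx
    rw [nP5] at hx
    omega
  · intro h
    omega
  · intro h
    exact absurd rfl h
  · intro h
    omega
  · intro w hw k hk
    rw [zN5] at hk ⊢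
    rw [zS5, pI k hk, pI ((k + 1) % i) (Nat.mod_lt _ (by omega))]
    exact (C.inI w ((memHd w).mp hw)).2 k hk
  · intro h
    omega
  · intro _ k m hk hm
    rw [pI k hk, pI ((k + 1) % i) (Nat.mod_lt _ (by omega)),
      pI ((k + i - 1) % i) (Nat.mod_lt _ (by omega)), pH m hm,
      pH ((m + 8) % 9) (Nat.mod_lt _ (by norm_num)),
      pH ((m + 1) % 9) (Nat.mod_lt _ (by norm_num))]
    exact hcov k m hk hm
  · intro X hX hcv hno
    rw [nP5] at hX
    have hX' : ∀ k, k < 6 → (∃ a, a < 9 ∧ X k = H a) ∨ (∃ a, a < i ∧ X k = I a) ∨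
        (∃ a, a < j ∧ X k = J a) ∨ X k ∈ U := by
      intro k hk
      rcases hX k hk with ⟨a, ha, e⟩ | h
      · rcases cases_lab5 ha with h | ⟨l, hl, rfl⟩
        · exact Or.inl ⟨a, h, by rw [e, pH a h]⟩
        · exact Or.inr (Or.inl ⟨l, hl, by rw [e, pI l hl]⟩)
      · exact Or.inr (Or.inr ((memHd _).mp h))
    rw [wE5]
    rcases hHexIn S H i I j J U C X hX' hcv with ⟨k, hk, h⟩ | ⟨k, hk, h⟩ | ⟨s, hs, h⟩
    · exact ⟨9 + k, by omega, by omega, by rw [pI k hk]; exact h⟩
    · exact absurd h (hno _ ((memHd _).mpr (Or.inl ⟨k, hk, rfl⟩)))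
    · exact absurd h (hno _ ((memHd _).mpr (Or.inr hs)))
  · intro x hx hcv k hk
    rw [nP5] at hx
    by_contra hxk
    have hX : ∀ k, k < 9 → p (x k) ∈ S := fun k hk => mem _ (hx k hk)
    have hmin := C.min (fun k => p (x k)) hX hcv
    have hsub : {s : Pt | s ∈ S ∧ Ins 9 (fun k => p (x k)) s} ⊂ {s : Pt | s ∈ S ∧ Ins 9 H s} := by
      refine ⟨?_, ?_⟩
      · rintro s ⟨hs, hins⟩
        refine ⟨hs, ?_⟩
        intro l hl
        have hne : H l ≠ H ((l + 1) % 9) := (hPoly 9 H (by norm_num) C.cH l l hl hl).2.2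
        refine (hSep 9 (fun k => p (x k)) s (H l) (H ((l + 1) % 9)) hne (by norm_num) hins).1 ?_
        intro m hm
        show 0 ≤ D (H l) (H ((l + 1) % 9)) (p (x m))
        by_cases h9 : x m < 9
        · rw [pH _ h9]
          exact (hPoly 9 H (by norm_num) C.cH l (x m) hl h9).2.1
        · exact (insH (x m) (by omega) (hx m hm) l hl).le
      · intro hcon
        have h1 : p (x k) ∈ {s : Pt | s ∈ S ∧ Ins 9 H s} :=
          ⟨hX k hk, insH (x k) (by omega) (hx k hk)⟩
        have h2 := hcon h1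
        exact not_ins 9 (fun k => p (x k)) k hk h2.2
    have hfin : {s : Pt | s ∈ S ∧ Ins 9 H s}.Finite :=
      S.finite_toSet.subset (fun s hs => hs.1)
    have := Set.ncard_lt_ncard hsub hfin
    omega

end Pool.BK5
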