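import Pool.Agent.BK5.StmtsB

/-!
MP_70b73c_co, 5-blocked sets, part B: a 4-blocked set has at most 12 points.
-/

set_option autoImplicit false

namespace Pool.BK5

namespace N4

open Filter Topology

/-- a linear functional which is positive on the differences to the lexicographically first point -/
theorem exists_functional (Q : Finset Pt) (hQ : Q.Nonempty) :
    ∃ o ∈ Q, ∃ β : ℝ, ∀ x ∈ Q, x ≠ o → 0 < 1 * (x.1 - o.1) + β * (x.2 - o.2) := by
  classical
  obtain ⟨o, hoQ, homin⟩ := Q.exists_min_image (fun x : Pt => toLex x) hQ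
  refine ⟨o, hoQ, ?_⟩
  have hev : ∀ᶠ β : ℝ in 𝓝[>] 0, ∀ x ∈ Q, x ≠ o → 0 < 1 * (x.1 - o.1) + β * (x.2 - o.2) := by
    rw [Filter.eventually_all_finset]
    intro x hx
    by_cases hxo : x = o
    · exact Filter.Eventually.of_forall fun β h => absurd hxo h
    · have hle := homin x hx
      rw [Prod.Lex.toLex_le_toLex] at hle
      rcases hle with hlt | ⟨heq, hle⟩
      · have hc : ContinuousAt (fun β : ℝ => 1 * (x.1 - o.1) + β * (x.2 - o.2)) 0 := by fun_prop
        have hpos : (0 : ℝ) < 1 * (x.1 - o.1) + 0 * (x.2 - o.2) := by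
          rw [one_mul, zero_mul, add_zero]
          exact sub_pos.2 hlt
        have h1 := hc.eventually (lt_mem_nhds hpos)
        exact (h1.filter_mono nhdsWithin_le_nhds).mono fun β hβ _ => hβ
      · have hlt : o.2 < x.2 := by
          refine lt_of_le_of_ne hle fun h2 => hxo ?_
          exact Prod.ext heq.symm h2.symm
        filter_upwards [self_mem_nhdsWithin] with β hβ _
        rw [heq, sub_self, mul_zero, zero_add]
        exact mul_pos hβ (sub_pos.2 hlt)
  obtain ⟨β, hβ⟩ := hev.exists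
  exact ⟨β, hβ⟩

end N4

open N4 in
theorem t_N4 (hLex : S_Lex) (hBMod : S_BMod) : S_N4 := by
  intro hC P c hP
  by_contra hcard
  obtain ⟨Q, _, hQ13, hQ⟩ := hLex 4 P c 13 hP (by omega)
  have hne : Q.Nonempty := by
    rw [← Finset.card_pos]
    omega
  obtain ⟨o, ho, β, hβ⟩ := exists_functional Q hne
  obtain ⟨p, col, hB, _⟩ := hBMod 4 Q c o 1 β hQ ho hβ
  rw [hQ13] at hB
  exact hC.n4 p col hB

end Pool.BK5
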