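import Pool.Agent.BK5.StmtsB

/-!
MP_70b73c_co, part B: no four collinear points, colour classes, restriction.
-/

set_option autoImplicit false

namespace Pool.BK5

namespace No4Aux

/-- Scalar product of `q - a` and `b - a`. -/
def g (a b q : Pt) : ℝ := (q.1 - a.1) * (b.1 - a.1) + (q.2 - a.2) * (b.2 - a.2)

theorem nrm_pos {a b : Pt} (h : a ≠ b) :
    0 < (b.1 - a.1) ^ 2 + (b.2 - a.2) ^ 2 := by
  by_contra hc
  have h1 : (b.1 - a.1) ^ 2 = 0 := by nlinarith [sq_nonneg (b.1 - a.1), sq_nonneg (b.2 - a.2)]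
  have h2 : (b.2 - a.2) ^ 2 = 0 := by nlinarith [sq_nonneg (b.1 - a.1), sq_nonneg (b.2 - a.2)]
  apply h
  have h3 : b.1 - a.1 = 0 := by simpa using h1
  have h4 : b.2 - a.2 = 0 := by simpa using h2
  exact Prod.ext (by linarith) (by linarith)

theorem co1 {a b q : Pt} (h : D a b q = 0) :
    ((b.1 - a.1) ^ 2 + (b.2 - a.2) ^ 2) * (q.1 - a.1) = g a b q * (b.1 - a.1) := by
  unfold D at h; unfold g
  linear_combination -(b.2 - a.2) * h

theorem co2 {a b q : Pt} (h : D a b q = 0) :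
    ((b.1 - a.1) ^ 2 + (b.2 - a.2) ^ 2) * (q.2 - a.2) = g a b q * (b.2 - a.2) := by
  unfold D at h; unfold g
  linear_combination (b.1 - a.1) * h

theorem g_inj {a b q r : Pt} (hab : a ≠ b) (hq : D a b q = 0) (hr : D a b r = 0)
    (h : g a b q = g a b r) : q = r := by
  have hN := nrm_pos hab
  have e1 := co1 hq
  have e2 := co1 hr
  have e3 := co2 hq
  have e4 := co2 hr
  rw [h] at e1 e3
  have f1 : q.1 - a.1 = r.1 - a.1 := mul_left_cancel₀ hN.ne' (e1.trans e2.symm)
  have f2 : q.2 - a.2 = r.2 - a.2 := mul_left_cancel₀ hN.ne' (e3.trans e4.symm)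
  exact Prod.ext (by linarith) (by linarith)

theorem seg_iff (v w x : Pt) :
    x ∈ openSegment ℝ v w ↔ ∃ t : ℝ, 0 < t ∧ t < 1 ∧ x.1 = v.1 + t * (w.1 - v.1) ∧
      x.2 = v.2 + t * (w.2 - v.2) := by
  constructor
  · rintro ⟨s, t, hs, ht, hst, rfl⟩
    refine ⟨t, ht, by linarith, ?_, ?_⟩
    · simp only [Prod.fst_add, Prod.smul_fst, smul_eq_mul]
      have : s = 1 - t := by linarith
      rw [this]; ring
    · simp only [Prod.snd_add, Prod.smul_snd, smul_eq_mul]
      have : s = 1 - t := by linarith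
      rw [this]; ring
  · rintro ⟨t, ht, ht1, h1, h2⟩
    refine ⟨1 - t, t, by linarith, ht, by ring, ?_⟩
    apply Prod.ext
    · simp only [Prod.fst_add, Prod.smul_fst, smul_eq_mul]; rw [h1]; ring
    · simp only [Prod.snd_add, Prod.smul_snd, smul_eq_mul]; rw [h2]; ring

theorem seg_of_lt {a b q r s : Pt} (hab : a ≠ b) (hq : D a b q = 0) (hr : D a b r = 0)
    (hs : D a b s = 0) (h1 : g a b q < g a b r) (h2 : g a b r < g a b s) :
    r ∈ openSegment ℝ q s := by
  have hN := nrm_pos hab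
  rw [seg_iff]
  have h3 : 0 < g a b s - g a b q := by linarith
  have ht : (g a b r - g a b q) / (g a b s - g a b q) * (g a b s - g a b q) =
      g a b r - g a b q := div_mul_cancel₀ _ h3.ne'
  refine ⟨(g a b r - g a b q) / (g a b s - g a b q), div_pos (by linarith) h3,
    (div_lt_one h3).2 (by linarith), ?_, ?_⟩
  · apply mul_left_cancel₀ hN.ne'
    have e1 := co1 hq
    have e2 := co1 hr
    have e3 := co1 hs
    generalize (g a b r - g a b q) / (g a b s - g a b q) = t at ht ⊢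
    linear_combination e2 - e1 - t * (e3 - e1) - (b.1 - a.1) * ht
  · apply mul_left_cancel₀ hN.ne'
    have e1 := co2 hq
    have e2 := co2 hr
    have e3 := co2 hs
    generalize (g a b r - g a b q) / (g a b s - g a b q) = t at ht ⊢
    linear_combination e2 - e1 - t * (e3 - e1) - (b.2 - a.2) * ht

theorem g_of_seg {a b q r s : Pt} (hqs : q ≠ s) (hab : a ≠ b) (hq : D a b q = 0)
    (hs : D a b s = 0) (h : r ∈ openSegment ℝ q s) :
    D a b r = 0 ∧ ((g a b q < g a b r ∧ g a b r < g a b s) ∨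
      (g a b s < g a b r ∧ g a b r < g a b q)) := by
  rw [seg_iff] at h
  obtain ⟨t, ht, ht1, h1, h2⟩ := h
  have e : g a b r = g a b q + t * (g a b s - g a b q) := by
    unfold g; rw [h1, h2]; ring
  have hne : g a b q ≠ g a b s := fun hh => hqs (g_inj hab hq hs hh)
  refine ⟨?_, ?_⟩
  · unfold D at hq hs ⊢
    rw [h1, h2]
    linear_combination (1 - t) * hq + t * hs
  · rcases lt_or_gt_of_ne hne with hl | hl
    · left
      constructor
      · nlinarith
      · nlinarith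
    · right
      constructor
      · nlinarith
      · nlinarith

end No4Aux

open No4Aux in
theorem t_No4 : S_No4 := by
  intro k P c hB a ha b hb x hx y hy hab hax hay hbx hby hxy hDx hDy
  classical
  -- the points on the line
  set S : Finset Pt := P.filter (fun q => D a b q = 0) with hS
  have hSP : ∀ q ∈ S, q ∈ P ∧ D a b q = 0 := by
    intro q hq; rw [hS, Finset.mem_filter] at hq; exact hq
  have haS : a ∈ S := by rw [hS, Finset.mem_filter]; exact ⟨ha, by unfold D; ring⟩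
  have hbS : b ∈ S := by rw [hS, Finset.mem_filter]; exact ⟨hb, by unfold D; ring⟩
  have hxS : x ∈ S := by rw [hS, Finset.mem_filter]; exact ⟨hx, hDx⟩
  have hyS : y ∈ S := by rw [hS, Finset.mem_filter]; exact ⟨hy, hDy⟩
  have hcard : 4 ≤ S.card := by
    have hsub : ({a, b, x, y} : Finset Pt) ⊆ S := by
      intro q hq
      simp only [Finset.mem_insert, Finset.mem_singleton] at hq
      rcases hq with rfl | rfl | rfl | rfl <;> assumption
    have h4 : ({a, b, x, y} : Finset Pt).card = 4 := by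
      rw [Finset.card_insert_of_notMem, Finset.card_insert_of_notMem, Finset.card_insert_of_notMem,
        Finset.card_singleton]
      · simp only [Finset.mem_singleton]; exact hxy
      · simp only [Finset.mem_insert, Finset.mem_singleton]; push_neg; exact ⟨hbx, hby⟩
      · simp only [Finset.mem_insert, Finset.mem_singleton]; push_neg; exact ⟨hab, hax, hay⟩
    rw [← h4]; exact Finset.card_le_card hsub
  obtain ⟨p1, hp1, hm1⟩ := S.exists_min_image (g a b) ⟨a, haS⟩
  have hc1 : 3 ≤ (S.erase p1).card := by rw [Finset.card_erase_of_mem hp1]; omega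
  obtain ⟨p2, hp2, hm2⟩ := (S.erase p1).exists_min_image (g a b)
    (Finset.card_pos.1 (by omega))
  have hc2 : 2 ≤ ((S.erase p1).erase p2).card := by rw [Finset.card_erase_of_mem hp2]; omega
  obtain ⟨u, hu, v, hv, huv⟩ := Finset.one_lt_card.1 (show 1 < ((S.erase p1).erase p2).card by omega)
  have hp2S : p2 ∈ S := Finset.mem_of_mem_erase hp2
  have hp21 : p2 ≠ p1 := Finset.ne_of_mem_erase hp2
  have inj : ∀ q ∈ S, ∀ r ∈ S, g a b q = g a b r → q = r := by
    intro q hq r hr h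
    exact g_inj hab (hSP q hq).2 (hSP r hr).2 h
  have h12 : g a b p1 < g a b p2 :=
    lt_of_le_of_ne (hm1 p2 hp2S) (fun h => hp21 (inj p2 hp2S p1 hp1 h.symm))
  have key : ∀ r s : Pt, r ∈ (S.erase p1).erase p2 → s ∈ (S.erase p1).erase p2 →
      g a b r < g a b s → False := by
    intro r s hr hs hrs
    have hr1 : r ∈ S.erase p1 := Finset.mem_of_mem_erase hr
    have hs1 : s ∈ S.erase p1 := Finset.mem_of_mem_erase hs
    have hrS : r ∈ S := Finset.mem_of_mem_erase hr1
    have hsS : s ∈ S := Finset.mem_of_mem_erase hs1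
    have hr2 : r ≠ p2 := Finset.ne_of_mem_erase hr
    have hs2 : s ≠ p2 := Finset.ne_of_mem_erase hs
    have h2r : g a b p2 < g a b r :=
      lt_of_le_of_ne (hm2 r hr1) (fun h => hr2 (inj r hrS p2 hp2S h.symm))
    have h2s : g a b p2 < g a b s := lt_trans h2r hrs
    have hs1' : p1 ≠ s := fun h => by subst h; linarith
    have hs2' : p2 ≠ s := fun h => hs2 h.symm
    have c1s : c p1 = c s := (hB p1 (hSP p1 hp1).1 s (hSP s hsS).1 hs1').2
      ⟨p2, (hSP p2 hp2S).1, seg_of_lt hab (hSP p1 hp1).2 (hSP p2 hp2S).2 (hSP s hsS).2 h12 h2s⟩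
    have c2s : c p2 = c s := (hB p2 (hSP p2 hp2S).1 s (hSP s hsS).1 hs2').2
      ⟨r, (hSP r hrS).1, seg_of_lt hab (hSP p2 hp2S).2 (hSP r hrS).2 (hSP s hsS).2 h2r hrs⟩
    obtain ⟨m, hmP, hm⟩ := (hB p1 (hSP p1 hp1).1 p2 (hSP p2 hp2S).1 (Ne.symm hp21)).1
      (c1s.trans c2s.symm)
    obtain ⟨hDm, hcase⟩ := g_of_seg (Ne.symm hp21) hab (hSP p1 hp1).2 (hSP p2 hp2S).2 hm
    have hmS : m ∈ S := by rw [hS, Finset.mem_filter]; exact ⟨hmP, hDm⟩
    rcases hcase with ⟨q1, q2⟩ | ⟨q1, q2⟩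
    · have hm1' : m ≠ p1 := fun h => by subst h; linarith
      have := hm2 m (Finset.mem_erase.2 ⟨hm1', hmS⟩)
      linarith
    · linarith
  have huS : u ∈ S := Finset.mem_of_mem_erase (Finset.mem_of_mem_erase hu)
  have hvS : v ∈ S := Finset.mem_of_mem_erase (Finset.mem_of_mem_erase hv)
  rcases lt_trichotomy (g a b u) (g a b v) with h | h | h
  · exact key u v hu hv h
  · exact huv (inj u huS v hvS h)
  · exact key v u hv hu h

open No4Aux in
theorem t_Cl3 : S_Cl3 := by
  intro k P c hB a Q hQ x hx y hy z hz hxy hxz hyz hD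
  have h4 := t_No4 k P c hB
  obtain ⟨hxP, hxc⟩ := hQ x hx
  obtain ⟨hyP, hyc⟩ := hQ y hy
  obtain ⟨hzP, hzc⟩ := hQ z hz
  have Dx : D x y x = 0 := by unfold D; ring
  have Dy : D x y y = 0 := by unfold D; ring
  -- every point of `P` on the line is one of the three
  have only : ∀ m ∈ P, D x y m = 0 → m = x ∨ m = y ∨ m = z := by
    intro m hm hDm
    by_contra hc
    push_neg at hc
    obtain ⟨q1, q2, q3⟩ := hc
    exact h4 x hxP y hyP z hzP m hm hxy hxz (Ne.symm q1) hyz (Ne.symm q2) (Ne.symm q3) hD hDm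
  -- a point between two of the three points is the third
  obtain ⟨u, huP, hu⟩ := (hB x hxP y hyP hxy).1 (hxc.trans hyc.symm)
  obtain ⟨v, hvP, hv⟩ := (hB y hyP z hzP hyz).1 (hyc.trans hzc.symm)
  obtain ⟨w, hwP, hw⟩ := (hB x hxP z hzP hxz).1 (hxc.trans hzc.symm)
  obtain ⟨du, cu⟩ := g_of_seg hxy hxy Dx Dy hu
  obtain ⟨dv, cv⟩ := g_of_seg hyz hxy Dy hD hv
  obtain ⟨dw, cw⟩ := g_of_seg hxz hxy Dx hD hw
  rcases only u huP du with h1 | h1 | h1 <;> rcases only v hvP dv with h2 | h2 | h2 <;>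
    rcases only w hwP dw with h3 | h3 | h3 <;> subst h1 <;> subst h2 <;> subst h3 <;>
    rcases cu with ⟨_, _⟩ | ⟨_, _⟩ <;> rcases cv with ⟨_, _⟩ | ⟨_, _⟩ <;>
    rcases cw with ⟨_, _⟩ | ⟨_, _⟩ <;> linarith

theorem t_Conv : S_Conv := by
  intro k P Q c hB hQP hcl v hv w hw hvw
  rw [hB v (hQP hv) w (hQP hw) hvw]
  constructor
  · rintro ⟨x, hx, hxs⟩
    exact ⟨x, hcl v hv w hw x hx hvw hxs, hxs⟩
  · rintro ⟨x, hx, hxs⟩
    exact ⟨x, hQP hx, hxs⟩

end Pool.BK5
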