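import Pool.Agent.BK5.StmtsB

/-!
MP_70b73c_co, 5-blocked sets: no empty hexagon in a class, and the final bound.
-/

set_option autoImplicit false

namespace Pool.BK5

theorem t_NoHex (hN4 : S_N4) (hH6 : S_H6) (hHexR : S_HexR) (hHMod : S_HMod) : S_NoHex := by
  intro hB P c a Q hP hQ hE
  obtain ⟨X, hXQ, hcv, hemp⟩ := hE
  have hX : ∀ k, k < 6 → X k ∈ P ∧ c (X k) = a := fun k hk => (hQ _).1 (hXQ k hk)
  have hins : ∀ s ∈ P, c s = a → ¬Ins 6 X s := fun s hs hc => hemp s ((hQ s).2 ⟨hs, hc⟩)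
  obtain ⟨Q', R, hQ', -, -, -, hcard, ⟨c', hR⟩, e, he, hinj, hed⟩ :=
    hHexR P c a X hP hX hcv hins
  have h12 : R.card ≤ 12 := hN4 hB R c' hR
  have hne : R.card ≠ 12 := by
    intro h
    refine hH6 hB R c' hR h ⟨e, fun k hk => (he k hk).1, hinj, fun k hk => ?_⟩
    exact ⟨X k, X ((k + 1) % 6), (hed k hk).1, (hed k hk).2⟩
  obtain ⟨p, col, hm⟩ := hHMod P c a X hP hX hcv hins Q' hQ'
  refine hB.hm Q'.card p col ?_ hm
  omega

theorem t_Final (hCl3 : S_Cl3) (hNoHex : S_NoHex) : S_Final := by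
  classical
  intro hB hG hES P c hP
  have hcl : ∀ a : Fin 5, (P.filter (fun x => c x = a)).card ≤ 3432 := by
    intro a
    by_contra hcon
    push Not at hcon
    have hmem : ∀ s, s ∈ P.filter (fun x => c x = a) ↔ s ∈ P ∧ c s = a := by
      intro s
      rw [Finset.mem_filter]
    have hgp : GenP (P.filter (fun x => c x = a)) :=
      hCl3 5 P c hP a _ (fun x hx => (hmem x).1 hx)
    have h9 := hES _ hgp (by omega)
    exact hNoHex hB P c a _ hP hmem (hG _ hgp h9)
  have hsum : P.card = ∑ a : Fin 5, (P.filter (fun x => c x = a)).card :=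
    Finset.card_eq_sum_card_fiberwise (f := c) (t := Finset.univ)
      (fun x _ => Finset.mem_coe.2 (Finset.mem_univ _))
  rw [hsum]
  calc ∑ a : Fin 5, (P.filter (fun x => c x = a)).card ≤ ∑ _a : Fin 5, 3432 :=
        Finset.sum_le_sum (fun a _ => hcl a)
    _ = 17160 := by simp

end Pool.BK5
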