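import Pool.Agent.BK5.StmtsB

/-!
MP_70b73c_co: `S_Norm`, normalisation of a colouring by first occurrence.
-/

set_option autoImplicit false

namespace Pool.BK5.Norm

open Finset

variable {k : ℕ} (c : ℕ → Fin k)

/-- Number of colours among the first `m` indices. -/
noncomputable def gg (m : ℕ) : ℕ := ((range m).image c).card

/-- First index with colour `a`, where `a` is the colour of `i`. -/
noncomputable def fst (i : ℕ) : ℕ := sInf {m : ℕ | c m = c i}

theorem fst_spec (i : ℕ) : c (fst c i) = c i := by
  have h : fst c i ∈ {m : ℕ | c m = c i} := Nat.sInf_mem ⟨i, rfl⟩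
  exact h

theorem fst_le {i m : ℕ} (h : c m = c i) : fst c i ≤ m := Nat.sInf_le h

theorem fst_congr {i j : ℕ} (h : c i = c j) : fst c i = fst c j := by
  unfold fst
  rw [h]

theorem not_mem (i : ℕ) : c i ∉ (range (fst c i)).image c := by
  intro h
  rw [mem_image] at h
  obtain ⟨m, hm, he⟩ := h
  rw [mem_range] at hm
  have := fst_le c he
  omega

theorem gg_lt {i j : ℕ} (h : fst c i < fst c j) : gg c (fst c i) < gg c (fst c j) := by
  unfold gg
  apply card_lt_card
  rw [ssubset_iff_of_subset]
  · refine ⟨c i, ?_, not_mem c i⟩
    rw [mem_image]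
    exact ⟨fst c i, mem_range.2 h, fst_spec c i⟩
  · apply image_subset_image
    intro x hx
    rw [mem_range] at hx ⊢
    omega

theorem gg_succ (m : ℕ) : gg c (m + 1) ≤ gg c m + 1 := by
  unfold gg
  rw [range_add_one, image_insert]
  exact card_insert_le _ _

end Pool.BK5.Norm

namespace Pool.BK5

open Pool.BK5.Norm in
theorem t_Norm : S_Norm := by
  intro n k c
  refine ⟨fun i => gg c (fst c i), ?_, ?_, ?_⟩
  · intro i _
    have h : (Finset.image c (Finset.range (fst c i))).card < Fintype.card (Fin k) := by
      apply Finset.card_lt_univ_of_notMem (x := c i)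
      exact not_mem c i
    rw [Fintype.card_fin] at h
    exact h
  · intro i j _ _
    constructor
    · intro h
      rcases Nat.lt_trichotomy (fst c i) (fst c j) with h1 | h1 | h1
      · have := gg_lt c h1
        simp only at h
        omega
      · rw [← fst_spec c i, ← fst_spec c j, h1]
      · have := gg_lt c h1
        simp only at h
        omega
    · intro h
      simp only
      rw [fst_congr c h]
  · intro i a _ h
    simp only at h
    have hex : ∃ t, a + 1 ≤ gg c t := ⟨fst c i, by omega⟩
    classical
    have h0 : Nat.find hex ≠ 0 := by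
      intro h0
      have h1 := Nat.find_spec hex
      rw [h0] at h1
      simp [gg] at h1
    obtain ⟨m, hm⟩ := Nat.exists_eq_succ_of_ne_zero h0
    have h1 : a + 1 ≤ gg c (m + 1) := by
      have h1 := Nat.find_spec hex
      rw [hm] at h1
      exact h1
    have h2 : ¬a + 1 ≤ gg c m := Nat.find_min hex (by omega)
    have h3 := gg_succ c m
    have h4 : Nat.find hex ≤ fst c i := Nat.find_min' hex (by omega)
    have h5 : fst c i ≤ i := fst_le c rfl
    refine ⟨m, by omega, ?_⟩
    have h6 : c m ∉ (Finset.range m).image c := by
      intro h6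
      have h7 : gg c (m + 1) = gg c m := by
        unfold gg
        rw [Finset.range_add_one, Finset.image_insert, Finset.insert_eq_of_mem h6]
      omega
    have h8 : fst c m = m := by
      have h9 : fst c m ≤ m := fst_le c rfl
      rcases Nat.lt_or_ge (fst c m) m with h10 | h10
      · exfalso
        apply h6
        rw [Finset.mem_image]
        exact ⟨fst c m, Finset.mem_range.2 h10, fst_spec c m⟩
      · omega
    simp only
    rw [h8]
    omega

end Pool.BK5
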