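import Pool.Agent.BK5.StmtsB

set_option autoImplicit false

namespace Pool.BK5

namespace Pat

lemma seg {o x y : Pt} (h : x ∈ openSegment ℝ o y) :
    ∃ t : ℝ, 0 < t ∧ t < 1 ∧ ∀ z : Pt, D o x z = t * D o y z := by
  obtain ⟨u, v, hu, hv, huv, hx⟩ := h
  refine ⟨v, hv, by linarith, fun z => ?_⟩
  have h1 : x.1 = u * o.1 + v * y.1 := by rw [← hx]; simp
  have h2 : x.2 = u * o.2 + v * y.2 := by rw [← hx]; simp
  have hu' : u = 1 - v := by linarith
  unfold D
  rw [h1, h2, hu']
  ring

lemma nn {o x y : Pt} (h : RW o x y) : 0 ≤ D o x y := by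
  rcases h with h | h
  · exact h.le
  · exact h.1.ge

lemma swap (o x y : Pt) : D o x y = -D o y x := by unfold D; ring

lemma rot (a b c : Pt) : D a b c = D b c a := by unfold D; ring

/-- For `x < y < z` in radial order: `D o x z > 0`. -/
lemma pos {o x y z : Pt} (hxy : RW o x y) (hyz : RW o y z) (hxz : RW o x z)
    (hn : D o x y = 0 → D o x z ≠ 0) : 0 < D o x z := by
  rcases hxz with h | ⟨h0, h⟩
  · exact h
  · obtain ⟨t, ht, -, H⟩ := seg h
    have h1 := H y
    have h2 := nn hxy
    have h3 := nn hyz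
    rw [swap o z y] at h1
    have h4 : D o x y = 0 := by nlinarith
    exact absurd h0 (hn h4)

lemma signs {w x y z p1 p2 p3 p4 p5 p6 : ℝ} (h1 : 0 ≤ p1) (h2 : 0 < p2) (h3 : 0 < p3)
    (h4 : 0 ≤ p4) (h5 : 0 < p5) (h6 : 0 ≤ p6) (nz : ¬(p4 = 0 ∧ p6 = 0)) (nz' : ¬(p1 = 0 ∧ p4 = 0))
    (z12 : ¬(w = 0 ∧ x = 0)) (z13 : ¬(w = 0 ∧ y = 0)) (z14 : ¬(w = 0 ∧ z = 0))
    (z24 : ¬(x = 0 ∧ z = 0)) (z34 : ¬(y = 0 ∧ z = 0))
    (I1 : p2 * x = p1 * y + p3 * w) (I2 : p5 * y = p3 * z + p6 * x)
    (I3 : p4 * x = p1 * z + p5 * w) (I4 : p4 * y = p2 * z + p6 * w) :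
    (0 ≤ w → 0 ≤ y → 0 < x) ∧ (0 ≤ x → 0 ≤ z → 0 < y) ∧ (0 ≤ w → 0 ≤ z → 0 < x) ∧
      (0 ≤ w → 0 ≤ z → 0 < y) := by
  refine ⟨fun hw hy => ?_, fun hx hz => ?_, fun hw hz => ?_, fun hw hz => ?_⟩
  · rcases hw.eq_or_lt with e | e
    · have : 0 ≤ p2 * x := by rw [I1, ← e]; positivity
      have hx : 0 ≤ x := nonneg_of_mul_nonneg_right this h2
      exact lt_of_le_of_ne hx fun h => z12 ⟨e.symm, h.symm⟩
    · have : 0 < p2 * x := by rw [I1]; positivity
      exact pos_of_mul_pos_right this h2.le
  · rcases hz.eq_or_lt with e | e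
    · have : 0 ≤ p5 * y := by rw [I2, ← e]; positivity
      have hy : 0 ≤ y := nonneg_of_mul_nonneg_right this h5
      exact lt_of_le_of_ne hy fun h => z34 ⟨h.symm, e.symm⟩
    · have : 0 < p5 * y := by rw [I2]; positivity
      exact pos_of_mul_pos_right this h5.le
  · rcases hw.eq_or_lt with e | e
    · have h0 : 0 ≤ p4 * x := by rw [I3, ← e]; positivity
      have hz' : 0 < z := lt_of_le_of_ne hz fun h => z14 ⟨e.symm, h.symm⟩
      rcases h4.eq_or_lt with e4 | e4
      · exfalso
        rw [← e, ← e4, zero_mul, mul_zero, add_zero] at I3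
        rcases mul_eq_zero.1 I3.symm with h | h
        · exact nz' ⟨h, e4.symm⟩
        · exact hz'.ne' h
      · have hx : 0 ≤ x := nonneg_of_mul_nonneg_right h0 e4
        exact lt_of_le_of_ne hx fun h => z12 ⟨e.symm, h.symm⟩
    · have : 0 < p4 * x := by rw [I3]; positivity
      exact pos_of_mul_pos_right this h4
  · rcases hz.eq_or_lt with e | e
    · have h0 : 0 ≤ p4 * y := by rw [I4, ← e]; positivity
      have hw' : 0 < w := lt_of_le_of_ne hw fun h => z14 ⟨h.symm, e.symm⟩
      rcases h4.eq_or_lt with e4 | e4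
      · exfalso
        rw [← e, ← e4, zero_mul, mul_zero, zero_add] at I4
        rcases mul_eq_zero.1 I4.symm with h | h
        · exact nz ⟨e4.symm, h⟩
        · exact hw'.ne' h
      · have hy : 0 ≤ y := nonneg_of_mul_nonneg_right h0 e4
        exact lt_of_le_of_ne hy fun h => z34 ⟨h.symm, e.symm⟩
    · have : 0 < p4 * y := by rw [I4]; positivity
      exact pos_of_mul_pos_right this h4

end Pat

theorem t_Pat : S_Pat := by
  intro o a b c d hab hac had hbc hbd hcd n4 oa ob oc od ab ac ad bc bd cd
  have mo : o ∈ ({o, a, b, c, d} : Finset Pt) := by simp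
  have ma : a ∈ ({o, a, b, c, d} : Finset Pt) := by simp
  have mb : b ∈ ({o, a, b, c, d} : Finset Pt) := by simp
  have mc : c ∈ ({o, a, b, c, d} : Finset Pt) := by simp
  have md : d ∈ ({o, a, b, c, d} : Finset Pt) := by simp
  have sab := Pat.nn hab
  have sbc := Pat.nn hbc
  have scd := Pat.nn hcd
  have sac : 0 < D o a c := Pat.pos hab hbc hac (n4 o mo a ma b mb c mc oa ob oc ab ac bc)
  have sad : 0 < D o a d := Pat.pos hab hbd had (n4 o mo a ma b mb d md oa ob od ab ad bd)
  have sbd : 0 < D o b d := Pat.pos hbc hcd hbd (n4 o mo b mb c mc d md ob oc od bc bd cd)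
  -- at most one zero
  have z12 : ¬(D a b c = 0 ∧ D a b d = 0) := fun h =>
    n4 a ma b mb c mc d md ab ac ad bc bd cd h.1 h.2
  have z13 : ¬(D a b c = 0 ∧ D a c d = 0) := fun h =>
    n4 a ma c mc b mb d md ac ab ad bc.symm cd bd (by rw [Pat.swap]; linarith [h.1]) h.2
  have z14 : ¬(D a b c = 0 ∧ D b c d = 0) := fun h =>
    n4 b mb c mc a ma d md bc ab.symm bd ac.symm cd ad (by rw [← Pat.rot]; exact h.1) h.2
  have z23 : ¬(D a b d = 0 ∧ D a c d = 0) := fun h =>
    n4 a ma d md b mb c mc ad ab ac bd.symm cd.symm bc (by rw [Pat.swap]; linarith [h.1])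
      (by rw [Pat.swap]; linarith [h.2])
  have z24 : ¬(D a b d = 0 ∧ D b c d = 0) := fun h =>
    n4 b mb d md a ma c mc bd ab.symm bc ad.symm cd.symm ac (by rw [← Pat.rot]; exact h.1)
      (by rw [Pat.swap]; linarith [h.2])
  have z34 : ¬(D a c d = 0 ∧ D b c d = 0) := fun h =>
    n4 c mc d md a ma b mb cd ac.symm bc.symm ad.symm bd.symm ab (by rw [← Pat.rot]; exact h.1)
      (by rw [← Pat.rot]; exact h.2)
  -- identities
  have I1 : D o a c * D a b d = D o a b * D a c d + D o a d * D a b c := by unfold D; ring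
  have I2 : D o b d * D a c d = D o a d * D b c d + D o c d * D a b d := by unfold D; ring
  have I3 : D o b c * D a b d = D o a b * D b c d + D o b d * D a b c := by unfold D; ring
  have I4 : D o b c * D a c d = D o a c * D b c d + D o c d * D a b c := by unfold D; ring
  have I5 : D b c d = D o b c + D o c d - D o b d := by unfold D; ring
  have nz : ¬(D o b c = 0 ∧ D o c d = 0) := by
    rintro ⟨h1, h2⟩
    rcases hbc with h | ⟨-, h⟩
    · exact h.ne' h1
    · obtain ⟨t, -, -, H⟩ := Pat.seg h
      have := H d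
      rw [h2, mul_zero] at this
      exact sbd.ne' this
  have nz' : ¬(D o a b = 0 ∧ D o b c = 0) := by
    rintro ⟨h1, h2⟩
    rcases hab with h | ⟨-, h⟩
    · exact h.ne' h1
    · obtain ⟨t, -, -, H⟩ := Pat.seg h
      have := H c
      rw [h2, mul_zero] at this
      exact sac.ne' this
  constructor
  · obtain ⟨A1, A2, A3, A4⟩ := Pat.signs sab sac sad sbc sbd scd nz nz' z12 z13 z14 z24 z34 I1 I2 I3 I4
    obtain ⟨B1, B2, B3, B4⟩ := Pat.signs (w := -D a b c) (x := -D a b d) (y := -D a c d)
      (z := -D b c d) sab sac sad sbc sbd scd nz nz'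
      (by simpa using z12) (by simpa using z13) (by simpa using z14) (by simpa using z24)
      (by simpa using z34) (by linarith) (by linarith) (by linarith) (by linarith)
    clear I1 I2 I3 I4 I5 nz nz' sab sac sad sbc sbd scd hab hac had hbc hbd hcd n4
    generalize D a b c = w at *
    generalize D a b d = x at *
    generalize D a c d = y at *
    generalize D b c d = z at *
    rcases lt_trichotomy w 0 with hw | hw | hw <;> rcases lt_trichotomy x 0 with hx | hx | hx <;>
      rcases lt_trichotomy y 0 with hy | hy | hy <;> rcases lt_trichotomy z 0 with hz | hz | hz <;>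
      first
      | exact (z12 ⟨hw, hx⟩).elim
      | exact (z13 ⟨hw, hy⟩).elim
      | exact (z14 ⟨hw, hz⟩).elim
      | exact (z23 ⟨hx, hy⟩).elim
      | exact (z24 ⟨hx, hz⟩).elim
      | exact (z34 ⟨hy, hz⟩).elim
      | (exfalso; have := A1 (by linarith) (by linarith); linarith)
      | (exfalso; have := A2 (by linarith) (by linarith); linarith)
      | (exfalso; have := A3 (by linarith) (by linarith); linarith)
      | (exfalso; have := A4 (by linarith) (by linarith); linarith)
      | (exfalso; have := B1 (by linarith) (by linarith); linarith)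
      | (exfalso; have := B2 (by linarith) (by linarith); linarith)
      | (exfalso; have := B3 (by linarith) (by linarith); linarith)
      | (exfalso; have := B4 (by linarith) (by linarith); linarith)
      | (unfold Pat; simp only [hw, hx, hy, hz, true_and, and_true, or_true, true_or])
  · rcases sbc.eq_or_lt with h0 | h0
    · rcases hbc with h | ⟨-, h⟩
      · exact absurd h0.symm h.ne'
      · obtain ⟨t, ht, ht1, H⟩ := Pat.seg h
        have e := H d
        have hp : 0 < D o c d := lt_of_le_of_ne scd (fun h => nz ⟨h0.symm, h.symm⟩)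
        have : 0 < D b c d := by rw [I5, ← h0, e]; nlinarith
        right; right; right; right; right; right; right; right; left
        exact ⟨h0.symm, sbd, hp, this⟩
    · rcases scd.eq_or_lt with h1 | h1
      · rcases hcd with h | ⟨-, h⟩
        · exact absurd h1.symm h.ne'
        · obtain ⟨t, ht, ht1, H⟩ := Pat.seg h
          have e := H b
          rw [Pat.swap o c b, Pat.swap o d b] at e
          have : D b c d < 0 := by rw [I5, ← h1]; nlinarith
          right; right; right; right; right; right; right; right; right; right; right; right; left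
          exact ⟨h0, sbd, h1.symm, this⟩
      · rcases lt_trichotomy (D b c d) 0 with h | h | h
        · exact Or.inr (Or.inl ⟨h0, sbd, h1, h⟩)
        · right; right; right; right; right; right; right; right; right; right; right; right; right
          right; left
          exact ⟨h0, sbd, h1, h⟩
        · exact Or.inl ⟨h0, sbd, h1, h⟩

end Pool.BK5
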