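import Pool.Agent.BK5.StmtsG

/-!
MP_70b73c_co, 5-blocked sets: vertices of a convex polygon and its edges (`S_Poly`, `S_Kind3`).
-/

set_option autoImplicit false

namespace Pool.BK5

namespace Poly

theorem D_rot (a b c : Pt) : D b c a = D a b c := by
  unfold D; ring

theorem D_self1 (a b : Pt) : D a b a = 0 := by
  unfold D; ring

theorem D_self2 (a b : Pt) : D a b b = 0 := by
  unfold D; ring

theorem D_self3 (a c : Pt) : D a a c = 0 := by
  unfold D; ring

theorem pos {m : ℕ} {X : ℕ → Pt} (hX : Cv m X) {k l : ℕ} (hk : k < m) (hl : l < m)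
    (h1 : l ≠ k) (h2 : l ≠ (k + 1) % m) : 0 < D (X k) (X ((k + 1) % m)) (X l) := by
  rcases Nat.lt_or_ge (k + 1) m with h | h
  · rw [Nat.mod_eq_of_lt h] at h2 ⊢
    rcases Nat.lt_or_ge l k with h3 | h3
    · rw [D_rot (X l) (X k) (X (k + 1))]
      exact hX l k (k + 1) h3 (Nat.lt_succ_self k) h
    · exact hX k (k + 1) l (Nat.lt_succ_self k) (by omega) hl
  · have he : k + 1 = m := by omega
    rw [he, Nat.mod_self] at h2 ⊢
    have h4 : D (X k) (X 0) (X l) = D (X 0) (X l) (X k) := by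
      unfold D; ring
    rw [h4]
    exact hX 0 l k (by omega) (by omega) hk

theorem nonneg {m : ℕ} {X : ℕ → Pt} (hX : Cv m X) {k l : ℕ} (hk : k < m) (hl : l < m) :
    0 ≤ D (X k) (X ((k + 1) % m)) (X l) := by
  by_cases h1 : l = k
  · rw [h1, D_self1]
  · by_cases h2 : l = (k + 1) % m
    · rw [← h2, D_self2]
    · exact (pos hX hk hl h1 h2).le

theorem third {m : ℕ} (hm : 3 ≤ m) (k : ℕ) (k' : ℕ) : ∃ l, l < m ∧ l ≠ k ∧ l ≠ k' := by
  by_cases h0 : 0 ≠ k ∧ 0 ≠ k'
  · exact ⟨0, by omega, h0.1, h0.2⟩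
  · by_cases h1 : 1 ≠ k ∧ 1 ≠ k'
    · exact ⟨1, by omega, h1.1, h1.2⟩
    · exact ⟨2, by omega, by omega, by omega⟩

theorem ne {m : ℕ} {X : ℕ → Pt} (hm : 3 ≤ m) (hX : Cv m X) {k : ℕ} (hk : k < m) :
    X k ≠ X ((k + 1) % m) := by
  intro he
  obtain ⟨l, hl, h1, h2⟩ := third hm k ((k + 1) % m)
  have h3 := pos hX hk hl h1 h2
  rw [← he, D_self3] at h3
  exact lt_irrefl _ h3

theorem ident (A B x u v w : Pt) (hx : D A B x = 0) :
    D x u v * D A B w = D v x w * D A B u + D x u w * D A B v := by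
  have h : D x u v * D A B w - (D v x w * D A B u + D x u w * D A B v) =
      (D x u v - D v x w - D x u w) * D A B x := by
    unfold D; ring
  rw [hx, mul_zero] at h
  linarith

end Poly

theorem t_Poly : S_Poly := by
  intro m X hm hX k l hk hl
  exact ⟨fun h1 h2 => Poly.pos hX hk hl h1 h2, Poly.nonneg hX hk hl, Poly.ne hm hX hk⟩

theorem t_Kind3 : S_Kind3 := by
  intro m X q A B hm hX hq h0 h1 h2 l hl
  have hq' : (q + m - 1) % m < m := Nat.mod_lt _ (by omega)
  have hsucc : ((q + m - 1) % m + 1) % m = q := by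
    rw [Nat.mod_add_mod]
    have : q + m - 1 + 1 = q + m := by omega
    rw [this, Nat.add_mod_right, Nat.mod_eq_of_lt hq]
  have hne1 : (q + m - 1) % m ≠ q := by
    intro he
    rw [he] at hsucc
    rcases Nat.lt_or_ge (q + 1) m with h | h
    · rw [Nat.mod_eq_of_lt h] at hsucc
      omega
    · have : q + 1 = m := by omega
      rw [this, Nat.mod_self] at hsucc
      omega
  have hne2 : (q + m - 1) % m ≠ (q + 1) % m := by
    intro he
    have h3 : ((q + 1) % m + 1) % m = q := by rw [← he]; exact hsucc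
    rw [Nat.mod_add_mod] at h3
    rcases Nat.lt_or_ge (q + 2) m with h | h
    · rw [Nat.mod_eq_of_lt (by omega : q + 1 + 1 < m)] at h3
      omega
    · have h4 : q + 1 + 1 = m ∨ q + 1 + 1 = m + 1 := by omega
      rcases h4 with h4 | h4
      · rw [h4, Nat.mod_self] at h3
        omega
      · rw [h4, Nat.add_mod_left, Nat.mod_eq_of_lt (by omega : 1 < m)] at h3
        omega
  have a1 : 0 < D (X q) (X ((q + 1) % m)) (X ((q + m - 1) % m)) :=
    Poly.pos hX hq hq' hne1 hne2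
  have a2 : 0 ≤ D (X q) (X ((q + 1) % m)) (X l) := Poly.nonneg hX hq hl
  have a3 : 0 ≤ D (X ((q + m - 1) % m)) (X q) (X l) := by
    have := Poly.nonneg hX hq' hl
    rwa [hsucc] at this
  have hid := Poly.ident A B (X q) (X ((q + 1) % m)) (X ((q + m - 1) % m)) (X l) h0
  by_contra hcon
  rw [not_le] at hcon
  have b1 := mul_pos a1 hcon
  have b2 : D (X ((q + m - 1) % m)) (X q) (X l) * D A B (X ((q + 1) % m)) ≤ 0 :=
    mul_nonpos_of_nonneg_of_nonpos a3 h1.le
  have b3 : D (X q) (X ((q + 1) % m)) (X l) * D A B (X ((q + m - 1) % m)) ≤ 0 :=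
    mul_nonpos_of_nonneg_of_nonpos a2 h2.le
  linarith

end Pool.BK5
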