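import Pool.Agent.BK5.StmtsG

/-!
MP_70b73c_co, 5-blocked sets: rotation of polygons.
-/

set_option autoImplicit false

namespace Pool.BK5

namespace Rot

theorem cyc (a b c : Pt) : D c a b = D a b c := by
  unfold D
  ring

theorem cyc2 (a b c : Pt) : D a b c = D b c a := by
  unfold D
  ring

theorem next (m r k : ℕ) : ((k + 1) % m + r) % m = ((k + r) % m + 1) % m := by
  rw [Nat.mod_add_mod, Nat.mod_add_mod]
  congr 1
  omega

theorem idx (m r k : ℕ) (hm : 1 ≤ m) (hk : k < m) :
    (k + r) % m = if k + r % m < m then k + r % m else k + r % m - m := by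
  have h0 : r % m < m := Nat.mod_lt _ hm
  rw [← Nat.add_mod_mod]
  split_ifs with h
  · exact Nat.mod_eq_of_lt h
  · rw [Nat.mod_eq_sub_mod (by omega)]
    exact Nat.mod_eq_of_lt (by omega)

theorem back (m r k : ℕ) (hm : 1 ≤ m) (hk : k < m) :
    ((k + (m - r % m)) % m + r) % m = k := by
  have h0 : r % m < m := Nat.mod_lt _ hm
  rw [Nat.mod_add_mod, ← Nat.add_mod_mod]
  have h1 : k + (m - r % m) + r % m = k + m := by omega
  rw [h1, Nat.add_mod_right]
  exact Nat.mod_eq_of_lt hk

theorem cv (m r : ℕ) (X : ℕ → Pt) (hm : 1 ≤ m) (h : Cv m X) : Cv m (rot m r X) := by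
  intro i j k hij hjk hk
  have h0 : r % m < m := Nat.mod_lt _ hm
  unfold rot
  rw [idx m r i hm (by omega), idx m r j hm (by omega), idx m r k hm hk]
  split_ifs with h1 h2 h3 h3 h2 h3 h3
  · exact h _ _ _ (by omega) (by omega) (by omega)
  · rw [← cyc]
    exact h _ _ _ (by omega) (by omega) (by omega)
  · omega
  · rw [cyc2]
    exact h _ _ _ (by omega) (by omega) (by omega)
  all_goals first
    | omega
    | exact h _ _ _ (by omega) (by omega) (by omega)

end Rot

theorem t_Rot : S_Rot := by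
  intro m r X hm
  have h1 : ∀ k, rot m r X ((k + 1) % m) = X (((k + r) % m + 1) % m) := fun k => by
    unfold rot
    rw [Rot.next]
  have h2 : ∀ k, k < m → ∃ l, l < m ∧ X k = rot m r X l ∧
      X ((k + 1) % m) = rot m r X ((l + 1) % m) := by
    intro k hk
    refine ⟨(k + (m - r % m)) % m, Nat.mod_lt _ hm, ?_, ?_⟩
    · unfold rot
      rw [Rot.back m r k hm hk]
    · rw [h1, Rot.back m r k hm hk]
  refine ⟨Rot.cv m r X hm, fun w => ⟨fun h k hk => ?_, fun h k hk => ?_⟩, fun k hk => ?_, h2⟩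
  · obtain ⟨l, hl, e1, e2⟩ := h2 k hk
    rw [e1, e2]
    exact h l hl
  · rw [h1]
    exact h _ (Nat.mod_lt _ hm)
  · exact ⟨(k + r) % m, Nat.mod_lt _ hm, rfl, h1 k⟩

end Pool.BK5
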