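import Pool.Agent.BK5.StmtsG

/-!
MP_70b73c_co, 5-blocked sets: the sizes of the layers.
-/

set_option autoImplicit false

namespace Pool.BK5

namespace Size

lemma D_self (a b : Pt) : D a b a = 0 := by
  simp only [D]
  ring

/-- Points inside a polygon whose vertices are on the left of or on the edges of `H` are inside. -/
lemma ins_of (hSep : S_Sep) (m n : ℕ) (X H : ℕ → Pt) (w : Pt) (hm : 1 ≤ m)
    (hne : ∀ l, l < n → H l ≠ H ((l + 1) % n))
    (h : ∀ l, l < n → ∀ k, k < m → 0 ≤ D (H l) (H ((l + 1) % n)) (X k)) (hw : Ins m X w) :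
    Ins n H w := by
  intro l hl
  exact (hSep m X w (H l) (H ((l + 1) % n)) (hne l hl) hm hw).1 (h l hl)

lemma cv_mono {m n : ℕ} {X : ℕ → Pt} (hmn : m ≤ n) (h : Cv n X) : Cv m X :=
  fun i j k hij hjk hk => h i j k hij hjk (hk.trans_le hmn)

/-- A convex 9-gon of points inside `H` contradicts the choice of `H`. -/
lemma no_nine (hSep : S_Sep) (hPoly : S_Poly) {S : Finset Pt} {H : ℕ → Pt} {i : ℕ} {I : ℕ → Pt}
    {j : ℕ} {J : ℕ → Pt} {U : Finset Pt} (h : Ctx S H i I j J U) (X : ℕ → Pt)
    (hX : ∀ k, k < 9 → X k ∈ S ∧ Ins 9 H (X k)) (hc : Cv 9 X) : False := by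
  have h1 := h.min X (fun k hk => (hX k hk).1) hc
  have hfin : {s : Pt | s ∈ S ∧ Ins 9 H s}.Finite :=
    (Finset.finite_toSet S).subset (fun s hs => hs.1)
  have h2 : {s : Pt | s ∈ S ∧ Ins 9 X s} ⊂ {s : Pt | s ∈ S ∧ Ins 9 H s} := by
    refine ⟨?_, ?_⟩
    · rintro s ⟨hs, hs'⟩
      refine ⟨hs, ins_of hSep 9 9 X H s (by norm_num) ?_ ?_ hs'⟩
      · intro l hl
        exact (hPoly 9 H (by norm_num) h.cH l l hl hl).2.2
      · intro l hl k hk
        exact ((hX k hk).2 l hl).le
    · intro hsub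
      have h3 : X 0 ∈ {s : Pt | s ∈ S ∧ Ins 9 X s} := hsub (hX 0 (by norm_num))
      have h4 := h3.2 0 (by norm_num)
      rw [D_self] at h4
      exact lt_irrefl _ h4
  exact absurd h1 (not_le.2 (Set.ncard_lt_ncard h2 hfin))

end Size

open Size in
theorem t_Size (hSep : S_Sep) (hPoly : S_Poly) : S_Size := by
  intro S H i I j J U h
  refine ⟨?_, ?_, ?_, ?_⟩
  · by_contra hi
    push Not at hi
    exact no_nine hSep hPoly h I (fun k hk => h.hI k (by omega)) (cv_mono hi h.cI)
  · by_contra hj
    push Not at hj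
    exact no_nine hSep hPoly h J (fun k hk => h.hJ k (by omega)) (cv_mono hj h.cJ)
  · by_contra hi
    have hi0 : i = 0 := by omega
    refine h.noHex ⟨H, fun k hk => h.hH k (by omega), cv_mono (by norm_num) h.cH, ?_⟩
    intro s hs hins
    have h9 : Ins 9 H s := by
      refine ins_of hSep 6 9 H H s (by norm_num) ?_ ?_ hins
      · intro l hl
        exact (hPoly 9 H (by norm_num) h.cH l l hl hl).2.2
      · intro l hl k hk
        exact (hPoly 9 H (by norm_num) h.cH l k hl (by omega)).2.1
    rcases h.all s hs h9 with ⟨k, hk, _⟩ | hJ | hU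
    · omega
    · have := (h.inI s (Or.inl hJ)).1
      omega
    · have := (h.inI s (Or.inr hU)).1
      omega
  · intro hj
    by_contra hU
    rw [Finset.not_nonempty_iff_eq_empty] at hU
    refine h.noHex ⟨J, fun k hk => (h.hJ k (by omega)).1, cv_mono hj h.cJ, ?_⟩
    intro s hs hins
    have h9 : Ins 9 H s := by
      refine ins_of hSep 6 9 J H s (by norm_num) ?_ ?_ hins
      · intro l hl
        exact (hPoly 9 H (by norm_num) h.cH l l hl hl).2.2
      · intro l hl k hk
        exact ((h.hJ k (by omega)).2 l hl).le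
    rcases h.all s hs h9 with ⟨k, hk, rfl⟩ | ⟨k, hk, rfl⟩ | hs'
    · have hi : 3 ≤ i := (h.inI (J 0) (Or.inl ⟨0, by omega, rfl⟩)).1
      have h1 : Ins i I (I k) := by
        refine ins_of hSep 6 i J I (I k) (by norm_num) ?_ ?_ hins
        · intro l hl
          exact (hPoly i I hi h.cI l l hl hl).2.2
        · intro l hl k' hk'
          exact ((h.inI (J k') (Or.inl ⟨k', by omega, rfl⟩)).2 l hl).le
      have h2 := h1 k hk
      rw [D_self] at h2
      exact lt_irrefl _ h2
    · have h1 : Ins j J (J k) := by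
        refine ins_of hSep 6 j J J (J k) (by norm_num) ?_ ?_ hins
        · intro l hl
          exact (hPoly j J (by omega) h.cJ l l hl hl).2.2
        · intro l hl k' hk'
          exact (hPoly j J (by omega) h.cJ l k' hl (by omega)).2.1
      have h2 := h1 k hk
      rw [D_self] at h2
      exact lt_irrefl _ h2
    · rw [hU] at hs'
      exact absurd hs' (Finset.notMem_empty s)

end Pool.BK5
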