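import Pool.Agent.BK5.StmtsC

/-!
MP_70b73c_co, 5-blocked sets, part C, module Sound: soundness of the clause checker.
-/

set_option autoImplicit false

namespace Pool.BK5

namespace Sound

theorem aa_eq {b c : Bool} (h : aa b c = true) : b = true ∧ c = true := by
  cases b with
  | false => exact absurd h (by change ¬(false = true); decide)
  | true => exact ⟨rfl, h⟩

theorem iff_eq {b x y : Bool} (h : iff' b x y = true) : (b = true ∧ x = true) ∨ y = true := by
  cases b with
  | false => exact Or.inr h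
  | true => exact Or.inl ⟨rfl, h⟩

/-- A recursor on a Boolean which is true. -/
theorem rec_eq {b x y : Bool} (h : (Bool.rec x y b : Bool) = true) :
    (b = true ∧ y = true) ∨ (b = false ∧ x = true) := by
  cases b with
  | false => exact Or.inr ⟨rfl, h⟩
  | true => exact Or.inl ⟨rfl, h⟩

theorem mem_eq (x : ℕ) : ∀ c : Sat.Clause, mem x c = true →
    ∃ l : Sat.Literal, l ∈ (show List Sat.Literal from c) ∧ x = lc l := by
  intro c
  induction (show List Sat.Literal from c) with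
  | nil => intro h; exact absurd h (by change ¬(false = true); decide)
  | cons l t ih =>
    intro h
    have h' : (Bool.rec (mem x t) true (Nat.beq x (lc l)) : Bool) = true := h
    rcases rec_eq h' with ⟨h1, _⟩ | ⟨_, h2⟩
    · exact ⟨l, List.mem_cons_self, Nat.eq_of_beq_eq_true h1⟩
    · obtain ⟨l', hl', e⟩ := ih h2
      exact ⟨l', List.mem_cons_of_mem _ hl', e⟩

theorem not_sat (v : Sat.Valuation) : ∀ c : List Sat.Literal, ¬v.satisfies c →
    ∀ l : Sat.Literal, l ∈ c → v.neg l := by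
  intro c
  induction c with
  | nil => intro _ l hl; exact absurd hl List.not_mem_nil
  | cons a t ih =>
    intro h l hl
    have h1 : v.neg a ∧ ¬v.satisfies t := by
      by_contra hc
      apply h
      intro ha
      by_contra ht
      exact hc ⟨ha, ht⟩
    rcases List.mem_cons.1 hl with e | hl'
    · rw [e]; exact h1.1
    · exact ih h1.2 l hl'

theorem chkT_eq (F : Sat.Clause → ℕ → Bool) (t : CT) : ∀ (s : List ℕ) (k : List ℕ → Bool),
    chkT F t s k = true → (∀ c, c ∈ t.flat → ∃ d, F c d = true) ∧ ∃ s', k s' = true := by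
  induction t with
  | leaf c =>
    intro s k h
    cases s with
    | nil => exact absurd h (by change ¬(false = true); decide)
    | cons d s' =>
      have h' : aa (F c d) (k s') = true := h
      obtain ⟨h1, h2⟩ := aa_eq h'
      refine ⟨?_, s', h2⟩
      intro c' hc'
      have hc'' : c' ∈ ([c] : List Sat.Clause) := hc'
      rw [List.mem_singleton] at hc''
      exact ⟨d, by rw [hc'']; exact h1⟩
  | node a b iha ihb =>
    intro s k h
    have h' : chkT F a s (fun s' => chkT F b s' k) = true := h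
    obtain ⟨h1, s', h2⟩ := iha s _ h'
    obtain ⟨h3, s'', h4⟩ := ihb s' k h2
    refine ⟨?_, s'', h4⟩
    intro c hc
    have hc' : c ∈ (a.flat ++ b.flat : List Sat.Clause) := hc
    rcases List.mem_append.1 hc' with h5 | h5
    · exact h1 c h5
    · exact h3 c h5

end Sound

theorem t_Sound (hCa : S_Ca) (_hOut : S_Out) (hC4 : S_C4) (hCGP : S_CGP) (hCHex : S_CHex)
    (hCZ : S_CZ) (hCMin : S_CMin) (hCCov : S_CCov) (hFix : S_Fix) : S_Sound := by
  intro i j m p Hd hR h0 hi md
  obtain ⟨f, t, n, FM, s, z, w, fl, ds, hf, hft, h⟩ := hR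
  have h' : aa (Nat.beq n (nP i j m)) (aa (Nat.beq s (zS i m)) (aa (Nat.beq z (zN i j m))
    (aa (Nat.beq (Nat.add (nat_lit 9) w) (wE i j m))
    (aa (iff' (Nat.beq m (nat_lit 0)) true (iff' (Nat.beq m (nat_lit 6)) true
      (Nat.ble (nat_lit 3) z)))
    (aa (chkF i j m n fl (nat_lit 0) FM)
      (chkT (chk1 i j m n FM s z w) t ds (fun _ => true))))))) = true := h
  obtain ⟨e1, h'⟩ := Sound.aa_eq h'
  obtain ⟨e2, h'⟩ := Sound.aa_eq h'
  obtain ⟨e3, h'⟩ := Sound.aa_eq h'
  obtain ⟨e4, h'⟩ := Sound.aa_eq h'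
  obtain ⟨e5, h'⟩ := Sound.aa_eq h'
  obtain ⟨e6, h'⟩ := Sound.aa_eq h'
  have hn : n = nP i j m := Nat.eq_of_beq_eq_true e1
  have hs : s = zS i m := Nat.eq_of_beq_eq_true e2
  have hz : z = zN i j m := Nat.eq_of_beq_eq_true e3
  have hw : 9 + w = wE i j m := Nat.eq_of_beq_eq_true e4
  have h3 : m = 0 ∨ m = 6 ∨ 3 ≤ z := by
    rcases Sound.iff_eq e5 with ⟨h1, _⟩ | h1
    · exact Or.inl (Nat.eq_of_beq_eq_true h1)
    · rcases Sound.iff_eq h1 with ⟨h2, _⟩ | h2
      · exact Or.inr (Or.inl (Nat.eq_of_beq_eq_true h2))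
      · exact Or.inr (Or.inr (Nat.le_of_ble_eq_true h2))
  have hfm : ∀ x, bt FM x = 1 → ¬tr p x := by
    refine hFix i j m p Hd fl FM md ?_
    rw [← hn]
    exact e6
  have hall := (Sound.chkT_eq _ t ds _ h').1
  -- the formula is not satisfied by the valuation
  have hns : ¬(val p).satisfies_fmla f := fun hsat => hf (val p) hsat
  apply hns
  refine ⟨fun c hc => ?_⟩
  by_contra hnc
  have hc' : c ∈ t.flat := by rw [← hft]; exact hc
  obtain ⟨d, hd⟩ := hall c hc'
  have hcl : ∀ x, mem x c = true → ¬tr p x := by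
    intro x hx
    obtain ⟨l, hl, e⟩ := Sound.mem_eq x c hx
    rw [e]
    exact (hCa p).2.2 l (Sound.not_sat (val p) c hnc l hl)
  have env : Env i j m n FM s z w p Hd c :=
    ⟨md, h0, hn, hs, hz, hw, h3, hfm, hcl⟩
  rcases Sound.rec_eq hd with ⟨_, k2⟩ | ⟨_, hd⟩
  · exact hCGP i j m n FM s z w p Hd c env _ _ _ _ _ _ k2
  rcases Sound.rec_eq hd with ⟨_, k3⟩ | ⟨_, hd⟩
  · exact hCHex i j m n FM s z w p Hd c env _ _ _ _ k3
  rcases Sound.rec_eq hd with ⟨_, k6⟩ | ⟨_, hd⟩
  · exact (hCMin i j m n FM s z w p Hd c env _ _ _).1 k6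
  rcases Sound.rec_eq hd with ⟨_, k4⟩ | ⟨_, hd⟩
  · have hm : m = 2 ∨ m = 3 := by
      have g1 := (Sound.aa_eq (Sound.aa_eq (Sound.aa_eq k4).2).2).1
      rcases Sound.iff_eq g1 with ⟨g2, _⟩ | g2
      · exact Or.inl (Nat.eq_of_beq_eq_true g2)
      · exact Or.inr (Nat.eq_of_beq_eq_true g2)
    have hi3 : 3 ≤ i := by omega
    exact hCZ i j m n FM s z w p Hd c env hi3 _ _ _ k4
  rcases Sound.rec_eq hd with ⟨_, k7⟩ | ⟨_, hd⟩
  · have hi3 : 3 ≤ i := by
      have g1 := Sound.aa_eq (Sound.aa_eq k7).2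
      have g2 := Nat.le_of_ble_eq_true g1.1
      have g3 := Nat.le_of_ble_eq_true (Sound.aa_eq g1.2).1
      have g4 : 1 ≤ dg d 8 := g2
      have g5 : dg d 8 + 2 ≤ i := g3
      omega
    exact (hCMin i j m n FM s z w p Hd c env _ _ _).2 hi3 k7
  rcases Sound.rec_eq hd with ⟨_, k1⟩ | ⟨_, hd⟩
  · exact hC4 i j m n FM s z w p Hd c env _ _ _ _ k1
  · exact hCCov i j m n FM s z w p Hd c env _ _ (Sound.aa_eq hd).2

end Pool.BK5
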