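import Pool.Agent.BK5.StmtsD
import Pool.Agent.BK5.Sound

/-!
MP_70b73c_co, 5-blocked sets, part D, module SoundB: soundness of the clause checker of part B and
the certificates of part B.
-/

set_option autoImplicit false

namespace Pool.BK5

namespace SoundB

theorem ite_rec (x y ty : ℕ) :
    (Bool.rec x y (Nat.beq ty (nat_lit 2)) : ℕ) = if ty = 2 then y else x := by
  by_cases h : ty = 2
  · rw [if_pos h, h]
    rfl
  · rw [if_neg h]
    have h1 : Nat.beq ty (nat_lit 2) = false := by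
      cases hb : Nat.beq ty (nat_lit 2) with
      | false => rfl
      | true => exact absurd (Nat.eq_of_beq_eq_true hb) h
    rw [h1]

end SoundB

theorem t_SoundB (hDec : S_Dec) (hDCube : S_DCube) (hDG : S_DG) (hDS : S_DS) (hDH : S_DH)
    (hDX : S_DX) (hDFix : S_DFix) : S_SoundB := by
  intro n k ty p col E hR be
  obtain ⟨f, t, FM, B0, B1, B2, B3, B4, fl, ds, hf, hft, h⟩ := hR
  have h' : aa (Nat.beq B0 (Nat.mul (nat_lit 2) (t3d n)))
    (aa (Nat.beq B1 (Nat.add B0 (Nat.mul (nat_lit 10) n)))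
    (aa (Nat.beq B2 (Nat.add B1 (t2d n)))
    (aa (Nat.beq B3 (Bool.rec B2 (Nat.add B2 (t3d n)) (Nat.beq ty (nat_lit 2))))
    (aa (Nat.beq B4 (Nat.add B3 (Nat.mul (nat_lit 16) (Nat.succ n))))
    (aa (chkFB n k ty B0 B1 B3 B4 fl (nat_lit 0) FM)
      (chkT (chkB1 n k ty FM B0 B1 B2 B3 B4) t ds (fun _ => true))))))) = true := h
  obtain ⟨g0, h'⟩ := Sound.aa_eq h'
  obtain ⟨g1, h'⟩ := Sound.aa_eq h'
  obtain ⟨g2, h'⟩ := Sound.aa_eq h'
  obtain ⟨g3, h'⟩ := Sound.aa_eq h'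
  obtain ⟨g4, h'⟩ := Sound.aa_eq h'
  obtain ⟨g5, h'⟩ := Sound.aa_eq h'
  obtain ⟨d0, d1, d2, d3, d4, _, _, _, _, _, _, _, dl⟩ := hDec n ty p col E
  have e0 : B0 = 2 * ix0 n := by
    have a0 : B0 = 2 * t3d n := Nat.eq_of_beq_eq_true g0
    rw [a0, d0]
  have e1 : B1 = 2 * ix1 n := by
    have a1 : B1 = B0 + 10 * n := Nat.eq_of_beq_eq_true g1
    rw [a1, d1, e0]
  have e2 : B2 = 2 * ix2 n := by
    have a2 : B2 = B1 + t2d n := Nat.eq_of_beq_eq_true g2
    rw [a2, d2, e1]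
  have e3 : B3 = 2 * ix3 n ty := by
    have a3 : B3 = (Bool.rec B2 (B2 + t3d n) (Nat.beq ty (nat_lit 2)) : ℕ) :=
      Nat.eq_of_beq_eq_true g3
    rw [a3, d3, SoundB.ite_rec, e2]
    by_cases hty : ty = 2
    · rw [if_pos hty, if_pos hty]
    · rw [if_neg hty, if_neg hty, add_zero]
  have e4 : B4 = 2 * ix4 n ty := by
    have a4 : B4 = B3 + 16 * (n + 1) := Nat.eq_of_beq_eq_true g4
    rw [a4, d4, e3]
  have hfm : ∀ x, bt FM x = 1 → ¬trB n ty p col E x := by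
    refine hDFix n k ty p col E fl FM be ?_
    rw [← e0, ← e1, ← e3, ← e4]
    exact g5
  have hall := (Sound.chkT_eq _ t ds _ h').1
  -- the formula is not satisfied by the valuation
  have hns : ¬(valB n ty p col E).satisfies_fmla f := fun hsat => hf (valB n ty p col E) hsat
  apply hns
  refine ⟨fun c hc => ?_⟩
  by_contra hnc
  have hc' : c ∈ t.flat := by rw [← hft]; exact hc
  obtain ⟨d, hd⟩ := hall c hc'
  have hcl : ∀ x, mem x c = true → ¬trB n ty p col E x := by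
    intro x hx
    obtain ⟨l, hl, e⟩ := Sound.mem_eq x c hx
    rw [e]
    exact dl l (Sound.not_sat (valB n ty p col E) c hnc l hl)
  have env : EnvB n k ty FM B0 B1 B2 B3 B4 p col E c :=
    ⟨be, e0, e1, e2, e3, e4, hfm, hcl⟩
  rcases Sound.rec_eq hd with ⟨_, k1⟩ | ⟨_, hd⟩
  · exact hDCube n k ty FM B0 B1 B2 B3 B4 p col E c env _ _ _ _ _ k1
  rcases Sound.rec_eq hd with ⟨_, k2⟩ | ⟨_, hd⟩
  · exact hDG n k ty FM B0 B1 B2 B3 B4 p col E c env _ _ _ _ k2
  rcases Sound.rec_eq hd with ⟨_, k3⟩ | ⟨_, hd⟩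
  · obtain ⟨k3a, k3b⟩ := Sound.aa_eq k3
    exact hDH n k ty FM B0 B1 B2 B3 B4 p col E c env (Nat.eq_of_beq_eq_true k3a) _ _ _ _ _ k3b
  rcases Sound.rec_eq hd with ⟨_, k4⟩ | ⟨_, hd⟩
  · exact hDS n k ty FM B0 B1 B2 B3 B4 p col E c env _ _ _ k4
  · obtain ⟨k5a, k5b⟩ := Sound.aa_eq hd
    exact hDX n k ty FM B0 B1 B2 B3 B4 p col E c env (Nat.eq_of_beq_eq_true k5a) _ _ _ _ k5b

theorem t_DCerts (hSoundB : S_SoundB) : S_DCerts := by
  intro h1 h2 h3
  refine ⟨?_, ?_, ?_⟩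
  · intro p col hb
    exact hSoundB 13 4 0 p col ∅ h1 ⟨hb, by omega, by omega, by omega, by omega,
      fun h => absurd h (by omega), fun h => absurd h (by omega)⟩
  · intro p col E hb hE hi hX
    exact hSoundB 12 4 1 p col E h2 ⟨hb, by omega, by omega, by omega, by omega,
      fun _ => ⟨hE, fun i hiE => ⟨(hi i hiE).1, (hi i hiE).2, hX i hiE⟩⟩,
      fun h => absurd h (by omega)⟩
  · intro n p col hn hm
    exact hSoundB n 5 2 p col ∅ (h3 n hm.n7 hn) ⟨hm.b, by omega, by omega, hm.n7, by omega,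
      fun h => absurd h (by omega), fun _ => ⟨rfl, hm⟩⟩

end Pool.BK5
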