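import Pool.Agent.BK5.StmtsG

/-!
MP_70b73c_co, 5-blocked sets: tangent points.
-/

set_option autoImplicit false

namespace Pool.BK5

namespace Tan

theorem D_swap (o x y : Pt) : D o x y = -D o y x := by
  unfold D
  ring

/-- A minimal element of a finite set for a relation which is total and transitive on it. -/
theorem exists_min (P : Pt → Prop) (R : Pt → Pt → Prop)
    (htr : ∀ x y z, P x → P y → P z → R x y → R y z → R x z) :
    ∀ T : Finset Pt, T.Nonempty → (∀ x ∈ T, P x) →
      (∀ x ∈ T, ∀ y ∈ T, x ≠ y → R x y ∨ R y x) → ∃ r ∈ T, ∀ x ∈ T, x ≠ r → R r x := by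
  intro T hT
  induction hT using Finset.Nonempty.cons_induction with
  | singleton a =>
    intro _ _
    refine ⟨a, Finset.mem_singleton_self a, ?_⟩
    intro x hx hxa
    exact absurd (Finset.mem_singleton.1 hx) hxa
  | cons a s ha hs ih =>
    intro hP htot
    have hPs : ∀ x ∈ s, P x := fun x hx => hP x (Finset.mem_cons.2 (Or.inr hx))
    have hPa : P a := hP a (Finset.mem_cons.2 (Or.inl rfl))
    obtain ⟨r, hr, hmin⟩ := ih hPs (fun x hx y hy =>
      htot x (Finset.mem_cons.2 (Or.inr hx)) y (Finset.mem_cons.2 (Or.inr hy)))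
    have hne : a ≠ r := fun h => ha (h ▸ hr)
    rcases htot a (Finset.mem_cons.2 (Or.inl rfl)) r (Finset.mem_cons.2 (Or.inr hr)) hne with h | h
    · refine ⟨a, Finset.mem_cons.2 (Or.inl rfl), ?_⟩
      intro x hx hxa
      rcases Finset.mem_cons.1 hx with hx' | hx'
      · exact absurd hx' hxa
      · by_cases hxr : x = r
        · rw [hxr]; exact h
        · exact htr a r x hPa (hPs r hr) (hPs x hx') h (hmin x hx' hxr)
    · refine ⟨r, Finset.mem_cons.2 (Or.inr hr), ?_⟩
      intro x hx hxr
      rcases Finset.mem_cons.1 hx with hx' | hx'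
      · rw [hx']; exact h
      · exact hmin x hx' hxr

end Tan

open Tan in
/-- A10. -/
theorem t_Tan (hTrans : S_Trans) : S_Tan := by
  intro T o α β hT hpos hne
  have htot : ∀ x ∈ T, ∀ y ∈ T, x ≠ y → 0 < D o x y ∨ 0 < D o y x := by
    intro x hx y hy hxy
    rcases lt_or_gt_of_ne (hne x hx y hy hxy) with h | h
    · right
      rw [D_swap]
      linarith
    · exact Or.inl h
  constructor
  · exact exists_min (fun x => 0 < α * (x.1 - o.1) + β * (x.2 - o.2)) (fun x y => 0 < D o x y)
      (fun x y z hx hy hz h1 h2 => (hTrans o x y z α β hx hy hz).1 h1 h2) T hT hpos htot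
  · refine exists_min (fun x => 0 < α * (x.1 - o.1) + β * (x.2 - o.2)) (fun x y => 0 < D o y x)
      (fun x y z hx hy hz h1 h2 => (hTrans o z y x α β hz hy hx).1 h2 h1) T hT hpos ?_
    intro x hx y hy hxy
    exact (htot x hx y hy hxy).symm

end Pool.BK5
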