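import Pool.Agent.BK5.StmtsG

set_option autoImplicit false

namespace Pool.BK5

namespace UV

/-- Reflection in the first coordinate axis. -/
def refl (a : Pt) : Pt := (a.1, -a.2)

lemma refl_refl (a : Pt) : refl (refl a) = a := by
  simp [refl]

lemma D_refl (a b c : Pt) : D (refl a) (refl b) (refl c) = -D a b c := by
  simp only [D, refl]; ring

lemma D_cyc (a b c : Pt) : D a b c = D b c a := by
  simp only [D]; ring

lemma D_swap (a b c : Pt) : D a c b = -D a b c := by
  simp only [D]; ring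

/-- The tangent point on the other side. -/
lemma tan_left (hTan : S_Tan) (T : Finset Pt) (o : Pt) (α β : ℝ) (hT : T.Nonempty)
    (h1 : ∀ x ∈ T, 0 < α * (x.1 - o.1) + β * (x.2 - o.2))
    (h2 : ∀ x ∈ T, ∀ y ∈ T, x ≠ y → D o x y ≠ 0) :
    ∃ r ∈ T, ∀ x ∈ T, x ≠ r → 0 < D o x r := by
  classical
  obtain ⟨r, hr, hr'⟩ := (hTan (T.image refl) (refl o) α (-β) (hT.image _) (by
      intro x hx
      obtain ⟨y, hy, rfl⟩ := Finset.mem_image.1 hx
      have := h1 y hy
      simp only [refl]
      linarith) (by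
      intro x hx y hy hxy
      obtain ⟨x', hx', rfl⟩ := Finset.mem_image.1 hx
      obtain ⟨y', hy', rfl⟩ := Finset.mem_image.1 hy
      rw [D_refl]
      exact neg_ne_zero.2 (h2 x' hx' y' hy' (fun h => hxy (by rw [h]))))).1
  obtain ⟨s, hs, rfl⟩ := Finset.mem_image.1 hr
  refine ⟨s, hs, fun x hx hxs => ?_⟩
  have := hr' (refl x) (Finset.mem_image_of_mem _ hx) (fun h => hxs (by
    rw [← refl_refl x, h, refl_refl]))
  rw [D_refl] at this
  rw [D_swap]
  exact this

end UV

open Pool.BK5.UV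

theorem t_UV (hTan : S_Tan) : S_UV := by
  classical
  intro S H i I j J U hC hU
  have hne : U.Nonempty := Finset.card_pos.1 (by omega)
  obtain ⟨s0, hs0⟩ := hne
  have hi : 3 ≤ i := (hC.inI s0 (Or.inr hs0)).1
  have hI0 : I 0 ∈ S := (hC.hI 0 (by omega)).1
  have hpos : ∀ x ∈ U, 0 < D (I 0) (I 1) x := by
    intro x hx
    have := (hC.inI x (Or.inr hx)).2 0 (by omega)
    rwa [Nat.zero_add, Nat.mod_eq_of_lt (by omega)] at this
  have hneI : ∀ x ∈ U, I 0 ≠ x := by
    intro x hx h
    have := hpos x hx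
    rw [← h] at this
    simp [D] at this
  obtain ⟨t, ht, ht'⟩ := tan_left hTan U (I 0) (-((I 1).2 - (I 0).2)) ((I 1).1 - (I 0).1) ⟨s0, hs0⟩
    (by
      intro x hx
      have := hpos x hx
      simp only [D] at this
      linarith)
    (fun x hx y hy hxy => hC.gp _ hI0 _ (hC.hU x hx).1 _ (hC.hU y hy).1 (hneI x hx) (hneI y hy) hxy)
  have hne2 : (U.erase t).Nonempty := by
    apply Finset.card_pos.1
    rw [Finset.card_erase_of_mem ht]
    omega
  obtain ⟨v, hv, hv'⟩ := (hTan (U.erase t) t (-((I 0).2 - t.2)) ((I 0).1 - t.1) hne2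
    (by
      intro x hx
      have h1 := ht' x (Finset.mem_of_mem_erase hx) (Finset.ne_of_mem_erase hx)
      simp only [D] at h1
      linarith)
    (fun x hx y hy hxy => hC.gp _ (hC.hU t ht).1 _ (hC.hU x (Finset.mem_of_mem_erase hx)).1 _
      (hC.hU y (Finset.mem_of_mem_erase hy)).1 (Finset.ne_of_mem_erase hx).symm
      (Finset.ne_of_mem_erase hy).symm hxy)).1
  refine ⟨t, ht, v, Finset.mem_of_mem_erase hv, (Finset.ne_of_mem_erase hv).symm, ?_, ?_⟩
  · rw [D_cyc, D_cyc]
    exact ht' v (Finset.mem_of_mem_erase hv) (Finset.ne_of_mem_erase hv)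
  · intro w hw
    by_cases h1 : w = t
    · subst h1
      simp only [D]
      nlinarith
    by_cases h2 : w = v
    · subst h2
      simp only [D]
      nlinarith
    exact (hv' w (Finset.mem_erase.2 ⟨h1, hw⟩) h2).le

end Pool.BK5
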