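import Pool.Agent.BK5.StmtsC

/-!
MP_70b73c_co, 5-blocked sets, part C, K9: the cone over a layer edge.
-/

set_option autoImplicit false

namespace Pool.BK5

namespace ZGeo

/-- An affine function which is nonnegative at `P`, `Q` and positive at `t` is positive at every
point strictly inside the triangle `t, P, Q`. -/
theorem tri_pos {A B t P Q w : Pt} (h1 : 0 < D P Q w) (h2 : 0 < D Q t w) (h3 : 0 < D t P w)
    (hP : 0 ≤ D A B P) (hQ : 0 ≤ D A B Q) (ht : 0 < D A B t) : 0 < D A B w := by
  have hid : (D P Q w + D Q t w + D t P w) * D A B w =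
      D P Q w * D A B t + D Q t w * D A B P + D t P w * D A B Q := by
    simp only [D]
    ring
  have hs : 0 < D P Q w + D Q t w + D t P w := by linarith
  have hr : 0 < (D P Q w + D Q t w + D t P w) * D A B w := by
    rw [hid]
    have e1 := mul_pos h1 ht
    have e2 := mul_nonneg h2.le hP
    have e3 := mul_nonneg h3.le hQ
    linarith
  exact (mul_pos_iff_of_pos_left hs).1 hr

theorem D_self_left (a b : Pt) : D a b a = 0 := by
  simp only [D]
  ring

theorem D_self_right (a b : Pt) : D a b b = 0 := by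
  simp only [D]
  ring

theorem D_rot (a b c : Pt) : D a b c = D b c a := by
  simp only [D]
  ring

theorem D_swap (a b c : Pt) : D b a c = -D a b c := by
  simp only [D]
  ring

end ZGeo

open ZGeo in
theorem t_ZGeo (hSep : S_Sep) (hPoly : S_Poly) (hStar : S_Star) : S_ZGeo := by
  classical
  intro i j m p Hd z e a b c hM hm hi hj hz hzn he ha hb hc _ _ _ x hx0 hx1 hx2 hx3 hx4 hs1 hs2 hs3
    hzA hzQ
  -- the modes
  have hm5 : m ≠ 5 := by rcases hm with h | h <;> omega
  have hzN : zN i j m = j := if_neg hm5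
  have hzS : zS i m = 9 + i := if_neg hm5
  have hm6 : m ≠ 6 := by rcases hm with h | h <;> omega
  have hwE : wE i j m = 9 + i + j := if_neg hm6
  have hnP : 9 + i + j ≤ nP i j m := by
    rw [nP]
    omega
  have hin : ∀ w ∈ Hd, ∀ k, k < j → 0 < D (p (9 + i + k)) (p (9 + i + (k + 1) % j)) w := by
    intro w hw k hk
    have := hM.hin w hw k (by rw [hzN]; exact hk)
    rwa [hzS, hzN] at this
  have hzH : p z ∈ Hd := hM.hz hm z hz hzn
  have hej : (e + 1) % j < j := Nat.mod_lt _ (by omega)
  have hPQ : ∀ w ∈ Hd, 0 < D (p (x 0)) (p (x 4)) w := by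
    intro w hw
    rw [hx0, hx4]
    exact hin w hw e he
  -- the minimal point
  let T : Finset Pt := Hd.filter fun w => w = p z ∨
    (0 < D (p (x 0)) (p (x 4)) w ∧ 0 < D (p (x 4)) (p z) w ∧ 0 < D (p z) (p (x 0)) w)
  have hT : T.Nonempty := ⟨p z, Finset.mem_filter.2 ⟨hzH, Or.inl rfl⟩⟩
  obtain ⟨y, hyT, hymin⟩ := Finset.exists_min_image T (fun w => D (p (x 0)) (p (x 4)) w) hT
  obtain ⟨hyH, hy⟩ := Finset.mem_filter.1 hyT
  have h012 : 0 < D (p (x 0)) (p (x 1)) (p (x 2)) := hs1 2 (by omega) (by omega)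
  have h013 : 0 < D (p (x 0)) (p (x 1)) (p (x 3)) := hs1 3 (by omega) (by omega)
  have h014 : 0 < D (p (x 0)) (p (x 1)) (p (x 4)) := hs1 4 (by omega) (by omega)
  have h023 : 0 < D (p (x 0)) (p (x 2)) (p (x 3)) := hs2 2 (by omega) (by omega)
  have h034 : 0 < D (p (x 0)) (p (x 3)) (p (x 4)) := hs2 3 (by omega) (by omega)
  have h123 : 0 < D (p (x 1)) (p (x 2)) (p (x 3)) := hs3 1 (by omega) (by omega)
  have h234 : 0 < D (p (x 2)) (p (x 3)) (p (x 4)) := hs3 2 (by omega) (by omega)
  have h04z : 0 < D (p (x 0)) (p (x 4)) (p z) := hPQ _ hzH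
  have h04y : 0 < D (p (x 0)) (p (x 4)) y := hPQ _ hyH
  have hyA : 0 < D (p (x 0)) (p (x 1)) y := by
    have hzA' : 0 < D (p (x 0)) (p (x 1)) (p z) := by rwa [← D_rot]
    rcases hy with rfl | ⟨g1, g2, g3⟩
    · exact hzA'
    · exact tri_pos g1 g2 g3 (D_self_left _ _).ge h014.le hzA'
  have hyQ : 0 < D (p (x 3)) (p (x 4)) y := by
    have hzQ' : 0 < D (p (x 3)) (p (x 4)) (p z) := by rwa [← D_rot]
    rcases hy with rfl | ⟨g1, g2, g3⟩
    · exact hzQ'
    · refine tri_pos g1 g2 g3 ?_ (D_self_right _ _).ge hzQ'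
      rw [← D_rot]
      exact h034.le
  -- the hexagon
  let X : ℕ → Pt := fun k => if k < 5 then p (x k) else y
  have hX : Cv 6 X := by
    refine hStar 6 X ?_ ?_ ?_
    · intro k h2 h6
      interval_cases k
      · exact h012
      · exact h013
      · exact h014
      · exact hyA
    · intro k h1 h6
      obtain rfl | rfl | rfl | rfl : k = 1 ∨ k = 2 ∨ k = 3 ∨ k = 4 := by omega
      · exact h012
      · exact h023
      · exact h034
      · exact h04y
    · intro k h1 h6
      obtain rfl | rfl | rfl : k = 1 ∨ k = 2 ∨ k = 3 := by omega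
      · exact h123
      · exact h234
      · exact hyQ
  have hlab : ∀ k, k < 5 → x k < nP i j m := by
    intro k hk
    interval_cases k
    · rw [hx0]
      omega
    · rw [hx1]
      omega
    · rw [hx2]
      omega
    · rw [hx3]
      omega
    · rw [hx4]
      omega
  -- strictly inside the hexagon and left of `P Q`: inside the triangle
  have hemp : ∀ w ∈ Hd, ¬Ins 6 X w := by
    intro w hw hins
    have g1 : 0 < D (p (x 0)) (p (x 4)) w := hPQ w hw
    have g2 : 0 < D (p (x 4)) y w := hins 4 (by omega)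
    have g3 : 0 < D y (p (x 0)) w := hins 5 (by omega)
    have hwT : w ∈ T := by
      refine Finset.mem_filter.2 ⟨hw, Or.inr ⟨g1, ?_, ?_⟩⟩
      · rcases hy with rfl | ⟨f1, f2, f3⟩
        · exact g2
        · refine tri_pos g1 g2 g3 ?_ (D_self_left _ _).ge f2
          rw [← D_rot]
          exact h04z.le
      · rcases hy with rfl | ⟨f1, f2, f3⟩
        · exact g3
        · refine tri_pos g1 g2 g3 (D_self_right _ _).ge ?_ f3
          rw [D_rot]
          exact h04z.le
    have h1 := hymin w hwT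
    have h2 : D (p (x 0)) (p (x 4)) y = D (p (x 0)) (p (x 4)) w + D (p (x 4)) y w +
        D y (p (x 0)) w := by
      simp only [D]
      ring
    linarith
  obtain ⟨w, h9, hwE', hins⟩ := hM.hex X (fun k hk => by
      by_cases h5 : k < 5
      · exact Or.inl ⟨x k, hlab k h5, if_pos h5⟩
      · refine Or.inr ?_
        have : X k = y := if_neg h5
        rw [this]
        exact hyH) hX hemp
  rw [hwE] at hwE'
  have i0 : 0 < D (p (x 0)) (p (x 1)) (p w) := hins 0 (by omega)
  have i1 : 0 < D (p (x 1)) (p (x 2)) (p w) := hins 1 (by omega)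
  have i2 : 0 < D (p (x 2)) (p (x 3)) (p w) := hins 2 (by omega)
  have i3 : 0 < D (p (x 3)) (p (x 4)) (p w) := hins 3 (by omega)
  have i4 : 0 < D (p (x 4)) y (p w) := hins 4 (by omega)
  have i5 : 0 < D y (p (x 0)) (p w) := hins 5 (by omega)
  have hPl := hPoly j (fun k => p (9 + i + k)) hj hM.cJ
  by_cases hw : w < 9 + i
  · refine ⟨w, h9, hw, ?_⟩
    -- `w` is a vertex of `I`
    obtain ⟨r, hr, rfl⟩ : ∃ r, r < i ∧ w = 9 + r := ⟨w - 9, by omega, by omega⟩
    have hne : D (p (x 0)) (p (x 4)) (p (9 + r)) ≠ 0 := by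
      refine hM.gp _ _ _ (hlab 0 (by omega)) (hlab 4 (by omega)) (by omega) ?_ ?_ ?_
      · rw [hx0, hx4]
        intro h
        have h1 : e = (e + 1) % j := by omega
        by_cases h2 : e + 1 < j
        · rw [Nat.mod_eq_of_lt h2] at h1
          omega
        · have h3 : e + 1 = j := by omega
          rw [h3, Nat.mod_self] at h1
          omega
      · rw [hx0]
        omega
      · rw [hx4]
        omega
    have hlt : D (p (x 0)) (p (x 4)) (p (9 + r)) < 0 := by
      refine lt_of_le_of_ne (not_lt.1 fun hpos => ?_) hne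
      have q1 : 0 < D (p (9 + r)) (p (9 + (r + 1) % i)) (p (x 0)) := by
        rw [hx0]
        exact hM.inI hi r _ hr (by omega) (by omega)
      have q2 : 0 < D (p (9 + r)) (p (9 + (r + 1) % i)) (p (x 4)) := by
        rw [hx4]
        exact hM.inI hi r _ hr (by omega) (by omega)
      have hAB : p (9 + r) ≠ p (9 + (r + 1) % i) := by
        intro h
        rw [← h] at q1
        have : D (p (9 + r)) (p (9 + r)) (p (x 0)) = 0 := by
          simp only [D]
          ring
        rw [this] at q1
        exact lt_irrefl _ q1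
      have q3 : 0 < D (p (9 + r)) (p (9 + (r + 1) % i)) y := by
        refine (hSep j (fun k => p (9 + i + k)) y _ _ hAB (by omega) ?_).1 ?_
        · intro k hk
          exact hin y hyH k hk
        · intro k hk
          exact (hM.inI hi r _ hr (by omega) (by omega)).le
      have h0 := tri_pos hpos i4 i5 q1.le q2.le q3
      rw [D_self_left] at h0
      exact lt_irrefl _ h0
    intro q hq
    interval_cases q
    · exact i0
    · exact i1
    · exact i2
    · exact i3
    · show 0 < D (p (x 4)) (p (x 0)) (p (9 + r))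
      rw [D_swap]
      linarith
  · exfalso
    obtain ⟨r, hr, rfl⟩ : ∃ r, r < j ∧ w = 9 + i + r := ⟨w - 9 - i, by omega, by omega⟩
    have hr0 : r ≠ e := by
      rintro rfl
      rw [hx0] at i0
      rw [D_self_left] at i0
      exact lt_irrefl _ i0
    have hr4 : r ≠ (e + 1) % j := by
      rintro rfl
      rw [hx4] at i3
      rw [D_self_right] at i3
      exact lt_irrefl _ i3
    have hpos : 0 < D (p (x 0)) (p (x 4)) (p (9 + i + r)) := by
      rw [hx0, hx4]
      exact (hPl e r he hr).1 hr0 hr4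
    have q1 : 0 ≤ D (p (9 + i + r)) (p (9 + i + (r + 1) % j)) (p (x 0)) := by
      rw [hx0]
      exact (hPl r e hr he).2.1
    have q2 : 0 ≤ D (p (9 + i + r)) (p (9 + i + (r + 1) % j)) (p (x 4)) := by
      rw [hx4]
      exact (hPl r _ hr hej).2.1
    have h0 := tri_pos hpos i4 i5 q1 q2 (hin y hyH r hr)
    rw [D_self_left] at h0
    exact lt_irrefl _ h0

end Pool.BK5
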