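import Pool.Agent.BK5.Aff
import Pool.Agent.BK5.Star
import Pool.Agent.BK5.Rot
import Pool.Agent.BK5.Poly
import Pool.Agent.BK5.Hull
import Pool.Agent.BK5.Tan
import Pool.Agent.BK5.ES2
import Pool.Agent.BK5.Size
import Pool.Agent.BK5.HexIn
import Pool.Agent.BK5.Mod
import Pool.Agent.BK5.Mod5
import Pool.Agent.BK5.Ctx
import Pool.Agent.BK5.CtxRot
import Pool.Agent.BK5.UV
import Pool.Agent.BK5.Gerken
import Pool.Agent.BK5.No4
import Pool.Agent.BK5.Lex
import Pool.Agent.BK5.Sort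
import Pool.Agent.BK5.Pat
import Pool.Agent.BK5.Btw
import Pool.Agent.BK5.Norm
import Pool.Agent.BK5.BMod
import Pool.Agent.BK5.N4
import Pool.Agent.BK5.H6
import Pool.Agent.BK5.HexR
import Pool.Agent.BK5.HMod
import Pool.Agent.BK5.NoHex
import Pool.Agent.BK5.Final2
import Pool.Agent.BK5.Ca
import Pool.Agent.BK5.StOut
import Pool.Agent.BK5.Lst
import Pool.Agent.BK5.C4GP
import Pool.Agent.BK5.Hid
import Pool.Agent.BK5.CHex
import Pool.Agent.BK5.ZGeo
import Pool.Agent.BK5.CZ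
import Pool.Agent.BK5.ChGeo
import Pool.Agent.BK5.CMin
import Pool.Agent.BK5.CovFix
import Pool.Agent.BK5.Sound
import Pool.Agent.BK5.Dec
import Pool.Agent.BK5.DLp
import Pool.Agent.BK5.DCube
import Pool.Agent.BK5.DG
import Pool.Agent.BK5.DSX
import Pool.Agent.BK5.DH
import Pool.Agent.BK5.DFix
import Pool.Agent.BK5.SoundB
import Pool.Agent.BK5.CertsG
import Pool.Agent.BK5.CertsB

/-!
MP_70b73c_co: every 5-blocked point set has at most 8585 points (assembly).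
-/

set_option autoImplicit false

namespace Pool.BK5

theorem hull : S_Hull := t_Hull t_Trans t_Turn t_Star
theorem hexIn : S_HexIn := t_HexIn t_Sep t_Poly
theorem tan : S_Tan := t_Tan t_Trans

theorem gerken_of (hC : Certs) : ∀ S : Finset Pt, GenP S →
    (∃ X : ℕ → Pt, (∀ k, k < 9 → X k ∈ S) ∧ Cv 9 X) → EHex S :=
  t_Gerken t_Rot tan (t_Ctx t_Sep t_Poly hull) (t_Size t_Sep t_Poly) (t_CtxRot t_Rot)
    (t_Mod t_Sep t_Poly hexIn) (t_Mod5 t_Sep t_Poly hexIn) (t_UV tan) hC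

theorem out' : S_Out := t_Out t_Ca
theorem lst' : S_Lst := t_Lst t_St out'

theorem sound : S_Sound :=
  t_Sound t_Ca out' (t_C4 t_Ca t_St out') (t_CGP t_Ca t_St out')
    (t_CHex t_St out' lst' t_Star (t_Hid t_Sep t_Poly))
    (t_CZ t_St out' lst' (t_ZGeo t_Sep t_Poly t_Star))
    (t_CMin out' lst' (t_ChGeo t_Trans t_Star t_Poly))
    (t_CCov t_Ca t_St out') (t_Fix t_Ca t_St out')

theorem dLp : S_DLp := t_DLp t_St

theorem soundB : S_SoundB :=
  t_SoundB t_Dec (t_DCube t_Dec dLp t_DOut) (t_DG t_St t_Dec dLp t_DOut)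
    (t_DS t_Dec dLp t_DOut) (t_DH t_St t_Dec dLp t_DOut) (t_DX t_Dec dLp t_DOut) (t_DFix t_Dec)

/-- Gerken's theorem. -/
theorem gerken : ∀ S : Finset Pt, GenP S →
    (∃ X : ℕ → Pt, (∀ k, k < 9 → X k ∈ S) ∧ Cv 9 X) → EHex S :=
  gerken_of (certs_of sound)

theorem bcerts : BCerts := bcerts_of (t_DCerts soundB)

theorem bMod : S_BMod := t_BMod t_No4 t_Sort t_Pat t_Btw t_Norm
theorem hexR : S_HexR := t_HexR t_No4 t_Cl3 t_Conv
theorem noHex : S_NoHex :=
  t_NoHex (t_N4 (t_Lex t_Conv) bMod) (t_H6 bMod) hexR (t_HMod t_No4 t_Cl3 bMod hexR)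

/-- Every 5-blocked set has at most 8585 points. -/
theorem main (P : Finset Pt) (c : Pt → Fin 5) (h : Blk 5 P c) : P.card ≤ 8585 :=
  t_Final2 t_Cl3 noHex bcerts gerken (t_ES2 t_Trans t_Turn t_Star) P c h

end Pool.BK5
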