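import Pool.Agent.BK5.StmtsB

/-!
MP_70b73c_co, 5-blocked sets: radial sorting about a point (module BK5_Sort).
-/

set_option autoImplicit false

namespace Pool.BK5

namespace SortAux

/-- the positive linear form -/
def g (o : Pt) (α β : ℝ) (x : Pt) : ℝ := α * (x.1 - o.1) + β * (x.2 - o.2)

/-- the rotated linear form -/
def h (o : Pt) (α β : ℝ) (x : Pt) : ℝ := -β * (x.1 - o.1) + α * (x.2 - o.2)

lemma sq_pos_of {o : Pt} {α β : ℝ} {x : Pt} (hx : 0 < g o α β x) : 0 < α ^ 2 + β ^ 2 := by
  rcases eq_or_ne α 0 with ha | ha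
  · rcases eq_or_ne β 0 with hb | hb
    · subst ha hb
      simp [g] at hx
    · positivity
  · positivity

lemma D_eq (o : Pt) (α β : ℝ) (x y : Pt) :
    (α ^ 2 + β ^ 2) * D o x y = g o α β x * h o α β y - h o α β x * g o α β y := by
  unfold D g h
  ring

/-- the sorting key -/
noncomputable def key (o : Pt) (α β : ℝ) (x : Pt) : ℝ ×ₗ ℝ :=
  toLex (h o α β x / g o α β x, g o α β x)

lemma fst_eq (o : Pt) (α β : ℝ) (x : Pt) :
    (α ^ 2 + β ^ 2) * (x.1 - o.1) = α * g o α β x - β * h o α β x := by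
  unfold g h; ring

lemma snd_eq (o : Pt) (α β : ℝ) (x : Pt) :
    (α ^ 2 + β ^ 2) * (x.2 - o.2) = β * g o α β x + α * h o α β x := by
  unfold g h; ring

lemma key_inj {o : Pt} {α β : ℝ} {x y : Pt} (hx : 0 < g o α β x) (hy : 0 < g o α β y)
    (e : key o α β x = key o α β y) : x = y := by
  have e' : (h o α β x / g o α β x, g o α β x) = (h o α β y / g o α β y, g o α β y) :=
    toLex.injective e
  rw [Prod.mk.injEq] at e'
  obtain ⟨e1, e2⟩ := e'
  have e3 : h o α β x = h o α β y := by
    rw [e2] at e1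
    field_simp at e1
    exact e1
  have hs := sq_pos_of hx
  have f1 := fst_eq o α β x
  have f2 := fst_eq o α β y
  have s1 := snd_eq o α β x
  have s2 := snd_eq o α β y
  rw [e2, e3] at f1 s1
  have a1 : (α ^ 2 + β ^ 2) * (x.1 - o.1) = (α ^ 2 + β ^ 2) * (y.1 - o.1) := by rw [f1, f2]
  have a2 : (α ^ 2 + β ^ 2) * (x.2 - o.2) = (α ^ 2 + β ^ 2) * (y.2 - o.2) := by rw [s1, s2]
  have b1 := mul_left_cancel₀ hs.ne' a1
  have b2 := mul_left_cancel₀ hs.ne' a2
  exact Prod.ext (by linarith) (by linarith)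

lemma rw_of_lt {o : Pt} {α β : ℝ} {x y : Pt} (hx : 0 < g o α β x) (hy : 0 < g o α β y)
    (e : key o α β x < key o α β y) : RW o x y := by
  have hs := sq_pos_of hx
  have hD := D_eq o α β x y
  have e' : toLex (h o α β x / g o α β x, g o α β x) < toLex (h o α β y / g o α β y, g o α β y) := e
  rw [Prod.Lex.toLex_lt_toLex] at e'
  rcases e' with e1 | ⟨e1, e2⟩
  · left
    simp only at e1
    rw [div_lt_div_iff₀ hx hy] at e1
    have : 0 < (α ^ 2 + β ^ 2) * D o x y := by rw [hD]; linarith
    exact (pos_iff_pos_of_mul_pos this).1 hs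
  · right
    simp only at e1 e2
    have e3 := e1
    rw [div_eq_div_iff hx.ne' hy.ne'] at e3
    have hD0 : (α ^ 2 + β ^ 2) * D o x y = 0 := by rw [hD]; linarith
    refine ⟨(mul_eq_zero.1 hD0).resolve_left hs.ne', ?_⟩
    rw [openSegment_eq_image]
    refine ⟨g o α β x / g o α β y, ⟨by positivity, by rw [div_lt_one hy]; exact e2⟩, ?_⟩
    set t := g o α β x / g o α β y with ht
    have t1 : g o α β x = t * g o α β y := by rw [ht]; field_simp
    have t2 : h o α β x = t * h o α β y := by
      rw [ht]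
      field_simp
      linarith
    have f1 := fst_eq o α β x
    have f2 := fst_eq o α β y
    have s1 := snd_eq o α β x
    have s2 := snd_eq o α β y
    have a1 : (α ^ 2 + β ^ 2) * (x.1 - o.1) = (α ^ 2 + β ^ 2) * (t * (y.1 - o.1)) := by
      rw [f1, t1, t2]
      linear_combination (-t) * f2
    have a2 : (α ^ 2 + β ^ 2) * (x.2 - o.2) = (α ^ 2 + β ^ 2) * (t * (y.2 - o.2)) := by
      rw [s1, t1, t2]
      linear_combination (-t) * s2
    have b1 := mul_left_cancel₀ hs.ne' a1
    have b2 := mul_left_cancel₀ hs.ne' a2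
    refine Prod.ext ?_ ?_
    · show (1 - t) * o.1 + t * y.1 = x.1
      linarith
    · show (1 - t) * o.2 + t * y.2 = x.2
      linarith

end SortAux

open SortAux in
theorem t_Sort : S_Sort := by
  intro Q o α β hQ
  classical
  have hg : ∀ x ∈ Q, 0 < g o α β x := hQ
  let T : Finset (ℝ ×ₗ ℝ) := Q.image (key o α β)
  have hT : T.card = Q.card := by
    apply Finset.card_image_of_injOn
    intro x hx y hy e
    exact key_inj (hg x hx) (hg y hy) e
  let e := T.orderEmbOfFin hT
  have he : ∀ i, ∃ x, x ∈ Q ∧ key o α β x = e i := by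
    intro i
    have := T.orderEmbOfFin_mem hT i
    obtain ⟨x, hx, hx'⟩ := Finset.mem_image.1 this
    exact ⟨x, hx, hx'⟩
  choose X hX hX' using he
  let p : ℕ → Pt := fun n => if hn : 0 < n ∧ n - 1 < Q.card then X ⟨n - 1, hn.2⟩ else o
  have pn : ∀ n, (h1 : 0 < n) → (h2 : n ≤ Q.card) → p n = X ⟨n - 1, by omega⟩ := by
    intro n h1 h2
    have : 0 < n ∧ n - 1 < Q.card := ⟨h1, by omega⟩
    simp only [p, dif_pos this]
  have p0 : p 0 = o := by simp [p]
  have ho : ∀ x ∈ Q, x ≠ o := by
    intro x hx hxo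
    have := hg x hx
    subst hxo
    simp [g] at this
  have lt : ∀ i j, 0 < i → i < j → j ≤ Q.card → key o α β (p i) < key o α β (p j) := by
    intro i j h1 h2 h3
    rw [pn i h1 (by omega), pn j (by omega) h3, hX', hX']
    apply (OrderEmbedding.lt_iff_lt e).2
    rw [Fin.mk_lt_mk]
    omega
  refine ⟨p, p0, ?_, ?_, ?_, ?_⟩
  · intro i h1 h2
    rw [pn i h1 h2]
    exact hX _
  · intro x hx
    have hxT : key o α β x ∈ T := Finset.mem_image_of_mem _ hx
    have : key o α β x ∈ Set.range e := by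
      rw [Finset.range_orderEmbOfFin]
      exact hxT
    obtain ⟨i, hi⟩ := this
    refine ⟨i.1 + 1, by omega, by omega, ?_⟩
    rw [pn (i.1 + 1) (by omega) (by omega)]
    have : X i = x := by
      apply key_inj (hg _ (hX i)) (hg x hx)
      rw [hX', hi]
    simpa using this
  · intro i j hi hj hij
    rcases Nat.eq_zero_or_pos i with i0 | i0
    · rcases Nat.eq_zero_or_pos j with j0 | j0
      · omega
      · exfalso
        rw [i0, p0, pn j j0 hj] at hij
        exact ho _ (hX _) hij.symm
    · rcases Nat.eq_zero_or_pos j with j0 | j0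
      · exfalso
        rw [j0, p0, pn i i0 hi] at hij
        exact ho _ (hX _) hij
      · rcases lt_trichotomy i j with h1 | h1 | h1
        · have := lt i j i0 h1 hj
          rw [hij] at this
          exact (lt_irrefl _ this).elim
        · exact h1
        · have := lt j i j0 h1 hi
          rw [hij] at this
          exact (lt_irrefl _ this).elim
  · intro i j h1 h2 h3
    have m1 : p i ∈ Q := by rw [pn i h1 (by omega)]; exact hX _
    have m2 : p j ∈ Q := by rw [pn j (by omega) h3]; exact hX _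
    exact rw_of_lt (hg _ m1) (hg _ m2) (lt i j h1 h2 h3)

end Pool.BK5
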