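import Pool.Agent.BK5.Defs

/-!
MP_70b73c_co, 5-blocked sets, part B: blocked sets (statements with proofs in the doc-strings).
`D a b c` is affine in each argument; `D a b c = D b c a`, `D a c b = -D a b c`,
`D a b c = D d b c + D a d c + D a b d` (ring).  `x ∈ openSegment ℝ a b` iff
`x = a + t • (b - a)` for some `0 < t < 1`; then `D a x b = 0`.
-/

set_option autoImplicit false

namespace Pool.BK5

/-- The sixteen sign patterns of the triples `abc, abd, acd, bcd`. -/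
def Pat (w x y z : ℝ) : Prop :=
  (0 < w ∧ 0 < x ∧ 0 < y ∧ 0 < z) ∨ (0 < w ∧ 0 < x ∧ 0 < y ∧ z < 0) ∨
  (0 < w ∧ 0 < x ∧ y < 0 ∧ z < 0) ∨ (0 < w ∧ x < 0 ∧ y < 0 ∧ z < 0) ∨
  (w < 0 ∧ x < 0 ∧ y < 0 ∧ z < 0) ∨ (w < 0 ∧ x < 0 ∧ y < 0 ∧ 0 < z) ∨
  (w < 0 ∧ x < 0 ∧ 0 < y ∧ 0 < z) ∨ (w < 0 ∧ 0 < x ∧ 0 < y ∧ 0 < z) ∨
  (w = 0 ∧ 0 < x ∧ 0 < y ∧ 0 < z) ∨ (w = 0 ∧ x < 0 ∧ y < 0 ∧ z < 0) ∨
  (0 < w ∧ x = 0 ∧ y < 0 ∧ z < 0) ∨ (w < 0 ∧ x = 0 ∧ 0 < y ∧ 0 < z) ∨
  (0 < w ∧ 0 < x ∧ y = 0 ∧ z < 0) ∨ (w < 0 ∧ x < 0 ∧ y = 0 ∧ 0 < z) ∨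
  (0 < w ∧ 0 < x ∧ 0 < y ∧ z = 0) ∨ (w < 0 ∧ x < 0 ∧ y < 0 ∧ z = 0)

/-- No four points of `P` are collinear. -/
def No4 (P : Finset Pt) : Prop :=
  ∀ a ∈ P, ∀ b ∈ P, ∀ x ∈ P, ∀ y ∈ P, a ≠ b → a ≠ x → a ≠ y → b ≠ x → b ≠ y → x ≠ y →
    D a b x = 0 → D a b y ≠ 0

/-- Radial order: `x` before `y` seen from `o` (nearer points first on the same ray). -/
def RW (o x y : Pt) : Prop := 0 < D o x y ∨ (D o x y = 0 ∧ x ∈ openSegment ℝ o y)

/-- Blocked point set in radial order about the point `p 0`; `col` is the normalised colouring. -/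
structure BMod (n k : ℕ) (p : ℕ → Pt) (col : ℕ → ℕ) : Prop where
  pat : ∀ a b c d, a < b → b < c → c < d → d < n →
    Pat (D (p a) (p b) (p c)) (D (p a) (p b) (p d)) (D (p a) (p c) (p d)) (D (p b) (p c) (p d))
  rad : ∀ i j, 0 < i → i < j → j < n → 0 ≤ D (p 0) (p i) (p j)
  radz : ∀ i j, 0 < i → i + 1 < j → j < n → 0 < D (p 0) (p i) (p j)
  clt : ∀ i, i < n → col i < k
  blk : ∀ i j, i < j → j < n → (col i = col j ↔ ∃ m, i < m ∧ m < j ∧ D (p i) (p m) (p j) = 0)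
  norm : ∀ i a, i < n → col i = a + 1 → ∃ m, m < i ∧ col m = a

/-- The points of a 5-blocked set in a closed convex hexagon whose vertices have colour 0 and which
contains no other point of colour 0, in radial order about a vertex of the hexagon. -/
structure HMod (n : ℕ) (p : ℕ → Pt) (col : ℕ → ℕ) : Prop where
  b : BMod n 5 p col
  n7 : 7 ≤ n
  c0 : col 0 = 0
  k1 : col 1 ≠ 0
  k2 : col 2 = 0
  z2 : D (p 0) (p 1) (p 2) = 0
  l1 : col (n - 1) = 0
  l2 : col (n - 2) ≠ 0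
  zl : D (p 0) (p (n - 2)) (p (n - 1)) = 0
  kz : ∀ j, 2 ≤ j → j < n → col j = 0 → col (j - 1) ≠ 0 ∧ D (p 0) (p (j - 1)) (p j) = 0
  zk : ∀ j, 2 ≤ j → j < n → D (p 0) (p (j - 1)) (p j) = 0 → col j = 0
  cv : ∀ i j l, 1 ≤ i → i < j → j < l → l < n → col i = 0 → col j = 0 → col l = 0 →
    0 < D (p i) (p j) (p l)
  ins : ∀ q, 1 ≤ q → q + 1 < n → col q = 0 ∨ col (q + 1) = 0 ∨
    ∃ a b, 2 ≤ a ∧ a < q ∧ q < b ∧ b < n ∧ col a = 0 ∧ col b = 0 ∧ D (p a) (p q) (p b) ≤ 0
  cnt : ((Finset.range n).filter (fun i => col i = 0)).card = 6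

/-- `p i` is extreme with respect to the radial order. -/
def Xt (n : ℕ) (p : ℕ → Pt) (i : ℕ) : Prop :=
  (∀ a b, 1 ≤ a → a < i → i < b → b < n → 0 < D (p a) (p i) (p b)) ∧
    (i + 1 < n → D (p 0) (p i) (p (i + 1)) ≠ 0)

/-- The certificates (proved elsewhere). -/
structure BCerts : Prop where
  n4 : ∀ (p : ℕ → Pt) (col : ℕ → ℕ), ¬BMod 13 4 p col
  h6 : ∀ (p : ℕ → Pt) (col : ℕ → ℕ) (E : Finset ℕ), BMod 12 4 p col → E.card = 5 →
    (∀ i ∈ E, 1 ≤ i ∧ i < 12) → ¬∀ i ∈ E, Xt 12 p i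
  hm : ∀ (n : ℕ) (p : ℕ → Pt) (col : ℕ → ℕ), n ≤ 17 → ¬HMod n p col

/-- B1.  No four collinear points.  Proof.  Suppose the line `L` contains at least 4 points of `P`;
take four consecutive ones `a, b, c, d` on `L` (sort by a coordinate along `L`; no other point of `P`
between `a` and `b`).  `a, b` are visible, so of different colours; `a, c` have the same colour
(blocker `b`), `a, d` too (blocker `b`), `b, d` too (blocker `c`): so `a, b` have the same colour,
contradiction. -/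
def S_No4 : Prop := ∀ (k : ℕ) (P : Finset Pt) (c : Pt → Fin k), Blk k P c → No4 P

/-- B2.  The colour classes are in general position.  Proof.  If `a, b, c` of the same colour are
collinear, `b` between `a` and `c`, then there is a point of `P` between `a` and `b` and one between
`b` and `c`: five collinear points (`S_No4`). -/
def S_Cl3 : Prop :=
  ∀ (k : ℕ) (P : Finset Pt) (c : Pt → Fin k), Blk k P c → ∀ a : Fin k,
    ∀ Q : Finset Pt, (∀ x ∈ Q, x ∈ P ∧ c x = a) → GenP Q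

/-- B3.  Restriction to a convex part. -/
def S_Conv : Prop :=
  ∀ (k : ℕ) (P Q : Finset Pt) (c : Pt → Fin k), Blk k P c → Q ⊆ P →
    (∀ v ∈ Q, ∀ w ∈ Q, ∀ x ∈ P, v ≠ w → x ∈ openSegment ℝ v w → x ∈ Q) → Blk k Q c

/-- B4.  Blocked subsets of every smaller size.  Proof.  The lexicographically first `m` points; a
point between `v` and `w` is lexicographically between them (`S_Conv`). -/
def S_Lex : Prop :=
  ∀ (k : ℕ) (P : Finset Pt) (c : Pt → Fin k) (m : ℕ), Blk k P c → m ≤ P.card →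
    ∃ Q : Finset Pt, Q ⊆ P ∧ Q.card = m ∧ Blk k Q c

/-- B5.  Radial sorting about `o`; all points of `Q` are in an open half plane about `o`.
Proof.  `g x = α (x - o)_1 + β (x - o)_2 > 0`, `h x = -β (x - o)_1 + α (x - o)_2`;
`(α² + β²) D o x y = g x * h y - h x * g y`.  Sort `Q` by the injective key
`(h x / g x, g x) ∈ ℝ ×ₗ ℝ`.  On a ray (`D o x y = 0`, same key `h / g`) `x = o + (g x / g y) (y - o)`. -/
def S_Sort : Prop :=
  ∀ (Q : Finset Pt) (o : Pt) (α β : ℝ),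
    (∀ x ∈ Q, 0 < α * (x.1 - o.1) + β * (x.2 - o.2)) →
    ∃ p : ℕ → Pt, p 0 = o ∧ (∀ i, 0 < i → i ≤ Q.card → p i ∈ Q) ∧
      (∀ x ∈ Q, ∃ i, 0 < i ∧ i ≤ Q.card ∧ p i = x) ∧
      (∀ i j, i ≤ Q.card → j ≤ Q.card → p i = p j → i = j) ∧
      (∀ i j, 0 < i → i < j → j ≤ Q.card → RW o (p i) (p j))

/-- B6.  The sign patterns.  `noC u v x y` for: not all four collinear.
Proof.  `s_xy = D o x y ≥ 0`.  Identities (ring):
`s_ac D abd = s_ab D acd + s_ad D abc`, `s_bd D acd = s_ad D bcd + s_cd D abd`,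
`s_bc D abd = s_ab D bcd + s_bd D abc`, `s_bc D acd = s_ac D bcd + s_cd D abc`.
`s_ac, s_ad, s_bd > 0` and not both `s_ab, s_bc` are zero and not both `s_bc, s_cd` are zero (else
`o` and three of the points are collinear).  `D abc = D bcd = 0` is impossible (`b ≠ c`).
Sign analysis.  Second part (`a = o`): `D b c d = s_cd - s_bd + s_bc`; if `s_bc = 0` then
`b = o + t (c - o)`, `s_bd = t s_cd`; if `s_cd = 0` then `c = o + t (d - o)`, `s_bc = t s_bd`. -/
def S_Pat : Prop :=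
  ∀ (o a b c d : Pt), RW o a b → RW o a c → RW o a d → RW o b c → RW o b d → RW o c d →
    No4 {o, a, b, c, d} → o ≠ a → o ≠ b → o ≠ c → o ≠ d → a ≠ b → a ≠ c → a ≠ d → b ≠ c →
    b ≠ d → c ≠ d →
    Pat (D a b c) (D a b d) (D a c d) (D b c d) ∧ Pat (D o b c) (D o b d) (D o c d) (D b c d)

/-- B7.  The blocker is between the two points in the radial order.  Proof.  (`→`) the blocker `x` is
some `p m`.  `i = 0`: `x` between `o` and `p j`, `D = 0`; if `j < m` then `p j` is between `o` and `x`,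
contradiction.  `i ≥ 1`: if `D o (p i) (p j) = 0` then `o, p i, x, p j` are collinear (`No4`);
otherwise `0 < D o (p i) x` and `0 < D o x (p j)`, so `i < m < j`.  (`←`) `i = 0`: `RW` with `D = 0`.
`i ≥ 1`: `p m = p i + s (p j - p i)`; if one of `D o (p i) (p m)`, `D o (p m) (p j)` is zero then four
collinear points; so both are positive and `0 < s < 1`. -/
def S_Btw : Prop :=
  ∀ (n : ℕ) (p : ℕ → Pt), (∀ i j, i < n → j < n → p i = p j → i = j) →
    (∀ i j, 0 < i → i < j → j < n → RW (p 0) (p i) (p j)) →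
    No4 ((Finset.range n).image p) →
    ∀ i j, i < j → j < n →
      ((∃ m, m < n ∧ p m ∈ openSegment ℝ (p i) (p j)) ↔
        ∃ m, i < m ∧ m < j ∧ D (p i) (p m) (p j) = 0)

/-- B8.  Normalisation of a colouring by first occurrence.  Proof.  `col' i` = number of colours which
occur before the first index of colour `col i` (or induction on `n`). -/
def S_Norm : Prop :=
  ∀ (n k : ℕ) (c : ℕ → Fin k), ∃ col : ℕ → ℕ, (∀ i, i < n → col i < k) ∧
    (∀ i j, i < n → j < n → (col i = col j ↔ c i = c j)) ∧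
    (∀ i a, i < n → col i = a + 1 → ∃ m, m < i ∧ col m = a)

/-- B9.  Blocked sets in radial order about a point `o ∈ P` (`S_No4`, `S_Sort`, `S_Pat`, `S_Btw`,
`S_Norm`).  `radz`: if `D (p 0) (p i) (p j) = 0` and `i < l < j` then `p 0, p i, p l, p j` are
collinear (`RW` and the angular order). -/
def S_BMod : Prop :=
  ∀ (k : ℕ) (P : Finset Pt) (c : Pt → Fin k) (o : Pt) (α β : ℝ), Blk k P c → o ∈ P →
    (∀ x ∈ P, x ≠ o → 0 < α * (x.1 - o.1) + β * (x.2 - o.2)) →
    ∃ (p : ℕ → Pt) (col : ℕ → ℕ), BMod P.card k p col ∧ p 0 = o ∧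
      (∀ i, i < P.card → p i ∈ P) ∧ (∀ x ∈ P, ∃ i, i < P.card ∧ p i = x) ∧
      (∀ i j, i < P.card → j < P.card → p i = p j → i = j) ∧
      (∀ i j, 0 < i → i < j → j < P.card → RW (p 0) (p i) (p j)) ∧
      (∀ i j, i < P.card → j < P.card → (col i = col j ↔ c (p i) = c (p j)))

/-- B10.  `4`-blocked sets.  Proof.  `S_Lex` with `m = 13`; `o` = the lexicographically smallest point
of `Q` (the functional `x + ε y`, `ε > 0` small); `S_BMod` and `BCerts.n4`. -/
def S_N4 : Prop := BCerts → ∀ (P : Finset Pt) (c : Pt → Fin 4), Blk 4 P c → P.card ≤ 12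

/-- B11.  A 4-blocked set of 12 points does not have 6 extreme points.  Proof.  `o = e 0`, functional
`D A B` (linear part; `D A B x = D A B o + linear (x - o)`); `S_BMod`; `E` = the indices of
`e 1, …, e 5`.  For `e l = p i` with its line `A B`: for `a < i < b` the point `p i` satisfies
`0 < D (p a) (p i) (p b)`: `o, p a, p b` are strictly left of `AB` and `e` is on it; in the basis
`p a - o`, `p b - o` ...: `D (p a) (p i) (p b) ≤ 0` together with `0 ≤ D o (p a) (p i)`,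
`0 ≤ D o (p i) (p b)` says that `p i` is in the triangle `o, p a, p b`, so `0 < D A B (p i)`
(barycentric coordinates, `0 < D o (p a) (p b)` by `radz`).  If `D o (p i) (p (i+1)) = 0` then `p i` is
between `o` and `p (i+1)` (`RW`), again `0 < D A B (p i)`. -/
def S_H6 : Prop :=
  BCerts → ∀ (P : Finset Pt) (c : Pt → Fin 4), Blk 4 P c → P.card = 12 →
    ¬∃ e : ℕ → Pt, (∀ k, k < 6 → e k ∈ P) ∧ (∀ k l, k < 6 → l < 6 → e k = e l → k = l) ∧
      ∀ k, k < 6 → ∃ A B : Pt, D A B (e k) = 0 ∧ ∀ x ∈ P, x ≠ e k → 0 < D A B x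

/-- B12.  The hexagon region.  `X` a convex hexagon with vertices in the class `a` of a 5-blocked set
`P` and no point of this class strictly inside; `Q` the points of `P` in the closed hexagon,
`R = Q` without the vertices.  Then (1) `Q` is blocked; (2) the points of `Q` of colour `a` are the six
vertices (a point of colour `a` on an edge would be collinear with its ends, `S_Cl3`); (3) `R` is
blocked with four colours (the vertices of `X` are not between two points of `Q`: `D (X (k-1)) (X k)`,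
`D (X k) (X (k+1))` are `≥ 0` on `Q` and both zero only at `X k`); (4) there are six different points
`e k ∈ R` on the edges (blockers of `X k`, `X (k+1)`) with `R` otherwise strictly left of the edge
(`S_No4`). -/
def S_HexR : Prop :=
  ∀ (P : Finset Pt) (c : Pt → Fin 5) (a : Fin 5) (X : ℕ → Pt), Blk 5 P c →
    (∀ k, k < 6 → X k ∈ P ∧ c (X k) = a) → Cv 6 X → (∀ s ∈ P, c s = a → ¬Ins 6 X s) →
    ∃ Q R : Finset Pt, (∀ s, s ∈ Q ↔ s ∈ P ∧ ∀ k, k < 6 → 0 ≤ D (X k) (X ((k + 1) % 6)) s) ∧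
      Blk 5 Q c ∧ (∀ s ∈ Q, c s = a → ∃ k, k < 6 ∧ s = X k) ∧
      (∀ s, s ∈ R ↔ s ∈ Q ∧ c s ≠ a) ∧ Q.card = R.card + 6 ∧
      (∃ c' : Pt → Fin 4, Blk 4 R c') ∧
      ∃ e : ℕ → Pt, (∀ k, k < 6 → e k ∈ R ∧ e k ∈ openSegment ℝ (X k) (X ((k + 1) % 6))) ∧
        (∀ k l, k < 6 → l < 6 → e k = e l → k = l) ∧
        ∀ k, k < 6 → D (X k) (X ((k + 1) % 6)) (e k) = 0 ∧
          ∀ x ∈ R, x ≠ e k → 0 < D (X k) (X ((k + 1) % 6)) x

/-- B13.  The hexagon model.  Proof.  `S_HexR`, `S_BMod` for `Q`, `o = X 0`, functional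
`D (X 0) (X 1) + D (X 5) (X 0)` (it is `> 0` on `Q \ {X 0}`).  The points of colour `a` are exactly
those with `col = 0` (`c0` from `norm`).  First two points: on the ray from `X 0` to `X 1` there are
`e 0`, `X 1`, all other points are strictly left of it; the same for the last two (`e 5`, `X 5`).
`kz`: a vertex `X k = p j` has the same colour as `X 0`, so `BMod.blk` gives `m < j` with
`D (p 0) (p m) (p j) = 0`, so `m = j - 1` (`radz`), and `p m` is not of colour `a` (`S_Cl3` or (2)).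
`zk`: `D = 0` gives the colour of `p 0` by `BMod.blk`.  `cv`: the vertices in radial order about
`X 0` are `X 1, …, X 5`.  `ins`: let `p q` not be a vertex and `p (q+1)` not a vertex; `p q` is not on
a ray from `X 0` to a vertex (else it is the blocker, directly before the vertex), so it is strictly
between two consecutive rays `X 0 X l` and `X 0 X (l+1)`, `1 ≤ l ≤ 4`, `a < q < b` their indices, and
`0 ≤ D (X l) (X (l+1)) (p q)`.  `cnt` from `Q.card = R.card + 6` or from the six vertices. -/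
def S_HMod : Prop :=
  ∀ (P : Finset Pt) (c : Pt → Fin 5) (a : Fin 5) (X : ℕ → Pt), Blk 5 P c →
    (∀ k, k < 6 → X k ∈ P ∧ c (X k) = a) → Cv 6 X → (∀ s ∈ P, c s = a → ¬Ins 6 X s) →
    ∀ Q : Finset Pt, (∀ s, s ∈ Q ↔ s ∈ P ∧ ∀ k, k < 6 → 0 ≤ D (X k) (X ((k + 1) % 6)) s) →
      ∃ (p : ℕ → Pt) (col : ℕ → ℕ), HMod Q.card p col

/-- B14.  No class of a 5-blocked set contains an (in the class) empty convex hexagon.  Proof.
`S_HexR`; `R.card ≤ 12` (`S_N4`), `R.card ≠ 12` (`S_H6`), so `Q.card ≤ 17`; `S_HMod`, `BCerts.hm`. -/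
def S_NoHex : Prop :=
  BCerts → ∀ (P : Finset Pt) (c : Pt → Fin 5) (a : Fin 5) (Q : Finset Pt), Blk 5 P c →
    (∀ s, s ∈ Q ↔ s ∈ P ∧ c s = a) → ¬EHex Q

/-- B15.  The theorem.  Proof.  Each class is in general position (`S_Cl3`) and has no empty hexagon
(`S_NoHex`), so no convex 9-gon (Gerken), so at most 3432 points (Erdős–Szekeres). -/
def S_Final : Prop :=
  BCerts →
    (∀ S : Finset Pt, GenP S → (∃ X : ℕ → Pt, (∀ k, k < 9 → X k ∈ S) ∧ Cv 9 X) → EHex S) →
    (∀ S : Finset Pt, GenP S → 3433 ≤ S.card →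
      ∃ X : ℕ → Pt, (∀ k, k < 9 → X k ∈ S) ∧ Cv 9 X) →
    ∀ (P : Finset Pt) (c : Pt → Fin 5), Blk 5 P c → P.card ≤ 17160

end Pool.BK5
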