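import Pool.Agent.BK5.StmtsG
import Pool.Agent.BK5.Chk

/-!
MP_70b73c_co, 5-blocked sets, part C: soundness of the clause checker of part G (`Chk.lean`).
`aa b c = (b && c)`, `nn b = !b`, `iff' b x y = bif b then x else y`, `lt a b = true ↔ a < b`,
`Nat.ble`, `Nat.beq` as usual; `bt q k = q >>> k % 2`, `dg q k = q >>> k % 32`.
-/

set_option autoImplicit false

namespace Pool.BK5

/-- Rank of `a < b < c`. -/
def rk (a b c : ℕ) : ℕ := Nat.choose c 3 + Nat.choose b 2 + a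

/-- The literal with code `x` is true. -/
def tr (p : ℕ → Pt) (x : ℕ) : Prop :=
  ∃ a b c, a < b ∧ b < c ∧ ((x = 2 * rk a b c ∧ 0 < D (p a) (p b) (p c)) ∨
    (x = 2 * rk a b c + 1 ∧ D (p a) (p b) (p c) < 0))

/-- The valuation of the propositional variables. -/
def val (p : ℕ → Pt) : Sat.Valuation :=
  fun r => ∃ a b c, a < b ∧ b < c ∧ r = rk a b c ∧ 0 < D (p a) (p b) (p c)

/-- `c` consists of literals of `c0`. -/
def Sub (c c0 : Sat.Clause) : Prop :=
  ∀ l : Sat.Literal, l ∈ (show List Sat.Literal from c) → l ∈ (show List Sat.Literal from c0)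

/-- K1.  Codes.  Proof.  `rk` is injective on increasing triples (`rk a b c < C(c+1,3)` because
`C(b,2) + a < C(b+1,2) ≤ C(c,2)`); `t3d c = 2 C(c,3)`, `t2d b = 2 C(b,2)`. -/
def S_Ca : Prop :=
  ∀ (p : ℕ → Pt), (∀ a b c, a ≠ b → a ≠ c → b ≠ c →
      (tr p (ca a b c) ↔ 0 < D (p a) (p b) (p c))) ∧
    (∀ s x y, x < y → s ≠ x → s ≠ y → (tr p (Nat.xor (cs s x y) 0) ↔ 0 < D (p s) (p x) (p y)) ∧
      (tr p (Nat.xor (cs s x y) 1) ↔ D (p s) (p x) (p y) < 0)) ∧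
    ∀ l : Sat.Literal, (val p).neg l → ¬tr p (lc l)

/-- The situation of a clause `c0` which is false in the model. -/
structure Env (i j m n FM s z w : ℕ) (p : ℕ → Pt) (Hd : Finset Pt) (c0 : Sat.Clause) : Prop where
  md : Model i j m p Hd
  h0 : m = 0 ∨ m = 6 → Hd = ∅
  hn : n = nP i j m
  hs : s = zS i m
  hz : z = zN i j m
  hw : 9 + w = wE i j m
  h3 : m = 0 ∨ m = 6 ∨ 3 ≤ z
  fm : ∀ x, bt FM x = 1 → ¬tr p x
  cl : ∀ x, mem x c0 = true → ¬tr p x

/-- K2.  The step function. -/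
def S_St : Prop :=
  ∀ (FM : ℕ) (c0 : Sat.Clause) (x : ℕ) (k : Sat.Clause → Bool) (c : Sat.Clause), Sub c c0 →
    st FM c0 x k c = true → out FM c0 x = true ∧ ∃ c', Sub c' c0 ∧ k c' = true

/-- K3.  Atoms which are `out` are false (if two of `a, b, c` are equal then `D = 0`). -/
def S_Out : Prop :=
  ∀ (i j m n FM s z w : ℕ) (p : ℕ → Pt) (Hd : Finset Pt) (c0 : Sat.Clause),
    Env i j m n FM s z w p Hd c0 →
    (∀ x, out FM c0 x = true → ¬tr p x) ∧
    (∀ a b c, out FM c0 (ca a b c) = true → D (p a) (p b) (p c) ≤ 0) ∧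
    (∀ a b c, a < n → b < n → c < n → a ≠ b → a ≠ c → b ≠ c → out FM c0 (ca a b c) = true →
      D (p a) (p b) (p c) < 0 ∧ 0 < D (p b) (p a) (p c))

/-- K4.  The list functions of the checker; digits `dg P (5 * r)`. -/
def S_Lst : Prop :=
  ∀ (i j m n FM s z w : ℕ) (p : ℕ → Pt) (Hd : Finset Pt) (c0 : Sat.Clause),
    Env i j m n FM s z w p Hd c0 →
    (∀ (P v k w' e : ℕ) (c : Sat.Clause), Sub c c0 → cw FM c0 P v k w' e c = true →
      ∀ r, r < k → ∃ q, q < v ∧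
        D (p (dg P (5 * q))) (p (dg P (5 * (q + 1)))) (p (w' + r)) ≤ 0) ∧
    (∀ (n' P k : ℕ), dst n' P k = true → (∀ r, r < k → dg P (5 * r) < n') ∧
      ∀ r t, r < k → t < k → r ≠ t → dg P (5 * r) ≠ dg P (5 * t)) ∧
    (∀ (a b P k : ℕ) (K : Sat.Clause → Bool) (c : Sat.Clause), Sub c c0 →
      hypL FM c0 a b P k K c = true →
      (∀ r, r < k → D (p a) (p b) (p (dg P (5 * r))) ≤ 0) ∧ ∃ c', Sub c' c0 ∧ K c' = true) ∧
    (∀ (a b s' k : ℕ) (K : Sat.Clause → Bool) (c : Sat.Clause), Sub c c0 →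
      hypR FM c0 a b s' k K c = true →
      (∀ r, r < k → D (p a) (p b) (p (s' + r)) ≤ 0) ∧ ∃ c', Sub c' c0 ∧ K c' = true) ∧
    (∀ (lo z' w' u E : ℕ) (c : Sat.Clause), Sub c c0 → chain n FM lo c0 z' w' u E c = true →
      dg E (5 * u) = w' ∧ (∀ a, a < u → lo ≤ dg E (5 * a) ∧ dg E (5 * a) < n ∧
        D (p (dg E (5 * a))) (p z') (p w') ≤ 0) ∧
      ∀ a, a + 1 < u → dg E (5 * a) ≠ dg E (5 * (a + 1)) ∧
        D (p (dg E (5 * a))) (p z') (p (dg E (5 * (a + 1)))) ≤ 0 ∧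
        D (p (dg E (5 * (a + 1)))) (p (dg E (5 * a))) (p (dg E (5 * (a + 2)))) ≤ 0)

/-- K5.  Clause 4 points.  `D a b c = D d b c + D a d c + D a b d`. -/
def S_C4 : Prop :=
  ∀ (i j m n FM s z w : ℕ) (p : ℕ → Pt) (Hd : Finset Pt) (c0 : Sat.Clause),
    Env i j m n FM s z w p Hd c0 → ∀ a b c d, chk4 n FM c0 a b c d = true → False

/-- K6.  Grassmann–Plücker clause.  The constant `689156323484764560` has bit `q` (`q < 64`) equal to
1 iff with the bits `b_0, …, b_5` of `q`: `b_0 + b_1`, `b_2 + b_3 + 1`, `b_4 + b_5` have the same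
parity (`decide` for `q < 64`; for `q ≥ 64` the bit is 0).  Then with
`D s a b * D s c d - D s a c * D s b d + D s a d * D s b c = 0` (ring) the assumed signs
(`out` of the code `xor` bit: bit 1: `0 < D`, bit 0: `D < 0`) are contradictory. -/
def S_CGP : Prop :=
  ∀ (i j m n FM s z w : ℕ) (p : ℕ → Pt) (Hd : Finset Pt) (c0 : Sat.Clause),
    Env i j m n FM s z w p Hd c0 → ∀ t a b c d q, chkGP n FM c0 t a b c d q = true → False

/-- The conditions of the kinds 0–4. -/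
def KindOK (i j m : ℕ) (p : ℕ → Pt) (x : ℕ → ℕ) : Prop :=
  (m = 0 ∨ m = 6) ∨
  (3 ≤ zN i j m ∧ ∃ g, g < zN i j m ∧
    ∀ k, k < 6 → D (p (zS i m + g)) (p (zS i m + (g + 1) % zN i j m)) (p (x k)) ≤ 0) ∨
  (3 ≤ zN i j m ∧ ∃ g, g < 6 ∧ ∀ r, r < zN i j m →
    D (p (x g)) (p (x ((g + 1) % 6))) (p (zS i m + r)) ≤ 0) ∨
  (3 ≤ zN i j m ∧ ∃ g q, g < 6 ∧ q < zN i j m ∧
    (x g = zS i m + q ∨ x ((g + 1) % 6) = zS i m + q) ∧
    D (p (x g)) (p (x ((g + 1) % 6))) (p (zS i m + (q + 1) % zN i j m)) ≤ 0 ∧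
    D (p (x g)) (p (x ((g + 1) % 6))) (p (zS i m + (q + zN i j m - 1) % zN i j m)) ≤ 0) ∨
  (m = 3 ∧ ∀ k, k < 6 → D (p (9 + i + j)) (p (9 + i + j + 1)) (p (x k)) ≤ 0)

/-- K7.  A labelled hexagon contains a candidate.  Proof.  `Model.hex`; no `w ∈ Hd` is inside `X`:
kind 0: `Hd = ∅`; kind 1: `Model.hin` and `S_Sep` for the layer edge (the layer is convex: `cI` in mode
5, else `cJ`; `S_Poly`: its ends differ); kind 2: `w` is inside the layer polygon (`hin`), so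
`D A B w < 0` (`S_Sep` with `m = zN`), but `0 < D A B w` for an edge `A B` of `X`; kind 3: as in
`S_Kind3` (with `≤` instead of `<`, the same identity) all layer vertices have `D A B ≤ 0`; kind 4:
`Model.uv` and `S_Sep`. -/
def S_Hid : Prop :=
  ∀ (i j m : ℕ) (p : ℕ → Pt) (Hd : Finset Pt) (x : ℕ → ℕ), Model i j m p Hd →
    (m = 0 ∨ m = 6 → Hd = ∅) → (∀ k, k < 6 → x k < nP i j m) → Cv 6 (fun k => p (x k)) →
    KindOK i j m p x → ∃ w, 9 ≤ w ∧ w < wE i j m ∧ Ins 6 (fun k => p (x k)) (p w)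

/-- K8.  Hexagon clause: `S_St`, `S_Out`, `S_Lst`, `S_Star`, `S_Hid`; `x k = dg P (5 k)`. -/
def S_CHex : Prop :=
  ∀ (i j m n FM s z w : ℕ) (p : ℕ → Pt) (Hd : Finset Pt) (c0 : Sat.Clause),
    Env i j m n FM s z w p Hd c0 → ∀ P kd g e, chkHex n FM s z w m c0 P kd g e = true → False

/-- K9.  The cone over a layer edge.  `x 0, …, x 4` the pentagon `p, a, b, c, q`, with the edge
`p q` of `J` and `a, b, c` labels `< 9 + i`.
Proof.  Let `Q` be the set of the `w ∈ Hd` with `w = p z` or `w` strictly inside the triangle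
`(z, p, q)`; `p z ∈ Hd` by `Model.hz`.  Choose `z' ∈ Q` with minimal `D p q z'` (it is `> 0` by `hin`).
`z' = λ z + μ p + ν q`, `λ > 0`, `μ, ν ≥ 0`: so `0 < D z' p a` (as `0 < D q p a`) and `0 < D z' c q`
(as `0 < D p c q`).  `S_Star`: `p, a, b, c, q, z'` is a convex hexagon `X`.  A point `w ∈ Hd` inside
`X` satisfies `0 < D p q w` (`hin`), `0 < D q z' w`, `0 < D z' p w`, so it is inside the triangle
`(z', p, q)`, by `S_Sep` inside `(z, p, q)` and `D p q w < D p q z'`: contradiction.  So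
`Model.hex` gives a label `w`, `9 ≤ w < wE = 9 + i + j`, inside `X`.  If `w ≥ 9 + i`: `w` is a vertex
`J_r`; `w ≠ p, q`, `0 < D p q w`, so `w` is inside `(z', p, q)`, but `z', p, q` have
`D (J_r) (J_{r+1}) ≥ 0` (`S_Poly`, `hin`): contradiction to `S_Sep`.  If `w < 9 + i`, `w = I_r`:
if `0 < D p q w` then it is inside `(z', p, q)`, but `z', p, q` have `D (I_r) (I_{r+1}) > 0`
(`inI`; for `z'`: it is inside `J`, `S_Sep`): contradiction.  `D p q w ≠ 0` by `gp`.  So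
`D p q w < 0` and `w` is strictly inside the pentagon.  (`i ≥ 3` because `D (p 0) …`: if `i < 3`
there is no label `w` in `[9, 9 + i)` with ...: use `i ≥ 3` as hypothesis `hi`.) -/
def S_ZGeo : Prop :=
  ∀ (i j m : ℕ) (p : ℕ → Pt) (Hd : Finset Pt) (z e a b c : ℕ), Model i j m p Hd →
    (m = 2 ∨ m = 3) → 3 ≤ i → 3 ≤ j → 9 + i + j ≤ z → z < nP i j m → e < j →
    a < 9 + i → b < 9 + i → c < 9 + i → a ≠ b → a ≠ c → b ≠ c →
    ∀ x : ℕ → ℕ, x 0 = 9 + i + e → x 1 = a → x 2 = b → x 3 = c → x 4 = 9 + i + (e + 1) % j →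
      (∀ k, 2 ≤ k → k < 5 → 0 < D (p (x 0)) (p (x 1)) (p (x k))) →
      (∀ k, 1 ≤ k → k + 1 < 5 → 0 < D (p (x 0)) (p (x k)) (p (x (k + 1)))) →
      (∀ k, 1 ≤ k → k + 2 < 5 → 0 < D (p (x k)) (p (x (k + 1))) (p (x (k + 2)))) →
      0 < D (p z) (p (x 0)) (p (x 1)) → 0 < D (p z) (p (x 3)) (p (x 4)) →
      ∃ w, 9 ≤ w ∧ w < 9 + i ∧ ∀ q, q < 5 → 0 < D (p (x q)) (p (x ((q + 1) % 5))) (p w)

/-- K10.  Cone clause (`S_ZGeo`). -/
def S_CZ : Prop :=
  ∀ (i j m n FM s z w : ℕ) (p : ℕ → Pt) (Hd : Finset Pt) (c0 : Sat.Clause),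
    Env i j m n FM s z w p Hd c0 → 3 ≤ i → ∀ z' P e, chkZ n FM i j m c0 z' P e = true → False

/-- K11.  Replacing an arc of `H` (`s0 = 0`, `M = 9`) or `I` (`s0 = 9`, `M = i`) by a convex chain of
deeper points gives a convex 9-gon.  Proof.  `X 0 = s0 + z`, `X k = c (k - 1)` for `1 ≤ k ≤ t`,
`X (t + 1 + r) = s0 + (z + u + 1 + r) % M` for `0 ≤ r ≤ M - 2 - u` (last index `8`).  `S_Star`:
`0 < D (X 0) (X k) (X (k+1))`: hypotheses, or the convexity of the layer.  `0 < D (X 0) (X 1) (X k)`: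
all points are in the open half plane left of `X 0 → L`, `L` the next layer vertex after `X 0`
(for `k ≤ t`: deeper points; the layer vertices: `S_Poly`), so the angular order about `X 0` is
transitive (identity of `S_Trans`).  Turns: in the chain by hypothesis; `(c_{t-1}, w', next)`:
`c_{t-1}` is deeper, so strictly left of the layer edge `w' → next` (`inH`, `inI`); the others by
convexity.  `Model.min` says that all labels are `< 9`, but `X 1 = c 0 ≥ 9`. -/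
def S_ChGeo : Prop :=
  ∀ (i j m : ℕ) (p : ℕ → Pt) (Hd : Finset Pt) (s0 M z u t : ℕ) (c : ℕ → ℕ), Model i j m p Hd →
    (s0 = 0 ∧ M = 9 ∨ s0 = 9 ∧ M = i ∧ 3 ≤ i ∧ i ≤ 8) → z < M → 1 ≤ u → u + 2 ≤ M → t + M = u + 9 →
    (∀ a, a < t → s0 + M ≤ c a ∧ c a < nP i j m) → c t = s0 + (z + u + 1) % M →
    (∀ a, a < t → 0 < D (p (s0 + z)) (p (c a)) (p (c t))) →
    (∀ a, a + 1 < t → 0 < D (p (s0 + z)) (p (c a)) (p (c (a + 1)))) →
    (∀ a, a + 1 < t → 0 < D (p (c a)) (p (c (a + 1))) (p (c (a + 2)))) → False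

/-- K12.  Minimality clauses (`S_Lst` chain part, `S_ChGeo`; strictness from `Model.gp`: in a chain
neighbours are different, and `c_a ≠ c_{a+2}` because `D z c_a c_{a+1}` and `D z c_{a+1} c_{a+2}` are
positive; for the last turn `c_{a+2} = w`). -/
def S_CMin : Prop :=
  ∀ (i j m n FM s z w : ℕ) (p : ℕ → Pt) (Hd : Finset Pt) (c0 : Sat.Clause),
    Env i j m n FM s z w p Hd c0 → ∀ z' u E,
      (chkMin n FM c0 z' u E = true → False) ∧ (3 ≤ i → chkIMin n FM i c0 z' u E = true → False)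

/-- K13.  Cover clause: `Model.cov`. -/
def S_CCov : Prop :=
  ∀ (i j m n FM s z w : ℕ) (p : ℕ → Pt) (Hd : Finset Pt) (c0 : Sat.Clause),
    Env i j m n FM s z w p Hd c0 → ∀ k q, chkCov FM i m c0 k q = true → False

/-- K14.  Fixed atoms.  Proof.  `fixA` implies `0 < D (p a) (p b) (p c)` (`cH`, `cI`, `cJ`, `inH`,
`inI`, `inJ`, `sym`, `uv`), in particular `a, b, c` are different, so the code of `(b, a, c)` is not
true (`S_Ca`); induction on the list for the bits of `FM`. -/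
def S_Fix : Prop :=
  ∀ (i j m : ℕ) (p : ℕ → Pt) (Hd : Finset Pt) (l : List ℕ) (FM : ℕ), Model i j m p Hd →
    chkF i j m (nP i j m) l 0 FM = true → ∀ x, bt FM x = 1 → ¬tr p x

/-- K15.  Soundness.  Proof.  A clause of the refuted formula is a leaf of the tree, `chk1` holds for
it and some descriptor; if it is not satisfied by `val p`, then all its literals are false (`S_Ca`), so
`Env` holds and one of the clause lemmas applies.  (`chkZ` requires `9 + i ≤ dg P 0 < 9 + i + j`, so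
`j > 0`; the case `i < 3` in `chkZ`, `chkIMin`: `hi` below.) -/
def S_Sound : Prop :=
  ∀ (i j m : ℕ) (p : ℕ → Pt) (Hd : Finset Pt), Refuted i j m → (m = 0 ∨ m = 6 → Hd = ∅) →
    (3 ≤ i ∨ j = 0 ∧ m = 0) → ¬Model i j m p Hd

end Pool.BK5
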