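import Pool.Agent.BK5.StmtsB
import Pool.Agent.BK5.StmtsC
import Pool.Agent.BK5.ChkB

/-!
MP_70b73c_co, 5-blocked sets, part D: soundness of the clause checker of part B (`ChkB.lean`).
The basic functions (`aa`, `nn`, `lt`, `st`, `out`, `mem`, `bt`, `dg`, `rd`, `t2d`, `t3d`) are those of
`Chk.lean`; see also the finished files `Ca.lean`, `StOut.lean`, `Lst.lean` of part C for lemmas about
them.
-/

set_option autoImplicit false

namespace Pool.BK5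

/-- Number of special points among the first `i`. -/
def cntE (ty : ℕ) (col : ℕ → ℕ) (E : Finset ℕ) (i : ℕ) : ℕ :=
  ((Finset.range i).filter (fun x => if ty = 1 then x ∈ E else col x = 0)).card

/-- What is known about an instance. -/
structure BE (n k ty : ℕ) (p : ℕ → Pt) (col : ℕ → ℕ) (E : Finset ℕ) : Prop where
  bm : BMod n k p col
  k2 : 2 ≤ k
  k5 : k ≤ 5
  n7 : 7 ≤ n
  tt : ty ≤ 2
  t1 : ty = 1 → E.card = 5 ∧ ∀ i ∈ E, 1 ≤ i ∧ i < n ∧ Xt n p i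
  t2 : ty = 2 → k = 5 ∧ HMod n p col

/-- First indices of the classes of variables. -/
def ix0 (n : ℕ) : ℕ := 2 * Nat.choose n 3
def ix1 (n : ℕ) : ℕ := ix0 n + 5 * n
def ix2 (n : ℕ) : ℕ := ix1 n + Nat.choose n 2
def ix3 (n ty : ℕ) : ℕ := ix2 n + (if ty = 2 then Nat.choose n 3 else 0)
def ix4 (n ty : ℕ) : ℕ := ix3 n ty + 8 * (n + 1)

/-- The valuation. -/
def valB (n ty : ℕ) (p : ℕ → Pt) (col : ℕ → ℕ) (E : Finset ℕ) : Sat.Valuation := fun r =>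
  if r < ix0 n then
    ∃ a b c, a < b ∧ b < c ∧ c < n ∧ ((r = 2 * rk a b c ∧ 0 < D (p a) (p b) (p c)) ∨
      (r = 2 * rk a b c + 1 ∧ D (p a) (p b) (p c) = 0))
  else if r < ix1 n then col ((r - ix0 n) / 5) = (r - ix0 n) % 5
  else if r < ix2 n then ∃ i j, i < j ∧ j < n ∧ r = ix1 n + Nat.choose j 2 + i ∧ col i = col j
  else if r < ix3 n ty then
    ∃ a q b, a < q ∧ q < b ∧ b < n ∧ r = ix2 n + rk a q b ∧ col a = 0 ∧ col b = 0 ∧
      ¬0 < D (p a) (p q) (p b)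
  else if r < ix4 n ty then (r - ix3 n ty) % 8 ≤ cntE ty col E ((r - ix3 n ty) / 8)
  else r - ix4 n ty ∈ E

/-- The literal with code `x` is true. -/
def trB (n ty : ℕ) (p : ℕ → Pt) (col : ℕ → ℕ) (E : Finset ℕ) (x : ℕ) : Prop :=
  if x % 2 = 0 then valB n ty p col E (x / 2) else ¬valB n ty p col E (x / 2)

/-- D1.  Decoding (`B0 = 2 * ix0 n`, …).  `rk` is injective on increasing triples and
`rk a b c < C(n,3)` for `a < b < c < n` (see `Ca.lean`); similarly `C(j,2) + i < C(n,2)`. -/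
def S_Dec : Prop :=
  ∀ (n ty : ℕ) (p : ℕ → Pt) (col : ℕ → ℕ) (E : Finset ℕ),
    2 * ix0 n = 2 * t3d n ∧ 2 * ix1 n = 2 * ix0 n + 10 * n ∧ 2 * ix2 n = 2 * ix1 n + t2d n ∧
    2 * ix3 n ty = 2 * ix2 n + (if ty = 2 then t3d n else 0) ∧
    2 * ix4 n ty = 2 * ix3 n ty + 16 * (n + 1) ∧
    (∀ a b c, a < b → b < c → c < n →
      (trB n ty p col E (cP a b c) ↔ 0 < D (p a) (p b) (p c)) ∧
      (trB n ty p col E (cP a b c + 1) ↔ ¬0 < D (p a) (p b) (p c)) ∧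
      (trB n ty p col E (cP a b c + 2) ↔ D (p a) (p b) (p c) = 0) ∧
      (trB n ty p col E (cP a b c + 3) ↔ D (p a) (p b) (p c) ≠ 0) ∧ cZ a b c = cP a b c + 2) ∧
    (∀ i a, i < n → a < 5 → (trB n ty p col E (cC (2 * ix0 n) i a) ↔ col i = a) ∧
      (trB n ty p col E (cC (2 * ix0 n) i a + 1) ↔ col i ≠ a)) ∧
    (∀ i j, i < j → j < n → (trB n ty p col E (cB (2 * ix1 n) i j) ↔ col i = col j) ∧
      (trB n ty p col E (cB (2 * ix1 n) i j + 1) ↔ col i ≠ col j)) ∧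
    (∀ i j, i ≠ j → i < n → j < n → (trB n ty p col E (cBs (2 * ix1 n) i j) ↔ col i = col j) ∧
      (trB n ty p col E (cBs (2 * ix1 n) i j + 1) ↔ col i ≠ col j)) ∧
    (ty = 2 → ∀ a q b, a < q → q < b → b < n →
      (trB n ty p col E (cW (2 * ix2 n) a q b) ↔
        (col a = 0 ∧ col b = 0 ∧ ¬0 < D (p a) (p q) (p b))) ∧
      (trB n ty p col E (cW (2 * ix2 n) a q b + 1) ↔
        ¬(col a = 0 ∧ col b = 0 ∧ ¬0 < D (p a) (p q) (p b)))) ∧
    (∀ i j, i ≤ n → j < 8 → (trB n ty p col E (cS (2 * ix3 n ty) i j) ↔ j ≤ cntE ty col E i) ∧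
      (trB n ty p col E (cS (2 * ix3 n ty) i j + 1) ↔ ¬j ≤ cntE ty col E i)) ∧
    (∀ i, (trB n ty p col E (cX (2 * ix4 n ty) i) ↔ i ∈ E) ∧
      (trB n ty p col E (cX (2 * ix4 n ty) i + 1) ↔ i ∉ E)) ∧
    ∀ l : Sat.Literal, (valB n ty p col E).neg l → ¬trB n ty p col E (lc l)

/-- The situation of a clause `c0` which is false in the model. -/
structure EnvB (n k ty FM B0 B1 B2 B3 B4 : ℕ) (p : ℕ → Pt) (col : ℕ → ℕ) (E : Finset ℕ)
    (c0 : Sat.Clause) : Prop where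
  be : BE n k ty p col E
  e0 : B0 = 2 * ix0 n
  e1 : B1 = 2 * ix1 n
  e2 : B2 = 2 * ix2 n
  e3 : B3 = 2 * ix3 n ty
  e4 : B4 = 2 * ix4 n ty
  fm : ∀ x, bt FM x = 1 → ¬trB n ty p col E x
  cl : ∀ x, mem x c0 = true → ¬trB n ty p col E x

/-- D2.  The list functions; `out` for every code (`S_St`). -/
def S_DLp : Prop :=
  ∀ (FM : ℕ) (c0 : Sat.Clause),
    (∀ (f : ℕ → ℕ) (k : ℕ) (K : Sat.Clause → Bool) (s : ℕ) (c : Sat.Clause), Sub c c0 →
      lp FM c0 f k K s c = true →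
      (∀ r, r < k → out FM c0 (f (s + r)) = true) ∧ ∃ c', Sub c' c0 ∧ K c' = true) ∧
    (∀ (n B2 q k : ℕ) (K : Sat.Clause → Bool) (s : ℕ) (c : Sat.Clause), Sub c c0 →
      lpW FM c0 n B2 q k K s c = true →
      (∀ r b, r < k → q < b → b < n → out FM c0 (cW B2 (s + r) q b) = true) ∧
        ∃ c', Sub c' c0 ∧ K c' = true) ∧
    (∀ x y, s2 FM c0 x y = true → out FM c0 x = true ∧ out FM c0 y = true) ∧
    (∀ x y z, s3 FM c0 x y z = true →
      out FM c0 x = true ∧ out FM c0 y = true ∧ out FM c0 z = true) ∧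
    (∀ x y z w, s4 FM c0 x y z w = true →
      out FM c0 x = true ∧ out FM c0 y = true ∧ out FM c0 z = true ∧ out FM c0 w = true) ∧
    (∀ (o T : ℕ) (K : Sat.Clause → Bool) (c : Sat.Clause), Sub c c0 → pos FM c0 o T K c = true →
      (∃ c', Sub c' c0 ∧ K c' = true) ∧
      (o = 0 ∨ (o = 1 ∧ out FM c0 (T + 1) = true) ∨ (o = 2 ∧ out FM c0 T = true) ∨
        (o = 3 ∧ out FM c0 (T + 3) = true) ∨ (o = 4 ∧ out FM c0 (T + 2) = true) ∨
        (5 ≤ o ∧ out FM c0 T = true ∧ out FM c0 (T + 2) = true)))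

/-- D3.  Codes which are `out` are false. -/
def S_DOut : Prop :=
  ∀ (n k ty FM B0 B1 B2 B3 B4 : ℕ) (p : ℕ → Pt) (col : ℕ → ℕ) (E : Finset ℕ) (c0 : Sat.Clause),
    EnvB n k ty FM B0 B1 B2 B3 B4 p col E c0 →
    ∀ x, out FM c0 x = true → ¬trB n ty p col E x

/-- D4.  Cube clauses.  Proof.  By `BMod.pat` the signs of `abc, abd, acd, bcd` form one of sixteen
patterns; by the table (`bt _ Q = 1`, a finite computation over `Q < 4096` and the sixteen patterns,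
`decide +kernel` with a Boolean function; write it with recursors or bit tables if it is too slow; for
`Q ≥ 4096` the bit is 0) one of the four positions has a true literal: option 1 `¬(0 < D)`, 2 `0 < D`,
3 `D ≠ 0`, 4 `D = 0`, 5 `0 < D` or `D = 0`. -/
def S_DCube : Prop :=
  ∀ (n k ty FM B0 B1 B2 B3 B4 : ℕ) (p : ℕ → Pt) (col : ℕ → ℕ) (E : Finset ℕ) (c0 : Sat.Clause),
    EnvB n k ty FM B0 B1 B2 B3 B4 p col E c0 →
    ∀ Q a b c d, chkCube n FM c0 Q a b c d = true → False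

/-- D5.  General clauses (types 2–10): `BMod.blk`, `clt`, `rad`, `norm`. -/
def S_DG : Prop :=
  ∀ (n k ty FM B0 B1 B2 B3 B4 : ℕ) (p : ℕ → Pt) (col : ℕ → ℕ) (E : Finset ℕ) (c0 : Sat.Clause),
    EnvB n k ty FM B0 B1 B2 B3 B4 p col E c0 →
    ∀ t x y z, chkG n k FM B0 B1 c0 t x y z = true → False

/-- D6.  Counters: `cntE (i + 1) = cntE i + [i special]`. -/
def S_DS : Prop :=
  ∀ (n k ty FM B0 B1 B2 B3 B4 : ℕ) (p : ℕ → Pt) (col : ℕ → ℕ) (E : Finset ℕ) (c0 : Sat.Clause),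
    EnvB n k ty FM B0 B1 B2 B3 B4 p col E c0 →
    ∀ t i j, chkS n ty FM B0 B3 B4 c0 t i j = true → False

/-- D7.  Hexagon clauses: `HMod.kz`, `zk`, `cv`, `ins`. -/
def S_DH : Prop :=
  ∀ (n k ty FM B0 B1 B2 B3 B4 : ℕ) (p : ℕ → Pt) (col : ℕ → ℕ) (E : Finset ℕ) (c0 : Sat.Clause),
    EnvB n k ty FM B0 B1 B2 B3 B4 p col E c0 → ty = 2 →
    ∀ t x y z v, chkH n FM B0 B2 c0 t x y z v = true → False

/-- D8.  Extreme point clauses: `Xt`. -/
def S_DX : Prop :=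
  ∀ (n k ty FM B0 B1 B2 B3 B4 : ℕ) (p : ℕ → Pt) (col : ℕ → ℕ) (E : Finset ℕ) (c0 : Sat.Clause),
    EnvB n k ty FM B0 B1 B2 B3 B4 p col E c0 → ty = 1 →
    ∀ t x y z, chkX n FM B4 c0 t x y z = true → False

/-- D9.  Fixed literals.  Families: 0 `0 < D 0 x y`, 1 `D 0 x y ≠ 0` (`radz`); 2 `col 0 = 0`,
`col 1 = 1` (`norm`; `col 1 ≠ col 0` by `blk`); 3 `col x ≠ y` for `x < y` (`col i ≤ i` by `norm`);
4 `col 1 ≠ 0`; 5 `col x ≠ col (x+1)` (`blk`); 6, 7 fields of `HMod` (`col 3 ≠ 0` by `kz` and `k2`);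
8 `y ≤ loB n ty x ≤ cntE x`; 9 `cntE x ≤ hiB n ty x < y`; 10 `0 ∉ E`. -/
def S_DFix : Prop :=
  ∀ (n k ty : ℕ) (p : ℕ → Pt) (col : ℕ → ℕ) (E : Finset ℕ) (l : List ℕ) (FM : ℕ),
    BE n k ty p col E →
    chkFB n k ty (2 * ix0 n) (2 * ix1 n) (2 * ix3 n ty) (2 * ix4 n ty) l 0 FM = true →
    ∀ x, bt FM x = 1 → ¬trB n ty p col E x

/-- D10.  Soundness (compare `Sound.lean`). -/
def S_SoundB : Prop :=
  ∀ (n k ty : ℕ) (p : ℕ → Pt) (col : ℕ → ℕ) (E : Finset ℕ), RefutedB n k ty →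
    ¬BE n k ty p col E

/-- D11.  The certificates of part B. -/
def S_DCerts : Prop :=
  RefutedB 13 4 0 → RefutedB 12 4 1 → (∀ n, 7 ≤ n → n ≤ 17 → RefutedB n 5 2) → BCerts

end Pool.BK5
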