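import Pool.Agent.BK5.StmtsG
import Pool.Agent.BK5.StmtsB

/-!
MP_70b73c_co, 5-blocked sets, part E: a better bound for the 9-gon (Tóth–Valtr), `C(13,6) = 1716`.
-/

set_option autoImplicit false

namespace Pool.BK5

/-- E4.  Let `x` be the lexicographically smallest point of `S` and order `S \ {x}` by
`a ≺ b :↔ 0 < D x a b` (a strict total order: general position and `S_Trans`, the points `a - x` are in
an open half plane, functional `(1, ε)`, `ε > 0` small).  Cups and caps with respect to `≺`: the
cups–caps theorem holds with the same proof as in `ES.lean` (only totality of the order is used):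
more than `C(13,6) = 1716` points contain 8 points `a_1 ≺ … ≺ a_8` with all consecutive `D > 0` or 9
points `a_1 ≺ … ≺ a_9` with all consecutive `D < 0`.  First case: `x, a_1, …, a_8` is `Cv 9` by
`S_Star`.  Second case: for `a ≺ b ≺ c ≺ d` with `D a b c < 0`, `D b c d < 0` also `D a b d < 0` and
`D a c d < 0` (the identities of `S_Turn`), so all ordered triples are negative, and the reversed
sequence is `Cv 9`. -/
def S_ES2 : Prop :=
  ∀ S : Finset Pt, GenP S → 1718 ≤ S.card → ∃ X : ℕ → Pt, (∀ k, k < 9 → X k ∈ S) ∧ Cv 9 X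

/-- E5.  The theorem: every class has at most 1717 points. -/
def S_Final2 : Prop :=
  BCerts →
    (∀ S : Finset Pt, GenP S → (∃ X : ℕ → Pt, (∀ k, k < 9 → X k ∈ S) ∧ Cv 9 X) → EHex S) →
    S_ES2 → ∀ (P : Finset Pt) (c : Pt → Fin 5), Blk 5 P c → P.card ≤ 8585

end Pool.BK5
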