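import Pool.Agent.BK5.Defs

/-!
MP_70b73c_co, 5-blocked sets, part G: Gerken's theorem (statements with proofs in the doc-strings).
`D a b c` is affine in each argument; `D a b c = D b c a`, `D a c b = -D a b c`,
`D a b c = D d b c + D a d c + D a b d` (ring).
-/

set_option autoImplicit false

namespace Pool.BK5

/-- The rotated polygon. -/
def rot (m r : ℕ) (X : ℕ → Pt) : ℕ → Pt := fun k => X ((k + r) % m)

/-- Labelling of the points. -/
def lab (H : ℕ → Pt) (i : ℕ) (I : ℕ → Pt) (j : ℕ) (J E : ℕ → Pt) : ℕ → Pt := fun x =>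
  if x < 9 then H x else if x < 9 + i then I (x - 9) else if x < 9 + i + j then J (x - 9 - i)
  else E (x - 9 - i - j)

/-- A1.  An inner point of a polygon is below some vertex in every direction.
Proof.  Let `g = (α, β) ≠ 0`, `v_k = X_k - w`, `s_k = -⟨g, v_k⟩`, `t_k = cross(g, v_k)`; suppose all
`s_k ≥ 0`.  `|g|² cross(v_k, v_{k+1}) = t_k s_{k+1} - s_k t_{k+1}` and
`cross(v_k, v_{k+1}) = D (X k) (X (k+1)) w > 0`.  If some `s_k = 0` then `t_k s_{k+1} > 0` gives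
`t_k > 0`, and `t_{k-1} s_k - s_{k-1} t_k > 0` gives `s_{k-1} t_k < 0`, contradiction.  If all
`s_k > 0` then `t_k / s_k > t_{k+1} / s_{k+1}` for all `k` (cyclically): contradiction at the `k < m`
with minimal `t_k / s_k`. -/
def S_Aff : Prop :=
  ∀ (m : ℕ) (X : ℕ → Pt) (w : Pt) (α β γ : ℝ), (α ≠ 0 ∨ β ≠ 0) → 1 ≤ m → Ins m X w →
    ∃ k, k < m ∧ α * w.1 + β * w.2 + γ < α * (X k).1 + β * (X k).2 + γ

/-- A2.  Separation (`S_Aff` for the affine function `∓D A B`). -/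
def S_Sep : Prop :=
  ∀ (m : ℕ) (X : ℕ → Pt) (w A B : Pt), A ≠ B → 1 ≤ m → Ins m X w →
    ((∀ k, k < m → 0 ≤ D A B (X k)) → 0 < D A B w) ∧
    ((∀ k, k < m → D A B (X k) ≤ 0) → D A B w < 0) ∧
    ∃ k, k < m ∧ D A B w < D A B (X k)

/-- A3.  Transitivity of the angular order about `o` in an open half plane
(`α`, `β` a linear functional, positive on `x - o`, `y - o`, `z - o`).
Proof.  With `u, v, w` the three differences: `det(u,w) v = det(v,w) u + det(u,v) w`; apply the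
functional. -/
def S_Trans : Prop :=
  ∀ (o x y z : Pt) (α β : ℝ), 0 < α * (x.1 - o.1) + β * (x.2 - o.2) →
    0 < α * (y.1 - o.1) + β * (y.2 - o.2) → 0 < α * (z.1 - o.1) + β * (z.2 - o.2) →
    ((0 < D o x y → 0 < D o y z → 0 < D o x z) ∧ (0 < D o x y → 0 ≤ D o y z → 0 < D o x z) ∧
     (0 ≤ D o x y → 0 < D o y z → 0 < D o x z) ∧ (0 ≤ D o x y → 0 ≤ D o y z → 0 ≤ D o x z))

/-- A4.  If `a, b, c, d` are in angular order about `o` (all six triples positive) then positive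
turns compose.  Proof.  Identities (sign analysis, `nlinarith`):
`D b o a * D b c d - D b o c * D b a d + D b o d * D b a c = 0` and
`D c o a * D c b d - D c o b * D c a d + D c o d * D c a b = 0`. -/
def S_Turn : Prop :=
  ∀ (o a b c d : Pt), 0 < D o a b → 0 < D o a c → 0 < D o a d → 0 < D o b c → 0 < D o b d →
    0 < D o c d → 0 < D a b c → 0 < D b c d → 0 < D a b d ∧ 0 < D a c d

/-- A5.  Star criterion.  Proof.  All `X k` (`2 ≤ k`) are left of `X 0 → X 1`; the functional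
`x ↦ D (X 0) (X 1) x + ε ⟨X 1 - X 0, x - X 0⟩` (`ε > 0` small) is positive on all `X k - X 0`, `k ≥ 1`
(or argue directly: the same identity as in A3 with the functional `D (X 0) (X 1)`), so by
transitivity (`S_Trans`) `0 < D (X 0) (X i) (X j)` for all `1 ≤ i < j < m`.  Then for
`1 ≤ i < j < k` by induction on `k - i`: `k - i = 2` is the hypothesis; if `j < k - 1` use `S_Turn`
for `i < j < k-1 < k`, if `j = k - 1` use `S_Turn` for `i < i+1 < k-1 < k` (`o = X 0`). -/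
def S_Star : Prop :=
  ∀ (m : ℕ) (X : ℕ → Pt), (∀ k, 2 ≤ k → k < m → 0 < D (X 0) (X 1) (X k)) →
    (∀ k, 1 ≤ k → k + 1 < m → 0 < D (X 0) (X k) (X (k + 1))) →
    (∀ k, 1 ≤ k → k + 2 < m → 0 < D (X k) (X (k + 1)) (X (k + 2))) → Cv m X

/-- A6.  Rotation of polygons. -/
def S_Rot : Prop :=
  ∀ (m r : ℕ) (X : ℕ → Pt), 1 ≤ m → (Cv m X → Cv m (rot m r X)) ∧
    (∀ w, Ins m (rot m r X) w ↔ Ins m X w) ∧
    (∀ k, k < m → ∃ l, l < m ∧ rot m r X k = X l ∧ rot m r X ((k + 1) % m) = X ((l + 1) % m)) ∧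
    (∀ k, k < m → ∃ l, l < m ∧ X k = rot m r X l ∧ X ((k + 1) % m) = rot m r X ((l + 1) % m))

/-- A7.  The vertices of a convex polygon are on the left of its edges. -/
def S_Poly : Prop :=
  ∀ (m : ℕ) (X : ℕ → Pt), 3 ≤ m → Cv m X → ∀ k l, k < m → l < m →
    (l ≠ k → l ≠ (k + 1) % m → 0 < D (X k) (X ((k + 1) % m)) (X l)) ∧
    0 ≤ D (X k) (X ((k + 1) % m)) (X l) ∧ X k ≠ X ((k + 1) % m)

/-- A8.  A line through the vertex `X q` with both neighbours of `X q` strictly on its right has all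
vertices on its right.  Proof.  `u = X (q+1) - X q`, `v = X (q-1) - X q`, `w = X l - X q`:
`det(u,v) w = det(w,v) u + det(u,w) v` with `det(u,v) > 0`, `det(w,v), det(u,w) ≥ 0` (`S_Poly`). -/
def S_Kind3 : Prop :=
  ∀ (m : ℕ) (X : ℕ → Pt) (q : ℕ) (A B : Pt), 3 ≤ m → Cv m X → q < m → D A B (X q) = 0 →
    D A B (X ((q + 1) % m)) < 0 → D A B (X ((q + m - 1) % m)) < 0 →
    ∀ l, l < m → D A B (X l) ≤ 0

/-- A9.  Convex hull.  Proof (suggestion).  `|T| ≤ 2` trivial.  For `|T| ≥ 3` one can use a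
quickhull recursion: for `a ≠ b` and a finite set `T'` of points strictly right of `a → b` (general
position) there is a list `a = x_0, x_1, …, x_r, x_{r+1} = b` of points (`x_1, …, x_r ∈ T'`) such that
all ordered triples of the list have `D > 0`, and every other point of `T'` is strictly left of all
edges `x_l → x_{l+1}`: take `c ∈ T'` with `D a b c` minimal (farthest), the points right of `a → c`
and the points right of `c → b`, and recursion on `|T'|` (no point of `T'` is right of the parallel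
to `ab` through `c`).  Then glue the two lists for `T` and its lexicographically smallest point `a`
and the point `b` extreme in angle about `a` (all other points left of `a → b`; so only the list from
`b` to `a` is needed and the polygon is `b, …, a`).
Other proofs (e.g. induction on `|T|`, adding the lexicographically largest point and removing the
visible chain; or gift wrapping) are equally good. -/
def S_Hull : Prop :=
  ∀ T : Finset Pt, GenP T → ∃ (m : ℕ) (f : ℕ → Pt), IsHull T m f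

/-- A10.  Tangent points.  Proof.  Induction on `T` (or a maximal element), transitivity `S_Trans`. -/
def S_Tan : Prop :=
  ∀ (T : Finset Pt) (o : Pt) (α β : ℝ), T.Nonempty →
    (∀ x ∈ T, 0 < α * (x.1 - o.1) + β * (x.2 - o.2)) →
    (∀ x ∈ T, ∀ y ∈ T, x ≠ y → D o x y ≠ 0) →
    (∃ r ∈ T, ∀ x ∈ T, x ≠ r → 0 < D o r x) ∧ (∃ r ∈ T, ∀ x ∈ T, x ≠ r → 0 < D o x r)

/-- C1.  Existence of the three layers.  Proof.  Choose `H` with the minimal number of inner points;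
`T` = inner points, `I` the hull of `T` (`S_Hull`), `T' = T \ I` (empty if `i ≤ 2`), `J` the hull of
`T'`, `U = T' \ J`.  (For `m ≥ 3` a vertex is not strictly inside its polygon.) -/
def S_Ctx : Prop :=
  ∀ S : Finset Pt, GenP S → ¬EHex S → (∃ X : ℕ → Pt, (∀ k, k < 9 → X k ∈ S) ∧ Cv 9 X) →
    ∃ (H : ℕ → Pt) (i : ℕ) (I : ℕ → Pt) (j : ℕ) (J : ℕ → Pt) (U : Finset Pt),
      Ctx S H i I j J U

/-- C2.  Sizes.  `i ≤ 8`: else `I_0, …, I_8` is a convex 9-gon, its inner points are inside `H`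
(`S_Sep`) and `I_0` is inside `H` but not inside this 9-gon: contradiction to `min`.  The same for
`j ≤ 8`.  `1 ≤ i`: else the hexagon `H_0, …, H_5` is empty: a point of `S` inside it is inside `H` by
`S_Sep`, `S_Poly`.  `6 ≤ j → U ≠ ∅`: else `J_0, …, J_5` is empty: a point `s` of `S` inside it is
inside `H`, so `s` is some `I_k`, or `J_k` (or in `U`); `I_k` is not inside by `S_Sep` for the edge
`I_k I_{k+1}` (all `J` strictly left, `I_k` on the line); the same for `J_k` and the edge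
`J_k J_{k+1}` (`S_Poly`). -/
def S_Size : Prop :=
  ∀ (S : Finset Pt) (H : ℕ → Pt) (i : ℕ) (I : ℕ → Pt) (j : ℕ) (J : ℕ → Pt) (U : Finset Pt),
    Ctx S H i I j J U → i ≤ 8 ∧ j ≤ 8 ∧ 1 ≤ i ∧ (6 ≤ j → U.Nonempty)

/-- C3.  Rotation of the labels of a context (`i, j` may be 0). -/
def S_CtxRot : Prop :=
  ∀ (S : Finset Pt) (H : ℕ → Pt) (i : ℕ) (I : ℕ → Pt) (j : ℕ) (J : ℕ → Pt) (U : Finset Pt)
    (a b c : ℕ), Ctx S H i I j J U → Ctx S (rot 9 a H) i (rot i b I) j (rot j c J) U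

/-- C4.  Inner point of a hexagon.  Proof.  `X` is not empty: `s ∈ S` inside `X`; the vertices of `X`
are on the left of or on all edges of `H` (`S_Poly` for the `H k`), so `s` is inside `H` (`S_Sep`). -/
def S_HexIn : Prop :=
  ∀ (S : Finset Pt) (H : ℕ → Pt) (i : ℕ) (I : ℕ → Pt) (j : ℕ) (J : ℕ → Pt) (U : Finset Pt),
    Ctx S H i I j J U → ∀ X : ℕ → Pt,
      (∀ k, k < 6 → (∃ a, a < 9 ∧ X k = H a) ∨ (∃ a, a < i ∧ X k = I a) ∨
        (∃ a, a < j ∧ X k = J a) ∨ X k ∈ U) → Cv 6 X →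
      (∃ k, k < i ∧ Ins 6 X (I k)) ∨ (∃ k, k < j ∧ Ins 6 X (J k)) ∨ ∃ s ∈ U, Ins 6 X s

/-- C5.  The model of modes 0, 2, 3, 6 (`hex` from `S_HexIn`; `min` from `Ctx.min`: if `x k ≥ 9` for
some `k` then the point `p (x k)` is inside `H`, not inside the 9-gon, and all points of `S` inside
the 9-gon are inside `H` by `S_Sep`, `S_Poly`). -/
def S_Mod : Prop :=
  ∀ (S : Finset Pt) (H : ℕ → Pt) (i : ℕ) (I : ℕ → Pt) (j : ℕ) (J E : ℕ → Pt) (U : Finset Pt)
    (mode : ℕ) (Hd : Finset Pt), Ctx S H i I j J U →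
    (3 ≤ i → 0 < D (I 0) (I 1) (H 8) ∧ 0 < D (I 1) (I 0) (H 0) ∧ 0 < D (I (i - 1)) (I 0) (H 1) ∧
      ∀ x, 1 ≤ x → x < j → 0 < D (I 0) (J 0) (J x)) →
    (mode = 0 ∧ U = ∅ ∧ Hd = ∅ ∨ mode = 2 ∧ E 0 ∈ U ∧ Hd = U ∨
      mode = 3 ∧ E 0 ∈ U ∧ E 1 ∈ U ∧ E 0 ≠ E 1 ∧ 0 < D (E 1) (E 0) (I 0) ∧
        (∀ w ∈ U, 0 ≤ D (E 0) (E 1) w) ∧ Hd = U ∨
      mode = 6 ∧ U = {E 0} ∧ Hd = ∅) →
    Model i j mode (lab H i I j J E) Hd

/-- C6.  The model of mode 5; `Hd` is the set of the points `J` and `U` (`Ctx.inI`). -/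
def S_Mod5 : Prop :=
  ∀ (S : Finset Pt) (H : ℕ → Pt) (i : ℕ) (I : ℕ → Pt) (j : ℕ) (J : ℕ → Pt) (U : Finset Pt),
    Ctx S H i I j J U → 3 ≤ i →
    (∀ k m, k < i → m < 9 → 0 < D (I k) (I ((k + 1) % i)) (H m) ∨
      0 < D (I ((k + 1) % i)) (I k) (H ((m + 8) % 9)) ∨
      0 < D (I k) (I ((k + i - 1) % i)) (H ((m + 1) % 9))) →
    ∃ Hd : Finset Pt, Model i 0 5 (lab H i I 0 J J) Hd

/-- The certificates (proved elsewhere). -/
structure Certs : Prop where
  c5 : ∀ i, 3 ≤ i → i ≤ 8 → ∀ (p : ℕ → Pt) (Hd : Finset Pt), ¬Model i 0 5 p Hd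
  c00 : ∀ i, 1 ≤ i → i ≤ 2 → ∀ p : ℕ → Pt, ¬Model i 0 0 p ∅
  c0 : ∀ i j, 3 ≤ i → i ≤ 8 → j ≤ 5 → ∀ p : ℕ → Pt, ¬Model i j 0 p ∅
  c2 : ∀ i j, 3 ≤ i → i ≤ 8 → 3 ≤ j → j ≤ 8 → ¬(i = 8 ∧ j = 8) →
    ∀ (p : ℕ → Pt) (Hd : Finset Pt), ¬Model i j 2 p Hd
  c3 : ∀ (p : ℕ → Pt) (Hd : Finset Pt), ¬Model 8 8 3 p Hd
  c6 : ∀ p : ℕ → Pt, ¬Model 8 8 6 p ∅

/-- C7.  Choice of the two points `u, v` of mode 3.  Proof.  `|U| ≥ 2`; `U` is strictly left of
`I_0 → I_1` (`Ctx.inI`).  `S_Tan` about `I 0`: `t ∈ U` with `0 < D (I 0) x t` for all `x ∈ U`,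
`x ≠ t`.  So all `x ∈ U`, `x ≠ t` are strictly left of the ray `t → I_0`; `S_Tan` about `t` for
`U \ {t}` (functional `D t (I 0)`): `v` with `0 < D t v x` for the other `x`.  `u := t`. -/
def S_UV : Prop :=
  ∀ (S : Finset Pt) (H : ℕ → Pt) (i : ℕ) (I : ℕ → Pt) (j : ℕ) (J : ℕ → Pt) (U : Finset Pt),
    Ctx S H i I j J U → 2 ≤ U.card → ∃ u ∈ U, ∃ v ∈ U, u ≠ v ∧ 0 < D v u (I 0) ∧
      ∀ w ∈ U, 0 ≤ D u v w

/-- C8.  Gerken's theorem from the certificates.  Proof.  Suppose `S` has no empty hexagon; `S_Ctx`,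
`S_Size`.  If `i ≤ 2`: `j = 0`, `U = ∅` by `Ctx.inI`, `Ctx.inJ`; mode 0, `c00`.  If `3 ≤ i`:
`S_Mod5` and `c5` give `k < i`, `m < 9` such that all three disjuncts fail, so (general position)
`0 < D (I (k+1)) (I k) (H m)`, `0 < D (I k) (I (k+1)) (H (m-1))`, `0 < D (I (k-1)) (I k) (H (m+1))`;
rotate `H` by `m` and `I` by `k` (`S_CtxRot`).  If `j ≥ 1` the tangent point `J r` with
`0 < D (I 0) (J r) (J x)` for the other `x` (`S_Tan`; all `J` are left of `I_0 → I_1`); rotate `J` by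
`r`.  Then: `U = ∅`: `j ≤ 5`, mode 0, `c0`.  `U ≠ ∅` (so `3 ≤ j`), `(i, j) ≠ (8, 8)`: mode 2, `c2`.
`i = j = 8`: `|U| = 1`: mode 6, `c6`; `|U| ≥ 2`: `S_UV`, mode 3, `c3`. -/
def S_Gerken : Prop :=
  Certs → ∀ S : Finset Pt, GenP S → (∃ X : ℕ → Pt, (∀ k, k < 9 → X k ∈ S) ∧ Cv 9 X) → EHex S

/-- E1.  Cups and caps: lexicographic order. -/
def lexlt (a b : Pt) : Prop := a.1 < b.1 ∨ (a.1 = b.1 ∧ a.2 < b.2)

/-- E2.  For lexicographically increasing `a, b, c, d` positive (negative) turns compose.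
Proof.  `u = b - a`, `v = c - b`, `w = d - c` are lexicographically positive and
`det(u,w) v = det(v,w) u + det(u,v) w`. -/
def S_LexTurn : Prop :=
  ∀ (a b c d : Pt), lexlt a b → lexlt b c → lexlt c d →
    (0 < D a b c → 0 < D b c d → 0 < D a b d ∧ 0 < D a c d) ∧
    (D a b c < 0 → D b c d < 0 → D a b d < 0 ∧ D a c d < 0)

/-- E3.  Erdős–Szekeres for the 9-gon, `3433 = C(14,7) + 1`.
Proof.  Cups–caps theorem: call `x_0, …, x_{r-1}` (lexicographically increasing) an `r`-cup (`r`-cap)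
if all consecutive triples have `D > 0` (`D < 0`).  A set of more than `C(k+l-4, k-2)` points in
general position contains a `k`-cup or an `l`-cap: induction on `k + l`; let `A` be the set of the
last points of `(k-1)`-cups; `S \ A` has no `(k-1)`-cup, so if it has more than `C(k+l-5, k-3)` points
it has an `l`-cap; otherwise `A` has more than `C(k+l-5, k-2)` points and contains a `k`-cup or an
`(l-1)`-cap; its first point `x_0` is the last point of a `(k-1)`-cup `…, y, x_0`, and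
`D y x_0 x_1` is positive (then cup extended) or negative (then cap extended by `y`).  For `k = l = 9`.
By `S_LexTurn` all ordered triples of a cup have `D > 0`, so it is `Cv 9`; a cap in reversed order is
`Cv 9`. -/
def S_ES : Prop :=
  ∀ S : Finset Pt, GenP S → 3433 ≤ S.card →
    ∃ X : ℕ → Pt, (∀ k, k < 9 → X k ∈ S) ∧ Cv 9 X

end Pool.BK5
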